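import Pool.Agent.Lib.MP_ae5b4e_an_NB1B.StepK
import Pool.Agent.Lib.MP_ae5b4e_an_NBT.CliA

/-!
# MP_ae5b4e_an, NB_1 section 3: an analytic relation implies infinite height
-/

noncomputable section

namespace Pool.Agent.MP_ae5b4e_an_NB1B

open Complex Set Filter Topology Metric
open Pool.Agent.MP_ae5b4e_an_NBT
open Pool.Agent.MP_ae5b4e_an_NB1 (ARel)

/-- heights are even in `ρ` -/
theorem extM_even {f : ℂ × ℂ → ℂ} {a R y : ℝ} {ρ : ℂ}
    (heven : ∀ p ∈ St (-a) a ×ˢ ball (0:ℂ) R, f (p.1, -p.2) = f p)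
    (h : ExtM f a R y ρ) : ExtM f a R y (-ρ) := by
  obtain ⟨δ, hδ, hb, G, hG, hE⟩ := h
  have hneg : ∀ {x : ℂ}, x ∈ ball (-ρ) δ → -x ∈ ball ρ δ := by
    intro x hx
    rw [mem_ball, dist_eq_norm] at hx ⊢
    rw [← norm_neg]
    rwa [show -(-x - ρ) = x - -ρ by ring]
  have hb' : ball (-ρ) δ ⊆ ball (0:ℂ) R := by
    intro x hx
    have := hb (hneg hx)
    rwa [mem_ball_zero_iff, norm_neg, ← mem_ball_zero_iff] at this
  let e : (ℂ × ℂ) ≃ₜ (ℂ × ℂ) := (Homeomorph.refl ℂ).prodCongr (Homeomorph.neg ℂ)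
  have he : ∀ p : ℂ × ℂ, e p = (p.1, -p.2) := fun p => rfl
  have hea : ∀ p : ℂ × ℂ, AnalyticAt ℂ e p := by
    intro p
    have h1 : AnalyticAt ℂ (fun p : ℂ × ℂ => (p.1, -p.2)) p :=
      analyticAt_fst.prod analyticAt_snd.neg
    exact h1
  refine ⟨δ, hδ, hb', fun p => G (p.1, -p.2), fun p hp => ?_, fun p hp => ?_⟩
  · exact MerAt.comp e (hea p) (hG (p.1, -p.2) ⟨hp.1, hneg hp.2⟩)
  · have h1 := EqM.comp e (hea p) (hE (p.1, -p.2) ⟨hp.1, hneg hp.2⟩)
    refine h1.trans (EqM.of_eventuallyEq ?_)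
    have hp' : p ∈ St (-a) a ×ˢ ball (0:ℂ) R :=
      ⟨⟨hp.1.1, hp.1.2.trans_le (min_le_left _ _)⟩, hb' hp.2⟩
    have ho : IsOpen (St (-a) a ×ˢ ball (0:ℂ) R) := (isOpen_St _ _).prod isOpen_ball
    filter_upwards [ho.mem_nhds hp'] with q hq
    exact heven q hq

variable {k β : ℂ → ℂ} {F : ℂ × ℂ → ℂ} {c a R : ℝ} {m K : ℕ} {Φ : ℕ → ℂ × ℂ → ℂ}

private theorem R_lt (h : BP k F c m K Φ β a R) : R < c / 4 := by
  have h1 := h.R_le
  have h2 := h.a_le
  have h3 := h.R_pos
  have h4 := h.a_pos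
  have h5 : (2:ℝ) ≤ m := by exact_mod_cast h.m_ge
  nlinarith

private theorem merF (h : BP k F c m K Φ β a R) : Mer F (St (-c) c ×ˢ ball 0 (c / 4)) := by
  intro p hp
  exact merAt_of_analyticAt (h.an p ⟨hp.1, ball_subset_ball (by linarith [h.pos]) hp.2⟩)

private theorem merK (h : BP k F c m K Φ β a R) :
    Mer (KF F) (St (-(c / 2)) (c / 2) ×ˢ ball 0 (c / 4)) :=
  mer_KF (by linarith [h.pos]) (merF h)

private theorem evenK (h : BP k F c m K Φ β a R) :
    ∀ p ∈ St (-(c / 2)) (c / 2) ×ˢ ball (0:ℂ) (c / 4), KF F (p.1, -p.2) = KF F p := by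
  rintro ⟨t, z⟩ ⟨⟨ht1, ht2⟩, hz⟩
  have hc := h.pos
  have hz1 : z ∈ ball (0:ℂ) c := ball_subset_ball (by linarith) hz
  have hz2 : |z.im| < c / 4 := (abs_im_le_norm z).trans_lt (mem_ball_zero_iff.1 hz)
  have hz3 := abs_lt.1 hz2
  have ht1' : -(c / 2) < t.im := ht1
  have ht2' : t.im < c / 2 := ht2
  have e1 : F (t, -z) = F (t, z) := h.even (t, z) ⟨⟨by show -c < t.im; linarith,
    by show t.im < c; linarith⟩, hz1⟩
  have e2 : F (t + z, -z) = F (t + z, z) := h.even (t + z, z) ⟨⟨by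
    show -c < (t + z).im
    rw [add_im]
    linarith, by
    show (t + z).im < c
    rw [add_im]
    linarith⟩, hz1⟩
  have e3 : F (t - z, -z) = F (t - z, z) := h.even (t - z, z) ⟨⟨by
    show -c < (t - z).im
    rw [sub_im]
    linarith, by
    show (t - z).im < c
    rw [sub_im]
    linarith⟩, hz1⟩
  show (F (t + -z, -z) - F (t, -z))⁻¹ + (F (t - -z, -z) - F (t, -z))⁻¹ =
    (F (t + z, z) - F (t, z))⁻¹ + (F (t - z, z) - F (t, z))⁻¹
  rw [show t + -z = t - z by ring, show t - -z = t + z by ring, e1, e2, e3, add_comm]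

/-- infinite height for the parameters which are not real -/
theorem height_nonreal (h : BP k F c m K Φ β a R) {ρ : ℂ} (hρ : ρ ∈ ball (0:ℂ) R)
    (him : ρ.im ≠ 0) (y : ℝ) : ExtM (KF F) (c / 2) (c / 4) y ρ := by
  have key : ∀ ρ ∈ ball (0:ℂ) R, ρ.im < 0 → ExtM (KF F) (c / 2) (c / 4) y ρ := by
    intro ρ hρ him
    have h1 : ∀ n : ℕ, ExtM (KF F) (c / 2) (c / 4) (c / 2 + n * (-ρ.im / 4)) ρ := by
      intro n
      induction n with
      | zero =>
        refine (extM_base (merK h) (ball_subset_ball (R_lt h).le hρ)).mono ?_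
        simp
      | succ n ih =>
        have h2 : (0:ℝ) ≤ n * (-ρ.im / 4) := mul_nonneg (Nat.cast_nonneg n) (by linarith)
        refine (step_K h hρ him (by linarith) ih).mono ?_
        push_cast
        linarith
    obtain ⟨n, hn⟩ := exists_nat_gt ((y - c / 2) / (-ρ.im / 4))
    rw [div_lt_iff₀ (by linarith)] at hn
    exact (h1 n).mono (by linarith)
  rcases lt_or_gt_of_ne him with h1 | h1
  · exact key ρ hρ h1
  · have h2 := extM_even (evenK h) (key (-ρ) (by
      rwa [mem_ball_zero_iff, norm_neg, ← mem_ball_zero_iff]) (by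
      rw [neg_im]
      linarith))
    rwa [neg_neg] at h2

/-- infinite height at `ρ = 0` -/
theorem height_zero (h : BP k F c m K Φ β a R) (y : ℝ) : ExtM F c (c / 4) y 0 := by
  have hc := h.pos
  have hR0 := h.R_pos
  have hRc := R_lt h
  obtain ⟨Y, hY1, hY2⟩ : ∃ Y, c / 2 < Y ∧ y + 1 < Y :=
    ⟨max (c / 2) (y + 1) + 1, (le_max_left _ _).trans_lt (lt_add_one _),
      (le_max_right _ _).trans_lt (lt_add_one _)⟩
  have hH := supH_hgt (f := KF F) (a := c / 2) (R := c / 4) (Y := Y) (by linarith) (merK h) hY1.le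
  obtain ⟨s, hs⟩ : ∃ s, s = R / 2 := ⟨_, rfl⟩
  have hs0 : 0 < s := by rw [hs]; exact half_pos hR0
  have hsr : closedBall (0:ℂ) s ⊆ ball 0 R := closedBall_subset_ball (by rw [hs]; linarith)
  have hRR : ball (0:ℂ) R ⊆ ball 0 (c / 4) := ball_subset_ball hRc.le
  have hle : ∀ e : ℝ, 0 < e → Real.circleAverage
      (fun z : ℂ => min Y (c / 2 + (Y - c / 2) * |z.im| / e)) 0 s ≤
        hgt (KF F) (c / 2) (c / 4) Y 0 := by
    intro e he
    refine hH.mean 0 s hs0 (hsr.trans hRR) _ (by fun_prop) ?_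
    intro z hz
    have hz1 := hsr (sphere_subset_closedBall hz)
    by_cases hzi : z.im = 0
    · rw [hzi]
      simp only [abs_zero, mul_zero, zero_div, add_zero]
      rw [min_eq_right hY1.le]
      exact le_hgt (merK h) hY1.le (hRR hz1)
    · exact (min_le_left _ _).trans (le_hgt_of_extM (height_nonreal h hz1 hzi Y) le_rfl)
  -- the averages tend to `Y`
  have hlim : Tendsto (fun n : ℕ => Real.circleAverage
      (fun z : ℂ => min Y (c / 2 + (Y - c / 2) * |z.im| / (1 / ((n : ℝ) + 1)))) 0 s) atTop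
        (𝓝 Y) := by
    have e1 : ∀ n : ℕ, Real.circleAverage
        (fun z : ℂ => min Y (c / 2 + (Y - c / 2) * |z.im| / (1 / ((n : ℝ) + 1)))) 0 s =
        (2 * Real.pi)⁻¹ * ∫ θ in (0 : ℝ)..2 * Real.pi,
          min Y (c / 2 + (Y - c / 2) * |s * Real.sin θ| * ((n : ℝ) + 1)) := by
      intro n
      rw [Real.circleAverage_def, smul_eq_mul]
      congr 1
      refine intervalIntegral.integral_congr fun θ _ => ?_
      have e2 : (circleMap 0 s θ).im = s * Real.sin θ := by
        rw [circleMap, zero_add, Complex.exp_mul_I]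
        simp [← Complex.ofReal_cos, ← Complex.ofReal_sin]
      simp only [e2]
      rw [div_div_eq_mul_div, div_one]
    have e3 : Y = (2 * Real.pi)⁻¹ * ∫ θ in (0 : ℝ)..2 * Real.pi, Y := by
      rw [intervalIntegral.integral_const, smul_eq_mul, sub_zero]
      have : (2 * Real.pi) ≠ 0 := by positivity
      field_simp
    simp only [e1]
    conv_rhs => rw [e3]
    refine Tendsto.const_mul _ ?_
    refine intervalIntegral.tendsto_integral_filter_of_dominated_convergence
      (fun _ => |Y| + |c / 2|) ?_ ?_ ?_ ?_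
    · refine Eventually.of_forall fun n => ?_
      refine Continuous.aestronglyMeasurable ?_
      fun_prop
    · refine Eventually.of_forall fun n => Eventually.of_forall fun θ _ => ?_
      have hx : 0 ≤ (Y - c / 2) * |s * Real.sin θ| * ((n : ℝ) + 1) := by
        have : 0 ≤ Y - c / 2 := by linarith
        positivity
      rw [Real.norm_eq_abs, abs_le]
      have hya0 := neg_abs_le (c / 2)
      have hyy := le_abs_self Y
      have hyy' := neg_abs_le Y
      have ha' := abs_nonneg (c / 2)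
      have hy'' := abs_nonneg Y
      constructor
      · refine le_min (by linarith) (by linarith)
      · exact (min_le_left _ _).trans (by linarith)
    · exact intervalIntegrable_const
    · have hcount : ({θ : ℝ | Real.sin θ = 0}).Countable := by
        have : {θ : ℝ | Real.sin θ = 0} ⊆ range fun n : ℤ => (n : ℝ) * Real.pi := by
          intro θ hθ
          obtain ⟨n, hn⟩ := Real.sin_eq_zero_iff.1 hθ
          exact ⟨n, hn⟩
        exact (countable_range _).mono this
      have hae : ∀ᵐ θ : ℝ, θ ∉ {θ : ℝ | Real.sin θ = 0} :=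
        MeasureTheory.measure_eq_zero_iff_ae_notMem.1 (hcount.measure_zero _)
      filter_upwards [hae] with θ hθ _
      have hθ' : Real.sin θ ≠ 0 := hθ
      have hpos : 0 < (Y - c / 2) * |s * Real.sin θ| := by
        refine mul_pos (by linarith) (abs_pos.2 (mul_ne_zero hs0.ne' hθ'))
      refine tendsto_const_nhds.congr' ?_
      obtain ⟨N, hN⟩ := exists_nat_gt ((Y - c / 2) / ((Y - c / 2) * |s * Real.sin θ|))
      filter_upwards [eventually_ge_atTop N] with n hn
      rw [min_eq_left]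
      rw [div_lt_iff₀ hpos] at hN
      have h6 : (N : ℝ) ≤ n := by exact_mod_cast hn
      nlinarith
  obtain ⟨n, hn⟩ := (hlim.eventually (lt_mem_nhds hY2)).exists
  have h7 := hle (1 / ((n : ℝ) + 1)) (by positivity)
  have h8 : ExtM (KF F) (c / 2) (c / 4) (y + 1) 0 :=
    extM_of_lt (mem_ball_self (by linarith)) (hn.trans_le h7)
  exact extM_of_KF_real hc le_rfl (merF h) (by simp) h8 (by linarith)

/-- **Case II** -/
theorem caseII {k : ℂ → ℂ} {F : ℂ × ℂ → ℂ} {c : ℝ} (hC : Con k F c) {t : ℝ} {M : ℕ}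
    (h : ARel M (fun j p => F (p.1 + j * p.2, p.2)) ((t : ℂ), 0)) (y : ℝ) :
    ExtM F c (c / 4) y 0 := by
  obtain ⟨m, K, Φ, β, a, R, hB⟩ := exists_bp hC h
  exact height_zero hB y

end Pool.Agent.MP_ae5b4e_an_NB1B
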