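import Pool.Agent.Lib.MP_ae5b4e_an_NBT.ConD

/-!
# MP_ae5b4e_an, NB_1 section 3: the label near the real line
-/

noncomputable section

namespace Pool.Agent.MP_ae5b4e_an_NB1B

open Complex Set Filter Topology Metric
open Pool.Agent.MP_ae5b4e_an_NBT

/-- the label near the real line -/
structure LabR (F : ℂ × ℂ → ℂ) (c ε : ℝ) (L : ℂ × ℂ → ℂ) : Prop where
  ε_pos : 0 < ε
  ε_le : ε ≤ c / 4
  an : AnalyticOnNhd ℂ L (St (-ε) ε ×ˢ ball 0 ε)
  maps : ∀ p ∈ St (-ε) ε ×ˢ ball (0:ℂ) ε, L p ∈ St (-c) c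
  eq : ∀ p ∈ St (-ε) ε ×ˢ ball (0:ℂ) ε, F (L p, 0) = F p
  zero : ∀ t ∈ St (-ε) ε, L (t, 0) = t
  per : ∀ p ∈ St (-ε) ε ×ˢ ball (0:ℂ) ε, L (p.1 + 1, p.2) = L p + 1
  even : ∀ p ∈ St (-ε) ε ×ˢ ball (0:ℂ) ε, L (p.1, -p.2) = L p

private lemma le_int {c : ℝ} {Q : ℂ × ℂ → Prop}
    (hper : ∀ p : ℂ × ℂ, |p.1.im| < c → ‖p.2‖ < c → (Q p ↔ Q (p.1 + 1, p.2))) (n : ℤ) :
    ∀ p : ℂ × ℂ, |p.1.im| < c → ‖p.2‖ < c → (Q p ↔ Q (p.1 + n, p.2)) := by
  induction n using Int.induction_on with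
  | zero =>
    intro p _ _
    simp
  | succ n ih =>
    intro p h1 h2
    rw [ih p h1 h2, hper (p.1 + ((n : ℤ) : ℂ), p.2) (by simpa using h1) h2]
    have h3 : p.1 + ((n : ℤ) : ℂ) + 1 = p.1 + ((n + 1 : ℤ) : ℂ) := by
      push_cast
      ring
    show Q (p.1 + ((n : ℤ) : ℂ) + 1, p.2) ↔ _
    rw [h3]
  | pred n ih =>
    intro p h1 h2
    rw [ih p h1 h2, hper (p.1 + ((-n - 1 : ℤ) : ℂ), p.2) (by simpa using h1) h2]
    have h3 : p.1 + ((-n - 1 : ℤ) : ℂ) + 1 = p.1 + ((-n : ℤ) : ℂ) := by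
      push_cast
      ring
    show _ ↔ Q (p.1 + ((-n - 1 : ℤ) : ℂ) + 1, p.2)
    rw [h3]

private lemma le_cpt {c : ℝ} (hc : 0 < c) {Q : ℂ × ℂ → Prop}
    (hQ : ∀ x : ℝ, ∀ᶠ p in 𝓝 ((x : ℂ), (0 : ℂ)), Q p)
    (hper : ∀ p : ℂ × ℂ, |p.1.im| < c → ‖p.2‖ < c → (Q p ↔ Q (p.1 + 1, p.2))) :
    ∃ r, 0 < r ∧ r ≤ c ∧ ∀ p : ℂ × ℂ, |p.1.im| < r → ‖p.2‖ < r → Q p := by
  have hK : IsCompact ((fun x : ℝ => ((x : ℂ), (0 : ℂ))) '' Icc 0 1) :=
    isCompact_Icc.image (by fun_prop)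
  have hU : IsOpen {p : ℂ × ℂ | ∀ᶠ q in 𝓝 p, Q q} := isOpen_setOfPred_eventually_nhds
  have hKU : ((fun x : ℝ => ((x : ℂ), (0 : ℂ))) '' Icc 0 1) ⊆ {p : ℂ × ℂ | ∀ᶠ q in 𝓝 p, Q q} := by
    rintro _ ⟨x, -, rfl⟩
    exact hQ x
  obtain ⟨δ, hδ, hδU⟩ := hK.exists_thickening_subset_open hU hKU
  refine ⟨min δ c, lt_min hδ hc, min_le_right _ _, fun p h1 h2 => ?_⟩
  have h1c := h1.trans_le (min_le_right δ c)
  have h2c := h2.trans_le (min_le_right δ c)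
  have h1d := h1.trans_le (min_le_left δ c)
  have h2d := h2.trans_le (min_le_left δ c)
  rw [le_int hper (-⌊p.1.re⌋) p h1c h2c]
  have h3 : (p.1 + ((-⌊p.1.re⌋ : ℤ) : ℂ), p.2) ∈
      thickening δ ((fun x : ℝ => ((x : ℂ), (0 : ℂ))) '' Icc 0 1) := by
    rw [mem_thickening_iff]
    refine ⟨_, ⟨Int.fract p.1.re, ⟨Int.fract_nonneg _, (Int.fract_lt_one _).le⟩, rfl⟩, ?_⟩
    rw [Prod.dist_eq]
    refine max_lt ?_ ?_
    · show dist (p.1 + ((-⌊p.1.re⌋ : ℤ) : ℂ)) ((Int.fract p.1.re : ℝ) : ℂ) < δ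
      have h4 : p.1 + ((-⌊p.1.re⌋ : ℤ) : ℂ) - ((Int.fract p.1.re : ℝ) : ℂ) = (p.1.im : ℂ) * I := by
        have h5 : ((Int.fract p.1.re : ℝ) : ℂ) = (p.1.re : ℂ) - (⌊p.1.re⌋ : ℂ) := by
          unfold Int.fract
          push_cast
          ring
        rw [h5]
        push_cast
        nth_rewrite 1 [← re_add_im p.1]
        ring
      rw [dist_eq_norm, h4, norm_mul, norm_I, mul_one, norm_real, Real.norm_eq_abs]
      exact h1d
    · show dist p.2 0 < δ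
      rw [dist_zero_right]
      exact h2d
  have h4 : ∀ᶠ q in 𝓝 (p.1 + ((-⌊p.1.re⌋ : ℤ) : ℂ), p.2), Q q := hδU h3
  exact h4.self_of_nhds

private lemma le_loc {f : ℂ → ℂ} {w : ℂ} (hM : AnalyticAt ℂ f w) (h : deriv f w ≠ 0) :
    ∃ g : ℂ → ℂ, AnalyticAt ℂ g (f w) ∧ g (f w) = w ∧
      (∀ᶠ z in 𝓝 (f w), f (g z) = z) ∧ ∀ᶠ z in 𝓝 w, g (f z) = z := by
  have ha := hM.analyticAt_localInverse h
  have hl : ∀ᶠ z in 𝓝 w, hM.hasStrictDerivAt.localInverse _ _ _ h (f z) = z :=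
    hM.hasStrictDerivAt.eventually_left_inverse h
  have hr := hM.hasStrictDerivAt.eventually_right_inverse h
  exact ⟨hM.hasStrictDerivAt.localInverse _ _ _ h, ha, hl.self_of_nhds, hr, hl⟩

private lemma le_slice {F : ℂ × ℂ → ℂ} {t ρ : ℂ} (h : AnalyticAt ℂ F (t, ρ)) :
    AnalyticAt ℂ (fun s => F (s, ρ)) t := by
  have h1 : AnalyticAt ℂ (fun s : ℂ => (s, ρ)) t := analyticAt_id.prod analyticAt_const
  exact AnalyticAt.fun_comp (g := F) (f := fun s : ℂ => (s, ρ)) h h1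

theorem exists_labR {k : ℂ → ℂ} {F : ℂ × ℂ → ℂ} {c : ℝ} (hC : Con k F c) :
    ∃ (ε : ℝ) (L : ℂ × ℂ → ℂ), LabR F c ε L := by
  classical
  have hc := hC.pos
  have hmem0 : ∀ t : ℂ, |t.im| < c → (t, (0:ℂ)) ∈ St (-c) c ×ˢ ball (0:ℂ) c := fun t ht =>
    ⟨abs_lt.1 ht, mem_ball_self hc⟩
  have hgan : ∀ t : ℂ, |t.im| < c → AnalyticAt ℂ (fun s => F (s, 0)) t := fun t ht =>
    le_slice (hC.an (t, 0) (hmem0 t ht))
  have hgd : ∀ t : ℂ, |t.im| < c → deriv (fun s => F (s, 0)) t ≠ 0 := fun t ht =>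
    hC.dt (t, 0) (hmem0 t ht)
  have hper0 : ∀ t : ℂ, |t.im| < c → F (t + 1, 0) = F (t, 0) := fun t ht =>
    hC.per (t, 0) (hmem0 t ht)
  -- uniqueness
  obtain ⟨r₁, hr₁, hr₁c, hU⟩ := le_cpt (c := c / 2) (by linarith)
    (Q := fun p => F (p.1 + p.2, 0) = F (p.1, 0) → p.2 = 0) (by
      intro x
      obtain ⟨g, hg1, hg2, hg3, hg4⟩ := le_loc (hgan x (by simpa using hc)) (hgd x (by simpa using hc))
      have h1 : Tendsto (fun p : ℂ × ℂ => p.1) (𝓝 ((x : ℂ), (0 : ℂ))) (𝓝 (x : ℂ)) :=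
        continuous_fst.tendsto _
      have h2 : Tendsto (fun p : ℂ × ℂ => p.1 + p.2) (𝓝 ((x : ℂ), (0 : ℂ))) (𝓝 (x : ℂ)) := by
        have h3 : Continuous fun p : ℂ × ℂ => p.1 + p.2 := by fun_prop
        have h4 := h3.tendsto ((x : ℂ), (0 : ℂ))
        simpa using h4
      filter_upwards [h1.eventually hg4, h2.eventually hg4] with p hp1 hp2 hp3
      rw [hp3, hp1] at hp2
      exact (left_eq_add.1 hp2)) (by
      intro p h1 h2
      have h3 := abs_lt.1 h1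
      have h4 := abs_lt.1 (lt_of_le_of_lt (abs_im_le_norm p.2) h2)
      have h5 : F (p.1 + 1 + p.2, 0) = F (p.1 + p.2, 0) := by
        have h6 := hper0 (p.1 + p.2) (by rw [add_im]; exact abs_lt.2 ⟨by linarith, by linarith⟩)
        rw [← h6]
        congr 2
        ring
      have h6 : F (p.1 + 1, 0) = F (p.1, 0) := hper0 p.1 (by linarith)
      show (F (p.1 + p.2, 0) = F (p.1, 0) → p.2 = 0) ↔ (F (p.1 + 1 + p.2, 0) = F (p.1 + 1, 0) → p.2 = 0)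
      rw [h5, h6])
  obtain ⟨η, hη⟩ : ∃ η, η = r₁ / 4 := ⟨_, rfl⟩
  have hη0 : 0 < η := by linarith
  -- existence
  obtain ⟨r₂, hr₂, hr₂c, hX⟩ := le_cpt (c := c / 4) (by linarith)
    (Q := fun p => ∃ l, dist l p.1 < η ∧ F (l, 0) = F p) (by
      intro x
      obtain ⟨g, hg1, hg2, hg3, hg4⟩ := le_loc (hgan x (by simpa using hc)) (hgd x (by simpa using hc))
      have h1 : ContinuousAt F ((x : ℂ), (0 : ℂ)) :=
        (hC.an _ (hmem0 x (by simpa using hc))).continuousAt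
      have h2 : ContinuousAt (fun p : ℂ × ℂ => g (F p)) ((x : ℂ), (0 : ℂ)) :=
        ContinuousAt.comp (g := g) (f := F) hg1.continuousAt h1
      have h3 : ContinuousAt (fun p : ℂ × ℂ => dist (g (F p)) p.1) ((x : ℂ), (0 : ℂ)) :=
        h2.dist continuousAt_fst
      have h4 : dist (g (F ((x : ℂ), (0 : ℂ)))) ((x : ℂ), (0 : ℂ)).1 < η := by
        show dist (g (F ((x : ℂ), (0 : ℂ)))) (x : ℂ) < η
        rw [hg2, dist_self]
        exact hη0
      filter_upwards [h3.eventually (gt_mem_nhds h4), h1.eventually hg3] with p hp1 hp2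
      exact ⟨g (F p), hp1, hp2⟩) (by
      intro p h1 h2
      have h3 : F (p.1 + 1, p.2) = F p :=
        hC.per p ⟨abs_lt.1 (by linarith), mem_ball_zero_iff.2 (by linarith)⟩
      show (∃ l, dist l p.1 < η ∧ F (l, 0) = F p) ↔
        ∃ l, dist l (p.1 + 1) < η ∧ F (l, 0) = F (p.1 + 1, p.2)
      rw [h3]
      have hdim : ∀ l : ℂ, dist l p.1 < η → |l.im| < c := by
        intro l hl
        have h5 := abs_im_le_norm (l - p.1)
        rw [← dist_eq_norm, sub_im] at h5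
        have h6 := abs_lt.1 (lt_of_le_of_lt h5 hl)
        have h7 := abs_lt.1 h1
        exact abs_lt.2 ⟨by linarith, by linarith⟩
      constructor
      · rintro ⟨l, hl1, hl2⟩
        refine ⟨l + 1, by rw [dist_add_right]; exact hl1, ?_⟩
        rw [hper0 l (hdim l hl1)]
        exact hl2
      · rintro ⟨l, hl1, hl2⟩
        have h8 : dist (l - 1) p.1 < η := by
          rw [dist_eq_norm] at hl1 ⊢
          have h9 : l - 1 - p.1 = l - (p.1 + 1) := by ring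
          rw [h9]
          exact hl1
        refine ⟨l - 1, h8, ?_⟩
        have h9 := hper0 (l - 1) (hdim _ h8)
        rw [sub_add_cancel] at h9
        rw [← h9]
        exact hl2)
  obtain ⟨a, ha⟩ : ∃ a, a = min r₂ (r₁ / 4) := ⟨_, rfl⟩
  have ha0 : 0 < a := by
    rw [ha]
    exact lt_min hr₂ (by linarith)
  have har₂ : a ≤ r₂ := by
    rw [ha]
    exact min_le_left _ _
  have har₁ : a ≤ r₁ / 4 := by
    rw [ha]
    exact min_le_right _ _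
  have huniq : ∀ t l l' : ℂ, |t.im| < a → dist l t < η → dist l' t < η → F (l, 0) = F (l', 0) →
      l = l' := by
    intro t l l' ht hl hl' hll
    have h1 : |l.im| < r₁ := by
      have h5 := abs_im_le_norm (l - t)
      rw [← dist_eq_norm, sub_im] at h5
      have h6 := abs_lt.1 (lt_of_le_of_lt h5 hl)
      have h7 := abs_lt.1 ht
      exact abs_lt.2 ⟨by linarith, by linarith⟩
    have h2 : ‖l' - l‖ < r₁ := by
      rw [← dist_eq_norm]
      have h3 := dist_triangle_right l' l t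
      linarith
    have h3 := hU (l, l' - l) h1 h2 (by
      show F (l + (l' - l), 0) = F (l, 0)
      rw [add_sub_cancel]
      exact hll.symm)
    exact (sub_eq_zero.1 h3).symm
  let L : ℂ × ℂ → ℂ := fun p =>
    if hp : ∃ l, dist l p.1 < η ∧ F (l, 0) = F p then hp.choose else 0
  have hL : ∀ p : ℂ × ℂ, |p.1.im| < a → ‖p.2‖ < r₂ → dist (L p) p.1 < η ∧ F (L p, 0) = F p := by
    intro p h1 h2
    have h3 := hX p (lt_of_lt_of_le h1 har₂) h2
    show dist (if hp : ∃ l, dist l p.1 < η ∧ F (l, 0) = F p then hp.choose else 0) p.1 < η ∧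
      F (if hp : ∃ l, dist l p.1 < η ∧ F (l, 0) = F p then hp.choose else 0, 0) = F p
    rw [dif_pos h3]
    exact h3.choose_spec
  have hLu : ∀ p : ℂ × ℂ, |p.1.im| < a → ‖p.2‖ < r₂ → ∀ l, dist l p.1 < η → F (l, 0) = F p →
      L p = l := by
    intro p h1 h2 l h3 h4
    exact huniq p.1 _ _ h1 (hL p h1 h2).1 h3 ((hL p h1 h2).2.trans h4.symm)
  have hLim : ∀ p : ℂ × ℂ, |p.1.im| < a → ‖p.2‖ < r₂ → |(L p).im| < c := by
    intro p h1 h2
    have h5 := abs_im_le_norm (L p - p.1)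
    rw [← dist_eq_norm, sub_im] at h5
    have h6 := abs_lt.1 (lt_of_le_of_lt h5 (hL p h1 h2).1)
    have h7 := abs_lt.1 h1
    exact abs_lt.2 ⟨by linarith, by linarith⟩
  have hopen : ∀ p : ℂ × ℂ, |p.1.im| < a → ‖p.2‖ < r₂ →
      ∀ᶠ q : ℂ × ℂ in 𝓝 p, |q.1.im| < a ∧ ‖q.2‖ < r₂ := by
    intro p h1 h2
    have h4 : ContinuousAt (fun q : ℂ × ℂ => |q.1.im|) p := by fun_prop
    have h5 : ContinuousAt (fun q : ℂ × ℂ => ‖q.2‖) p := by fun_prop
    exact (h4.eventually (gt_mem_nhds h1)).and (h5.eventually (gt_mem_nhds h2))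
  have hFan : ∀ p : ℂ × ℂ, |p.1.im| < a → ‖p.2‖ < r₂ → AnalyticAt ℂ F p := by
    intro p h1 h2
    exact hC.an p ⟨abs_lt.1 (by linarith), mem_ball_zero_iff.2 (by linarith)⟩
  have hLan : ∀ p : ℂ × ℂ, |p.1.im| < a → ‖p.2‖ < r₂ → AnalyticAt ℂ L p := by
    intro p h1 h2
    obtain ⟨h3, h4⟩ := hL p h1 h2
    have h5 := hLim p h1 h2
    obtain ⟨g, hg1, hg2, hg3, hg4⟩ := le_loc (hgan (L p) h5) (hgd (L p) h5)
    have hg1' : AnalyticAt ℂ g (F p) := by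
      rw [← h4]
      exact hg1
    have h6 : AnalyticAt ℂ (fun q => g (F q)) p :=
      AnalyticAt.fun_comp (g := g) (f := F) hg1' (hFan p h1 h2)
    refine h6.congr ?_
    have h7 : ContinuousAt (fun q : ℂ × ℂ => dist (g (F q)) q.1) p :=
      h6.continuousAt.dist continuousAt_fst
    have h8 : dist (g (F p)) p.1 < η := by
      rw [← h4]
      show dist (g ((fun s => F (s, 0)) (L p))) p.1 < η
      rw [hg2]
      exact h3
    have hg3' : ∀ᶠ z in 𝓝 (F p), F (g z, 0) = z := by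
      rw [← h4]
      exact hg3
    filter_upwards [hopen p h1 h2, h7.eventually (gt_mem_nhds h8),
      (hFan p h1 h2).continuousAt.eventually hg3'] with q hq1 hq2 hq3
    exact (hLu q hq1.1 hq1.2 _ hq2 hq3).symm
  obtain ⟨ε, hε⟩ : ∃ ε, ε = min a r₂ := ⟨_, rfl⟩
  have hε0 : 0 < ε := by
    rw [hε]
    exact lt_min ha0 hr₂
  have hεa : ε ≤ a := by
    rw [hε]
    exact min_le_left _ _
  have hεr : ε ≤ r₂ := by
    rw [hε]
    exact min_le_right _ _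
  have hm : ∀ p ∈ St (-ε) ε ×ˢ ball (0:ℂ) ε, |p.1.im| < a ∧ ‖p.2‖ < r₂ := by
    rintro p ⟨hp1, hp2⟩
    have h1 : |p.1.im| < ε := abs_lt.2 hp1
    have h2 : ‖p.2‖ < ε := mem_ball_zero_iff.1 hp2
    exact ⟨by linarith, by linarith⟩
  have hmc : ∀ p : ℂ × ℂ, |p.1.im| < a → ‖p.2‖ < r₂ → p ∈ St (-c) c ×ˢ ball (0:ℂ) c :=
    fun p h1 h2 => ⟨abs_lt.1 (by linarith), mem_ball_zero_iff.2 (by linarith)⟩
  refine ⟨ε, L, hε0, by linarith, ?_, ?_, ?_, ?_, ?_, ?_⟩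
  · intro p hp
    obtain ⟨h1, h2⟩ := hm p hp
    exact hLan p h1 h2
  · intro p hp
    obtain ⟨h1, h2⟩ := hm p hp
    exact abs_lt.1 (hLim p h1 h2)
  · intro p hp
    obtain ⟨h1, h2⟩ := hm p hp
    exact (hL p h1 h2).2
  · intro t ht
    have h1 : |t.im| < ε := abs_lt.2 ht
    exact hLu (t, 0) (by show |t.im| < a; linarith) (by simpa using hr₂) t
      (by simpa using hη0) rfl
  · intro p hp
    obtain ⟨h1, h2⟩ := hm p hp
    obtain ⟨h3, h4⟩ := hL p h1 h2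
    refine hLu (p.1 + 1, p.2) (by simpa using h1) h2 _ ?_ ?_
    · show dist (L p + 1) (p.1 + 1) < η
      rw [dist_add_right]
      exact h3
    · rw [hper0 _ (hLim p h1 h2), h4]
      exact (hC.per p (hmc p h1 h2)).symm
  · intro p hp
    obtain ⟨h1, h2⟩ := hm p hp
    obtain ⟨h3, h4⟩ := hL p h1 h2
    refine hLu (p.1, -p.2) h1 (by simpa using h2) _ h3 ?_
    rw [h4]
    exact (hC.even p (hmc p h1 h2)).symm

end Pool.Agent.MP_ae5b4e_an_NB1B
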