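import Pool.Agent.Lib.MP_ae5b4e_an_NBT.Slice

/-!
# MP_ae5b4e_an, NB_1 section 3: the derivative of meromorphic functions in the second variable
-/

noncomputable section

namespace Pool.Agent.MP_ae5b4e_an_NB1B

open Complex Set Filter Topology Metric
open Pool.Agent.MP_ae5b4e_an_NBT

/-- the partial derivative in `ρ` -/
def drM (f : ℂ × ℂ → ℂ) (q : ℂ × ℂ) : ℂ := deriv (fun r => nfM f (q.1, r)) q.2

/-- the Jacobian of meromorphic functions -/
def JM (f g : ℂ × ℂ → ℂ) (q : ℂ × ℂ) : ℂ := dtM f q * drM g q - drM f q * dtM g q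

/-- the Jacobian of analytic functions -/
def Jf (f g : ℂ × ℂ → ℂ) (q : ℂ × ℂ) : ℂ :=
  fderiv ℂ f q (1, 0) * fderiv ℂ g q (0, 1) - fderiv ℂ f q (0, 1) * fderiv ℂ g q (1, 0)

variable {f g f' g' : ℂ × ℂ → ℂ} {p : ℂ × ℂ}

/-! ### Auxiliary lemmas -/

private lemma tendsto_fstLine (t ρ : ℂ) : Tendsto (fun s : ℂ => (s, ρ)) (𝓝 t) (𝓝 (t, ρ)) := by
  have : Continuous (fun s : ℂ => (s, ρ)) := by fun_prop
  exact this.tendsto t

private lemma tendsto_sndLine (t ρ : ℂ) : Tendsto (fun r : ℂ => (t, r)) (𝓝 ρ) (𝓝 (t, ρ)) := by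
  have : Continuous (fun r : ℂ => (t, r)) := by fun_prop
  exact this.tendsto ρ

private lemma nfM_congr {q : ℂ × ℂ} (h : EqM f g q) : nfM f q = nfM g q := by
  by_cases h1 : ∃ C : ℂ × ℂ → ℂ, AnalyticAt ℂ C q ∧ EqM g C q
  · obtain ⟨C, hC, hgC⟩ := h1
    rw [nfM_eq hC hgC, nfM_eq hC (h.trans hgC)]
  · have h2 : ¬ ∃ C : ℂ × ℂ → ℂ, AnalyticAt ℂ C q ∧ EqM f C q := by
      rintro ⟨C, hC, hfC⟩
      exact h1 ⟨C, hC, h.symm.trans hfC⟩
    unfold nfM
    rw [dif_neg h1, dif_neg h2]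

/-- near `q` the normal form is the analytic germ -/
private lemma nfM_eventuallyEq {C : ℂ × ℂ → ℂ} {q : ℂ × ℂ} (hC : AnalyticAt ℂ C q)
    (h : EqM f C q) : ∀ᶠ x in 𝓝 q, nfM f x = C x := by
  filter_upwards [hC.eventually_analyticAt, h.eventually] with x h1 h2
  exact nfM_eq h1 h2

/-- the quotient as a germ at the points where the denominator does not vanish -/
private lemma germ_div {A B : ℂ × ℂ → ℂ} {q : ℂ × ℂ} (hA : AnalyticAt ℂ A q)
    (hB : AnalyticAt ℂ B q) (hfe : EqM f (fun q => A q / B q) q) :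
    ∀ᶠ x in 𝓝 q, B x ≠ 0 → AnalyticAt ℂ (fun y => A y / B y) x ∧
      EqM f (fun y => A y / B y) x := by
  filter_upwards [hA.eventually_analyticAt, hB.eventually_analyticAt, hfe.eventually]
    with x h1 h2 h3 h4
  exact ⟨h1.div h2 h4, h3⟩

private lemma an_fd {C : ℂ × ℂ → ℂ} {q : ℂ × ℂ} (v : ℂ × ℂ) (hC : AnalyticAt ℂ C q) :
    AnalyticAt ℂ (fun x => fderiv ℂ C x v) q :=
  ((ContinuousLinearMap.apply ℂ ℂ v).analyticAt (fderiv ℂ C q)).comp hC.fderiv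

private lemma deriv_fst {C : ℂ × ℂ → ℂ} {q : ℂ × ℂ} (hC : AnalyticAt ℂ C q) :
    deriv (fun s => C (s, q.2)) q.1 = fderiv ℂ C q (1, 0) := by
  have h1 : HasFDerivAt C (fderiv ℂ C q) q := hC.differentiableAt.hasFDerivAt
  have h2 : HasDerivAt (fun s : ℂ => (s, q.2)) ((1 : ℂ), (0 : ℂ)) q.1 :=
    (hasDerivAt_id q.1).prodMk (hasDerivAt_const q.1 q.2)
  have h3 : HasDerivAt (fun s : ℂ => C (s, q.2)) (fderiv ℂ C q (1, 0)) q.1 :=
    HasFDerivAt.comp_hasDerivAt q.1 (f := fun s : ℂ => (s, q.2)) (l := C) h1 h2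
  exact h3.deriv

private lemma deriv_snd {C : ℂ × ℂ → ℂ} {q : ℂ × ℂ} (hC : AnalyticAt ℂ C q) :
    deriv (fun r => C (q.1, r)) q.2 = fderiv ℂ C q (0, 1) := by
  have h1 : HasFDerivAt C (fderiv ℂ C q) q := hC.differentiableAt.hasFDerivAt
  have h2 : HasDerivAt (fun r : ℂ => (q.1, r)) ((0 : ℂ), (1 : ℂ)) q.2 :=
    (hasDerivAt_const q.2 q.1).prodMk (hasDerivAt_id q.2)
  have h3 : HasDerivAt (fun r : ℂ => C (q.1, r)) (fderiv ℂ C q (0, 1)) q.2 :=
    HasFDerivAt.comp_hasDerivAt q.2 (f := fun r : ℂ => (q.1, r)) (l := C) h1 h2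
  exact h3.deriv

private lemma dtM_eq' {C : ℂ × ℂ → ℂ} {q : ℂ × ℂ} (hC : AnalyticAt ℂ C q) (h : EqM f C q) :
    dtM f q = fderiv ℂ C q (1, 0) := by
  have h1 : (fun s => nfM f (s, q.2)) =ᶠ[𝓝 q.1] fun s => C (s, q.2) :=
    (tendsto_fstLine q.1 q.2).eventually (nfM_eventuallyEq (q := (q.1, q.2)) hC h)
  show deriv (fun s => nfM f (s, q.2)) q.1 = _
  rw [h1.deriv_eq, deriv_fst hC]

private lemma drM_eq {C : ℂ × ℂ → ℂ} {q : ℂ × ℂ} (hC : AnalyticAt ℂ C q) (h : EqM f C q) :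
    drM f q = fderiv ℂ C q (0, 1) := by
  have h1 : (fun r => nfM f (q.1, r)) =ᶠ[𝓝 q.2] fun r => C (q.1, r) :=
    (tendsto_sndLine q.1 q.2).eventually (nfM_eventuallyEq (q := (q.1, q.2)) hC h)
  show deriv (fun r => nfM f (q.1, r)) q.2 = _
  rw [h1.deriv_eq, deriv_snd hC]

private lemma an_sndLine {B : ℂ × ℂ → ℂ} {t ρ : ℂ} (hB : AnalyticAt ℂ B (t, ρ)) :
    AnalyticAt ℂ (fun r : ℂ => B (t, r)) ρ :=
  AnalyticAt.fun_comp (g := B) (f := fun r : ℂ => (t, r)) hB (analyticAt_const.prod analyticAt_id)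

private lemma fderiv_quot {A B : ℂ × ℂ → ℂ} {q : ℂ × ℂ} (hA : AnalyticAt ℂ A q)
    (hB : AnalyticAt ℂ B q) (h0 : B q ≠ 0) :
    fderiv ℂ (fun y => A y / B y) q (0, 1) =
      (fderiv ℂ A q (0, 1) * B q - A q * fderiv ℂ B q (0, 1)) / (B q * B q) := by
  have hq : AnalyticAt ℂ (fun y => A y / B y) q := hA.div hB h0
  rw [← deriv_snd hq, ← deriv_snd hA, ← deriv_snd hB]
  have h1 : DifferentiableAt ℂ (fun r => A (q.1, r)) q.2 :=
    (an_sndLine (t := q.1) (ρ := q.2) hA).differentiableAt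
  have h2 : DifferentiableAt ℂ (fun r => B (q.1, r)) q.2 :=
    (an_sndLine (t := q.1) (ρ := q.2) hB).differentiableAt
  have h3 := (h1.hasDerivAt.div h2.hasDerivAt h0).deriv
  have h4 : deriv (fun r => A (q.1, r) / B (q.1, r)) q.2 =
      (deriv (fun r => A (q.1, r)) q.2 * B (q.1, q.2) -
        A (q.1, q.2) * deriv (fun r => B (q.1, r)) q.2) / B (q.1, q.2) ^ 2 := h3
  rw [h4, pow_two]

theorem merAt_drM (hf : MerAt f p) : MerAt (drM f) p := by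
  obtain ⟨A, B, hA, hB, h⟩ := hf
  have hfe : EqM f (fun q => A q / B q) p := ⟨B, hB, h⟩
  have h1 : EqM (drM f)
      (fun q => (fderiv ℂ A q (0, 1) * B q - A q * fderiv ℂ B q (0, 1)) / (B q * B q)) p := by
    refine ⟨B, hB, ?_⟩
    filter_upwards [germ_div hA hB.an hfe, hA.eventually_analyticAt,
      hB.an.eventually_analyticAt] with q h1 h2 h3 h4
    rw [drM_eq (h1 h4).1 (h1 h4).2, fderiv_quot h2 h3 h4]
  refine MerAt.congr (f := fun q => (fderiv ℂ A q (0, 1) * B q - A q * fderiv ℂ B q (0, 1)) /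
    (B q * B q)) ?_ h1.symm
  exact ⟨_, _, ((an_fd _ hA).mul hB.an).sub (hA.mul (an_fd _ hB.an)), hB.mul hB,
    Eventually.of_forall fun _ _ => rfl⟩

theorem eqM_drM (hf : MerAt f p) (h : EqM f g p) : EqM (drM f) (drM g) p := by
  have _ := hf
  apply EqM.of_eventuallyEq
  filter_upwards [h.eventually.eventually_nhds] with q hq
  have h1 : (fun r => nfM f (q.1, r)) =ᶠ[𝓝 q.2] fun r => nfM g (q.1, r) := by
    filter_upwards [(tendsto_sndLine q.1 q.2).eventually hq] with s hs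
    exact nfM_congr hs
  exact h1.deriv_eq

theorem eqM_dtM_an (h : EqM f f' p) (hf' : AnalyticAt ℂ f' p) :
    EqM (dtM f) (fun q => fderiv ℂ f' q (1, 0)) p := by
  apply EqM.of_eventuallyEq
  filter_upwards [hf'.eventually_analyticAt, h.eventually] with q h1 h2
  exact dtM_eq' h1 h2

theorem eqM_drM_an (h : EqM f f' p) (hf' : AnalyticAt ℂ f' p) :
    EqM (drM f) (fun q => fderiv ℂ f' q (0, 1)) p := by
  apply EqM.of_eventuallyEq
  filter_upwards [hf'.eventually_analyticAt, h.eventually] with q h1 h2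
  exact drM_eq h1 h2

theorem merAt_JM (hf : MerAt f p) (hg : MerAt g p) : MerAt (JM f g) p :=
  (hf.dtM.mul (merAt_drM hg)).sub ((merAt_drM hf).mul hg.dtM)

theorem eqM_JM (hf : MerAt f p) (hg : MerAt g p) (h1 : EqM f f' p) (h2 : EqM g g' p) :
    EqM (JM f g) (JM f' g') p := by
  have h3 : EqM (dtM f) (dtM f') p := EqM.dtM hf h1
  have h4 : EqM (dtM g) (dtM g') p := EqM.dtM hg h2
  exact EqM.map₂ (fun x y => x - y) (EqM.map₂ (fun x y => x * y) h3 (eqM_drM hg h2))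
    (EqM.map₂ (fun x y => x * y) (eqM_drM hf h1) h4)

theorem eqM_JM_an (h1 : EqM f f' p) (h2 : EqM g g' p) (hf' : AnalyticAt ℂ f' p)
    (hg' : AnalyticAt ℂ g' p) : EqM (JM f g) (Jf f' g') p :=
  EqM.map₂ (fun x y => x - y)
    (EqM.map₂ (fun x y => x * y) (eqM_dtM_an h1 hf') (eqM_drM_an h2 hg'))
    (EqM.map₂ (fun x y => x * y) (eqM_drM_an h1 hf') (eqM_dtM_an h2 hg'))

theorem Jf_an (hf : AnalyticAt ℂ f p) (hg : AnalyticAt ℂ g p) : AnalyticAt ℂ (Jf f g) p :=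
  ((an_fd _ hf).mul (an_fd _ hg)).sub ((an_fd _ hf).mul (an_fd _ hg))

end Pool.Agent.MP_ae5b4e_an_NB1B
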