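import Pool.Agent.Lib.MP_ae5b4e_an_NB1B.Bas0
import Pool.Agent.Lib.MP_ae5b4e_an_NB1B.DrM

/-!
# MP_ae5b4e_an, NB_1 section 3: the data on the base
-/

noncomputable section

namespace Pool.Agent.MP_ae5b4e_an_NB1B

open Complex Set Filter Topology Metric
open Pool.Agent.MP_ae5b4e_an_NBT
open Pool.Agent.MP_ae5b4e_an_NB1 (ARel)

/-- the data of the distinguished relation on the base -/
structure BP (k : ℂ → ℂ) (F : ℂ × ℂ → ℂ) (c : ℝ) (m K : ℕ) (Φ : ℕ → ℂ × ℂ → ℂ) (β : ℂ → ℂ)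
    (a R : ℝ) : Prop extends Con k F c where
  m_ge : 2 ≤ m
  a_pos : 0 < a
  a_le : a ≤ c / 4
  R_pos : 0 < R
  R_le : (m + 2) * R ≤ a / 4
  Φ_an : ∀ j ≤ m, AnalyticOnNhd ℂ (Φ j) (St (-a) a ×ˢ ball 0 R)
  Φ_per : ∀ j ≤ m, ∀ p ∈ St (-a) a ×ˢ ball (0:ℂ) R, Φ j (p.1 + 1, p.2) = Φ j p
  sj : ∀ p ∈ St (-a) a ×ˢ ball (0:ℂ) R, SJ m K F (KF F) Φ p
  β_an : AnalyticOnNhd ℂ β (ball 0 R)
  form : ∀ p ∈ St (-(a / 2)) (a / 2) ×ˢ ball (0:ℂ) R,
    ∑ l ∈ Finset.range m, (∑ i ∈ Finset.range (l + 1), Φ i (p.1 + l * p.2, p.2)) •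
      fderiv ℂ (fun q : ℂ × ℂ => F (q.1 + l * q.2, q.2)) p =
        β p.2 • ContinuousLinearMap.snd ℂ ℂ ℂ
  ne : ∃ t ∈ St (-(a / 4)) (a / 4), Φ 0 (t, 0) ≠ 0

private lemma bs_int {c : ℝ} {Q : ℂ × ℂ → Prop}
    (hper : ∀ p : ℂ × ℂ, |p.1.im| < c → ‖p.2‖ < c → (Q p ↔ Q (p.1 + 1, p.2))) (n : ℤ) :
    ∀ p : ℂ × ℂ, |p.1.im| < c → ‖p.2‖ < c → (Q p ↔ Q (p.1 + n, p.2)) := by
  induction n using Int.induction_on with
  | zero =>
    intro p _ _
    simp
  | succ n ih =>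
    intro p h1 h2
    rw [ih p h1 h2, hper (p.1 + ((n : ℤ) : ℂ), p.2) (by simpa using h1) h2]
    have h3 : p.1 + ((n : ℤ) : ℂ) + 1 = p.1 + ((n + 1 : ℤ) : ℂ) := by
      push_cast
      ring
    show Q (p.1 + ((n : ℤ) : ℂ) + 1, p.2) ↔ _
    rw [h3]
  | pred n ih =>
    intro p h1 h2
    rw [ih p h1 h2, hper (p.1 + ((-n - 1 : ℤ) : ℂ), p.2) (by simpa using h1) h2]
    have h3 : p.1 + ((-n - 1 : ℤ) : ℂ) + 1 = p.1 + ((-n : ℤ) : ℂ) := by
      push_cast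
      ring
    show _ ↔ Q (p.1 + ((-n - 1 : ℤ) : ℂ) + 1, p.2)
    rw [h3]

private lemma bs_cpt {c : ℝ} (hc : 0 < c) {Q : ℂ × ℂ → Prop}
    (hQ : ∀ x : ℝ, ∀ᶠ p in 𝓝 ((x : ℂ), (0 : ℂ)), Q p)
    (hper : ∀ p : ℂ × ℂ, |p.1.im| < c → ‖p.2‖ < c → (Q p ↔ Q (p.1 + 1, p.2))) :
    ∃ r, 0 < r ∧ r ≤ c ∧ ∀ p : ℂ × ℂ, |p.1.im| < r → ‖p.2‖ < r → Q p := by
  have hK : IsCompact ((fun x : ℝ => ((x : ℂ), (0 : ℂ))) '' Icc 0 1) :=
    isCompact_Icc.image (by fun_prop)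
  have hU : IsOpen {p : ℂ × ℂ | ∀ᶠ q in 𝓝 p, Q q} := isOpen_setOfPred_eventually_nhds
  have hKU : ((fun x : ℝ => ((x : ℂ), (0 : ℂ))) '' Icc 0 1) ⊆ {p : ℂ × ℂ | ∀ᶠ q in 𝓝 p, Q q} := by
    rintro _ ⟨x, -, rfl⟩
    exact hQ x
  obtain ⟨δ, hδ, hδU⟩ := hK.exists_thickening_subset_open hU hKU
  refine ⟨min δ c, lt_min hδ hc, min_le_right _ _, fun p h1 h2 => ?_⟩
  have h1c := h1.trans_le (min_le_right δ c)
  have h2c := h2.trans_le (min_le_right δ c)
  have h1d := h1.trans_le (min_le_left δ c)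
  have h2d := h2.trans_le (min_le_left δ c)
  rw [bs_int hper (-⌊p.1.re⌋) p h1c h2c]
  have h3 : (p.1 + ((-⌊p.1.re⌋ : ℤ) : ℂ), p.2) ∈
      thickening δ ((fun x : ℝ => ((x : ℂ), (0 : ℂ))) '' Icc 0 1) := by
    rw [mem_thickening_iff]
    refine ⟨_, ⟨Int.fract p.1.re, ⟨Int.fract_nonneg _, (Int.fract_lt_one _).le⟩, rfl⟩, ?_⟩
    rw [Prod.dist_eq]
    refine max_lt ?_ ?_
    · show dist (p.1 + ((-⌊p.1.re⌋ : ℤ) : ℂ)) ((Int.fract p.1.re : ℝ) : ℂ) < δ
      have h4 : p.1 + ((-⌊p.1.re⌋ : ℤ) : ℂ) - ((Int.fract p.1.re : ℝ) : ℂ) = (p.1.im : ℂ) * I := by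
        have h5 : ((Int.fract p.1.re : ℝ) : ℂ) = (p.1.re : ℂ) - (⌊p.1.re⌋ : ℂ) := by
          unfold Int.fract
          push_cast
          ring
        rw [h5]
        push_cast
        nth_rewrite 1 [← re_add_im p.1]
        ring
      rw [dist_eq_norm, h4, norm_mul, norm_I, mul_one, norm_real, Real.norm_eq_abs]
      exact h1d
    · show dist p.2 0 < δ
      rw [dist_zero_right]
      exact h2d
  have h4 : ∀ᶠ q in 𝓝 (p.1 + ((-⌊p.1.re⌋ : ℤ) : ℂ), p.2), Q q := hδU h3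
  exact h4.self_of_nhds

private lemma bs_loc {f : ℂ → ℂ} {w : ℂ} (hM : AnalyticAt ℂ f w) (h : deriv f w ≠ 0) :
    ∃ g : ℂ → ℂ, ∀ᶠ z in 𝓝 w, g (f z) = z :=
  ⟨hM.hasStrictDerivAt.localInverse _ _ _ h, hM.hasStrictDerivAt.eventually_left_inverse h⟩

private lemma bs_open (a b R : ℝ) : IsOpen (St a b ×ˢ ball (0:ℂ) R) :=
  (isOpen_St a b).prod isOpen_ball

/-- **the data on the base** -/
theorem exists_bp {k : ℂ → ℂ} {F : ℂ × ℂ → ℂ} {c : ℝ} (hC : Con k F c) {t : ℝ} {M : ℕ}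
    (h : ARel M (fun j p => F (p.1 + j * p.2, p.2)) ((t : ℂ), 0)) :
    ∃ (m K : ℕ) (Φ : ℕ → ℂ × ℂ → ℂ) (β : ℂ → ℂ) (a R : ℝ), BP k F c m K Φ β a R := by
  have hc := hC.pos
  obtain ⟨ε, L, hL⟩ := exists_labR hC
  have hε := hL.ε_pos
  have hεc := hL.ε_le
  have hreal : ∀ x : ℝ, (x : ℂ) ∈ St (-ε) ε := fun x => by
    rw [mem_St, ofReal_im]
    exact ⟨by linarith, hε⟩
  obtain ⟨ψ₀, hψ₀, hne₀⟩ := rl_of_arel hC hL (hreal t) h
  obtain ⟨m, K, ψ, hD, v0, hv0, hψv0⟩ := exists_dist0 hL (hreal t) hψ₀ hne₀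
  have hm2 : 2 ≤ m := by
    have h1 := hD.lt
    have h2 := hD.pos
    omega
  have h00 : (0:ℂ) ∈ St (-ε) ε := by simpa using hreal 0
  obtain ⟨β, hβ, hβe⟩ := rel_form hL h00 (hD.rl 0 h00)
  obtain ⟨Rβ, hRβ, hβan⟩ := Metric.eventually_nhds_iff_ball.1 hβ.eventually_analyticAt
  -- the domain
  obtain ⟨r, hr, hrε, hLr⟩ := bs_cpt hε (Q := fun p => L p ∈ St (-ε) ε) (by
      intro x
      have h1 : ((x : ℂ), (0:ℂ)) ∈ St (-ε) ε ×ˢ ball (0:ℂ) ε := ⟨hreal x, mem_ball_self hε⟩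
      have h2 : ContinuousAt L ((x : ℂ), (0:ℂ)) := (hL.an _ h1).continuousAt
      refine h2.eventually ?_
      rw [hL.zero _ (hreal x)]
      exact (isOpen_St _ _).mem_nhds (hreal x)) (by
      intro p h1 h2
      have h3 : p ∈ St (-ε) ε ×ˢ ball (0:ℂ) ε :=
        ⟨abs_lt.1 h1, by simpa using h2⟩
      show L p ∈ St (-ε) ε ↔ L (p.1 + 1, p.2) ∈ St (-ε) ε
      rw [hL.per p h3, mem_St, mem_St]
      simp)
  obtain ⟨a, ha⟩ : ∃ a, a = min r (ε / 4) := ⟨_, rfl⟩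
  have ha0 : 0 < a := by rw [ha]; exact lt_min hr (by linarith)
  have har : a ≤ r := by rw [ha]; exact min_le_left _ _
  have haε : a ≤ ε / 4 := by rw [ha]; exact min_le_right _ _
  have hm0 : (0:ℝ) < m + 2 := by positivity
  obtain ⟨R, hR⟩ : ∃ R, R = min (min Rβ r) (a / (4 * (m + 2))) := ⟨_, rfl⟩
  have hR0 : 0 < R := by
    rw [hR]
    exact lt_min (lt_min hRβ hr) (by positivity)
  have hRβ' : R ≤ Rβ := by rw [hR]; exact (min_le_left _ _).trans (min_le_left _ _)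
  have hRr : R ≤ r := by rw [hR]; exact (min_le_left _ _).trans (min_le_right _ _)
  have hRa : (m + 2) * R ≤ a / 4 := by
    have h1 : R ≤ a / (4 * (m + 2)) := by rw [hR]; exact min_le_right _ _
    calc (m + 2) * R ≤ (m + 2) * (a / (4 * (m + 2))) := by gcongr
      _ = a / 4 := by field_simp
  have hRa' : R ≤ a / 4 := by
    have h1 : (0:ℝ) ≤ m := by positivity
    nlinarith
  have hmR : (m:ℝ) * R ≤ a / 4 := by nlinarith
  -- membership
  have hdom : ∀ p ∈ St (-a) a ×ˢ ball (0:ℂ) R, p ∈ St (-ε) ε ×ˢ ball (0:ℂ) ε := by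
    rintro p ⟨h1, h2⟩
    rw [mem_St] at h1
    rw [mem_ball_zero_iff] at h2
    refine ⟨⟨by linarith, by linarith⟩, ?_⟩
    rw [mem_ball_zero_iff]
    linarith
  have hLdom : ∀ p ∈ St (-a) a ×ˢ ball (0:ℂ) R, L p ∈ St (-ε) ε := by
    rintro p ⟨h1, h2⟩
    rw [mem_St] at h1
    rw [mem_ball_zero_iff] at h2
    exact hLr p (abs_lt.2 ⟨by linarith, by linarith⟩) (by linarith)
  have hεSt : ∀ v ∈ St (-ε) ε, v ∈ St (-c) c := by
    intro v hv
    rw [mem_St] at hv ⊢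
    exact ⟨by linarith, by linarith⟩
  have hmem0 : ∀ v ∈ St (-ε) ε, (v, (0:ℂ)) ∈ St (-c) c ×ˢ ball (0:ℂ) c := fun v hv =>
    ⟨hεSt v hv, mem_ball_self hc⟩
  obtain ⟨F0, hF0⟩ : ∃ F0 : ℂ → ℂ, F0 = fun s => F (s, 0) := ⟨_, rfl⟩
  have hF0an : ∀ v ∈ St (-ε) ε, AnalyticAt ℂ F0 v := by
    intro v hv
    rw [hF0]
    have h1 : AnalyticAt ℂ (fun s : ℂ => (s, (0:ℂ))) v := analyticAt_id.prod analyticAt_const
    exact AnalyticAt.fun_comp (g := F) (f := fun s : ℂ => (s, (0:ℂ))) (hC.an (v, 0) (hmem0 v hv)) h1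
  have hF0ne : ∀ v ∈ St (-ε) ε, deriv F0 v ≠ 0 := by
    intro v hv
    rw [hF0]
    exact hC.dt (v, 0) (hmem0 v hv)
  have hF0per : ∀ v ∈ St (-ε) ε, deriv F0 (v + 1) = deriv F0 v := by
    intro v hv
    have h1 : (fun s => F0 (s + 1)) =ᶠ[𝓝 v] F0 := by
      filter_upwards [(isOpen_St (-ε) ε).mem_nhds hv] with s hs
      rw [hF0]
      exact hC.per (s, 0) (hmem0 s hs)
    rw [← h1.deriv_eq, deriv_comp_add_const]
  obtain ⟨Φ, hΦ⟩ : ∃ Φ : ℕ → ℂ × ℂ → ℂ, Φ = fun j p => ψ j (L p) / deriv F0 (L p) := ⟨_, rfl⟩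
  have hΦan : ∀ j ≤ m, AnalyticOnNhd ℂ (Φ j) (St (-a) a ×ˢ ball 0 R) := by
    intro j hj p hp
    rw [hΦ]
    have h1 : AnalyticAt ℂ L p := hL.an p (hdom p hp)
    have h2 : AnalyticAt ℂ (fun q => ψ j (L q)) p := (hD.an j hj (L p) (hLdom p hp)).fun_comp h1
    have h3 : AnalyticAt ℂ (fun q => deriv F0 (L q)) p :=
      (hF0an (L p) (hLdom p hp)).deriv.fun_comp h1
    exact h2.fun_div h3 (hF0ne _ (hLdom p hp))
  -- the family
  have hFan : ∀ p ∈ St (-a) a ×ˢ ball (0:ℂ) R, AnalyticAt ℂ F p := by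
    intro p hp
    have h1 := hdom p hp
    refine hC.an p ⟨hεSt _ h1.1, ?_⟩
    have h2 := h1.2
    rw [mem_ball_zero_iff] at h2 ⊢
    linarith
  refine ⟨m, K, Φ, β, a, R, ?_⟩
  have hac : a ≤ c / 4 := by linarith
  refine
    { toCon := hC
      m_ge := hm2
      a_pos := ha0
      a_le := hac
      R_pos := hR0
      R_le := hRa
      Φ_an := hΦan
      Φ_per := ?_
      sj := ?_
      β_an := ?_
      form := ?_
      ne := ?_ }
  · intro j hj p hp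
    rw [hΦ]
    show ψ j (L (p.1 + 1, p.2)) / deriv F0 (L (p.1 + 1, p.2)) = ψ j (L p) / deriv F0 (L p)
    rw [hL.per p (hdom p hp), hD.per j hj _ (hLdom p hp), hF0per _ (hLdom p hp)]
  · intro p hp
    have hLp := hLdom p hp
    obtain ⟨τ, hτ⟩ := bs_loc (hF0an _ hLp) (hF0ne _ hLp)
    refine ⟨F, k, fun j x => ψ j (τ x) / deriv F0 (τ x), hFan p hp, EqM.refl _ _, ?_, ?_, ?_, ?_⟩
    · have h1 := hC.dt p ⟨hεSt _ (hdom p hp).1, by
        have h2 := (hdom p hp).2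
        rw [mem_ball_zero_iff] at h2 ⊢
        linarith⟩
      have h2 : HasDerivAt (fun s => F (s, p.2)) (fderiv ℂ F p (1, 0)) p.1 := by
        have h3 : HasFDerivAt F (fderiv ℂ F p) (p.1, p.2) := (hFan p hp).differentiableAt.hasFDerivAt
        have h4 : HasDerivAt (fun s : ℂ => ((s, p.2) : ℂ × ℂ)) (1, 0) p.1 :=
          (hasDerivAt_id p.1).prodMk (hasDerivAt_const p.1 p.2)
        exact h3.comp_hasDerivAt p.1 h4
      rw [h2.deriv] at h1
      exact h1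
    · refine ⟨fun q => q.2, ⟨analyticAt_snd, ?_⟩, ?_⟩
      · intro h1
        have h2 : Tendsto (fun z : ℂ => (p.1, z)) (𝓝 p.2) (𝓝 p) := by
          have h3 : Continuous (fun z : ℂ => (p.1, z)) := by fun_prop
          exact h3.tendsto _
        have h3 : ∀ᶠ z : ℂ in 𝓝 p.2, z = 0 := h2.eventually h1
        have h4 : ∀ᶠ z : ℂ in 𝓝[≠] p.2, z = 0 := h3.filter_mono nhdsWithin_le_nhds
        have h5 : p.2 = 0 := h3.self_of_nhds
        rw [h5] at h4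
        obtain ⟨z, hz1, hz2⟩ := (h4.and self_mem_nhdsWithin).exists
        exact hz2 hz1
      · filter_upwards [(bs_open (-a) a R).mem_nhds hp] with q hq hq0
        obtain ⟨h1, h2⟩ := hq
        rw [mem_St] at h1
        rw [mem_ball_zero_iff] at h2
        have h3 := abs_le.1 ((abs_im_le_norm q.2).trans h2.le)
        unfold KF
        refine hC.fe q ⟨⟨by linarith, by linarith⟩, ?_⟩ hq0 ?_ ?_
        · rw [mem_ball_zero_iff]
          linarith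
        · refine ⟨?_, ?_⟩ <;> rw [add_im] <;> linarith
        · refine ⟨?_, ?_⟩ <;> rw [sub_im] <;> linarith
    · intro j hj
      apply EqM.of_eventuallyEq
      have h1 : ContinuousAt L p := (hL.an p (hdom p hp)).continuousAt
      filter_upwards [h1.eventually hτ, (bs_open (-a) a R).mem_nhds hp] with q hq1 hq2
      have h2 : F q = F0 (L q) := by rw [hF0]; exact (hL.eq q (hdom q hq2)).symm
      rw [hΦ]
      show ψ j (L q) / deriv F0 (L q) = ψ j (τ (F q)) / deriv F0 (τ (F q))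
      rw [h2, hq1]
    · have h1 := stt_of_label hC hL hD hLp (a := fun j x => ψ j (τ x) / deriv F0 (τ x)) (by
        intro j hj
        filter_upwards [hτ, (isOpen_St (-ε) ε).mem_nhds hLp] with w hw1 hw2
        have h2 : F (w, 0) = F0 w := by rw [hF0]
        have h3 : deriv (fun s => F (s, 0)) w = deriv F0 w := by rw [hF0]
        rw [h2, h3, hw1]
        exact div_mul_cancel₀ _ (hF0ne w hw2))
      rw [hL.eq p (hdom p hp)] at h1
      exact h1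
  · intro z hz
    exact hβan z (ball_subset_ball hRβ' hz)
  · -- the form
    obtain ⟨U, hU⟩ : ∃ U : Set (ℂ × ℂ), U = St (-(a / 2)) (a / 2) ×ˢ ball (0:ℂ) R := ⟨_, rfl⟩
    have hUc : IsPreconnected U := by
      rw [hU]
      exact ((convex_St _ _).prod (convex_ball _ _)).isPreconnected
    have hUo : IsOpen U := by rw [hU]; exact bs_open _ _ _
    have hsh : ∀ l < m, ∀ p ∈ U, (p.1 + l * p.2, p.2) ∈ St (-a) a ×ˢ ball (0:ℂ) R := by
      intro l hl p hp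
      rw [hU] at hp
      obtain ⟨h1, h2⟩ := hp
      rw [mem_St] at h1
      refine ⟨?_, h2⟩
      rw [mem_ball_zero_iff] at h2
      have h3 : |((l : ℂ) * p.2).im| ≤ m * R := by
        refine (abs_im_le_norm _).trans ?_
        rw [norm_mul, norm_natCast]
        have h4 : (l : ℝ) ≤ m := by exact_mod_cast hl.le
        gcongr
      have h4 := abs_le.1 h3
      rw [mem_St]
      refine ⟨?_, ?_⟩ <;> rw [add_im] <;> linarith
    have hTan : ∀ (l : ℕ) (p : ℂ × ℂ), AnalyticAt ℂ (fun q : ℂ × ℂ => (q.1 + l * q.2, q.2)) p :=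
      fun l p => (analyticAt_fst.add (analyticAt_const.mul analyticAt_snd)).prod analyticAt_snd
    have hLHS : AnalyticOnNhd ℂ (fun p : ℂ × ℂ => ∑ l ∈ Finset.range m,
        (∑ i ∈ Finset.range (l + 1), Φ i (p.1 + l * p.2, p.2)) •
          fderiv ℂ (fun q : ℂ × ℂ => F (q.1 + l * q.2, q.2)) p) U := by
      intro p hp
      refine Finset.analyticAt_fun_sum _ fun l hl => ?_
      have hl' := Finset.mem_range.1 hl
      refine AnalyticAt.fun_smul ?_ ?_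
      · refine Finset.analyticAt_fun_sum _ fun i hi => ?_
        have hi' := Finset.mem_range.1 hi
        exact AnalyticAt.fun_comp (g := Φ i) (f := fun q : ℂ × ℂ => (q.1 + l * q.2, q.2))
          (hΦan i (by omega) _ (hsh l hl' p hp)) (hTan l p)
      · have h1 : AnalyticAt ℂ (fun q : ℂ × ℂ => F (q.1 + l * q.2, q.2)) p :=
          AnalyticAt.fun_comp (g := F) (f := fun q : ℂ × ℂ => (q.1 + l * q.2, q.2))
            (hFan _ (hsh l hl' p hp)) (hTan l p)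
        exact h1.fderiv
    have hRHS : AnalyticOnNhd ℂ (fun p : ℂ × ℂ => β p.2 • ContinuousLinearMap.snd ℂ ℂ ℂ) U := by
      intro p hp
      rw [hU] at hp
      have h1 : AnalyticAt ℂ β p.2 := hβan p.2 (ball_subset_ball hRβ' hp.2)
      refine AnalyticAt.fun_smul ?_ analyticAt_const
      exact h1.fun_comp analyticAt_snd
    have h0U : ((0:ℂ), (0:ℂ)) ∈ U := by
      rw [hU]
      refine ⟨?_, mem_ball_self hR0⟩
      rw [mem_St, zero_im]
      exact ⟨by linarith, by linarith⟩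
    have hev : (fun p : ℂ × ℂ => ∑ l ∈ Finset.range m,
        (∑ i ∈ Finset.range (l + 1), Φ i (p.1 + l * p.2, p.2)) •
          fderiv ℂ (fun q : ℂ × ℂ => F (q.1 + l * q.2, q.2)) p) =ᶠ[𝓝 ((0:ℂ), (0:ℂ))]
        fun p : ℂ × ℂ => β p.2 • ContinuousLinearMap.snd ℂ ℂ ℂ := by
      filter_upwards [hβe, hUo.mem_nhds h0U] with p hp1 hp2
      rw [← hp1]
      refine Finset.sum_congr rfl fun l hl => ?_
      have hl' := Finset.mem_range.1 hl
      have hs := hsh l hl' p hp2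
      have hLs := hLdom _ hs
      have h1 : (fun q : ℂ × ℂ => F (q.1 + l * q.2, q.2)) =ᶠ[𝓝 p] fun q => F0 (yL L l q) := by
        filter_upwards [hUo.mem_nhds hp2] with q hq
        rw [hF0]
        exact (hL.eq _ (hdom _ (hsh l hl' q hq))).symm
      have h2 : AnalyticAt ℂ (yL L l) p :=
        AnalyticAt.fun_comp (g := L) (f := fun q : ℂ × ℂ => (q.1 + l * q.2, q.2))
          (hL.an _ (hdom _ hs)) (hTan l p)
      have h3 : HasDerivAt F0 (deriv F0 (yL L l p)) (yL L l p) :=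
        (hF0an _ hLs).differentiableAt.hasDerivAt
      have h4 : HasFDerivAt (fun q => F0 (yL L l q)) (deriv F0 (yL L l p) • fderiv ℂ (yL L l) p) p :=
        h3.comp_hasFDerivAt p h2.differentiableAt.hasFDerivAt
      rw [h1.fderiv_eq, h4.fderiv, smul_smul]
      congr 1
      unfold lam
      rw [Finset.sum_mul]
      refine Finset.sum_congr rfl fun i _ => ?_
      rw [hΦ]
      show ψ i (L (p.1 + l * p.2, p.2)) / deriv F0 (L (p.1 + l * p.2, p.2)) *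
        deriv F0 (L (p.1 + l * p.2, p.2)) = ψ i (L (p.1 + l * p.2, p.2))
      exact div_mul_cancel₀ _ (hF0ne _ hLs)
    have hEq := hLHS.eqOn_of_preconnected_of_eventuallyEq hRHS hUc h0U hev
    intro p hp
    rw [← hU] at hp
    exact hEq hp
  · by_contra hcon
    push Not at hcon
    have h1 : ∀ s ∈ St (-(a / 4)) (a / 4), ψ 0 s = 0 := by
      intro s hs
      have h2 := hcon s hs
      rw [mem_St] at hs
      have h3 : s ∈ St (-ε) ε := by
        rw [mem_St]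
        exact ⟨by linarith, by linarith⟩
      have h4 : ψ 0 (L (s, 0)) / deriv F0 (L (s, 0)) = 0 := by
        rw [hΦ] at h2
        exact h2
      rw [hL.zero s h3] at h4
      exact (div_eq_zero_iff.1 h4).resolve_right (hF0ne s h3)
    have h2 : EqOn (ψ 0) 0 (St (-ε) ε) := by
      refine (hD.an 0 (Nat.zero_le _)).eqOn_zero_of_preconnected_of_eventuallyEq_zero
        (convex_St _ _).isPreconnected h00 ?_
      have h3 : (0:ℂ) ∈ St (-(a / 4)) (a / 4) := by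
        rw [mem_St, zero_im]
        exact ⟨by linarith, by linarith⟩
      filter_upwards [(isOpen_St _ _).mem_nhds h3] with s hs
      exact h1 s hs
    exact hψv0 (h2 hv0)

end Pool.Agent.MP_ae5b4e_an_NB1B
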