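import Pool.Agent.Lib.MP_ae5b4e_an_NB1B.Defs

/-!
# MP_ae5b4e_an, NB_1 section 3: the polygons near the diagonal are a family
-/

noncomputable section

namespace Pool.Agent.MP_ae5b4e_an_NB1B

open Complex Set Filter Topology Metric
open Pool.Agent.MP_ae5b4e_an_NBT
open Pool.Agent.MP_ae5b4e_an_ND (TI)

variable {κ κ' : ℂ → ℂ} {U : Set ℂ} {x : ℂ}

private theorem chain_TI_an {u : ℂ} (hκ : AnalyticAt ℂ κ u) : AnalyticAt ℂ (TI κ) (u, 0) := by
  have h1 : AnalyticAt ℂ (fun p : ℂ × ℂ => p.1 + p.2) (u, 0) := analyticAt_fst.add analyticAt_snd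
  have h2 : AnalyticAt ℂ (fun p : ℂ × ℂ => κ (p.1 + p.2)) (u, 0) := by
    refine AnalyticAt.fun_comp (f := fun p : ℂ × ℂ => p.1 + p.2) ?_ h1
    simpa using hκ
  have h3 : AnalyticAt ℂ (fun p : ℂ × ℂ => p.2 / (1 + κ (p.1 + p.2) * p.2)) (u, 0) :=
    analyticAt_snd.div (analyticAt_const.add (h2.mul analyticAt_snd)) (by simp)
  exact h1.prod h3

private theorem chain_TI_zero (u : ℂ) : TI κ (u, 0) = (u, 0) := by
  unfold TI
  simp

private theorem chain_TI_fderiv {u : ℂ} (hκ : AnalyticAt ℂ κ u) (v : ℂ × ℂ) :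
    fderiv ℂ (TI κ) (u, 0) v = (v.1 + v.2, v.2) := by
  have h1 : AnalyticAt ℂ (fun p : ℂ × ℂ => p.1 + p.2) (u, 0) := analyticAt_fst.add analyticAt_snd
  have h2 : AnalyticAt ℂ (fun p : ℂ × ℂ => κ (p.1 + p.2)) (u, 0) := by
    refine AnalyticAt.fun_comp (f := fun p : ℂ × ℂ => p.1 + p.2) ?_ h1
    simpa using hκ
  have h3 : AnalyticAt ℂ (fun p : ℂ × ℂ => (1 + κ (p.1 + p.2) * p.2)⁻¹) (u, 0) :=
    (analyticAt_const.add (h2.mul analyticAt_snd)).inv (by simp)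
  have h4 : HasFDerivAt (fun p : ℂ × ℂ => p.1 + p.2)
      (ContinuousLinearMap.fst ℂ ℂ ℂ + ContinuousLinearMap.snd ℂ ℂ ℂ) (u, 0) :=
    hasFDerivAt_fst.add hasFDerivAt_snd
  have h5 := (hasFDerivAt_snd (𝕜 := ℂ) (p := ((u, 0) : ℂ × ℂ))).mul
    h3.differentiableAt.hasFDerivAt
  have h6 := h4.prodMk h5
  have h7 : (fun p : ℂ × ℂ => (p.1 + p.2, p.2 * (1 + κ (p.1 + p.2) * p.2)⁻¹)) = TI κ := by
    funext p
    unfold TI
    rw [div_eq_mul_inv]
  have h8 : HasFDerivAt (TI κ) _ (u, 0) := h7 ▸ h6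
  rw [h8.fderiv]
  simp

private theorem chain_iter {u : ℂ} (hκ : AnalyticAt ℂ κ u) (j : ℕ) :
    AnalyticAt ℂ ((TI κ)^[j]) (u, 0) ∧ (TI κ)^[j] (u, 0) = (u, 0) ∧
      ∀ v : ℂ × ℂ, fderiv ℂ ((TI κ)^[j]) (u, 0) v = (v.1 + j * v.2, v.2) := by
  induction j with
  | zero =>
    refine ⟨analyticAt_id, rfl, fun v => ?_⟩
    rw [Function.iterate_zero, fderiv_id]
    simp
  | succ j ih =>
    obtain ⟨h1, h2, h3⟩ := ih
    have h4 : AnalyticAt ℂ (TI κ) ((TI κ)^[j] (u, 0)) := by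
      rw [h2]
      exact chain_TI_an hκ
    rw [Function.iterate_succ']
    refine ⟨AnalyticAt.comp h4 h1, ?_, fun v => ?_⟩
    · rw [Function.comp_apply, h2, chain_TI_zero]
    · rw [fderiv_comp _ h4.differentiableAt h1.differentiableAt, h2,
        ContinuousLinearMap.comp_apply, h3, chain_TI_fderiv hκ]
      push_cast
      ext1
      · ring
      · rfl

theorem fam_yc (m : ℕ) (hU : IsOpen U) (hκ : AnalyticOnNhd ℂ κ U) : Fam m (yc κ) U where
  isOpen := hU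
  an j _ u hu := by
    have h1 := (chain_iter (hκ u hu) j).1
    exact AnalyticAt.comp (g := Prod.fst) (f := (TI κ)^[j]) analyticAt_fst h1
  zero j _ u hu := by
    unfold yc
    rw [(chain_iter (hκ u hu) j).2.1]
  der j _ u hu := by
    have h1 := (chain_iter (hκ u hu) j)
    have h2 : yc κ j = Prod.fst ∘ (TI κ)^[j] := rfl
    rw [h2, fderiv_comp _ differentiableAt_fst h1.1.differentiableAt,
      ContinuousLinearMap.comp_apply, h1.2.2, fderiv_fst]
    simp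

theorem yc_congr (hκ : AnalyticAt ℂ κ x) (h : κ =ᶠ[𝓝 x] κ') (j : ℕ) :
    yc κ j =ᶠ[𝓝 (x, 0)] yc κ' j := by
  have h0 : TI κ =ᶠ[𝓝 (x, 0)] TI κ' := by
    have h1 : Tendsto (fun p : ℂ × ℂ => p.1 + p.2) (𝓝 (x, 0)) (𝓝 x) := by
      have h2 : Continuous fun p : ℂ × ℂ => p.1 + p.2 := by fun_prop
      have h3 := h2.tendsto (x, 0)
      simpa using h3
    filter_upwards [h1.eventually h] with p hp
    unfold TI
    rw [hp]
  have key : ∀ j, (TI κ)^[j] =ᶠ[𝓝 (x, 0)] (TI κ')^[j] := by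
    intro j
    induction j with
    | zero => exact EventuallyEq.rfl
    | succ j ih =>
      have h1 : Tendsto ((TI κ)^[j]) (𝓝 (x, 0)) (𝓝 (x, 0)) := by
        have h2 := (chain_iter hκ j).1.continuousAt.tendsto
        rwa [(chain_iter hκ j).2.1] at h2
      rw [Function.iterate_succ', Function.iterate_succ']
      filter_upwards [ih, h1.eventually h0] with p hp hp'
      rw [Function.comp_apply, Function.comp_apply, hp', hp]
  filter_upwards [key j] with p hp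
  unfold yc
  rw [hp]

/-- the iterates of the step, for the polygons of the family `F` -/
theorem yc_family {F : ℂ × ℂ → ℂ} {t : ℂ} (hF : AnalyticAt ℂ F (t, 0))
    (hk : AnalyticAt ℂ κ (F (t, 0)))
    (hne : ∀ᶠ p in 𝓝 ((t, 0) : ℂ × ℂ), p.2 ≠ 0 → F (p.1 + p.2, p.2) ≠ F p)
    (hfe : ∀ᶠ p in 𝓝 ((t, 0) : ℂ × ℂ), p.2 ≠ 0 →
      (F (p.1 + p.2, p.2) - F p)⁻¹ + (F (p.1 - p.2, p.2) - F p)⁻¹ = κ (F p)) (j : ℕ) :
    ∀ᶠ p in 𝓝 ((t, 0) : ℂ × ℂ),
      yc κ j (F p, F (p.1 + p.2, p.2) - F p) = F (p.1 + j * p.2, p.2) := by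
  have htend : ∀ c : ℂ, Tendsto (fun p : ℂ × ℂ => (p.1 + c * p.2, p.2)) (𝓝 ((t, 0) : ℂ × ℂ))
      (𝓝 ((t, 0) : ℂ × ℂ)) := by
    intro c
    have h2 : Continuous fun p : ℂ × ℂ => (p.1 + c * p.2, p.2) := by fun_prop
    have h3 := h2.tendsto (t, 0)
    simpa using h3
  have key : ∀ j : ℕ, ∀ᶠ p in 𝓝 ((t, 0) : ℂ × ℂ),
      (TI κ)^[j] (F p, F (p.1 + p.2, p.2) - F p) =
        (F (p.1 + j * p.2, p.2),
          F (p.1 + ((j + 1 : ℕ) : ℂ) * p.2, p.2) - F (p.1 + j * p.2, p.2)) := by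
    intro j
    induction j with
    | zero =>
      refine Eventually.of_forall fun p => ?_
      simp
    | succ j ih =>
      filter_upwards [ih, (htend ((j + 1 : ℕ) : ℂ)).eventually hfe,
        (htend ((j + 1 : ℕ) : ℂ)).eventually hne, (htend (j : ℂ)).eventually hne]
        with p h1 h2 h3 h4
      rw [Function.iterate_succ_apply', h1]
      by_cases hp : p.2 = 0
      · unfold TI
        simp [hp]
      · have h2' := h2 hp
        have h3' := h3 hp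
        have h4' := h4 hp
        have e1 : p.1 + ((j + 1 : ℕ) : ℂ) * p.2 + p.2 = p.1 + ((j + 1 + 1 : ℕ) : ℂ) * p.2 := by
          push_cast
          ring
        have e2 : p.1 + ((j + 1 : ℕ) : ℂ) * p.2 - p.2 = p.1 + (j : ℂ) * p.2 := by
          push_cast
          ring
        have e3 : p.1 + (j : ℂ) * p.2 + p.2 = p.1 + ((j + 1 : ℕ) : ℂ) * p.2 := by
          push_cast
          ring
        rw [e1, e2] at h2'
        rw [e1] at h3'
        rw [e3] at h4'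
        unfold TI
        simp only
        have e4 : F (p.1 + (j : ℂ) * p.2, p.2) + (F (p.1 + ((j + 1 : ℕ) : ℂ) * p.2, p.2) -
            F (p.1 + (j : ℂ) * p.2, p.2)) = F (p.1 + ((j + 1 : ℕ) : ℂ) * p.2, p.2) := by
          ring
        rw [e4, ← h2']
        generalize F (p.1 + (j : ℂ) * p.2, p.2) = a at h4' ⊢
        generalize F (p.1 + ((j + 1 + 1 : ℕ) : ℂ) * p.2, p.2) = c at h3' ⊢
        generalize F (p.1 + ((j + 1 : ℕ) : ℂ) * p.2, p.2) = b at h3' h4' ⊢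
        have hba : b - a ≠ 0 := sub_ne_zero.2 h4'
        have hab : a - b ≠ 0 := sub_ne_zero.2 h4'.symm
        have hcb : c - b ≠ 0 := sub_ne_zero.2 h3'
        have e5 : 1 + ((c - b)⁻¹ + (a - b)⁻¹) * (b - a) = (b - a) / (c - b) := by
          field_simp
          ring
        rw [e5, div_div_eq_mul_div, mul_div_cancel_left₀ _ hba]
  filter_upwards [key j] with p hp
  unfold yc
  rw [hp]

end Pool.Agent.MP_ae5b4e_an_NB1B
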