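import Pool.Agent.Lib.MP_ae5b4e_an_NB1B.Defs

/-!
# MP_ae5b4e_an, NB_1 section 3: relations, elementary properties and change of variables
-/

noncomputable section

namespace Pool.Agent.MP_ae5b4e_an_NB1B

open Complex Set Filter Topology Metric
open Pool.Agent.MP_ae5b4e_an_NBT

variable {m : ℕ} {y Y : ℕ → ℂ × ℂ → ℂ} {ψ ψ' : ℕ → ℂ → ℂ} {u : ℂ}

private lemma all_le {X : Type*} {l : Filter X} {P : ℕ → X → Prop} {m : ℕ}
    (h : ∀ j ≤ m, ∀ᶠ v in l, P j v) : ∀ᶠ v in l, ∀ j ≤ m, P j v := by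
  have h1 : ∀ᶠ v in l, ∀ j ∈ Finset.range (m + 1), P j v :=
    (Filter.eventually_all_finset _).2 fun j hj =>
      h j (Nat.lt_succ_iff.1 (Finset.mem_range.1 hj))
  filter_upwards [h1] with v hv j hj
  exact hv j (Finset.mem_range.2 (Nat.lt_succ_of_le hj))

private lemma tendsto_line (u : ℂ) :
    Tendsto (fun v : ℂ => ((v, 0) : ℂ × ℂ)) (𝓝 u) (𝓝 ((u, 0) : ℂ × ℂ)) := by
  have h : Continuous fun v : ℂ => ((v, 0) : ℂ × ℂ) := by fun_prop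
  exact h.tendsto u

theorem Rl.eventually (h : Rl m y ψ u) : ∀ᶠ v in 𝓝 u, Rl m y ψ v := by
  have h1 : ∀ᶠ v in 𝓝 u, ∀ j ≤ m, AnalyticAt ℂ (ψ j) v :=
    all_le fun j hj => (h.1 j hj).eventually_analyticAt
  have h2 := (tendsto_line u).eventually (eventually_eventually_nhds.2 h.2)
  filter_upwards [h1, h2] with v hv1 hv2
  exact ⟨hv1, hv2⟩

/-- congruence; the family and the coefficients may be changed off the germs -/
theorem Rl.congr (h : Rl m y ψ u) (hy : ∀ j ≤ m, y j =ᶠ[𝓝 (u, 0)] Y j)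
    (h0 : ∀ j ≤ m, AnalyticAt ℂ (y j) (u, 0)) (h1 : ∀ j ≤ m, y j (u, 0) = u)
    (hψ : ∀ j ≤ m, ψ j =ᶠ[𝓝 u] ψ' j) : Rl m Y ψ' u := by
  refine ⟨fun j hj => (h.1 j hj).congr (hψ j hj), ?_⟩
  have ha : ∀ᶠ p in 𝓝 ((u, 0) : ℂ × ℂ), ∀ j ≤ m, y j p = Y j p := all_le hy
  have hb : ∀ᶠ p in 𝓝 ((u, 0) : ℂ × ℂ), ∀ j ≤ m, fderiv ℂ (y j) p = fderiv ℂ (Y j) p :=
    all_le fun j hj => (hy j hj).fderiv
  have hc : ∀ᶠ p in 𝓝 ((u, 0) : ℂ × ℂ), ∀ j ≤ m, ψ j (y j p) = ψ' j (y j p) := by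
    refine all_le fun j hj => ?_
    have ht : Tendsto (y j) (𝓝 ((u, 0) : ℂ × ℂ)) (𝓝 u) := by
      have := (h0 j hj).continuousAt.tendsto
      rwa [h1 j hj] at this
    exact ht.eventually (hψ j hj)
  filter_upwards [h.2, ha, hb, hc] with p hp hpa hpb hpc
  rw [← hp]
  refine Finset.sum_congr rfl fun j hj => ?_
  have hj' : j ≤ m := Nat.lt_succ_iff.1 (Finset.mem_range.1 hj)
  rw [← hpa j hj', ← hpb j hj', hpc j hj']

theorem Rl.smul (h : Rl m y ψ u) (c : ℂ) : Rl m y (fun j v => c * ψ j v) u := by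
  refine ⟨fun j hj => analyticAt_const.mul (h.1 j hj), ?_⟩
  filter_upwards [h.2] with p hp
  have h1 : ∑ j ∈ Finset.range (m + 1), (c * ψ j (y j p)) • fderiv ℂ (y j) p =
      c • ∑ j ∈ Finset.range (m + 1), ψ j (y j p) • fderiv ℂ (y j) p := by
    rw [Finset.smul_sum]
    exact Finset.sum_congr rfl fun j _ => mul_smul _ _ _
  rw [h1, hp]
  refine ContinuousLinearMap.ext fun w => ?_
  simp

theorem Rl.sub (h : Rl m y ψ u) (h' : Rl m y ψ' u) : Rl m y (fun j v => ψ j v - ψ' j v) u := by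
  refine ⟨fun j hj => (h.1 j hj).sub (h'.1 j hj), ?_⟩
  filter_upwards [h.2, h'.2] with p hp hp'
  have h1 : ∑ j ∈ Finset.range (m + 1), (ψ j (y j p) - ψ' j (y j p)) • fderiv ℂ (y j) p =
      ∑ j ∈ Finset.range (m + 1), ψ j (y j p) • fderiv ℂ (y j) p -
      ∑ j ∈ Finset.range (m + 1), ψ' j (y j p) • fderiv ℂ (y j) p := by
    rw [← Finset.sum_sub_distrib]
    refine Finset.sum_congr rfl fun j _ => ContinuousLinearMap.ext fun w => ?_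
    simp [sub_mul]
  rw [h1, hp, hp', sub_zero]

theorem Mx.congr {k : ℕ} (h : Mx m k y u) (hy : ∀ j ≤ m, y j =ᶠ[𝓝 (u, 0)] Y j)
    (h0 : ∀ j ≤ m, AnalyticAt ℂ (y j) (u, 0)) (h1 : ∀ j ≤ m, y j (u, 0) = u) : Mx m k Y u := by
  intro ψ hψ hm
  refine h ψ (Rl.congr hψ (fun j hj => (hy j hj).symm) (fun j hj => (h0 j hj).congr (hy j hj))
    (fun j hj => ?_) fun j _ => EventuallyEq.rfl) hm
  exact ((hy j hj).symm.eq_of_nhds).trans (h1 j hj)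

/-- a local analytic inverse -/
private lemma loc_inv {f : ℂ → ℂ} {w : ℂ} (hM : AnalyticAt ℂ f w) (h : deriv f w ≠ 0) :
    ∃ g : ℂ → ℂ, AnalyticAt ℂ g (f w) ∧ g (f w) = w ∧
      (∀ᶠ z in 𝓝 (f w), f (g z) = z) ∧ ∀ᶠ z in 𝓝 w, g (f z) = z := by
  have ha := hM.analyticAt_localInverse h
  have hl : ∀ᶠ z in 𝓝 w, hM.hasStrictDerivAt.localInverse _ _ _ h (f z) = z :=
    hM.hasStrictDerivAt.eventually_left_inverse h
  have hr := hM.hasStrictDerivAt.eventually_right_inverse h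
  exact ⟨hM.hasStrictDerivAt.localInverse _ _ _ h, ha, hl.self_of_nhds, hr, hl⟩

private lemma map_nhds_1 {f : ℂ → ℂ} {w : ℂ} (hM : AnalyticAt ℂ f w) (h : deriv f w ≠ 0) :
    map f (𝓝 w) = 𝓝 (f w) := hM.hasStrictDerivAt.map_nhds_eq h

private lemma deriv_ne {θ : ℂ → ℂ} (hθ : AnalyticAt ℂ θ u) (hθd : deriv θ u ≠ 0) :
    ∀ᶠ v in 𝓝 u, deriv θ v ≠ 0 :=
  hθ.deriv.continuousAt.eventually_ne hθd

/-- the chain rule for the change of variables -/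
private lemma key {θ : ℂ → ℂ} {Θ : ℂ × ℂ → ℂ × ℂ} (hΘ : AnalyticAt ℂ Θ (u, 0))
    (hΘ0 : Θ (u, 0) = (θ u, 0))
    (hθ : AnalyticAt ℂ θ u)
    (hY : ∀ j ≤ m, AnalyticAt ℂ (Y j) (u, 0)) (hY0 : ∀ j ≤ m, Y j (u, 0) = u)
    (hy : ∀ j ≤ m, AnalyticAt ℂ (y j) (θ u, 0))
    (hyY : ∀ j ≤ m, ∀ᶠ p in 𝓝 ((u, 0) : ℂ × ℂ), y j (Θ p) = θ (Y j p)) (a : ℕ → ℂ → ℂ) :
    ∀ᶠ p in 𝓝 ((u, 0) : ℂ × ℂ),
      ∑ j ∈ Finset.range (m + 1), (a j (θ (Y j p)) * deriv θ (Y j p)) • fderiv ℂ (Y j) p =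
      (∑ j ∈ Finset.range (m + 1), a j (y j (Θ p)) • fderiv ℂ (y j) (Θ p)).comp
        (fderiv ℂ Θ p) := by
  have hΘt : Tendsto Θ (𝓝 ((u, 0) : ℂ × ℂ)) (𝓝 ((θ u, 0) : ℂ × ℂ)) := by
    have := hΘ.continuousAt.tendsto
    rwa [hΘ0] at this
  have h1 : ∀ᶠ p in 𝓝 ((u, 0) : ℂ × ℂ), ∀ j ≤ m, DifferentiableAt ℂ (y j) (Θ p) := by
    refine all_le fun j hj => ?_
    have := hΘt.eventually (hy j hj).eventually_analyticAt
    filter_upwards [this] with p hp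
    exact hp.differentiableAt
  have h2 : ∀ᶠ p in 𝓝 ((u, 0) : ℂ × ℂ), DifferentiableAt ℂ Θ p := by
    filter_upwards [hΘ.eventually_analyticAt] with p hp
    exact hp.differentiableAt
  have h3 : ∀ᶠ p in 𝓝 ((u, 0) : ℂ × ℂ), ∀ j ≤ m, DifferentiableAt ℂ θ (Y j p) := by
    refine all_le fun j hj => ?_
    have ht : Tendsto (Y j) (𝓝 ((u, 0) : ℂ × ℂ)) (𝓝 u) := by
      have := (hY j hj).continuousAt.tendsto
      rwa [hY0 j hj] at this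
    filter_upwards [ht.eventually hθ.eventually_analyticAt] with p hp
    exact hp.differentiableAt
  have h4 : ∀ᶠ p in 𝓝 ((u, 0) : ℂ × ℂ), ∀ j ≤ m, DifferentiableAt ℂ (Y j) p := by
    refine all_le fun j hj => ?_
    filter_upwards [(hY j hj).eventually_analyticAt] with p hp
    exact hp.differentiableAt
  have h5 : ∀ᶠ p in 𝓝 ((u, 0) : ℂ × ℂ), ∀ j ≤ m, ∀ᶠ q in 𝓝 p, y j (Θ q) = θ (Y j q) :=
    all_le fun j hj => eventually_eventually_nhds.2 (hyY j hj)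
  filter_upwards [h1, h2, h3, h4, h5] with p hp1 hp2 hp3 hp4 hp5
  rw [ContinuousLinearMap.finsetSum_comp]
  refine Finset.sum_congr rfl fun j hj => ?_
  have hj' : j ≤ m := Nat.lt_succ_iff.1 (Finset.mem_range.1 hj)
  have e1 : HasFDerivAt (fun q => y j (Θ q)) ((fderiv ℂ (y j) (Θ p)).comp (fderiv ℂ Θ p)) p :=
    HasFDerivAt.comp p (hp1 j hj').hasFDerivAt hp2.hasFDerivAt
  have e2 : HasFDerivAt (fun q => θ (Y j q)) (deriv θ (Y j p) • fderiv ℂ (Y j) p) p :=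
    HasDerivAt.comp_hasFDerivAt p (hp3 j hj').hasDerivAt (hp4 j hj').hasFDerivAt
  have e3 : (fderiv ℂ (y j) (Θ p)).comp (fderiv ℂ Θ p) = deriv θ (Y j p) • fderiv ℂ (Y j) p :=
    (e1.congr_of_eventuallyEq ((hp5 j hj').mono fun q hq => hq.symm)).unique e2
  rw [ContinuousLinearMap.smul_comp, e3, smul_smul, (hp5 j hj').self_of_nhds]

/-- **change of variables** -/
theorem rl_change {θ : ℂ → ℂ} {Θ : ℂ × ℂ → ℂ × ℂ} (hΘ : AnalyticAt ℂ Θ (u, 0))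
    (hΘ0 : Θ (u, 0) = (θ u, 0))
    (hΘi : ∃ e : (ℂ × ℂ) ≃L[ℂ] (ℂ × ℂ), HasFDerivAt Θ (e : ℂ × ℂ →L[ℂ] ℂ × ℂ) (u, 0))
    (hθ : AnalyticAt ℂ θ u) (hθd : deriv θ u ≠ 0)
    (hY : ∀ j ≤ m, AnalyticAt ℂ (Y j) (u, 0)) (hY0 : ∀ j ≤ m, Y j (u, 0) = u)
    (hy : ∀ j ≤ m, AnalyticAt ℂ (y j) (θ u, 0)) (hy0 : ∀ j ≤ m, y j (θ u, 0) = θ u)
    (hyY : ∀ j ≤ m, ∀ᶠ p in 𝓝 ((u, 0) : ℂ × ℂ), y j (Θ p) = θ (Y j p)) (a : ℕ → ℂ → ℂ) :
    Rl m y a (θ u) ↔ Rl m Y (fun j v => a j (θ v) * deriv θ v) u := by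
  have hkey := key hΘ hΘ0 hθ hY hY0 hy hyY a
  have hΘt : Tendsto Θ (𝓝 ((u, 0) : ℂ × ℂ)) (𝓝 ((θ u, 0) : ℂ × ℂ)) := by
    have := hΘ.continuousAt.tendsto
    rwa [hΘ0] at this
  constructor
  · intro h
    refine ⟨fun j hj => ?_, ?_⟩
    · exact (AnalyticAt.fun_comp (g := a j) (f := θ) (h.1 j hj) hθ).mul hθ.deriv
    · filter_upwards [hkey, hΘt.eventually h.2] with p hp hp2
      rw [hp, hp2, ContinuousLinearMap.zero_comp]
  · intro h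
    obtain ⟨σ, hσ, hσ0, hσr, hσl⟩ := loc_inv hθ hθd
    have hσt : Tendsto σ (𝓝 (θ u)) (𝓝 u) := by
      have := hσ.continuousAt.tendsto
      rwa [hσ0] at this
    refine ⟨fun j hj => ?_, ?_⟩
    · have hj1 : AnalyticAt ℂ (fun v => a j (θ v) * deriv θ v) (σ (θ u)) := by
        rw [hσ0]
        exact h.1 j hj
      have hj2 : AnalyticAt ℂ (fun w => a j (θ (σ w)) * deriv θ (σ w)) (θ u) :=
        AnalyticAt.fun_comp (g := fun v => a j (θ v) * deriv θ v) (f := σ) hj1 hσ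
      have hj3 : AnalyticAt ℂ (fun w => deriv θ (σ w)) (θ u) := by
        have h6 : AnalyticAt ℂ (deriv θ) (σ (θ u)) := by
          rw [hσ0]
          exact hθ.deriv
        exact AnalyticAt.fun_comp (g := deriv θ) (f := σ) h6 hσ
      have hj4 : AnalyticAt ℂ (fun w => (a j (θ (σ w)) * deriv θ (σ w)) / deriv θ (σ w)) (θ u) :=
        hj2.div hj3 (by
          rw [hσ0]
          exact hθd)
      refine hj4.congr ?_
      filter_upwards [hσr, hσt.eventually (deriv_ne hθ hθd)] with w hw1 hw2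
      rw [mul_div_assoc, div_self hw2, mul_one, hw1]
    · obtain ⟨e, he⟩ := hΘi
      have hef : fderiv ℂ Θ (u, 0) = (e : ℂ × ℂ →L[ℂ] ℂ × ℂ) := he.fderiv
      have hcont : ContinuousAt (fderiv ℂ Θ) (u, 0) := hΘ.fderiv.continuousAt
      have hinv : ∀ᶠ p in 𝓝 ((u, 0) : ℂ × ℂ),
          fderiv ℂ Θ p ∈ Set.range ((↑) : ((ℂ × ℂ) ≃L[ℂ] (ℂ × ℂ)) → _) := by
        apply hcont.eventually
        rw [hef]
        exact ContinuousLinearEquiv.nhds e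
      have hs : HasStrictFDerivAt Θ (e : ℂ × ℂ →L[ℂ] ℂ × ℂ) (u, 0) := by
        rw [← hef]
        exact hΘ.hasStrictFDerivAt
      have hmap : map Θ (𝓝 ((u, 0) : ℂ × ℂ)) = 𝓝 ((θ u, 0) : ℂ × ℂ) := by
        rw [← hΘ0]
        exact hs.map_nhds_eq_of_equiv
      rw [← hmap, eventually_map]
      filter_upwards [hkey, h.2, hinv] with p hp1 hp2 hp3
      rw [hp1] at hp2
      obtain ⟨e', he'⟩ := hp3
      rw [← he'] at hp2
      refine ContinuousLinearMap.ext fun w => ?_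
      have h7 := congrArg (fun T : ℂ × ℂ →L[ℂ] ℂ => T (e'.symm w)) hp2
      simpa using h7

private lemma mo_mul {θ : ℂ → ℂ} (a : ℕ → ℂ → ℂ) (j : ℕ) (v : ℂ) :
    Mo m j (fun i v => a i (θ v) * deriv θ v) v = Mo m j a (θ v) * deriv θ v := by
  unfold Mo lam
  simp only [← Finset.sum_mul, ← mul_assoc]

private lemma mo_congr {a b : ℕ → ℂ → ℂ} {j : ℕ} {v w : ℂ} (h : ∀ i ≤ m, a i v = b i w) :
    Mo m j a v = Mo m j b w := by
  unfold Mo lam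
  refine Finset.sum_congr rfl fun l hl => ?_
  have h1 := Finset.mem_range.1 hl
  congr 1
  refine Finset.sum_congr rfl fun i hi => ?_
  have h2 := Finset.mem_range.1 hi
  exact h i (by omega)

/-- maximality under a change of variables -/
theorem mx_change {k : ℕ} {θ : ℂ → ℂ} {Θ : ℂ × ℂ → ℂ × ℂ} (hΘ : AnalyticAt ℂ Θ (u, 0))
    (hΘ0 : Θ (u, 0) = (θ u, 0))
    (hΘi : ∃ e : (ℂ × ℂ) ≃L[ℂ] (ℂ × ℂ), HasFDerivAt Θ (e : ℂ × ℂ →L[ℂ] ℂ × ℂ) (u, 0))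
    (hθ : AnalyticAt ℂ θ u) (hθd : deriv θ u ≠ 0)
    (hY : ∀ j ≤ m, AnalyticAt ℂ (Y j) (u, 0)) (hY0 : ∀ j ≤ m, Y j (u, 0) = u)
    (hy : ∀ j ≤ m, AnalyticAt ℂ (y j) (θ u, 0)) (hy0 : ∀ j ≤ m, y j (θ u, 0) = θ u)
    (hyY : ∀ j ≤ m, ∀ᶠ p in 𝓝 ((u, 0) : ℂ × ℂ), y j (Θ p) = θ (Y j p)) :
    Mx m k y (θ u) ↔ Mx m k Y u := by
  have hchg := fun a => rl_change hΘ hΘ0 hΘi hθ hθd hY hY0 hy hy0 hyY a
  have hθt : Tendsto θ (𝓝 u) (𝓝 (θ u)) := hθ.continuousAt.tendsto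
  have hmap := map_nhds_1 hθ hθd
  constructor
  · intro h ψ hψ hm
    obtain ⟨σ, hσ, hσ0, hσr, hσl⟩ := loc_inv hθ hθd
    obtain ⟨a, ha⟩ : ∃ a : ℕ → ℂ → ℂ, a = fun j w => ψ j (σ w) / deriv θ (σ w) := ⟨_, rfl⟩
    have hE : ∀ᶠ v in 𝓝 u, ∀ j, a j (θ v) * deriv θ v = ψ j v := by
      filter_upwards [hσl, deriv_ne hθ hθd] with v hv1 hv2 j
      rw [ha]
      beta_reduce
      rw [hv1, div_mul_cancel₀ _ hv2]
    have h1 : Rl m y a (θ u) := by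
      rw [hchg]
      exact hψ.congr (fun j _ => EventuallyEq.rfl) hY hY0 fun j _ =>
        hE.mono fun v hv => (hv j).symm
    have h2 : ∀ j ≤ k, ∀ᶠ w in 𝓝 (θ u), Mo m j a w = 0 := by
      intro j hj
      rw [← hmap, eventually_map]
      filter_upwards [hE, deriv_ne hθ hθd, hm j hj] with v hv1 hv2 hv3
      have h3 : Mo m j (fun i v => a i (θ v) * deriv θ v) v = 0 := by
        rw [← hv3]
        exact mo_congr fun i _ => hv1 i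
      rw [mo_mul] at h3
      exact (mul_eq_zero.1 h3).resolve_right hv2
    intro j hj
    filter_upwards [hE, hθt.eventually (h a h1 h2 j hj)] with v hv1 hv2
    rw [← hv1 j, hv2, zero_mul]
  · intro h a ha hm j hj
    have h1 : ∀ᶠ v in 𝓝 u, a j (θ v) * deriv θ v = 0 := by
      refine h _ ((hchg a).1 ha) (fun i hi => ?_) j hj
      filter_upwards [hθt.eventually (hm i hi)] with v hv
      rw [mo_mul, hv, zero_mul]
    rw [← hmap, eventually_map]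
    filter_upwards [h1, deriv_ne hθ hθd] with v hv1 hv2
    exact (mul_eq_zero.1 hv1).resolve_right hv2

end Pool.Agent.MP_ae5b4e_an_NB1B
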