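import Pool.Agent.Lib.MP_ae5b4e_an_NB1B.Cont
import Pool.Agent.Lib.MP_ae5b4e_an_NB1B.Chain
import Pool.Agent.Lib.MP_ae5b4e_an_LAT.NDPropag

/-!
# MP_ae5b4e_an, NB_1 section 3: the distinguished relation of a germ, uniqueness and continuation
-/

noncomputable section

namespace Pool.Agent.MP_ae5b4e_an_NB1B

open Complex Set Filter Topology Metric
open Pool.Agent.MP_ae5b4e_an_NBT
open Pool.Agent.MP_ae5b4e_an_ND (Good)

variable {m k : ℕ} {κ κ' : ℂ → ℂ} {a a' : ℕ → ℂ → ℂ} {x : ℂ}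

private theorem mo_congr (ha : ∀ j ≤ m, a j =ᶠ[𝓝 x] a' j) (k : ℕ) :
    Mo m k a =ᶠ[𝓝 x] Mo m k a' := by
  have h1 : ∀ᶠ v in 𝓝 x, ∀ j ∈ Finset.range (m + 1), a j v = a' j v := by
    rw [Filter.eventually_all_finset]
    intro j hj
    exact ha j (Nat.lt_succ_iff.1 (Finset.mem_range.1 hj))
  filter_upwards [h1] with v hv
  unfold Mo lam
  refine Finset.sum_congr rfl fun l hl => ?_
  congr 1
  refine Finset.sum_congr rfl fun i hi => hv i ?_
  rw [Finset.mem_range] at hl hi ⊢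
  omega

private theorem mo_an (ha : ∀ j ≤ m, AnalyticAt ℂ (a j) x) (k : ℕ) :
    AnalyticAt ℂ (Mo m k a) x := by
  unfold Mo lam
  refine Finset.analyticAt_fun_sum _ fun l hl => ?_
  refine analyticAt_const.mul (Finset.analyticAt_fun_sum _ fun i hi => ha i ?_)
  rw [Finset.mem_range] at hl hi
  omega

private theorem mo_smul (c : ℂ) (k : ℕ) (v : ℂ) :
    Mo m k (fun j v => c * a j v) v = c * Mo m k a v := by
  unfold Mo lam
  rw [Finset.mul_sum]
  refine Finset.sum_congr rfl fun l _ => ?_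
  rw [← Finset.mul_sum]
  ring

private theorem mo_sub (k : ℕ) (v : ℂ) :
    Mo m k (fun j v => a j v - a' j v) v = Mo m k a v - Mo m k a' v := by
  unfold Mo lam
  rw [← Finset.sum_sub_distrib]
  refine Finset.sum_congr rfl fun l _ => ?_
  rw [Finset.sum_sub_distrib]
  ring

private theorem an_ball (hκ : AnalyticAt ℂ κ x) : ∃ ε > 0, AnalyticOnNhd ℂ κ (ball x ε) := by
  obtain ⟨ε, hε, h⟩ := Metric.eventually_nhds_iff_ball.1 hκ.eventually_analyticAt
  exact ⟨ε, hε, fun z hz => h z hz⟩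

private theorem yc_an (hκ : AnalyticAt ℂ κ x) (m : ℕ) : ∀ j ≤ m, AnalyticAt ℂ (yc κ j) (x, 0) := by
  obtain ⟨ε, hε, h⟩ := an_ball hκ
  exact fun j hj => (fam_yc m isOpen_ball h).an j hj x (mem_ball_self hε)

private theorem yc_zero (hκ : AnalyticAt ℂ κ x) (m : ℕ) : ∀ j ≤ m, yc κ j (x, 0) = x := by
  obtain ⟨ε, hε, h⟩ := an_ball hκ
  exact fun j hj => (fam_yc m isOpen_ball h).zero j hj x (mem_ball_self hε)

theorem Stt.congr (h : Stt m k κ a x) (hκ : κ =ᶠ[𝓝 x] κ')
    (ha : ∀ j ≤ m, a j =ᶠ[𝓝 x] a' j) : Stt m k κ' a' x where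
  good := h.good.congr hκ
  rl := h.rl.congr (fun j _ => yc_congr h.good.1 hκ j) (yc_an h.good.1 m) (yc_zero h.good.1 m) ha
  mom := by
    intro j hj
    filter_upwards [h.mom j hj, mo_congr ha j] with v h1 h2
    rw [← h2, h1]
  ode := by
    filter_upwards [h.ode, (mo_congr ha k).eventually_nhds, hκ] with v h1 h2 h3
    have h4 : Mo m k a =ᶠ[𝓝 v] Mo m k a' := h2
    rw [← h3, ← h4.eq_of_nhds]
    exact h1.congr_of_eventuallyEq h4.symm
  ne := by
    rw [← (mo_congr ha k).self_of_nhds]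
    exact h.ne
  mx := h.mx.congr (fun j _ => yc_congr h.good.1 hκ j) (yc_an h.good.1 m) (yc_zero h.good.1 m)

theorem Stt.eventually (h : Stt m k κ a x) : ∀ᶠ v in 𝓝 x, Stt m k κ a v := by
  obtain ⟨ε, hε, hball⟩ := an_ball h.good.1
  have h1 : ∀ᶠ v in 𝓝 x, ∀ j ∈ Finset.range k, ∀ᶠ u in 𝓝 v, Mo m j a u = 0 := by
    rw [Filter.eventually_all_finset]
    intro j hj
    exact (h.mom j (Finset.mem_range.1 hj)).eventually_nhds
  have h2 : ∀ᶠ v in 𝓝 x, Mo m k a v ≠ 0 :=
    (mo_an h.rl.1 k).continuousAt.eventually_ne h.ne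
  have h3 : ∀ᶠ v in 𝓝 x, Mx m k (yc κ) v := by
    filter_upwards [ball_mem_nhds x hε] with v hv
    exact mx_persist (fam_yc m isOpen_ball hball) (convex_ball x ε) (mem_ball_self hε) h.mx v hv
  filter_upwards [h.good.eventually, h.rl.eventually, h1, h.ode.eventually_nhds, h2, h3] with v
    e1 e2 e3 e4 e5 e6
  exact ⟨e1, e2, fun j hj => e3 j (Finset.mem_range.2 hj), e4, e5, e6⟩

theorem Stt.smul (h : Stt m k κ a x) {c : ℂ} (hc : c ≠ 0) :
    Stt m k κ (fun j v => c * a j v) x where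
  good := h.good
  rl := h.rl.smul c
  mom := by
    intro j hj
    filter_upwards [h.mom j hj] with v h1
    rw [mo_smul, h1, mul_zero]
  ode := by
    have e : Mo m k (fun j v => c * a j v) = fun v => c * Mo m k a v := by
      funext v
      exact mo_smul c k v
    rw [e]
    filter_upwards [h.ode] with v h1
    have h2 := h1.const_mul c
    refine h2.congr_deriv ?_
    ring
  ne := by
    rw [mo_smul]
    exact mul_ne_zero hc h.ne
  mx := h.mx

theorem Stt.unique (h : Stt m k κ a x) (h' : Stt m k κ' a' x) (hκ : κ =ᶠ[𝓝 x] κ')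
    (he : Mo m k a x = Mo m k a' x) : ∀ j ≤ m, a j =ᶠ[𝓝 x] a' j := by
  have h'' : Stt m k κ a' x := h'.congr hκ.symm (fun j _ => Filter.EventuallyEq.rfl)
  have hmod : ∀ j, Mo m j (fun j v => a j v - a' j v) = fun v => Mo m j a v - Mo m j a' v := by
    intro j
    funext v
    exact mo_sub j v
  have hz : ∀ j ≤ k, ∀ᶠ v in 𝓝 x, Mo m j (fun j v => a j v - a' j v) v = 0 := by
    intro j hj
    rcases hj.lt_or_eq with hj | rfl
    · filter_upwards [h.mom j hj, h''.mom j hj] with v h1 h2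
      rw [mo_sub, h1, h2, sub_zero]
    · have h1 : ∀ᶠ v in 𝓝 x, AnalyticAt ℂ κ v ∧
          HasDerivAt (Mo m j fun j v => a j v - a' j v)
            (κ v * Mo m j (fun j v => a j v - a' j v) v) v := by
        filter_upwards [h.good.1.eventually_analyticAt, h.ode, h''.ode] with v h1 h2 h3
        refine ⟨h1, ?_⟩
        rw [hmod j]
        refine (h2.sub h3).congr_deriv ?_
        ring
      obtain ⟨ε, hε, hb⟩ := Metric.eventually_nhds_iff_ball.1 h1
      filter_upwards [ball_mem_nhds x hε] with v hv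
      by_contra hne
      have h2 := Pool.Agent.MP_ae5b4e_an_ND.ne_zero_of_ode (κ := κ)
        (f := Mo m j fun j v => a j v - a' j v) (c := x) (R := ε)
        (fun z hz => (hb z hz).1.continuousAt.continuousWithinAt)
        (fun z hz => (hb z hz).2) hv hne (mem_ball_self hε)
      apply h2
      rw [mo_sub, he, sub_self]
  intro j hj
  filter_upwards [h.mx _ (h.rl.sub h''.rl) hz j hj] with v hv
  exact sub_eq_zero.1 hv

/-- continuation to a disc -/
theorem Stt.ext {c : ℂ} {r : ℝ} (h : Stt m k κ a x) (hx : x ∈ ball c r)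
    (hκ : AnalyticOnNhd ℂ κ (ball c r)) :
    ∃ a' : ℕ → ℂ → ℂ, (∀ j ≤ m, AnalyticOnNhd ℂ (a' j) (ball c r)) ∧
      (∀ j ≤ m, a' j =ᶠ[𝓝 x] a j) ∧ ∀ v ∈ ball c r, Stt m k κ a' v := by
  have F := fam_yc m isOpen_ball hκ
  obtain ⟨b, hb1, hb2, hb3⟩ := rl_ext F (convex_ball c r) hx h.rl
  refine ⟨b, hb1, hb2, ?_⟩
  have hxs : Stt m k κ b x := h.congr Filter.EventuallyEq.rfl fun j hj => (hb2 j hj).symm
  have hMan : ∀ j, AnalyticOnNhd ℂ (Mo m j b) (ball c r) := fun j v hv =>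
    mo_an (fun i hi => hb1 i hi v hv) j
  have hpre : IsPreconnected (ball c r) := (convex_ball c r).isPreconnected
  have hmom : ∀ j < k, ∀ v ∈ ball c r, Mo m j b v = 0 := by
    intro j hj
    have h1 : EqOn (Mo m j b) 0 (ball c r) :=
      (hMan j).eqOn_zero_of_preconnected_of_eventuallyEq_zero hpre hx (hxs.mom j hj)
    exact fun v hv => h1 hv
  have hode : ∀ v ∈ ball c r, HasDerivAt (Mo m k b) (κ v * Mo m k b v) v := by
    have h1 : AnalyticOnNhd ℂ (fun v => deriv (Mo m k b) v - κ v * Mo m k b v) (ball c r) :=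
      fun v hv => ((hMan k v hv).deriv).sub ((hκ v hv).mul (hMan k v hv))
    have h2 : EqOn (fun v => deriv (Mo m k b) v - κ v * Mo m k b v) 0 (ball c r) := by
      refine h1.eqOn_zero_of_preconnected_of_eventuallyEq_zero hpre hx ?_
      filter_upwards [hxs.ode] with v h3
      rw [h3.deriv, sub_self]
      rfl
    intro v hv
    have h3 : deriv (Mo m k b) v - κ v * Mo m k b v = 0 := h2 hv
    rw [← sub_eq_zero.1 h3]
    exact (hMan k v hv).differentiableAt.hasDerivAt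
  intro v hv
  have hnhds : ball c r ∈ 𝓝 v := isOpen_ball.mem_nhds hv
  refine ⟨Pool.Agent.MP_ae5b4e_an_ND.propag κ c r hκ x hx h.good v hv, hb3 v hv, ?_, ?_, ?_, ?_⟩
  · intro j hj
    filter_upwards [hnhds] with u hu
    exact hmom j hj u hu
  · filter_upwards [hnhds] with u hu
    exact hode u hu
  · exact Pool.Agent.MP_ae5b4e_an_ND.ne_zero_of_ode hκ.continuousOn hode hx hxs.ne hv
  · exact mx_persist F (convex_ball c r) hx h.mx v hv

end Pool.Agent.MP_ae5b4e_an_NB1B
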