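import Pool.Agent.Lib.MP_ae5b4e_an_NB1B.Dist
import Pool.Agent.Lib.MP_ae5b4e_an_NB1B.SttL
import Pool.Agent.Lib.MP_ae5b4e_an_NB1B.Chg
import Pool.Agent.Lib.MP_ae5b4e_an_NB1B.Chain
import Pool.Agent.Lib.MP_ae5b4e_an_MERO.GoodOfFamily
import Pool.Agent.Lib.MP_ae5b4e_an_MERO.ExtBasic
import Pool.Agent.Lib.MP_ae5b4e_an_NB1.Defs

/-!
# MP_ae5b4e_an, NB_1 section 3: from labels to vertices
-/

noncomputable section

namespace Pool.Agent.MP_ae5b4e_an_NB1B

open Complex Set Filter Topology Metric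
open Pool.Agent.MP_ae5b4e_an_NBT
open Pool.Agent.MP_ae5b4e_an_NB1 (ARel)

variable {k : ℂ → ℂ} {F L : ℂ × ℂ → ℂ} {c ε : ℝ}

private lemma bas0_all {X : Type*} {l : Filter X} {P : ℕ → X → Prop} {m : ℕ}
    (h : ∀ j ≤ m, ∀ᶠ x in l, P j x) : ∀ᶠ x in l, ∀ j ≤ m, P j x := by
  have h1 : ∀ᶠ x in l, ∀ j ∈ Finset.range (m + 1), P j x := by
    rw [Filter.eventually_all_finset]
    intro j hj
    exact h j (by
      rw [Finset.mem_range] at hj
      omega)
  filter_upwards [h1] with x hx j hj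
  exact hx j (Finset.mem_range.2 (by omega))

private lemma bas0_St (hL : LabR F c ε L) {v : ℂ} (hv : v ∈ St (-ε) ε) : v ∈ St (-c) c := by
  have h1 := hL.ε_pos
  have h2 := hL.ε_le
  exact ⟨by linarith [hv.1], by linarith [hv.2]⟩

private lemma bas0_U (hC : Con k F c) {v : ℂ} (hv : v ∈ St (-c) c) :
    (v, (0:ℂ)) ∈ St (-c) c ×ˢ ball (0:ℂ) c := ⟨hv, mem_ball_self hC.pos⟩

private lemma bas0_an (hC : Con k F c) {v : ℂ} (hv : v ∈ St (-c) c) :
    AnalyticAt ℂ (fun s => F (s, 0)) v :=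
  AnalyticAt.fun_comp (f := fun s : ℂ => (s, (0:ℂ))) (hC.an (v, 0) (bas0_U hC hv))
    (analyticAt_id.prod analyticAt_const)

private lemma bas0_dne (hC : Con k F c) {v : ℂ} (hv : v ∈ St (-c) c) :
    deriv (fun s => F (s, 0)) v ≠ 0 := hC.dt (v, 0) (bas0_U hC hv)

private lemma bas0_map (hC : Con k F c) {v : ℂ} (hv : v ∈ St (-c) c) :
    map (fun s => F (s, 0)) (𝓝 v) = 𝓝 (F (v, 0)) :=
  (bas0_an hC hv).hasStrictDerivAt.map_nhds_eq (bas0_dne hC hv)

private lemma bas0_tend (t : ℂ) (j : ℂ) : Tendsto (fun p : ℂ × ℂ => (p.1 + j * p.2, p.2))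
    (𝓝 ((t, 0) : ℂ × ℂ)) (𝓝 ((t, 0) : ℂ × ℂ)) := by
  have h2 : Continuous fun p : ℂ × ℂ => (p.1 + j * p.2, p.2) := by fun_prop
  have h3 := h2.tendsto (t, 0)
  simpa using h3

/-- the vertices in terms of the labels -/
private lemma bas0_eq (hL : LabR F c ε L) {t : ℂ} (ht : t ∈ St (-ε) ε) (j : ℕ) :
    ∀ᶠ p in 𝓝 ((t, 0) : ℂ × ℂ), F (yL L j p, 0) = F (p.1 + j * p.2, p.2) := by
  have h1 : St (-ε) ε ×ˢ ball (0:ℂ) ε ∈ 𝓝 ((t, 0) : ℂ × ℂ) :=
    ((isOpen_St _ _).prod isOpen_ball).mem_nhds ⟨ht, mem_ball_self hL.ε_pos⟩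
  filter_upwards [(bas0_tend t j).eventually h1] with p hp
  exact hL.eq _ hp

/-- an analytic relation of the vertices is a relation of the labels -/
theorem rl_of_arel (hC : Con k F c) (hL : LabR F c ε L) {t : ℂ} (ht : t ∈ St (-ε) ε) {M : ℕ}
    (h : ARel M (fun j p => F (p.1 + j * p.2, p.2)) (t, 0)) :
    ∃ ψ₀ : ℕ → ℂ → ℂ, Rl M (yL L) ψ₀ t ∧ ∃ j ≤ M, ¬ ∀ᶠ v in 𝓝 t, ψ₀ j v = 0 := by
  obtain ⟨a, ha, ⟨j₀, hj₀, hne⟩, hrel⟩ := h
  have htc := bas0_St hL ht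
  simp only [mul_zero, add_zero] at ha hne
  have hfam := fam_yL hL M
  refine ⟨fun j v => a j (F (v, 0)) * deriv (fun s => F (s, 0)) v, ⟨?_, ?_⟩, j₀, hj₀, ?_⟩
  · intro j hj
    have h1 : AnalyticAt ℂ (fun v => a j (F (v, 0))) t :=
      AnalyticAt.fun_comp (g := a j) (f := fun v : ℂ => F (v, 0)) (ha j hj) (bas0_an hC htc)
    exact h1.mul (bas0_an hC htc).deriv
  · have e1 : ∀ᶠ p in 𝓝 ((t, 0) : ℂ × ℂ), ∀ j ≤ M,
        (fun p : ℂ × ℂ => F (p.1 + j * p.2, p.2)) =ᶠ[𝓝 p] fun p => F (yL L j p, 0) := by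
      refine bas0_all fun j _ => ?_
      filter_upwards [(bas0_eq hL ht j).eventually_nhds] with p hp
      exact hp.mono fun q hq => hq.symm
    have e2 : ∀ᶠ p in 𝓝 ((t, 0) : ℂ × ℂ), ∀ j ≤ M, AnalyticAt ℂ (yL L j) p :=
      bas0_all fun j hj => (hfam.an j hj t ht).eventually_analyticAt
    have e3 : ∀ᶠ p in 𝓝 ((t, 0) : ℂ × ℂ), ∀ j ≤ M, yL L j p ∈ St (-c) c := by
      refine bas0_all fun j hj => ?_
      refine (hfam.an j hj t ht).continuousAt.eventually_mem ((isOpen_St _ _).mem_nhds ?_)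
      rw [hfam.zero j hj t ht]
      exact htc
    filter_upwards [hrel, e1, e2, e3] with p h1 h2 h3 h4
    rw [← h1]
    refine Finset.sum_congr rfl fun j hj => ?_
    have hj' : j ≤ M := by
      rw [Finset.mem_range] at hj
      omega
    have h5 : fderiv ℂ (fun p : ℂ × ℂ => F (p.1 + j * p.2, p.2)) p =
        deriv (fun s => F (s, 0)) (yL L j p) • fderiv ℂ (yL L j) p := by
      rw [(h2 j hj').fderiv_eq]
      have h6 := (bas0_an hC (h4 j hj')).differentiableAt.hasDerivAt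
      have h7 := (h3 j hj').differentiableAt.hasFDerivAt
      exact (HasDerivAt.comp_hasFDerivAt p h6 h7).fderiv
    have h8 : F (p.1 + j * p.2, p.2) = F (yL L j p, 0) := (h2 j hj').eq_of_nhds
    rw [h5, h8, smul_smul]
  · intro hcon
    apply hne
    have h1 : ∀ᶠ v in 𝓝 t, a j₀ (F (v, 0)) = 0 := by
      filter_upwards [hcon, (isOpen_St _ _).mem_nhds htc] with v hv hv2
      rcases mul_eq_zero.1 hv with h2 | h2
      · exact h2
      · exact absurd h2 (bas0_dne hC hv2)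
    rw [← bas0_map hC htc]
    exact h1

/-- the value of `k` -/
theorem k_eq (hC : Con k F c) {v : ℂ} (hv : v ∈ St (-c) c) :
    k (F (v, 0)) = -(deriv (deriv fun s => F (s, 0)) v) / deriv (fun s => F (s, 0)) v ^ 2 :=
  (hC.toDat.ode hv).2

/-- the change of variables -/
private def bas0_T (F : ℂ × ℂ → ℂ) (p : ℂ × ℂ) : ℂ × ℂ := (F p, F (p.1 + p.2, p.2) - F p)

private def bas0_L : ℂ × ℂ →L[ℂ] ℂ × ℂ :=
  (ContinuousLinearMap.fst ℂ ℂ ℂ + ContinuousLinearMap.snd ℂ ℂ ℂ).prod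
    (ContinuousLinearMap.snd ℂ ℂ ℂ)

private lemma bas0_T_an {v : ℂ} (hF : AnalyticAt ℂ F (v, 0)) :
    AnalyticAt ℂ (bas0_T F) (v, 0) := by
  have h2 : AnalyticAt ℂ (fun p : ℂ × ℂ => F (bas0_L p)) (v, 0) := by
    have h3 : AnalyticAt ℂ F (bas0_L (v, 0)) := by
      have : bas0_L (v, 0) = (v, 0) := by
        show ((v + 0, 0) : ℂ × ℂ) = (v, 0)
        rw [add_zero]
      rw [this]
      exact hF
    exact h3.comp (bas0_L.analyticAt _)
  exact hF.prod (h2.sub hF)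

private lemma bas0_equiv {v : ℂ} (hF : AnalyticAt ℂ F (v, 0))
    (hd : deriv (fun s => F (s, 0)) v ≠ 0) :
    ∃ e : (ℂ × ℂ) ≃L[ℂ] (ℂ × ℂ),
      HasFDerivAt (bas0_T F) (e : ℂ × ℂ →L[ℂ] ℂ × ℂ) (v, 0) := by
  set A : ℂ × ℂ →L[ℂ] ℂ := fderiv ℂ F (v, 0) with hAd
  have hA : A (1, 0) ≠ 0 := by
    rw [hAd, ← (Pool.Agent.MP_ae5b4e_an_MERO.GoodOfFamily.hasStrictDerivAt_fst
      hF).hasDerivAt.deriv]
    exact hd
  have hder : HasFDerivAt (bas0_T F) (A.prod (A ∘L bas0_L - A)) (v, 0) := by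
    have h1 : HasFDerivAt F A (v, 0) := hF.differentiableAt.hasFDerivAt
    have h2 : HasFDerivAt (fun p : ℂ × ℂ => F (bas0_L p)) (A ∘L bas0_L) (v, 0) := by
      have h3 : HasFDerivAt F A (bas0_L (v, 0)) := by
        have : bas0_L (v, 0) = (v, 0) := by
          show ((v + 0, 0) : ℂ × ℂ) = (v, 0)
          rw [add_zero]
        rw [this]
        exact h1
      exact h3.comp _ bas0_L.hasFDerivAt
    exact h1.prodMk (h2.sub h1)
  set B : ℂ × ℂ →L[ℂ] ℂ × ℂ := A.prod (A ∘L bas0_L - A) with hB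
  have hlin : ∀ u w : ℂ, A (u, w) = u * A (1, 0) + w * A (0, 1) := by
    intro u w
    have : ((u, w) : ℂ × ℂ) = u • ((1, 0) : ℂ × ℂ) + w • ((0, 1) : ℂ × ℂ) := by simp
    rw [this, map_add, map_smul, map_smul, smul_eq_mul, smul_eq_mul]
  have hBa : ∀ u w : ℂ, B (u, w) = (u * A (1, 0) + w * A (0, 1), w * A (1, 0)) := by
    intro u w
    have h1 : B (u, w) = (A (u, w), A (u + w, w) - A (u, w)) := rfl
    rw [h1, hlin u w, hlin (u + w) w]
    ext
    · rfl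
    · simp only
      ring
  have hinj : Function.Injective B.toLinearMap := by
    rw [← LinearMap.ker_eq_bot, LinearMap.ker_eq_bot']
    rintro ⟨u, w⟩ h
    have h' : B (u, w) = 0 := h
    rw [hBa, Prod.mk_eq_zero, mul_eq_zero] at h'
    have hv : w = 0 := h'.2.resolve_right hA
    have hu : u = 0 := by
      have h3 := h'.1
      rw [hv, zero_mul, add_zero, mul_eq_zero] at h3
      exact h3.resolve_right hA
    rw [hu, hv]
    rfl
  exact ⟨(LinearEquiv.ofInjectiveEndo B.toLinearMap hinj).toContinuousLinearEquiv, hder⟩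

private lemma bas0_mo {m : ℕ} (a : ℕ → ℂ → ℂ) (j : ℕ) (θ : ℂ → ℂ) (d : ℂ → ℂ) (w : ℂ) :
    Mo m j (fun j w => a j (θ w) * d w) w = Mo m j a (θ w) * d w := by
  unfold Mo lam
  rw [Finset.sum_mul]
  refine Finset.sum_congr rfl fun l _ => ?_
  rw [← Finset.sum_mul, mul_assoc]

private lemma bas0_mo_congr {m : ℕ} {a b : ℕ → ℂ → ℂ} {j : ℕ} {w : ℂ}
    (h : ∀ i ≤ m, a i w = b i w) : Mo m j a w = Mo m j b w := by
  unfold Mo lam
  refine Finset.sum_congr rfl fun l hl => ?_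
  rw [Finset.sum_congr rfl fun i hi => h i (by
    rw [Finset.mem_range] at hi hl
    omega)]

/-- the state of the distinguished relation in the coordinate `x = F (v, 0)` -/
theorem stt_of_label (hC : Con k F c) (hL : LabR F c ε L) {m K : ℕ} {ψ : ℕ → ℂ → ℂ}
    (hD : Ds m K L ε ψ) {v : ℂ} (hv : v ∈ St (-ε) ε) {a : ℕ → ℂ → ℂ}
    (ha : ∀ j ≤ m, ∀ᶠ w in 𝓝 v, a j (F (w, 0)) * deriv (fun s => F (s, 0)) w = ψ j w) :
    Stt m K k a (F (v, 0)) := by
  have hvc := bas0_St hL hv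
  have hU := bas0_U hC hvc
  have hF := hC.an (v, 0) hU
  have hk := hC.reg (v, 0) hU
  have hd := bas0_dne hC hvc
  have hfam := fam_yL hL m
  have hnhds : St (-c) c ×ˢ ball (0:ℂ) c ∈ 𝓝 ((v, 0) : ℂ × ℂ) :=
    ((isOpen_St _ _).prod isOpen_ball).mem_nhds hU
  have hplus : ∀ᶠ p in 𝓝 ((v, 0) : ℂ × ℂ), p.1 + p.2 ∈ St (-c) c := by
    filter_upwards [(bas0_tend v 1).eventually hnhds] with p hp
    have h := hp.1
    simp only [one_mul] at h
    exact h
  have hminus : ∀ᶠ p in 𝓝 ((v, 0) : ℂ × ℂ), p.1 - p.2 ∈ St (-c) c := by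
    filter_upwards [(bas0_tend v (-1)).eventually hnhds] with p hp
    have h := hp.1
    simp only [neg_mul, one_mul, ← sub_eq_add_neg] at h
    exact h
  have hne : ∀ᶠ p in 𝓝 ((v, 0) : ℂ × ℂ), p.2 ≠ 0 → F (p.1 + p.2, p.2) ≠ F p := by
    filter_upwards [hnhds, hplus] with p h1 h2 h3
    exact hC.sep p h1 h3 h2
  have hfe : ∀ᶠ p in 𝓝 ((v, 0) : ℂ × ℂ), p.2 ≠ 0 →
      (F (p.1 + p.2, p.2) - F p)⁻¹ + (F (p.1 - p.2, p.2) - F p)⁻¹ = k (F p) := by
    filter_upwards [hnhds, hplus, hminus] with p h1 h2 h3 h4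
    exact hC.fe p h1 h4 h2 h3
  have hfy := fam_yc (κ := k) m (isOpen_analyticAt ℂ k) (fun x hx => hx)
  have hT0 : bas0_T F (v, 0) = (F (v, 0), 0) := by
    simp [bas0_T]
  have hyY : ∀ j ≤ m, ∀ᶠ p in 𝓝 ((v, 0) : ℂ × ℂ),
      yc k j (bas0_T F p) = (fun s => F (s, 0)) (yL L j p) := by
    intro j _
    filter_upwards [yc_family hF hk hne hfe j, bas0_eq hL hv j] with p h1 h2
    show yc k j (F p, F (p.1 + p.2, p.2) - F p) = F (yL L j p, 0)
    rw [h1, h2]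
  have hY : ∀ j ≤ m, AnalyticAt ℂ (yL L j) (v, 0) := fun j hj => hfam.an j hj v hv
  have hY0 : ∀ j ≤ m, yL L j (v, 0) = v := fun j hj => hfam.zero j hj v hv
  have hy : ∀ j ≤ m, AnalyticAt ℂ (yc k j) ((fun s => F (s, 0)) v, 0) :=
    fun j hj => hfy.an j hj _ hk
  have hy0 : ∀ j ≤ m, yc k j ((fun s => F (s, 0)) v, 0) = (fun s => F (s, 0)) v :=
    fun j hj => hfy.zero j hj _ hk
  have hall := bas0_all ha
  -- the relation
  have hrl : Rl m (yc k) a (F (v, 0)) := by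
    refine (rl_change (bas0_T_an hF) hT0 (bas0_equiv hF hd) (bas0_an hC hvc) hd hY hY0 hy hy0
      hyY a).2 ?_
    exact Rl.congr (hD.rl v hv) (fun j _ => EventuallyEq.rfl) hY hY0
      (fun j hj => (ha j hj).mono fun w hw => hw.symm)
  have hmo : ∀ j, ∀ᶠ w in 𝓝 v, Mo m j a (F (w, 0)) * deriv (fun s => F (s, 0)) w =
      Mo m j ψ w := by
    intro j
    filter_upwards [hall] with w hw
    rw [← bas0_mo a j (fun s => F (s, 0)) (deriv fun s => F (s, 0)) w]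
    exact bas0_mo_congr hw
  have hStv : St (-ε) ε ∈ 𝓝 v := (isOpen_St _ _).mem_nhds hv
  have hStc : St (-c) c ∈ 𝓝 v := (isOpen_St _ _).mem_nhds hvc
  have hone : ∀ᶠ w in 𝓝 v, Mo m K a (F (w, 0)) * deriv (fun s => F (s, 0)) w = 1 := by
    filter_upwards [hmo K, hStv] with w h1 h2
    rw [h1, hD.moK w h2]
  refine ⟨Pool.Agent.MP_ae5b4e_an_MERO.good_of_family hF hd hk hfe, hrl, ?_, ?_, ?_, ?_⟩
  · intro j hj
    rw [← bas0_map hC hvc]
    show ∀ᶠ w in 𝓝 v, Mo m j a (F (w, 0)) = 0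
    filter_upwards [hmo j, hStv, hStc] with w h1 h2 h3
    rw [hD.mo j hj w h2] at h1
    exact (mul_eq_zero.1 h1).resolve_right (bas0_dne hC h3)
  · rw [← bas0_map hC hvc]
    show ∀ᶠ w in 𝓝 v, HasDerivAt (Mo m K a) (k (F (w, 0)) * Mo m K a (F (w, 0))) (F (w, 0))
    have hB : AnalyticAt ℂ (Mo m K a) (F (v, 0)) := by
      unfold Mo lam
      refine Finset.analyticAt_fun_sum _ fun l hl => analyticAt_const.mul ?_
      refine Finset.analyticAt_fun_sum _ fun i hi => hrl.1 i ?_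
      rw [Finset.mem_range] at hi hl
      omega
    have hBw : ∀ᶠ w in 𝓝 v, AnalyticAt ℂ (Mo m K a) (F (w, 0)) :=
      (bas0_an hC hvc).continuousAt.eventually hB.eventually_analyticAt
    filter_upwards [hone.eventually_nhds, hBw, hStc] with w h1 h2 h3
    have h4 := (bas0_an hC h3).differentiableAt.hasDerivAt
    have h5 := (bas0_an hC h3).deriv.differentiableAt.hasDerivAt
    have h6 : HasDerivAt (Mo m K a) (deriv (Mo m K a) (F (w, 0))) (F (w, 0)) :=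
      h2.differentiableAt.hasDerivAt
    have h7 : HasDerivAt (fun w => Mo m K a (F (w, 0)))
        (deriv (Mo m K a) (F (w, 0)) * deriv (fun s => F (s, 0)) w) w :=
      HasDerivAt.comp (h₂ := Mo m K a) (h := fun s => F (s, 0)) w h6 h4
    have h8 := h7.mul h5
    have h9 : HasDerivAt (fun w => Mo m K a (F (w, 0)) * deriv (fun s => F (s, 0)) w) 0 w :=
      (hasDerivAt_const w (1:ℂ)).congr_of_eventuallyEq h1
    have h10 := h8.unique h9
    have h11 := h1.self_of_nhds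
    have hd3 := bas0_dne hC h3
    have h12 : deriv (Mo m K a) (F (w, 0)) = k (F (w, 0)) * Mo m K a (F (w, 0)) := by
      rw [k_eq hC h3]
      field_simp
      linear_combination h10
    rw [← h12]
    exact h6
  · intro h0
    have h1 := hone.self_of_nhds
    rw [h0, zero_mul] at h1
    exact zero_ne_one h1
  · exact (mx_change (bas0_T_an hF) hT0 (bas0_equiv hF hd) (bas0_an hC hvc) hd hY hY0 hy hy0
      hyY).2 (hD.mx v hv)

end Pool.Agent.MP_ae5b4e_an_NB1B
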