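import Pool.Agent.Lib.MP_ae5b4e_an_NB1B.Defs

/-!
# MP_ae5b4e_an, NB_1 section 3: the coefficients of a relation satisfy a linear system
-/

noncomputable section

namespace Pool.Agent.MP_ae5b4e_an_NB1B

open Complex Set Filter Topology Metric
open Pool.Agent.MP_ae5b4e_an_NBT

/-! ### one variable -/

/-- the derivatives at `0` of `(w - w 0) ^ i * w'` in terms of the derivatives of `w` -/
private def jt_gg (w : ℕ → ℂ) : ℕ → ℕ → ℂ
  | 0, n => w (n + 1)
  | i + 1, n => ∑ k ∈ Finset.range (n + 1),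
      (n.choose k : ℂ) * (if k = 0 then 0 else w k) * jt_gg w i (n - k)

private lemma jt_gg_zero (w : ℕ → ℂ) (n : ℕ) : jt_gg w 0 n = w (n + 1) := rfl

private lemma jt_gg_succ (w : ℕ → ℂ) (i n : ℕ) : jt_gg w (i + 1) n =
    ∑ k ∈ Finset.range (n + 1),
      (n.choose k : ℂ) * (if k = 0 then 0 else w k) * jt_gg w i (n - k) := rfl

private lemma jt_vanish (w : ℕ → ℂ) : ∀ i n, n < i → jt_gg w i n = 0 := by
  intro i
  induction i with
  | zero => exact fun n hn => absurd hn (Nat.not_lt_zero n)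
  | succ i ih =>
    intro n hn
    rw [jt_gg_succ]
    refine Finset.sum_eq_zero fun k hk => ?_
    rw [Finset.mem_range] at hk
    rcases Nat.eq_zero_or_pos k with h0 | h0
    · rw [if_pos h0, mul_zero, zero_mul]
    · rw [ih (n - k) (by omega), mul_zero]

private lemma jt_top (w : ℕ → ℂ) : ∀ n, jt_gg w n n = (n.factorial : ℂ) * (w 1) ^ (n + 1) := by
  intro n
  induction n with
  | zero => simp [jt_gg_zero]
  | succ n ih =>
    rw [jt_gg_succ, Finset.sum_eq_single 1]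
    · have h1 : n + 1 - 1 = n := by omega
      rw [if_neg one_ne_zero, h1, ih, Nat.choose_one_right, Nat.factorial_succ]
      push_cast
      ring
    · intro k hk hk1
      rw [Finset.mem_range] at hk
      rcases Nat.eq_zero_or_pos k with h0 | h0
      · rw [if_pos h0, mul_zero, zero_mul]
      · rw [jt_vanish w n (n + 1 - k) (by omega), mul_zero]
    · intro h
      exfalso
      apply h
      rw [Finset.mem_range]
      omega

private lemma jt_congr {w w' : ℕ → ℂ} (h : ∀ k, 1 ≤ k → w k = w' k) :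
    ∀ i n, jt_gg w i n = jt_gg w' i n := by
  intro i
  induction i with
  | zero => exact fun n => h (n + 1) (by omega)
  | succ i ih =>
    intro n
    rw [jt_gg_succ, jt_gg_succ]
    refine Finset.sum_congr rfl fun k _ => ?_
    rw [ih]
    by_cases h0 : k = 0
    · rw [if_pos h0, if_pos h0]
    · rw [if_neg h0, if_neg h0, h k (by omega)]

private lemma jt_id (v : ℂ) (k : ℕ) :
    iteratedDeriv k (fun z : ℂ => z - v) v = if k = 1 then 1 else 0 := by
  cases k with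
  | zero => rw [iteratedDeriv_zero, sub_self, if_neg (by omega)]
  | succ k =>
    have h1 : deriv (fun z : ℂ => z - v) = fun _ => 1 := by
      funext z
      rw [deriv_sub_const, deriv_id'']
    rw [iteratedDeriv_succ', h1, iteratedDeriv_const]
    by_cases hk : k = 0
    · rw [if_pos hk, if_pos (by omega)]
    · rw [if_neg hk, if_neg (by omega)]

private lemma jt_dslope_an {ψ : ℂ → ℂ} {v : ℂ} (hψ : AnalyticAt ℂ ψ v) :
    AnalyticAt ℂ (dslope ψ v) v := by
  obtain ⟨p, hp⟩ := hψ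
  exact ⟨_, hp.has_fpower_series_dslope_fslope⟩

private lemma jt_dslope {ψ : ℂ → ℂ} {v : ℂ} (hψ : AnalyticAt ℂ ψ v) (i : ℕ) :
    iteratedDeriv (i + 1) ψ v = (i + 1 : ℂ) * iteratedDeriv i (dslope ψ v) v := by
  have h0 := jt_dslope_an hψ
  have h1 : ψ = fun z => ψ v + (z - v) * dslope ψ v z := by
    funext z
    have := sub_smul_dslope ψ v z
    rw [smul_eq_mul] at this
    rw [this]
    ring
  have hA : ContDiffAt ℂ (i + 1 : ℕ) (fun z : ℂ => z - v) v := by fun_prop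
  have hB : ContDiffAt ℂ (i + 1 : ℕ) (dslope ψ v) v := h0.contDiffAt
  have h2 : iteratedDeriv (i + 1) ψ v =
      iteratedDeriv (i + 1) (fun z => ψ v + (z - v) * dslope ψ v z) v := by rw [← h1]
  rw [h2, iteratedDeriv_const_add (Nat.succ_pos i), iteratedDeriv_fun_mul hA hB,
    Finset.sum_eq_single 1]
  · rw [jt_id, if_pos rfl, Nat.choose_one_right]
    have h3 : i + 1 - 1 = i := by omega
    rw [h3]
    push_cast
    ring
  · intro k _ hk
    rw [jt_id, if_neg hk, mul_zero, zero_mul]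
  · intro h
    exfalso
    apply h
    rw [Finset.mem_range]
    omega

private lemma jt_fb {w : ℂ → ℂ} (hw : AnalyticAt ℂ w 0) : ∀ n : ℕ, ∀ ψ : ℂ → ℂ,
    AnalyticAt ℂ ψ (w 0) →
    iteratedDeriv n (fun E => ψ (w E) * deriv w E) 0 = ∑ i ∈ Finset.range (n + 1),
      iteratedDeriv i ψ (w 0) / (i.factorial : ℂ) *
        jt_gg (fun k => iteratedDeriv k w 0) i n := by
  intro n
  induction n using Nat.strong_induction_on with
  | _ n ih =>
    intro ψ hψ
    have hf1 := jt_dslope_an hψ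
    have h1 : (fun E => ψ (w E) * deriv w E) = (fun E => ψ (w 0) * deriv w E +
        (w E - w 0) * (dslope ψ (w 0) (w E) * deriv w E)) := by
      funext E
      have := sub_smul_dslope ψ (w 0) (w E)
      rw [smul_eq_mul] at this
      linear_combination -(deriv w E) * this
    have hwd : AnalyticAt ℂ (fun E => deriv w E) 0 := hw.deriv
    have hD0 : AnalyticAt ℂ (fun E => dslope ψ (w 0) (w E) * deriv w E) 0 :=
      (hf1.comp hw).mul hwd
    have hC0 : AnalyticAt ℂ (fun E => w E - w 0) 0 := hw.sub analyticAt_const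
    have hA : ContDiffAt ℂ (n : ℕ) (fun E => ψ (w 0) * deriv w E) 0 :=
      (analyticAt_const.mul hwd).contDiffAt
    have hB : ContDiffAt ℂ (n : ℕ)
        (fun E => (w E - w 0) * (dslope ψ (w 0) (w E) * deriv w E)) 0 :=
      (hC0.mul hD0).contDiffAt
    have hC : ContDiffAt ℂ (n : ℕ) (fun E => w E - w 0) 0 := hC0.contDiffAt
    have hD : ContDiffAt ℂ (n : ℕ) (fun E => dslope ψ (w 0) (w E) * deriv w E) 0 :=
      hD0.contDiffAt
    rw [h1, iteratedDeriv_fun_add hA hB, iteratedDeriv_const_mul_field,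
      iteratedDeriv_fun_mul hC hD]
    have hW : ∀ k, iteratedDeriv k (fun E => w E - w 0) 0 =
        if k = 0 then 0 else iteratedDeriv k w 0 := by
      intro k
      by_cases h0 : k = 0
      · rw [if_pos h0, h0, iteratedDeriv_zero, sub_self]
      · rw [if_neg h0]
        have h2 : (fun E => w E - w 0) = fun E => -w 0 + w E := by
          funext E
          ring
        rw [h2, iteratedDeriv_const_add (Nat.pos_of_ne_zero h0)]
    have hT : ∀ k ∈ Finset.range (n + 1),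
        (n.choose k : ℂ) * iteratedDeriv k (fun E => w E - w 0) 0 *
          iteratedDeriv (n - k) (fun E => dslope ψ (w 0) (w E) * deriv w E) 0 =
        ∑ i ∈ Finset.range n, iteratedDeriv i (dslope ψ (w 0)) (w 0) / (i.factorial : ℂ) *
          ((n.choose k : ℂ) * (if k = 0 then 0 else iteratedDeriv k w 0) *
            jt_gg (fun k => iteratedDeriv k w 0) i (n - k)) := by
      intro k hk
      rw [Finset.mem_range] at hk
      rw [hW]
      by_cases h0 : k = 0
      · rw [if_pos h0, mul_zero, zero_mul]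
        symm
        refine Finset.sum_eq_zero fun i _ => ?_
        rw [zero_mul, mul_zero]
      · rw [ih (n - k) (by omega) _ hf1]
        have hsub : Finset.range (n - k + 1) ⊆ Finset.range n := by
          intro i hi
          rw [Finset.mem_range] at hi ⊢
          omega
        rw [Finset.sum_subset hsub, Finset.mul_sum]
        · refine Finset.sum_congr rfl fun i _ => ?_
          ring
        · intro i _ hi
          rw [Finset.mem_range] at hi
          rw [jt_vanish _ i (n - k) (by omega), mul_zero]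
    rw [Finset.sum_congr rfl hT, Finset.sum_comm, Finset.sum_range_succ' _ n]
    have h3 : iteratedDeriv n (fun E => deriv w E) 0 = iteratedDeriv (n + 1) w 0 := by
      rw [iteratedDeriv_succ']
    rw [h3, iteratedDeriv_zero, jt_gg_zero, Nat.factorial_zero, Nat.cast_one, div_one, add_comm]
    congr 1
    refine Finset.sum_congr rfl fun i _ => ?_
    rw [← Finset.mul_sum, ← jt_gg_succ (fun k => iteratedDeriv k w 0) i n, jt_dslope hψ i,
      Nat.factorial_succ]
    have h4 : ((i : ℂ) + 1) ≠ 0 := Nat.cast_add_one_ne_zero _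
    have h5 : (i.factorial : ℂ) ≠ 0 := Nat.cast_ne_zero.2 (Nat.factorial_ne_zero _)
    push_cast
    field_simp

/-! ### the class -/

section
variable {𝒞 : Set (ℂ → ℂ)}

private lemma jt_sum_mem (h𝒞 : Cls 𝒞) {ι : Type} (s : Finset ι) (f : ι → ℂ → ℂ)
    (hf : ∀ i ∈ s, f i ∈ 𝒞) : (fun v => ∑ i ∈ s, f i v) ∈ 𝒞 := by
  classical
  induction s using Finset.induction_on with
  | empty =>
    simp only [Finset.sum_empty]
    exact h𝒞.const 0
  | insert i s hi ih =>
    have h1 : (fun v => ∑ j ∈ insert i s, f j v) = fun v => f i v + ∑ j ∈ s, f j v := by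
      funext v
      rw [Finset.sum_insert hi]
    rw [h1]
    exact h𝒞.add _ (hf i (Finset.mem_insert_self i s)) _
      (ih fun j hj => hf j (Finset.mem_insert_of_mem hj))

private lemma jt_gg_mem (h𝒞 : Cls 𝒞) {J : ℕ → ℂ → ℂ} (hJ : ∀ k, J k ∈ 𝒞) :
    ∀ i n, (fun v => jt_gg (fun k => J k v) i n) ∈ 𝒞 := by
  intro i
  induction i with
  | zero => exact fun n => hJ (n + 1)
  | succ i ih =>
    intro n
    have h1 : (fun v => jt_gg (fun k => J k v) (i + 1) n) =
        fun v => ∑ k ∈ Finset.range (n + 1),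
          ((n.choose k : ℂ) * (if k = 0 then 0 else J k v)) *
            jt_gg (fun k => J k v) i (n - k) := by
      funext v
      rw [jt_gg_succ]
    rw [h1]
    refine jt_sum_mem h𝒞 _ _ fun k _ => ?_
    refine h𝒞.mul _ (h𝒞.mul _ (h𝒞.const _) _ ?_) _ (ih (n - k))
    by_cases h0 : k = 0
    · simp only [if_pos h0]
      exact h𝒞.const 0
    · simp only [if_neg h0]
      exact hJ k

end

/-! ### relations at a point -/

section
variable {m : ℕ} {y : ℕ → ℂ × ℂ → ℂ} {U : Set ℂ} {ψ : ℕ → ℂ → ℂ}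

private lemma jt_rl_ev (hF : Fam m y U) {u : ℂ} (hu : u ∈ U) (h : Rl m y ψ u) :
    ∀ᶠ v in 𝓝 u, v ∈ U ∧ Rl m y ψ v := by
  have h1 : ∀ᶠ v in 𝓝 u, ∀ j ∈ Finset.range (m + 1), AnalyticAt ℂ (ψ j) v := by
    rw [Filter.eventually_all_finset]
    intro j hj
    exact (h.1 j (Nat.lt_succ_iff.1 (Finset.mem_range.1 hj))).eventually_analyticAt
  have hc : Tendsto (fun v : ℂ => (v, (0 : ℂ))) (𝓝 u) (𝓝 (u, 0)) := by
    have : Continuous (fun v : ℂ => (v, (0 : ℂ))) := by fun_prop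
    exact this.tendsto u
  have h2 := hc.eventually h.2.eventually_nhds
  filter_upwards [h1, h2, hF.isOpen.mem_nhds hu] with v hv1 hv2 hv3
  exact ⟨hv3, fun j hj => hv1 j (Finset.mem_range.2 (Nat.lt_succ_of_le hj)), hv2⟩

private lemma jt_e0 (hF : Fam m y U) {v : ℂ} (hv : v ∈ U) (h : Rl m y ψ v) :
    ∑ l ∈ Finset.range (m + 1), ψ l v = 0 := by
  have h1 := h.2.self_of_nhds
  have h2 := congrArg (fun L : ℂ × ℂ →L[ℂ] ℂ => L (1, 0)) h1
  simp only [ContinuousLinearMap.sum_apply, ContinuousLinearMap.smul_apply, smul_eq_mul,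
    ContinuousLinearMap.zero_apply] at h2
  refine Eq.trans ?_ h2
  refine Finset.sum_congr rfl fun l hl => ?_
  have hl' : l ≤ m := Nat.lt_succ_iff.1 (Finset.mem_range.1 hl)
  have h3 : HasDerivAt (fun t : ℂ => y l (t, 0)) (fderiv ℂ (y l) (v, 0) (1, 0)) v := by
    have h4 : HasFDerivAt (y l) (fderiv ℂ (y l) (v, 0)) (v, 0) :=
      (hF.an l hl' v hv).differentiableAt.hasFDerivAt
    have h5 : HasDerivAt (fun t : ℂ => (t, (0 : ℂ))) (1, 0) v :=
      (hasDerivAt_id v).prodMk (hasDerivAt_const v 0)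
    exact h4.comp_hasDerivAt v h5
  have h6 : HasDerivAt (fun t : ℂ => y l (t, 0)) 1 v := by
    refine (hasDerivAt_id v).congr_of_eventuallyEq ?_
    filter_upwards [hF.isOpen.mem_nhds hv] with t ht
    exact hF.zero l hl' t ht
  rw [h3.unique h6, mul_one, hF.zero l hl' v hv]

private lemma jt_w_an (hF : Fam m y U) {v : ℂ} (hv : v ∈ U) {l : ℕ} (hl : l ≤ m) :
    AnalyticAt ℂ (fun E => y l (v, E)) 0 := by
  have h1 : AnalyticAt ℂ (fun E : ℂ => (v, E)) 0 := analyticAt_const.prod analyticAt_id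
  exact (hF.an l hl v hv).comp h1

private lemma jt_w_deriv (hF : Fam m y U) {v : ℂ} (hv : v ∈ U) {l : ℕ} (hl : l ≤ m) :
    ∀ᶠ E in 𝓝 (0 : ℂ), deriv (fun E => y l (v, E)) E = fderiv ℂ (y l) (v, E) (0, 1) := by
  have hc : Tendsto (fun E : ℂ => (v, E)) (𝓝 0) (𝓝 (v, 0)) := by
    have : Continuous (fun E : ℂ => (v, E)) := by fun_prop
    exact this.tendsto 0
  filter_upwards [hc.eventually (hF.an l hl v hv).eventually_analyticAt] with E hE
  have h4 : HasFDerivAt (y l) (fderiv ℂ (y l) (v, E)) (v, E) :=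
    hE.differentiableAt.hasFDerivAt
  have h5 : HasDerivAt (fun t : ℂ => (v, t)) (0, 1) E :=
    (hasDerivAt_const E v).prodMk (hasDerivAt_id E)
  exact (h4.comp_hasDerivAt E h5).deriv

private lemma jt_ek (hF : Fam m y U) {v : ℂ} (hv : v ∈ U) (h : Rl m y ψ v) (n : ℕ) :
    ∑ l ∈ Finset.range (m + 1), ∑ i ∈ Finset.range (n + 1),
      iteratedDeriv i (ψ l) v / (i.factorial : ℂ) *
        jt_gg (fun k => iteratedDeriv k (fun E => y l (v, E)) 0) i n = 0 := by
  have hc : Tendsto (fun E : ℂ => (v, E)) (𝓝 0) (𝓝 (v, 0)) := by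
    have : Continuous (fun E : ℂ => (v, E)) := by fun_prop
    exact this.tendsto 0
  have h1 : ∀ᶠ E in 𝓝 (0 : ℂ), ∀ l ∈ Finset.range (m + 1),
      deriv (fun E => y l (v, E)) E = fderiv ℂ (y l) (v, E) (0, 1) := by
    rw [Filter.eventually_all_finset]
    intro l hl
    exact jt_w_deriv hF hv (Nat.lt_succ_iff.1 (Finset.mem_range.1 hl))
  have h2 : (fun E => ∑ l ∈ Finset.range (m + 1),
      ψ l (y l (v, E)) * deriv (fun E => y l (v, E)) E) =ᶠ[𝓝 0] fun _ => 0 := by
    filter_upwards [hc.eventually h.2, h1] with E hE1 hE2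
    have h3 := congrArg (fun L : ℂ × ℂ →L[ℂ] ℂ => L (0, 1)) hE1
    simp only [ContinuousLinearMap.sum_apply, ContinuousLinearMap.smul_apply, smul_eq_mul,
      ContinuousLinearMap.zero_apply] at h3
    refine Eq.trans ?_ h3
    refine Finset.sum_congr rfl fun l hl => ?_
    rw [hE2 l hl]
  have h4 := h2.iteratedDeriv_eq n
  have h5 : ∀ l ∈ Finset.range (m + 1), ContDiffAt ℂ (n : ℕ)
      (fun E => ψ l (y l (v, E)) * deriv (fun E => y l (v, E)) E) 0 := by
    intro l hl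
    have hl' : l ≤ m := Nat.lt_succ_iff.1 (Finset.mem_range.1 hl)
    have hw := jt_w_an hF hv hl'
    have hψ : AnalyticAt ℂ (ψ l) ((fun E => y l (v, E)) 0) := by
      change AnalyticAt ℂ (ψ l) (y l (v, 0))
      rw [hF.zero l hl' v hv]
      exact h.1 l hl'
    have h6 : AnalyticAt ℂ (fun E => ψ l (y l (v, E)) * deriv (fun E => y l (v, E)) E) 0 :=
      (AnalyticAt.comp (f := fun E => y l (v, E)) hψ hw).mul hw.deriv
    exact h6.contDiffAt
  rw [iteratedDeriv_fun_sum h5, iteratedDeriv_fun_const_zero] at h4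
  refine Eq.trans ?_ h4
  refine Finset.sum_congr rfl fun l hl => ?_
  have hl' : l ≤ m := Nat.lt_succ_iff.1 (Finset.mem_range.1 hl)
  have hw := jt_w_an hF hv hl'
  have h0 : y l (v, 0) = v := hF.zero l hl' v hv
  have h7 := jt_fb hw n (ψ l) (by
    rw [h0]
    exact h.1 l hl')
  rw [h0] at h7
  exact h7.symm

end

/-! ### linear differential relations -/

/-- there is a relation of order `r` with the constant leading coefficients `c` -/
private def jt_Gd (m : ℕ) (y : ℕ → ℂ × ℂ → ℂ) (U : Set ℂ) (𝒞 : Set (ℂ → ℂ)) (r : ℕ)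
    (κ : ℕ → ℂ) : Prop :=
  ∃ c : ℕ → ℕ → ℂ → ℂ, (∀ l i, c l i ∈ 𝒞) ∧ ∀ u ∈ U, ∀ ψ : ℕ → ℂ → ℂ, Rl m y ψ u →
    ∀ᶠ v in 𝓝 u, ∑ l ∈ Finset.range (m + 1), (κ l * iteratedDeriv r (ψ l) v +
      ∑ i ∈ Finset.range r, c l i v * iteratedDeriv i (ψ l) v) = 0

section
variable {m : ℕ} {y : ℕ → ℂ × ℂ → ℂ} {U : Set ℂ} {𝒞 : Set (ℂ → ℂ)}

private lemma jt_gd_zero (hF : Fam m y U) (h𝒞 : Cls 𝒞) : jt_Gd m y U 𝒞 0 (fun _ => 1) := by
  refine ⟨fun _ _ _ => 0, fun _ _ => h𝒞.const 0, fun u hu ψ h => ?_⟩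
  filter_upwards [jt_rl_ev hF hu h] with v hv
  have h1 := jt_e0 hF hv.1 hv.2
  refine Eq.trans ?_ h1
  refine Finset.sum_congr rfl fun l _ => ?_
  rw [Finset.range_zero, Finset.sum_empty, add_zero, one_mul, iteratedDeriv_zero]

private lemma jt_gd_base (hF : Fam m y U) (h𝒞 : Cls 𝒞)
    (hjet : ∀ j ≤ m, ∀ k, 1 ≤ k → ∃ f ∈ 𝒞, ∀ u ∈ U,
      f u = iteratedDeriv k (fun E => y j (u, E)) 0) (n : ℕ) :
    jt_Gd m y U 𝒞 n (fun l => (l : ℂ) ^ (n + 1)) := by
  have h1 : ∀ l k, ∃ f ∈ 𝒞, l ≤ m → 1 ≤ k → ∀ u ∈ U,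
      f u = iteratedDeriv k (fun E => y l (u, E)) 0 := by
    intro l k
    by_cases h : l ≤ m ∧ 1 ≤ k
    · obtain ⟨f, hf, hf2⟩ := hjet l h.1 k h.2
      exact ⟨f, hf, fun _ _ => hf2⟩
    · exact ⟨fun _ => 0, h𝒞.const 0, fun a b => absurd ⟨a, b⟩ h⟩
  choose J hJ hJ2 using h1
  refine ⟨fun l i v => (1 / (i.factorial : ℂ)) * jt_gg (fun k => J l k v) i n, ?_, ?_⟩
  · exact fun l i => h𝒞.mul _ (h𝒞.const _) _ (jt_gg_mem h𝒞 (hJ l) i n)
  · intro u hu ψ h
    filter_upwards [jt_rl_ev hF hu h] with v hv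
    have h2 := jt_ek hF hv.1 hv.2 n
    refine Eq.trans ?_ h2
    refine Finset.sum_congr rfl fun l hl => ?_
    have hl' : l ≤ m := Nat.lt_succ_iff.1 (Finset.mem_range.1 hl)
    have h3 : ∀ i, jt_gg (fun k => J l k v) i n =
        jt_gg (fun k => iteratedDeriv k (fun E => y l (v, E)) 0) i n := fun i =>
      jt_congr (fun k hk => hJ2 l k hl' hk v hv.1) i n
    have h4 : iteratedDeriv 1 (fun E => y l (v, E)) 0 = l := by
      rw [iteratedDeriv_one, (jt_w_deriv hF hv.1 hl').self_of_nhds]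
      exact hF.der l hl' v hv.1
    rw [Finset.sum_range_succ, jt_top, h4, add_comm]
    congr 1
    · refine Finset.sum_congr rfl fun i _ => ?_
      rw [h3]
      ring
    · have h5 : (n.factorial : ℂ) ≠ 0 := Nat.cast_ne_zero.2 (Nat.factorial_ne_zero _)
      field_simp

private lemma jt_gd_step (hF : Fam m y U) (h𝒞 : Cls 𝒞)
    (han : ∀ f ∈ 𝒞, AnalyticOnNhd ℂ f U) {r : ℕ} {κ : ℕ → ℂ} (h : jt_Gd m y U 𝒞 r κ) :
    jt_Gd m y U 𝒞 (r + 1) κ := by
  obtain ⟨c, hc, hc2⟩ := h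
  refine ⟨fun l i v => (if i < r then deriv (c l i) v else 0) +
    (if i = 0 then 0 else c l (i - 1) v), ?_, ?_⟩
  · intro l i
    refine h𝒞.add (fun v => if i < r then deriv (c l i) v else 0) ?_
      (fun v => if i = 0 then 0 else c l (i - 1) v) ?_
    · by_cases hi : i < r
      · simp only [if_pos hi]
        exact h𝒞.deriv _ (hc l i)
      · simp only [if_neg hi]
        exact h𝒞.const 0
    · by_cases hi : i = 0
      · simp only [if_pos hi]
        exact h𝒞.const 0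
      · simp only [if_neg hi]
        exact hc l (i - 1)
  · intro u hu ψ hψ
    filter_upwards [jt_rl_ev hF hu hψ, (hc2 u hu ψ hψ).eventually_nhds] with v hv hv2
    have hD : ∀ l ≤ m, ∀ i, HasDerivAt (iteratedDeriv i (ψ l))
        (iteratedDeriv (i + 1) (ψ l) v) v := by
      intro l hl i
      have h1 : AnalyticAt ℂ (iteratedDeriv i (ψ l)) v := by
        rw [iteratedDeriv_eq_iterate]
        exact (hv.2.1 l hl).iterated_deriv i
      rw [iteratedDeriv_succ]
      exact h1.differentiableAt.hasDerivAt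
    have hS : HasDerivAt (fun v => ∑ l ∈ Finset.range (m + 1),
        (κ l * iteratedDeriv r (ψ l) v +
          ∑ i ∈ Finset.range r, c l i v * iteratedDeriv i (ψ l) v))
        (∑ l ∈ Finset.range (m + 1), (κ l * iteratedDeriv (r + 1) (ψ l) v +
          ∑ i ∈ Finset.range r, (deriv (c l i) v * iteratedDeriv i (ψ l) v +
            c l i v * iteratedDeriv (i + 1) (ψ l) v))) v := by
      refine HasDerivAt.fun_sum fun l hl => ?_
      have hl' : l ≤ m := Nat.lt_succ_iff.1 (Finset.mem_range.1 hl)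
      refine ((hD l hl' r).const_mul (κ l)).add (HasDerivAt.fun_sum fun i _ => ?_)
      exact ((han _ (hc l i) v hv.1).differentiableAt.hasDerivAt).mul (hD l hl' i)
    have hZ : HasDerivAt (fun v => ∑ l ∈ Finset.range (m + 1),
        (κ l * iteratedDeriv r (ψ l) v +
          ∑ i ∈ Finset.range r, c l i v * iteratedDeriv i (ψ l) v)) 0 v :=
      (hasDerivAt_const v (0 : ℂ)).congr_of_eventuallyEq hv2
    refine Eq.trans ?_ (hS.unique hZ)
    refine Finset.sum_congr rfl fun l _ => ?_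
    congr 1
    have h3 : ∀ i, ((if i < r then deriv (c l i) v else 0) +
        (if i = 0 then 0 else c l (i - 1) v)) * iteratedDeriv i (ψ l) v =
        (if i < r then deriv (c l i) v else 0) * iteratedDeriv i (ψ l) v +
        (if i = 0 then 0 else c l (i - 1) v) * iteratedDeriv i (ψ l) v := fun i =>
      add_mul _ _ _
    rw [Finset.sum_congr rfl fun i _ => h3 i, Finset.sum_add_distrib, Finset.sum_add_distrib]
    congr 1
    · rw [Finset.sum_range_succ, if_neg (lt_irrefl r), zero_mul, add_zero]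
      refine Finset.sum_congr rfl fun i hi => ?_
      rw [if_pos (Finset.mem_range.1 hi)]
    · rw [Finset.sum_range_succ', if_pos rfl, zero_mul, add_zero]
      refine Finset.sum_congr rfl fun i _ => ?_
      rw [if_neg (Nat.succ_ne_zero i), Nat.add_sub_cancel]

private lemma jt_gd_iter (hF : Fam m y U) (h𝒞 : Cls 𝒞)
    (han : ∀ f ∈ 𝒞, AnalyticOnNhd ℂ f U) {r s : ℕ} (hrs : r ≤ s) {κ : ℕ → ℂ}
    (h : jt_Gd m y U 𝒞 r κ) : jt_Gd m y U 𝒞 s κ := by
  induction s, hrs using Nat.le_induction with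
  | base => exact h
  | succ s _ ih => exact jt_gd_step hF h𝒞 han ih

private lemma jt_gd_add (h𝒞 : Cls 𝒞) {r : ℕ} {κ κ' : ℕ → ℂ} (h : jt_Gd m y U 𝒞 r κ)
    (h' : jt_Gd m y U 𝒞 r κ') : jt_Gd m y U 𝒞 r (fun l => κ l + κ' l) := by
  obtain ⟨c, hc, hc2⟩ := h
  obtain ⟨c', hc', hc2'⟩ := h'
  refine ⟨fun l i v => c l i v + c' l i v, fun l i => h𝒞.add _ (hc l i) _ (hc' l i),
    fun u hu ψ hψ => ?_⟩
  filter_upwards [hc2 u hu ψ hψ, hc2' u hu ψ hψ] with v hv hv'
  have h1 : ∀ l, (κ l + κ' l) * iteratedDeriv r (ψ l) v +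
      ∑ i ∈ Finset.range r, (c l i v + c' l i v) * iteratedDeriv i (ψ l) v =
      (κ l * iteratedDeriv r (ψ l) v +
        ∑ i ∈ Finset.range r, c l i v * iteratedDeriv i (ψ l) v) +
      (κ' l * iteratedDeriv r (ψ l) v +
        ∑ i ∈ Finset.range r, c' l i v * iteratedDeriv i (ψ l) v) := by
    intro l
    rw [Finset.sum_congr rfl fun i _ => add_mul (c l i v) (c' l i v) _,
      Finset.sum_add_distrib]
    ring
  rw [Finset.sum_congr rfl fun l _ => h1 l, Finset.sum_add_distrib, hv, hv', add_zero]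

private lemma jt_gd_smul (h𝒞 : Cls 𝒞) {r : ℕ} {κ : ℕ → ℂ} (a : ℂ)
    (h : jt_Gd m y U 𝒞 r κ) : jt_Gd m y U 𝒞 r (fun l => a * κ l) := by
  obtain ⟨c, hc, hc2⟩ := h
  refine ⟨fun l i v => a * c l i v, fun l i => h𝒞.mul _ (h𝒞.const a) _ (hc l i),
    fun u hu ψ hψ => ?_⟩
  filter_upwards [hc2 u hu ψ hψ] with v hv
  have h1 : ∀ l, a * κ l * iteratedDeriv r (ψ l) v +
      ∑ i ∈ Finset.range r, a * c l i v * iteratedDeriv i (ψ l) v =
      a * (κ l * iteratedDeriv r (ψ l) v +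
        ∑ i ∈ Finset.range r, c l i v * iteratedDeriv i (ψ l) v) := by
    intro l
    rw [mul_add, Finset.mul_sum]
    congr 1
    · ring
    · refine Finset.sum_congr rfl fun i _ => ?_
      ring
  rw [Finset.sum_congr rfl fun l _ => h1 l, ← Finset.mul_sum, hv, mul_zero]

private lemma jt_gd_congr {r : ℕ} {κ κ' : ℕ → ℂ} (hκ : ∀ l ≤ m, κ l = κ' l)
    (h : jt_Gd m y U 𝒞 r κ) : jt_Gd m y U 𝒞 r κ' := by
  obtain ⟨c, hc, hc2⟩ := h
  refine ⟨c, hc, fun u hu ψ hψ => ?_⟩
  filter_upwards [hc2 u hu ψ hψ] with v hv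
  refine Eq.trans ?_ hv
  refine Finset.sum_congr rfl fun l hl => ?_
  rw [hκ l (Nat.lt_succ_iff.1 (Finset.mem_range.1 hl))]

private lemma jt_gd_sum (h𝒞 : Cls 𝒞) {r : ℕ} (s : Finset ℕ) (a : ℕ → ℂ) (κ : ℕ → ℕ → ℂ)
    (h : ∀ k ∈ s, jt_Gd m y U 𝒞 r (κ k)) :
    jt_Gd m y U 𝒞 r (fun l => ∑ k ∈ s, a k * κ k l) := by
  classical
  induction s using Finset.induction_on with
  | empty =>
    refine ⟨fun _ _ _ => 0, fun _ _ => h𝒞.const 0, fun u _ ψ _ => ?_⟩
    refine Filter.Eventually.of_forall fun v => ?_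
    simp
  | insert k s hk ih =>
    have h1 := jt_gd_add h𝒞 (jt_gd_smul h𝒞 (a k) (h k (Finset.mem_insert_self k s)))
      (ih fun j hj => h j (Finset.mem_insert_of_mem hj))
    refine jt_gd_congr (fun l _ => ?_) h1
    rw [Finset.sum_insert hk]

private lemma jt_gd_delta (hF : Fam m y U) (h𝒞 : Cls 𝒞)
    (han : ∀ f ∈ 𝒞, AnalyticOnNhd ℂ f U)
    (hjet : ∀ j ≤ m, ∀ k, 1 ≤ k → ∃ f ∈ 𝒞, ∀ u ∈ U,
      f u = iteratedDeriv k (fun E => y j (u, E)) 0) {j : ℕ} (hj : j ≤ m) :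
    jt_Gd m y U 𝒞 (m - 1) (fun l => if l = j then 1 else 0) := by
  have hk : ∀ k ∈ Finset.range (m + 1), jt_Gd m y U 𝒞 (m - 1) (fun l => (l : ℂ) ^ k) := by
    intro k hk
    have hk' : k ≤ m := Nat.lt_succ_iff.1 (Finset.mem_range.1 hk)
    rcases k with _ | n
    · refine jt_gd_congr (fun l _ => ?_) (jt_gd_iter hF h𝒞 han (Nat.zero_le _)
        (jt_gd_zero hF h𝒞))
      rw [pow_zero]
    · exact jt_gd_iter hF h𝒞 han (by omega) (jt_gd_base hF h𝒞 hjet n)
  have hinj : Set.InjOn (fun i : ℕ => (i : ℂ)) (Finset.range (m + 1) : Set ℕ) :=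
    fun a _ b _ hab => Nat.cast_injective hab
  have hjm : j ∈ Finset.range (m + 1) := Finset.mem_range.2 (Nat.lt_succ_of_le hj)
  have hdeg : (Lagrange.basis (Finset.range (m + 1)) (fun i : ℕ => (i : ℂ)) j).natDegree <
      m + 1 := by
    rw [Lagrange.natDegree_basis hinj hjm, Finset.card_range]
    omega
  have h1 := jt_gd_sum h𝒞 (Finset.range (m + 1))
    (fun k => (Lagrange.basis (Finset.range (m + 1)) (fun i : ℕ => (i : ℂ)) j).coeff k)
    (fun k l => (l : ℂ) ^ k) hk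
  refine jt_gd_congr (fun l hl => ?_) h1
  rw [← Polynomial.eval_eq_sum_range' hdeg]
  by_cases hlj : l = j
  · rw [if_pos hlj, hlj]
    exact Lagrange.eval_basis_self hinj hjm
  · rw [if_neg hlj]
    exact Lagrange.eval_basis_of_ne (v := fun i : ℕ => (i : ℂ)) (Ne.symm hlj)
      (Finset.mem_range.2 (Nat.lt_succ_of_le hl))

end

/-- **the linear system of the relations** -/
theorem rel_ode {m : ℕ} {y : ℕ → ℂ × ℂ → ℂ} {U : Set ℂ} (hF : Fam m y U) {𝒞 : Set (ℂ → ℂ)}
    (h𝒞 : Cls 𝒞) (han : ∀ f ∈ 𝒞, AnalyticOnNhd ℂ f U)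
    (hjet : ∀ j ≤ m, ∀ k, 1 ≤ k → ∃ f ∈ 𝒞, ∀ u ∈ U,
      f u = iteratedDeriv k (fun E => y j (u, E)) 0) :
    ∃ A : ℕ → ℕ → ℕ → ℂ → ℂ, (∀ j l i, A j l i ∈ 𝒞) ∧
      ∀ u ∈ U, ∀ ψ : ℕ → ℂ → ℂ, Rl m y ψ u → ∀ j ≤ m, ∀ᶠ v in 𝓝 u,
        iteratedDeriv (m - 1) (ψ j) v = ∑ l ∈ Finset.range (m + 1),
          ∑ i ∈ Finset.range (m - 1), A j l i v * iteratedDeriv i (ψ l) v := by
  have h1 : ∀ j, ∃ c : ℕ → ℕ → ℂ → ℂ, (∀ l i, c l i ∈ 𝒞) ∧ (j ≤ m → ∀ u ∈ U,
      ∀ ψ : ℕ → ℂ → ℂ, Rl m y ψ u → ∀ᶠ v in 𝓝 u, ∑ l ∈ Finset.range (m + 1),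
        ((if l = j then 1 else 0) * iteratedDeriv (m - 1) (ψ l) v +
        ∑ i ∈ Finset.range (m - 1), c l i v * iteratedDeriv i (ψ l) v) = 0) := by
    intro j
    by_cases hj : j ≤ m
    · obtain ⟨c, hc, hc2⟩ := jt_gd_delta hF h𝒞 han hjet hj
      exact ⟨c, hc, fun _ => hc2⟩
    · exact ⟨fun _ _ _ => 0, fun _ _ => h𝒞.const 0, fun h => absurd h hj⟩
  choose c hc hc2 using h1
  refine ⟨fun j l i v => (-1) * c j l i v, fun j l i => h𝒞.mul _ (h𝒞.const (-1)) _ (hc j l i),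
    fun u hu ψ hψ j hj => ?_⟩
  filter_upwards [hc2 j hj u hu ψ hψ] with v hv
  rw [Finset.sum_add_distrib, Finset.sum_eq_single j (fun l _ hl => by
    rw [if_neg hl, zero_mul]) (fun h => absurd (Finset.mem_range.2 (Nat.lt_succ_of_le hj)) h),
    if_pos rfl, one_mul] at hv
  rw [eq_neg_of_add_eq_zero_left hv, ← Finset.sum_neg_distrib]
  refine Finset.sum_congr rfl fun l _ => ?_
  rw [← Finset.sum_neg_distrib]
  refine Finset.sum_congr rfl fun i _ => ?_
  ring

end Pool.Agent.MP_ae5b4e_an_NB1B
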