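import Mathlib
import Pool.Agent.Lib.MP_ae5b4e_an_LL.OdeS

/-!
# MP_ae5b4e_an, NB_1 section 3: linear systems of differential equations on convex domains
-/

noncomputable section

namespace Pool.Agent.MP_ae5b4e_an_NB1B

open Complex Set Filter Topology Metric

variable {ι : Type*} [Fintype ι] {U : Set ℂ} {A : ι → ι → ℂ → ℂ} {Ψ : ι → ℂ → ℂ} {u₀ : ℂ}

private lemma lin_prim (hU : IsOpen U) (hUc : Convex ℝ U) {φ : ℂ → ℂ}
    (hφ : DifferentiableOn ℂ φ U) (c : ℂ) :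
    ∃ g : ℂ → ℂ, g c = 0 ∧ ∀ z ∈ U, HasDerivAt g (φ z) z := by
  obtain ⟨g, hg⟩ := hUc.exists_forall_hasDerivWithinAt hφ
  exact ⟨fun z => g z - g c, sub_self _, fun z hz =>
    ((hg z hz).hasDerivAt (hU.mem_nhds hz)).sub_const _⟩

private lemma lin_iter (hU : IsOpen U) (hUc : Convex ℝ U) (hA : ∀ i k, AnalyticOnNhd ℂ (A i k) U)
    (c : ℂ) (v : ι → ℂ) : ∃ u : ℕ → ι → ℂ → ℂ, (∀ i z, u 0 i z = v i) ∧
      (∀ n i, u (n + 1) i c = 0) ∧
      ∀ n i, ∀ z ∈ U, HasDerivAt (u (n + 1) i) (∑ k, A i k z * u n k z) z := by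
  have hstep : ∀ p : {p : ι → ℂ → ℂ // ∀ i, DifferentiableOn ℂ (p i) U},
      ∃ q : {p : ι → ℂ → ℂ // ∀ i, DifferentiableOn ℂ (p i) U},
        (∀ i, q.1 i c = 0) ∧ ∀ i, ∀ z ∈ U, HasDerivAt (q.1 i) (∑ k, A i k z * p.1 k z) z := by
    intro p
    have h1 : ∀ i, ∃ g : ℂ → ℂ, g c = 0 ∧ ∀ z ∈ U, HasDerivAt g (∑ k, A i k z * p.1 k z) z := by
      intro i
      refine lin_prim hU hUc (φ := fun z => ∑ k, A i k z * p.1 k z) ?_ c
      exact DifferentiableOn.fun_sum fun k _ => ((hA i k).differentiableOn).mul (p.2 k)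
    choose g hg1 hg2 using h1
    exact ⟨⟨g, fun i z hz => (hg2 i z hz).differentiableAt.differentiableWithinAt⟩, hg1, hg2⟩
  choose S hS1 hS2 using hstep
  let s : ℕ → {p : ι → ℂ → ℂ // ∀ i, DifferentiableOn ℂ (p i) U} := fun n =>
    Nat.rec ⟨fun i _ => v i, fun i => differentiableOn_const _⟩ (fun _ p => S p) n
  exact ⟨fun n => (s n).1, fun i z => rfl, fun n i => hS1 (s n) i, fun n i => hS2 (s n) i⟩

private lemma lin_bound {c : ℂ} {K : Set ℂ} (hK : Pool.Agent.Lib.MP_ae5b4e_an_LL.Star c K)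
    {M B : ℝ} (hM : 0 ≤ M) (hB : 0 ≤ B)
    (hA : ∀ i k, ∀ z ∈ K, ‖A i k z‖ ≤ M) {u : ℕ → ι → ℂ → ℂ} {v : ι → ℂ}
    (h0 : ∀ i z, u 0 i z = v i) (hv : ∀ i, ‖v i‖ ≤ B) (h1 : ∀ n i, u (n + 1) i c = 0)
    (h2 : ∀ n i, ∀ z ∈ K, HasDerivAt (u (n + 1) i) (∑ k, A i k z * u n k z) z) (n : ℕ) :
    ∀ i, ∀ z ∈ K, ‖u n i z‖ ≤ B * (Fintype.card ι * M) ^ n / n.factorial * ‖z - c‖ ^ n := by
  induction n with
  | zero =>
    intro i z _
    rw [h0]
    simpa using hv i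
  | succ n ih =>
    intro i z hz
    have h3 := Pool.Agent.Lib.MP_ae5b4e_an_LL.norm_le_of_deriv_pow' hK (h2 n i) (h1 n i)
      (A := Fintype.card ι * M * (B * (Fintype.card ι * M) ^ n / n.factorial)) (k := n) (by
        intro w hw
        calc ‖∑ k, A i k w * u n k w‖ ≤ ∑ k, ‖A i k w * u n k w‖ := norm_sum_le _ _
          _ ≤ ∑ _k : ι, M * (B * (Fintype.card ι * M) ^ n / n.factorial * ‖w - c‖ ^ n) := by
              refine Finset.sum_le_sum fun k _ => ?_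
              rw [norm_mul]
              exact mul_le_mul (hA i k w hw) (ih k w hw) (norm_nonneg _) hM
          _ = Fintype.card ι * M * (B * (Fintype.card ι * M) ^ n / n.factorial) * ‖w - c‖ ^ n := by
              rw [Finset.sum_const, Finset.card_univ, nsmul_eq_mul]
              ring) z hz
    refine h3.trans (le_of_eq ?_)
    rw [Nat.factorial_succ]
    push_cast
    have h4 : ((n.factorial : ℕ) : ℝ) ≠ 0 := by exact_mod_cast n.factorial_ne_zero
    have h5 : (n : ℝ) + 1 ≠ 0 := by positivity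
    field_simp
    ring

theorem exists_lin (hU : IsOpen U) (hUc : Convex ℝ U) (hA : ∀ i k, AnalyticOnNhd ℂ (A i k) U)
    (hu₀ : u₀ ∈ U) (v : ι → ℂ) :
    ∃ Ψ : ι → ℂ → ℂ, (∀ i, ∀ z ∈ U, HasDerivAt (Ψ i) (∑ k, A i k z * Ψ k z) z) ∧
      ∀ i, Ψ i u₀ = v i := by
  obtain ⟨u, h0, h1, h2⟩ := lin_iter hU hUc hA u₀ v
  set B : ℝ := ∑ i, ‖v i‖ with hBdef
  have hB0 : 0 ≤ B := Finset.sum_nonneg fun _ _ => norm_nonneg _
  have hvB : ∀ i, ‖v i‖ ≤ B := fun i =>
    Finset.single_le_sum (f := fun i => ‖v i‖) (fun _ _ => norm_nonneg _) (Finset.mem_univ i)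
  have hloc : ∀ z₀ ∈ U, ∃ δ > 0, ball z₀ δ ⊆ U ∧ ∃ b : ℕ → ℝ, Summable b ∧
      ∃ M, 0 ≤ M ∧ (∀ i k, ∀ z ∈ ball z₀ δ, ‖A i k z‖ ≤ M) ∧
      ∀ n i, ∀ z ∈ ball z₀ δ, ‖u n i z‖ ≤ b n := by
    intro z₀ hz₀
    obtain ⟨δ, hδ, hδU⟩ := Metric.nhds_basis_closedBall.mem_iff.1 (hU.mem_nhds hz₀)
    set f : ℝ × ℂ → ℂ := fun p => u₀ + p.1 * (p.2 - u₀) with hf
    have hfc : Continuous f := by fun_prop
    set K : Set ℂ := f '' (Icc (0:ℝ) 1 ×ˢ closedBall z₀ δ) with hK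
    have hKc : IsCompact K := (isCompact_Icc.prod (isCompact_closedBall z₀ δ)).image hfc
    have hKU : K ⊆ U := by
      rintro _ ⟨⟨t, z⟩, ⟨ht, hz⟩, rfl⟩
      have h4 := hUc hu₀ (hδU hz) (sub_nonneg.2 ht.2) ht.1 (by ring)
      have h5 : (1 - t) • u₀ + t • z = u₀ + t * (z - u₀) := by
        simp only [Complex.real_smul]
        push_cast
        ring
      rw [h5] at h4
      exact h4
    have hKs : Pool.Agent.Lib.MP_ae5b4e_an_LL.Star u₀ K := by
      rintro _ ⟨⟨t, z⟩, ⟨ht, hz⟩, rfl⟩ s hs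
      refine ⟨(s * t, z), ⟨⟨mul_nonneg hs.1 ht.1, mul_le_one₀ hs.2 ht.1 ht.2⟩, hz⟩, ?_⟩
      simp only [hf]
      push_cast
      ring
    have hball : ball z₀ δ ⊆ K := fun z hz =>
      ⟨(1, z), ⟨⟨zero_le_one, le_rfl⟩, ball_subset_closedBall hz⟩, by simp [hf]⟩
    have hcK : u₀ ∈ K := ⟨(0, z₀), ⟨⟨le_rfl, zero_le_one⟩, mem_closedBall_self hδ.le⟩, by
      simp [hf]⟩
    have hMex : ∀ i k, ∃ M, ∀ z ∈ K, ‖A i k z‖ ≤ M := fun i k =>
      hKc.exists_bound_of_continuousOn ((hA i k).continuousOn.mono hKU)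
    choose M' hM' using hMex
    have hM'0 : ∀ i k, 0 ≤ M' i k := fun i k => (norm_nonneg _).trans (hM' i k _ hcK)
    set M : ℝ := ∑ i, ∑ k, M' i k with hM
    have hM0 : 0 ≤ M := Finset.sum_nonneg fun i _ => Finset.sum_nonneg fun k _ => hM'0 i k
    have hAM : ∀ i k, ∀ z ∈ K, ‖A i k z‖ ≤ M := by
      intro i k z hz
      refine (hM' i k z hz).trans ?_
      calc M' i k ≤ ∑ k, M' i k :=
            Finset.single_le_sum (f := fun k => M' i k) (fun k _ => hM'0 i k) (Finset.mem_univ k)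
        _ ≤ M := Finset.single_le_sum (f := fun i => ∑ k, M' i k)
            (fun i _ => Finset.sum_nonneg fun k _ => hM'0 i k) (Finset.mem_univ i)
    obtain ⟨ρ, hρ⟩ := hKc.exists_bound_of_continuousOn (f := fun z => z - u₀)
      (by fun_prop : Continuous fun z : ℂ => z - u₀).continuousOn
    have hρ0 : 0 ≤ ρ := (norm_nonneg _).trans (hρ u₀ hcK)
    have hb := lin_bound hKs hM0 hB0 hAM h0 hvB h1 (fun n i z hz => h2 n i z (hKU hz))
    refine ⟨δ, hδ, fun z hz => hδU (ball_subset_closedBall hz),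
      fun n => B * ((Fintype.card ι * M * ρ) ^ n / n.factorial),
      (Real.summable_pow_div_factorial _).mul_left B, M, hM0,
      fun i k z hz => hAM i k z (hball hz), fun n i z hz => ?_⟩
    refine (hb n i z (hball hz)).trans ?_
    calc B * (Fintype.card ι * M) ^ n / n.factorial * ‖z - u₀‖ ^ n
        ≤ B * (Fintype.card ι * M) ^ n / n.factorial * ρ ^ n := by
          refine mul_le_mul_of_nonneg_left ?_ (by positivity)
          exact pow_le_pow_left₀ (norm_nonneg _) (hρ z (hball hz)) n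
      _ = B * ((Fintype.card ι * M * ρ) ^ n / n.factorial) := by rw [mul_pow _ ρ]; ring
  have hsum : ∀ i, ∀ z ∈ U, Summable fun n => u n i z := by
    intro i z hz
    obtain ⟨δ, hδ, -, b, hb, M, -, -, hb'⟩ := hloc z hz
    exact Summable.of_norm_bounded hb fun n => hb' n i z (mem_ball_self hδ)
  refine ⟨fun i z => ∑' n, u n i z, fun i z hz => ?_, fun i => ?_⟩
  · obtain ⟨δ, hδ, hsub, b, hb, M, hM0, hM, hb'⟩ := hloc z hz
    have h5 : HasDerivAt (fun z => ∑' n, u (n + 1) i z) (∑' n, ∑ k, A i k z * u n k z) z := by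
      refine hasDerivAt_tsum_of_isPreconnected (u := fun n => (Fintype.card ι * M) * b n)
        (hb.mul_left _) isOpen_ball (convex_ball z δ).isPreconnected
        (fun n w hw => h2 n i w (hsub hw)) (fun n w hw => ?_) (mem_ball_self hδ)
        ((summable_nat_add_iff 1).2 (hsum i z hz)) (mem_ball_self hδ)
      calc ‖∑ k, A i k w * u n k w‖ ≤ ∑ k, ‖A i k w * u n k w‖ := norm_sum_le _ _
        _ ≤ ∑ _k : ι, M * b n := by
            refine Finset.sum_le_sum fun k _ => ?_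
            rw [norm_mul]
            exact mul_le_mul (hM i k w hw) (hb' n k w hw) (norm_nonneg _) hM0
        _ = (Fintype.card ι * M) * b n := by
            rw [Finset.sum_const, Finset.card_univ, nsmul_eq_mul]
            ring
    have h6 : HasDerivAt (u 0 i) 0 z := by
      have h7 : u 0 i = fun _ => v i := by funext w; exact h0 i w
      rw [h7]
      exact hasDerivAt_const z _
    have h7 := h6.add h5
    have h8 : (∑' n, ∑ k, A i k z * u n k z) = ∑ k, A i k z * ∑' n, u n k z := by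
      rw [Summable.tsum_finsetSum fun k _ => (hsum k z hz).mul_left (A i k z)]
      exact Finset.sum_congr rfl fun k _ => tsum_mul_left
    rw [zero_add, h8] at h7
    refine h7.congr_of_eventuallyEq ?_
    filter_upwards [hU.mem_nhds hz] with w hw
    exact (hsum i w hw).tsum_eq_zero_add
  · show ∑' n, u n i u₀ = v i
    rw [(hsum i u₀ hu₀).tsum_eq_zero_add, h0]
    simp [h1]

theorem lin_growth (hUc : Convex ℝ U) {K : ℝ} (hK : 0 ≤ K) (hA : ∀ i k, ∀ z ∈ U, ‖A i k z‖ ≤ K)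
    (hΨ : ∀ i, ∀ z ∈ U, HasDerivAt (Ψ i) (∑ k, A i k z * Ψ k z) z) (hu₀ : u₀ ∈ U) :
    ∀ z ∈ U, ∀ i, ‖Ψ i z‖ ≤ (∑ k, ‖Ψ k u₀‖) * Real.exp (Fintype.card ι * K * ‖z - u₀‖) := by
  intro z hz i
  have hseg : ∀ t ∈ Icc (0:ℝ) 1, u₀ + t * (z - u₀) ∈ U := by
    intro t ht
    have h4 := hUc hu₀ hz (sub_nonneg.2 ht.2) ht.1 (by ring)
    have h5 : (1 - t) • u₀ + t • z = u₀ + t * (z - u₀) := by
      simp only [Complex.real_smul]
      push_cast
      ring
    rw [h5] at h4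
    exact h4
  set g : ℝ → ι → ℂ := fun t i => Ψ i (u₀ + t * (z - u₀)) with hg
  have hgd : ∀ t ∈ Icc (0:ℝ) 1, HasDerivAt g (fun i =>
      (∑ k, A i k (u₀ + t * (z - u₀)) * Ψ k (u₀ + t * (z - u₀))) * (z - u₀)) t := by
    intro t ht
    rw [hasDerivAt_pi]
    intro i
    have h1 := hΨ i _ (hseg t ht)
    have h2 : HasDerivAt (fun t : ℂ => u₀ + t * (z - u₀)) (1 * (z - u₀)) (t : ℂ) :=
      ((hasDerivAt_id (t : ℂ)).mul_const (z - u₀)).const_add u₀
    have h3 := (h1.comp (t : ℂ) h2).comp_ofReal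
    simpa using h3
  have hgr := norm_le_gronwallBound_of_norm_deriv_right_le (f := g)
    (f' := fun t i => (∑ k, A i k (u₀ + t * (z - u₀)) * Ψ k (u₀ + t * (z - u₀))) * (z - u₀))
    (δ := ∑ k, ‖Ψ k u₀‖) (K := Fintype.card ι * K * ‖z - u₀‖) (ε := 0) (a := 0) (b := 1)
    (fun t ht => (hgd t ht).continuousAt.continuousWithinAt)
    (fun t ht => (hgd t ⟨ht.1, ht.2.le⟩).hasDerivWithinAt) (by
      rw [pi_norm_le_iff_of_nonneg (Finset.sum_nonneg fun _ _ => norm_nonneg _)]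
      intro i
      simp only [hg, Complex.ofReal_zero, zero_mul, add_zero]
      exact Finset.single_le_sum (f := fun k => ‖Ψ k u₀‖) (fun _ _ => norm_nonneg _)
        (Finset.mem_univ i)) (by
      intro t ht
      rw [add_zero, pi_norm_le_iff_of_nonneg (by positivity)]
      intro i
      rw [norm_mul]
      calc ‖∑ k, A i k (u₀ + t * (z - u₀)) * Ψ k (u₀ + t * (z - u₀))‖ * ‖z - u₀‖
          ≤ (∑ _k : ι, K * ‖g t‖) * ‖z - u₀‖ := by
            refine mul_le_mul_of_nonneg_right ((norm_sum_le _ _).trans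
              (Finset.sum_le_sum fun k _ => ?_)) (norm_nonneg _)
            rw [norm_mul]
            exact mul_le_mul (hA i k _ (hseg t ⟨ht.1, ht.2.le⟩)) (norm_le_pi_norm (g t) k)
              (norm_nonneg _) hK
        _ = Fintype.card ι * K * ‖z - u₀‖ * ‖g t‖ := by
            rw [Finset.sum_const, Finset.card_univ, nsmul_eq_mul]
            ring) 1 ⟨zero_le_one, le_rfl⟩
  rw [gronwallBound_ε0, sub_zero, mul_one] at hgr
  have h1 : ‖g 1 i‖ ≤ ‖g 1‖ := norm_le_pi_norm (g 1) i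
  have h2 : g 1 i = Ψ i z := by simp [hg]
  rw [h2] at h1
  exact h1.trans hgr

theorem lin_unique (hU : IsOpen U) (hUc : IsPreconnected U)
    (hA : ∀ i k, AnalyticOnNhd ℂ (A i k) U)
    (hΨ : ∀ i, ∀ z ∈ U, HasDerivAt (Ψ i) (∑ k, A i k z * Ψ k z) z) (hu₀ : u₀ ∈ U)
    (h0 : ∀ i, Ψ i u₀ = 0) : ∀ z ∈ U, ∀ i, Ψ i z = 0 := by
  obtain ⟨δ, hδ, hδU⟩ := Metric.nhds_basis_closedBall.mem_iff.1 (hU.mem_nhds hu₀)
  have hMex : ∀ i k, ∃ M, ∀ z ∈ closedBall u₀ δ, ‖A i k z‖ ≤ M := fun i k =>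
    (isCompact_closedBall u₀ δ).exists_bound_of_continuousOn ((hA i k).continuousOn.mono hδU)
  choose M' hM' using hMex
  have hM'0 : ∀ i k, 0 ≤ M' i k := fun i k =>
    (norm_nonneg _).trans (hM' i k _ (mem_closedBall_self hδ.le))
  set M : ℝ := ∑ i, ∑ k, M' i k with hM
  have hM0 : 0 ≤ M := Finset.sum_nonneg fun i _ => Finset.sum_nonneg fun k _ => hM'0 i k
  have hAM : ∀ i k, ∀ z ∈ ball u₀ δ, ‖A i k z‖ ≤ M := by
    intro i k z hz
    refine (hM' i k z (ball_subset_closedBall hz)).trans ?_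
    calc M' i k ≤ ∑ k, M' i k :=
          Finset.single_le_sum (f := fun k => M' i k) (fun k _ => hM'0 i k) (Finset.mem_univ k)
      _ ≤ M := Finset.single_le_sum (f := fun i => ∑ k, M' i k)
          (fun i _ => Finset.sum_nonneg fun k _ => hM'0 i k) (Finset.mem_univ i)
  have hsub : ball u₀ δ ⊆ U := fun z hz => hδU (ball_subset_closedBall hz)
  have hzero : ∀ z ∈ ball u₀ δ, ∀ i, Ψ i z = 0 := by
    intro z hz i
    have h1 := lin_growth (convex_ball u₀ δ) hM0 hAM (fun i z hz => hΨ i z (hsub hz))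
      (mem_ball_self hδ) z hz i
    simp only [h0, norm_zero, Finset.sum_const_zero, zero_mul] at h1
    exact norm_le_zero_iff.mp h1
  intro z hz i
  have h4 : AnalyticOnNhd ℂ (Ψ i) U := DifferentiableOn.analyticOnNhd
    (fun z hz => (hΨ i z hz).differentiableAt.differentiableWithinAt) hU
  have h5 : Ψ i =ᶠ[𝓝 u₀] 0 := by
    filter_upwards [isOpen_ball.mem_nhds (mem_ball_self hδ)] with z hz
    exact hzero z hz i
  exact h4.eqOn_zero_of_preconnected_of_eventuallyEq_zero hUc hu₀ h5 hz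

end Pool.Agent.MP_ae5b4e_an_NB1B
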