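import Pool.Agent.Lib.MP_ae5b4e_an_NB1B.Chg
import Pool.Agent.Lib.MP_ae5b4e_an_NB1B.Jet
import Pool.Agent.Lib.MP_ae5b4e_an_NB1B.Lin

/-!
# MP_ae5b4e_an, NB_1 section 3: continuation of relations
-/

noncomputable section

namespace Pool.Agent.MP_ae5b4e_an_NB1B

open Complex Set Filter Topology Metric
open Pool.Agent.MP_ae5b4e_an_NBT

variable {m : ℕ} {y : ℕ → ℂ × ℂ → ℂ} {ψ : ℕ → ℂ → ℂ} {U : Set ℂ} {u₀ : ℂ}

/-- a relation persists along a connected set -/
theorem rl_persist (hF : Fam m y U) (hU : IsPreconnected U)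
    (hψ : ∀ j ≤ m, AnalyticOnNhd ℂ (ψ j) U) (hu₀ : u₀ ∈ U) (h : Rl m y ψ u₀) :
    ∀ u ∈ U, Rl m y ψ u := by
  set G : ℂ × ℂ → (ℂ × ℂ →L[ℂ] ℂ) := fun p =>
    ∑ j ∈ Finset.range (m + 1), ψ j (y j p) • fderiv ℂ (y j) p with hG
  have hGan : ∀ v ∈ U, AnalyticAt ℂ G (v, 0) := by
    intro v hv
    refine Finset.analyticAt_fun_sum _ fun j hj => ?_
    have hj' : j ≤ m := by
      have := Finset.mem_range.1 hj
      omega
    have h1 : AnalyticAt ℂ (y j) (v, 0) := hF.an j hj' v hv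
    have h2 : AnalyticAt ℂ (fun p => ψ j (y j p)) (v, 0) := by
      have h3 : AnalyticAt ℂ (ψ j) (y j (v, 0)) := by
        rw [hF.zero j hj' v hv]
        exact hψ j hj' v hv
      exact h3.comp h1
    exact h2.smul h1.fderiv
  set S : Set ℂ := {v | ∀ᶠ p in 𝓝 ((v, 0) : ℂ × ℂ), G p = 0} with hS
  have hSo : IsOpen S := by
    rw [isOpen_iff_mem_nhds]
    intro v hv
    have h1 : ∀ᶠ q in 𝓝 ((v, 0) : ℂ × ℂ), ∀ᶠ p in 𝓝 q, G p = 0 :=
      eventually_eventually_nhds.2 hv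
    have h2 : ContinuousAt (fun w : ℂ => ((w, 0) : ℂ × ℂ)) v := by fun_prop
    exact h2.eventually h1
  have hsub : U ⊆ S := by
    refine hU.subset_of_closure_inter_subset hSo ⟨u₀, hu₀, h.2⟩ ?_
    rintro v ⟨hvc, hvU⟩
    obtain ⟨r, hr, han⟩ := (hGan v hvU).exists_ball_analyticOnNhd
    obtain ⟨w, hwS, hw⟩ := Metric.mem_closure_iff.1 hvc r hr
    have hwb : ((w, 0) : ℂ × ℂ) ∈ ball ((v, 0) : ℂ × ℂ) r := by
      rw [mem_ball, Prod.dist_eq]
      simp only [dist_self]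
      rw [dist_comm] at hw
      exact max_lt hw hr
    have h1 := han.eqOn_zero_of_preconnected_of_eventuallyEq_zero
      (convex_ball ((v, 0) : ℂ × ℂ) r).isPreconnected hwb hwS
    filter_upwards [isOpen_ball.mem_nhds (mem_ball_self (x := ((v, 0) : ℂ × ℂ)) hr)] with p hp
    exact h1 hp
  intro u hu
  exact ⟨fun j hj => hψ j hj u hu, hsub hu⟩

/-- the derivatives in the second variable are analytic -/
private theorem cont_jet (k : ℕ) : ∀ g : ℂ × ℂ → ℂ, (∀ u ∈ U, AnalyticAt ℂ g (u, 0)) →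
    ∃ f : ℂ → ℂ, AnalyticOnNhd ℂ f U ∧ ∀ u ∈ U, f u = iteratedDeriv k (fun E => g (u, E)) 0 := by
  induction k with
  | zero =>
    intro g hg
    refine ⟨fun u => g (u, 0), fun u hu => ?_, fun u _ => by simp⟩
    have h1 : AnalyticAt ℂ (fun w : ℂ => ((w, 0) : ℂ × ℂ)) u :=
      analyticAt_id.prod analyticAt_const
    exact (hg u hu).comp_of_eq h1 rfl
  | succ k ih =>
    intro g hg
    obtain ⟨f, hf, hfu⟩ := ih (fun p => fderiv ℂ g p (0, 1)) fun u hu =>
      ((ContinuousLinearMap.apply ℂ ℂ ((0, 1) : ℂ × ℂ)).analyticAt _).comp (hg u hu).fderiv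
    refine ⟨f, hf, fun u hu => ?_⟩
    rw [hfu u hu, iteratedDeriv_succ']
    apply Filter.EventuallyEq.iteratedDeriv_eq
    have h1 : ∀ᶠ p in 𝓝 ((u, 0) : ℂ × ℂ), AnalyticAt ℂ g p := (hg u hu).eventually_analyticAt
    have h2 : ContinuousAt (fun w : ℂ => ((u, w) : ℂ × ℂ)) 0 := by fun_prop
    filter_upwards [h2.eventually h1] with E hE
    have h3 : HasDerivAt (fun w : ℂ => ((u, w) : ℂ × ℂ)) (0, 1) E :=
      (hasDerivAt_const E u).prodMk (hasDerivAt_id E)
    have h4 := hE.differentiableAt.hasFDerivAt.comp_hasDerivAt E h3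
    exact h4.deriv.symm

/-- the analytic functions are a class -/
private theorem cont_cls : Cls {f : ℂ → ℂ | AnalyticOnNhd ℂ f U} where
  const _ := analyticOnNhd_const
  add _ hf _ hg := fun u hu => (hf u hu).add (hg u hu)
  mul _ hf _ hg := fun u hu => (hf u hu).mul (hg u hu)
  deriv _ hf := hf.deriv

/-- the companion matrix -/
private def cmat (m : ℕ) (A : ℕ → ℕ → ℕ → ℂ → ℂ) (p q : Fin (m + 1) × Fin (m - 1)) : ℂ → ℂ :=
  if p.2.1 + 1 < m - 1 then fun _ => if q.1 = p.1 ∧ q.2.1 = p.2.1 + 1 then 1 else 0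
  else A p.1 q.1 q.2

private theorem cmat_an {A : ℕ → ℕ → ℕ → ℂ → ℂ} (hA : ∀ j l i, AnalyticOnNhd ℂ (A j l i) U)
    (p q : Fin (m + 1) × Fin (m - 1)) : AnalyticOnNhd ℂ (cmat m A p q) U := by
  unfold cmat
  by_cases h1 : p.2.1 + 1 < m - 1
  · rw [if_pos h1]
    exact analyticOnNhd_const
  · rw [if_neg h1]
    exact hA _ _ _

private theorem cmat_sum (A : ℕ → ℕ → ℕ → ℂ → ℂ) (Φ : ℕ → ℕ → ℂ)
    (p : Fin (m + 1) × Fin (m - 1)) (z : ℂ) :
    ∑ q : Fin (m + 1) × Fin (m - 1), cmat m A p q z * Φ q.1 q.2 =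
      if p.2.1 + 1 < m - 1 then Φ p.1 (p.2 + 1)
      else ∑ l ∈ Finset.range (m + 1), ∑ i ∈ Finset.range (m - 1), A p.1 l i z * Φ l i := by
  unfold cmat
  split_ifs with h1
  · rw [Finset.sum_eq_single (⟨p.1, ⟨p.2.1 + 1, h1⟩⟩ : Fin (m + 1) × Fin (m - 1))]
    · simp
    · rintro ⟨q1, q2⟩ _ hq
      have h2 : ¬ (q1 = p.1 ∧ q2.1 = p.2.1 + 1) := by
        rintro ⟨rfl, h3⟩
        apply hq
        ext
        · rfl
        · exact h3
      simp [h2]
    · intro h2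
      exact absurd (Finset.mem_univ _) h2
  · rw [Fintype.sum_prod_type, Finset.sum_range]
    refine Finset.sum_congr rfl fun l _ => ?_
    rw [Finset.sum_range]

/-- the derivatives of the coefficients satisfy the system -/
private theorem cmat_sys {A : ℕ → ℕ → ℕ → ℂ → ℂ} {z : ℂ} (hψ : ∀ j ≤ m, AnalyticAt ℂ (ψ j) z)
    (hode : ∀ j ≤ m, iteratedDeriv (m - 1) (ψ j) z = ∑ l ∈ Finset.range (m + 1),
          ∑ i ∈ Finset.range (m - 1), A j l i z * iteratedDeriv i (ψ l) z)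
    (p : Fin (m + 1) × Fin (m - 1)) :
    HasDerivAt (iteratedDeriv p.2 (ψ p.1))
      (∑ q : Fin (m + 1) × Fin (m - 1), cmat m A p q z * iteratedDeriv q.2 (ψ q.1) z) z := by
  have hj : (p.1 : ℕ) ≤ m := by
    have := p.1.2
    omega
  have h1 : HasDerivAt (iteratedDeriv p.2 (ψ p.1)) (iteratedDeriv (p.2 + 1) (ψ p.1) z) z := by
    rw [iteratedDeriv_succ, iteratedDeriv_eq_iterate]
    exact ((hψ _ hj).iterated_deriv _).differentiableAt.hasDerivAt
  rw [cmat_sum A (fun l i => iteratedDeriv i (ψ l) z) p z]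
  split_ifs with h2
  · exact h1
  · have h3 : (p.2 : ℕ) + 1 = m - 1 := by
      have := p.2.2
      omega
    have h4 : iteratedDeriv (p.2 + 1) (ψ p.1) z = iteratedDeriv (m - 1) (ψ p.1) z := by
      rw [h3]
    rw [← hode _ hj, ← h4]
    exact h1

/-- relations extend to convex sets -/
theorem rl_ext (hF : Fam m y U) (hUc : Convex ℝ U) (hu₀ : u₀ ∈ U) (h : Rl m y ψ u₀) :
    ∃ ψ' : ℕ → ℂ → ℂ, (∀ j ≤ m, AnalyticOnNhd ℂ (ψ' j) U) ∧
      (∀ j ≤ m, ψ' j =ᶠ[𝓝 u₀] ψ j) ∧ ∀ u ∈ U, Rl m y ψ' u := by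
  obtain ⟨A, hA, hode⟩ := rel_ode hF (cont_cls (U := U)) (fun f hf => hf)
    (fun j hj k _ => by
      obtain ⟨f, hf, hfu⟩ := cont_jet k (y j) (fun u hu => hF.an j hj u hu)
      exact ⟨f, hf, hfu⟩)
  have hode0 := hode u₀ hu₀ ψ h
  suffices hs : ∃ ψ' : ℕ → ℂ → ℂ, (∀ j ≤ m, AnalyticOnNhd ℂ (ψ' j) U) ∧
      ∀ j ≤ m, ψ' j =ᶠ[𝓝 u₀] ψ j by
    obtain ⟨ψ', h1, h2⟩ := hs
    refine ⟨ψ', h1, h2, rl_persist hF hUc.isPreconnected h1 hu₀ ?_⟩
    exact h.congr (fun j _ => EventuallyEq.rfl) (fun j hj => hF.an j hj u₀ hu₀)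
      (fun j hj => hF.zero j hj u₀ hu₀) (fun j hj => (h2 j hj).symm)
  rcases Nat.eq_zero_or_pos (m - 1) with hm | hm
  · refine ⟨fun _ _ => 0, fun j _ => analyticOnNhd_const, fun j hj => ?_⟩
    filter_upwards [hode0 j hj] with v hv
    rw [hm] at hv
    simp only [iteratedDeriv_zero, Finset.range_zero, Finset.sum_empty,
      Finset.sum_const_zero] at hv
    exact hv.symm
  · obtain ⟨Ψ, hΨ, hΨ0⟩ := exists_lin (ι := Fin (m + 1) × Fin (m - 1)) hF.isOpen hUc
      (cmat_an hA) hu₀ (fun p => iteratedDeriv p.2 (ψ p.1) u₀)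
    refine ⟨fun j => if hj : j < m + 1 then Ψ (⟨j, hj⟩, ⟨0, hm⟩) else fun _ => 0,
      fun j hj => ?_, fun j hj => ?_⟩
    · have hj' : j < m + 1 := by omega
      simp only [hj', dite_true]
      exact DifferentiableOn.analyticOnNhd
        (fun z hz => (hΨ _ z hz).differentiableAt.differentiableWithinAt) hF.isOpen
    · have hj' : j < m + 1 := by omega
      simp only [hj', dite_true]
      have hev : ∀ᶠ v in 𝓝 u₀, v ∈ U ∧ (∀ j ≤ m, AnalyticAt ℂ (ψ j) v) ∧
          ∀ j ≤ m, iteratedDeriv (m - 1) (ψ j) v = ∑ l ∈ Finset.range (m + 1),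
            ∑ i ∈ Finset.range (m - 1), A j l i v * iteratedDeriv i (ψ l) v := by
        refine (hF.isOpen.eventually_mem hu₀).and (Filter.Eventually.and ?_ ?_)
        · have := (Finset.eventually_all (Finset.range (m + 1)) (l := 𝓝 u₀)
            (p := fun j v => AnalyticAt ℂ (ψ j) v)).2 (fun j hj =>
              (h.1 j (by have := Finset.mem_range.1 hj; omega)).eventually_analyticAt)
          filter_upwards [this] with v hv j hj
          exact hv j (Finset.mem_range.2 (by omega))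
        · have := (Finset.eventually_all (Finset.range (m + 1)) (l := 𝓝 u₀)
            (p := fun j v => iteratedDeriv (m - 1) (ψ j) v = ∑ l ∈ Finset.range (m + 1),
              ∑ i ∈ Finset.range (m - 1), A j l i v * iteratedDeriv i (ψ l) v)).2 (fun j hj =>
              hode0 j (by have := Finset.mem_range.1 hj; omega))
          filter_upwards [this] with v hv j hj
          exact hv j (Finset.mem_range.2 (by omega))
      obtain ⟨r, hr, hball⟩ := Metric.eventually_nhds_iff_ball.1 hev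
      have hdiff := lin_unique (ι := Fin (m + 1) × Fin (m - 1)) (U := ball u₀ r)
        (A := cmat m A) (Ψ := fun p z => Ψ p z - iteratedDeriv p.2 (ψ p.1) z) (u₀ := u₀)
        isOpen_ball (convex_ball u₀ r).isPreconnected
        (fun p q z hz => cmat_an hA p q z (hball z hz).1)
        (fun p z hz => by
          have h1 := (hΨ p z (hball z hz).1).sub
            (cmat_sys (hball z hz).2.1 (hball z hz).2.2 p)
          rw [← Finset.sum_sub_distrib] at h1
          refine h1.congr_deriv (Finset.sum_congr rfl fun q _ => ?_)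
          ring) (mem_ball_self hr)
        (fun p => by
          show Ψ p u₀ - iteratedDeriv p.2 (ψ p.1) u₀ = 0
          rw [hΨ0 p, sub_self])
      filter_upwards [isOpen_ball.mem_nhds (mem_ball_self hr)] with z hz
      have h2 := hdiff z hz (⟨j, hj'⟩, ⟨0, hm⟩)
      simpa [sub_eq_zero] using h2

private theorem mo_an {a : ℕ → ℂ → ℂ} {z : ℂ} (ha : ∀ j ≤ m, AnalyticAt ℂ (a j) z) (k : ℕ) :
    AnalyticAt ℂ (Mo m k a) z := by
  unfold Mo
  refine Finset.analyticAt_fun_sum _ fun l hl => ?_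
  refine analyticAt_const.mul ?_
  unfold lam
  refine Finset.analyticAt_fun_sum _ fun i hi => ha i ?_
  have h1 := Finset.mem_range.1 hl
  have h2 := Finset.mem_range.1 hi
  omega

private theorem mo_congr {a b : ℕ → ℂ → ℂ} {z : ℂ} (hab : ∀ j ≤ m, a j z = b j z) (k : ℕ) :
    Mo m k a z = Mo m k b z := by
  unfold Mo
  refine Finset.sum_congr rfl fun l hl => ?_
  congr 1
  unfold lam
  refine Finset.sum_congr rfl fun i hi => hab i ?_
  have h1 := Finset.mem_range.1 hl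
  have h2 := Finset.mem_range.1 hi
  omega

private theorem ev_all {P : ℕ → ℂ → Prop} {z : ℂ} (h : ∀ j ≤ m, ∀ᶠ v in 𝓝 z, P j v) :
    ∀ᶠ v in 𝓝 z, ∀ j ≤ m, P j v := by
  have := (Finset.eventually_all (Finset.range (m + 1)) (l := 𝓝 z) (p := P)).2
    (fun j hj => h j (by have := Finset.mem_range.1 hj; omega))
  filter_upwards [this] with v hv j hj
  exact hv j (Finset.mem_range.2 (by omega))

theorem mx_persist {k : ℕ} (hF : Fam m y U) (hUc : Convex ℝ U) (hu₀ : u₀ ∈ U)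
    (h : Mx m k y u₀) : ∀ u ∈ U, Mx m k y u := by
  intro u hu ψ hψ hmo j hj
  obtain ⟨ψ', han, heq, hrl⟩ := rl_ext hF hUc hu hψ
  have hmo' : ∀ i ≤ k, ∀ z ∈ U, Mo m i ψ' z = 0 := by
    intro i hi
    have h1 : AnalyticOnNhd ℂ (Mo m i ψ') U := fun z hz => mo_an (fun l hl => han l hl z hz) i
    refine h1.eqOn_zero_of_preconnected_of_eventuallyEq_zero hUc.isPreconnected hu ?_
    filter_upwards [hmo i hi, ev_all heq] with z hz1 hz2
    rw [mo_congr hz2 i]
    exact hz1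
  have h0 := h ψ' (hrl u₀ hu₀) (fun i hi => by
    filter_upwards [hF.isOpen.eventually_mem hu₀] with z hz
    exact hmo' i hi z hz) j hj
  have h1 := (han j hj).eqOn_zero_of_preconnected_of_eventuallyEq_zero hUc.isPreconnected hu₀ h0
  filter_upwards [heq j hj, hF.isOpen.eventually_mem hu] with z hz1 hz2
  rw [← hz1]
  exact h1 hz2

/-- exponential bound when the coefficients of the linear system are bounded -/
theorem rl_growth (hF : Fam m y U) (hUc : Convex ℝ U) {𝒞 : Set (ℂ → ℂ)}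
    (h𝒞 : Cls 𝒞) (han : ∀ f ∈ 𝒞, AnalyticOnNhd ℂ f U)
    (hjet : ∀ j ≤ m, ∀ k, 1 ≤ k → ∃ f ∈ 𝒞, ∀ u ∈ U,
      f u = iteratedDeriv k (fun E => y j (u, E)) 0)
    (hb : ∀ f ∈ 𝒞, ∃ K : ℝ, ∀ u ∈ U, ‖f u‖ ≤ K)
    (hψ : ∀ j ≤ m, AnalyticOnNhd ℂ (ψ j) U) (h : ∀ u ∈ U, Rl m y ψ u) (hu₀ : u₀ ∈ U) :
    ∃ C K : ℝ, 0 ≤ C ∧ 0 ≤ K ∧ ∀ j ≤ m, ∀ u ∈ U, ‖ψ j u‖ ≤ C * Real.exp (K * ‖u - u₀‖) := by
  obtain ⟨A, hA, hode⟩ := rel_ode hF h𝒞 han hjet
  have hode' : ∀ z ∈ U, ∀ j ≤ m, iteratedDeriv (m - 1) (ψ j) z =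
      ∑ l ∈ Finset.range (m + 1), ∑ i ∈ Finset.range (m - 1),
        A j l i z * iteratedDeriv i (ψ l) z :=
    fun z hz j hj => (hode z hz ψ (h z hz) j hj).self_of_nhds
  rcases Nat.eq_zero_or_pos (m - 1) with hm | hm
  · refine ⟨0, 0, le_rfl, le_rfl, fun j hj u hu => ?_⟩
    have h1 := hode' u hu j hj
    rw [hm] at h1
    simp only [iteratedDeriv_zero, Finset.range_zero, Finset.sum_empty,
      Finset.sum_const_zero] at h1
    simp [h1]
  · have hcb : ∀ p q : Fin (m + 1) × Fin (m - 1), ∃ K : ℝ, ∀ u ∈ U,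
        ‖cmat m A p q u‖ ≤ K := by
      intro p q
      unfold cmat
      by_cases h1 : p.2.1 + 1 < m - 1
      · rw [if_pos h1]
        refine ⟨1, fun u _ => ?_⟩
        by_cases h2 : q.1 = p.1 ∧ q.2.1 = p.2.1 + 1
        · rw [if_pos h2]
          simp
        · rw [if_neg h2]
          simp
      · rw [if_neg h1]
        exact hb _ (hA _ _ _)
    choose K hK using hcb
    set M : ℝ := ∑ p, ∑ q, |K p q| with hM
    have hM0 : 0 ≤ M := Finset.sum_nonneg fun p _ => Finset.sum_nonneg fun q _ => abs_nonneg _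
    have hMb : ∀ p q, ∀ z ∈ U, ‖cmat m A p q z‖ ≤ M := by
      intro p q z hz
      refine (hK p q z hz).trans ((le_abs_self _).trans ?_)
      calc |K p q| ≤ ∑ q, |K p q| :=
            Finset.single_le_sum (f := fun q => |K p q|) (fun q _ => abs_nonneg _)
              (Finset.mem_univ q)
        _ ≤ M := Finset.single_le_sum (f := fun p => ∑ q, |K p q|)
            (fun p _ => Finset.sum_nonneg fun q _ => abs_nonneg _) (Finset.mem_univ p)
    have hgr := lin_growth (ι := Fin (m + 1) × Fin (m - 1)) (A := cmat m A)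
      (Ψ := fun p z => iteratedDeriv p.2 (ψ p.1) z) (u₀ := u₀) hUc hM0 hMb
      (fun p z hz => cmat_sys (fun j hj => hψ j hj z hz) (hode' z hz) p) hu₀
    refine ⟨∑ p : Fin (m + 1) × Fin (m - 1), ‖iteratedDeriv p.2 (ψ p.1) u₀‖,
      Fintype.card (Fin (m + 1) × Fin (m - 1)) * M,
      Finset.sum_nonneg fun _ _ => norm_nonneg _, by positivity, fun j hj u hu => ?_⟩
    have h2 := hgr u hu (⟨j, by omega⟩, ⟨0, hm⟩)
    simpa using h2

end Pool.Agent.MP_ae5b4e_an_NB1B
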