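import Mathlib
import Pool.Agent.Lib.MP_ae5b4e_an_LAT.NDMobG
import Pool.Agent.Lib.MP_ae5b4e_an_NBT.ConD

/-!
# MP_ae5b4e_an, NB_1 section 3 (abelian relations of consecutive vertices): definitions

`κ` is the field of involutions in an affine coordinate `x`, `yc κ j (x, P)` is the `j`-th vertex
of the polygon with the first vertices `x`, `x + P`.
-/

noncomputable section

namespace Pool.Agent.MP_ae5b4e_an_NB1B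

open Complex Set Filter Topology Metric
open Pool.Agent.MP_ae5b4e_an_NBT
open Pool.Agent.MP_ae5b4e_an_ND (Good TI mobk)

/-- the functions `y j (u, E) = u + j E + O(E ^ 2)`, `j ≤ m` -/
structure Fam (m : ℕ) (y : ℕ → ℂ × ℂ → ℂ) (U : Set ℂ) : Prop where
  isOpen : IsOpen U
  an : ∀ j ≤ m, ∀ u ∈ U, AnalyticAt ℂ (y j) (u, 0)
  zero : ∀ j ≤ m, ∀ u ∈ U, y j (u, 0) = u
  der : ∀ j ≤ m, ∀ u ∈ U, fderiv ℂ (y j) (u, 0) (0, 1) = j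

/-- the abelian relation `∑ ψ j (y j) d (y j) = 0` near `(u, 0)`, `j ≤ m` -/
def Rl (m : ℕ) (y : ℕ → ℂ × ℂ → ℂ) (ψ : ℕ → ℂ → ℂ) (u : ℂ) : Prop :=
  (∀ j ≤ m, AnalyticAt ℂ (ψ j) u) ∧
    ∀ᶠ p in 𝓝 ((u, 0) : ℂ × ℂ),
      ∑ j ∈ Finset.range (m + 1), ψ j (y j p) • fderiv ℂ (y j) p = 0

/-- the partial sums of the coefficients -/
def lam (a : ℕ → ℂ → ℂ) (l : ℕ) (x : ℂ) : ℂ := ∑ i ∈ Finset.range (l + 1), a i x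

/-- the moments `∑ l ^ j λ_l`, `l < m` -/
def Mo (m j : ℕ) (a : ℕ → ℂ → ℂ) (x : ℂ) : ℂ :=
  ∑ l ∈ Finset.range m, (l : ℂ) ^ j * lam a l x

/-- a relation whose moments of order `≤ k` vanish is zero -/
def Mx (m k : ℕ) (y : ℕ → ℂ × ℂ → ℂ) (u : ℂ) : Prop :=
  ∀ ψ : ℕ → ℂ → ℂ, Rl m y ψ u → (∀ j ≤ k, ∀ᶠ v in 𝓝 u, Mo m j ψ v = 0) →
    ∀ j ≤ m, ∀ᶠ v in 𝓝 u, ψ j v = 0

/-- the polygons near the diagonal -/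
def yc (κ : ℂ → ℂ) (j : ℕ) (p : ℂ × ℂ) : ℂ := ((TI κ)^[j] p).1

/-- the distinguished relation `a` of the germ `κ` at `x` -/
structure Stt (m k : ℕ) (κ : ℂ → ℂ) (a : ℕ → ℂ → ℂ) (x : ℂ) : Prop where
  good : Good κ x
  rl : Rl m (yc κ) a x
  mom : ∀ j < k, ∀ᶠ v in 𝓝 x, Mo m j a v = 0
  ode : ∀ᶠ v in 𝓝 x, HasDerivAt (Mo m k a) (κ v * Mo m k a v) v
  ne : Mo m k a x ≠ 0
  mx : Mx m k (yc κ) x

/-- a class of functions which is closed under the operations of differential algebra -/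
structure Cls (𝒞 : Set (ℂ → ℂ)) : Prop where
  const : ∀ c : ℂ, (fun _ => c) ∈ 𝒞
  add : ∀ f ∈ 𝒞, ∀ g ∈ 𝒞, (fun u => f u + g u) ∈ 𝒞
  mul : ∀ f ∈ 𝒞, ∀ g ∈ 𝒞, (fun u => f u * g u) ∈ 𝒞
  deriv : ∀ f ∈ 𝒞, deriv f ∈ 𝒞

/-- the slice state: near `s` the function `g` is `κ (f)` and `φ j = a j (f)` -/
def SS (m k : ℕ) (f g : ℂ → ℂ) (φ : ℕ → ℂ → ℂ) (s : ℂ) : Prop :=
  ∃ (κ : ℂ → ℂ) (a : ℕ → ℂ → ℂ), AnalyticAt ℂ f s ∧ deriv f s ≠ 0 ∧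
    (∀ᶠ t in 𝓝 s, g t = κ (f t)) ∧ (∀ j ≤ m, ∀ᶠ t in 𝓝 s, φ j t = a j (f t)) ∧
    Stt m k κ a (f s)

/-- the same in two variables -/
def SJ (m k : ℕ) (F K : ℂ × ℂ → ℂ) (Φ : ℕ → ℂ × ℂ → ℂ) (p : ℂ × ℂ) : Prop :=
  ∃ (C : ℂ × ℂ → ℂ) (κ : ℂ → ℂ) (a : ℕ → ℂ → ℂ), AnalyticAt ℂ C p ∧ EqM F C p ∧
    fderiv ℂ C p (1, 0) ≠ 0 ∧ EqM K (fun q => κ (C q)) p ∧
    (∀ j ≤ m, EqM (Φ j) (fun q => a j (C q)) p) ∧ Stt m k κ a (C p)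

end Pool.Agent.MP_ae5b4e_an_NB1B
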