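import Pool.Agent.Lib.MP_ae5b4e_an_NB1B.Frm

/-!
# MP_ae5b4e_an, NB_1 section 3: the distinguished relation
-/

noncomputable section

namespace Pool.Agent.MP_ae5b4e_an_NB1B

open Complex Set Filter Topology Metric
open Pool.Agent.MP_ae5b4e_an_NBT

variable {F L : ℂ × ℂ → ℂ} {c ε : ℝ} {m : ℕ} {u : ℂ}

private theorem Dist_open (a b : ℝ) : IsOpen (St a b) :=
  (isOpen_lt continuous_const Complex.continuous_im).inter
    (isOpen_lt Complex.continuous_im continuous_const)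

private theorem Dist_convex (a b : ℝ) : Convex ℝ (St a b) :=
  (convex_halfSpace_im_gt a).inter (convex_halfSpace_im_lt b)

private theorem Dist_shift {a b : ℝ} {v : ℂ} (hv : v ∈ St a b) : v + 1 ∈ St a b := by
  have h : (v + 1).im = v.im := by simp
  exact ⟨by rw [h]; exact hv.1, by rw [h]; exact hv.2⟩

private theorem Dist_all {P : ℕ → ℂ → Prop} {z : ℂ} (h : ∀ j ≤ m, ∀ᶠ v in 𝓝 z, P j v) :
    ∀ᶠ v in 𝓝 z, ∀ j ≤ m, P j v := by
  have := (Finset.eventually_all (Finset.range (m + 1)) (l := 𝓝 z) (p := P)).2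
    (fun j hj => h j (by have := Finset.mem_range.1 hj; omega))
  filter_upwards [this] with v hv j hj
  exact hv j (Finset.mem_range.2 (by omega))

private theorem Dist_all' {P : ℕ → ℂ → Prop} {z : ℂ} (h : ∀ j < m, ∀ᶠ v in 𝓝 z, P j v) :
    ∀ᶠ v in 𝓝 z, ∀ j < m, P j v := by
  have := (Finset.eventually_all (Finset.range m) (l := 𝓝 z) (p := P)).2
    (fun j hj => h j (Finset.mem_range.1 hj))
  filter_upwards [this] with v hv j hj
  exact hv j (Finset.mem_range.2 hj)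

/-- a relation with vanishing moments is zero -/
theorem zero_of_mo {y : ℕ → ℂ × ℂ → ℂ} {ψ : ℕ → ℂ → ℂ} {U : Set ℂ} (hF : Fam m y U) (hu : u ∈ U)
    (h : Rl m y ψ u) (h0 : ∀ j < m, ∀ᶠ v in 𝓝 u, Mo m j ψ v = 0) :
    ∀ j ≤ m, ∀ᶠ v in 𝓝 u, ψ j v = 0 := by
  intro j hj
  filter_upwards [Dist_all' h0, sum_zero hF hu h] with v h1 h2
  have h3 : ∀ l < m, lam ψ l v = 0 := by
    have h4 : (fun l : Fin m => lam ψ l v) = 0 := by
      refine Matrix.eq_zero_of_forall_pow_sum_mul_pow_eq_zero (f := fun l : Fin m => (l : ℂ)) ?_ ?_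
      · intro a b hab
        exact Fin.ext (Nat.cast_injective (R := ℂ) hab)
      · intro i
        have h5 := h1 i i.2
        unfold Mo at h5
        rw [Finset.sum_range] at h5
        rw [← h5]
        exact Finset.sum_congr rfl fun l _ => mul_comm _ _
    intro l hl
    exact congrFun h4 ⟨l, hl⟩
  have h4 : ∀ l ≤ m, lam ψ l v = 0 := by
    intro l hl
    rcases lt_or_eq_of_le hl with h5 | h5
    · exact h3 l h5
    · rw [h5]
      exact h2
  rcases j with _ | j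
  · have := h4 0 hj
    simpa [lam] using this
  · have h5 := h4 (j + 1) hj
    have h6 := h4 j (by omega)
    unfold lam at h5 h6
    rw [Finset.sum_range_succ, h6, zero_add] at h5
    exact h5

/-- the distinguished relation on the strip -/
structure Ds (m K : ℕ) (L : ℂ × ℂ → ℂ) (ε : ℝ) (ψ : ℕ → ℂ → ℂ) : Prop where
  lt : K < m
  pos : 0 < K
  an : ∀ j ≤ m, AnalyticOnNhd ℂ (ψ j) (St (-ε) ε)
  rl : ∀ v ∈ St (-ε) ε, Rl m (yL L) ψ v
  mo : ∀ j < K, ∀ v ∈ St (-ε) ε, Mo m j ψ v = 0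
  moK : ∀ v ∈ St (-ε) ε, Mo m K ψ v = 1
  mx : ∀ v ∈ St (-ε) ε, Mx m K (yL L) v
  per : ∀ j ≤ m, ∀ v ∈ St (-ε) ε, ψ j (v + 1) = ψ j v

private theorem Dist_an {P : ℂ → ℂ} {v : ℂ} (h : AnalyticAt ℂ P v) (n : ℕ) :
    AnalyticAt ℂ (iteratedDeriv n P) v := by
  rw [iteratedDeriv_eq_iterate]
  exact h.iterated_deriv n

private theorem Dist_der {P : ℂ → ℂ} {v : ℂ} (h : AnalyticAt ℂ P v) (n : ℕ) :
    HasDerivAt (iteratedDeriv n P) (iteratedDeriv (n + 1) P v) v := by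
  rw [iteratedDeriv_succ]
  exact (Dist_an h n).differentiableAt.hasDerivAt

private theorem Dist_mo_an {a : ℕ → ℂ → ℂ} {z : ℂ} (ha : ∀ j ≤ m, AnalyticAt ℂ (a j) z) (k : ℕ) :
    AnalyticAt ℂ (Mo m k a) z := by
  unfold Mo
  refine Finset.analyticAt_fun_sum _ fun l hl => ?_
  refine analyticAt_const.mul ?_
  unfold lam
  refine Finset.analyticAt_fun_sum _ fun i hi => ha i ?_
  have h1 := Finset.mem_range.1 hl
  have h2 := Finset.mem_range.1 hi
  omega

private theorem Dist_mo_congr {a b : ℕ → ℂ → ℂ} {z : ℂ} (hab : ∀ j ≤ m, a j z = b j z) (k : ℕ) :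
    Mo m k a z = Mo m k b z := by
  unfold Mo
  refine Finset.sum_congr rfl fun l hl => ?_
  congr 1
  unfold lam
  refine Finset.sum_congr rfl fun i hi => hab i ?_
  have h1 := Finset.mem_range.1 hl
  have h2 := Finset.mem_range.1 hi
  omega

private theorem Dist_mo_shift (χ : ℕ → ℂ → ℂ) (k : ℕ) (v : ℂ) :
    Mo m k (fun j x => χ j (x + 1) - χ j x) v = Mo m k χ (v + 1) - Mo m k χ v := by
  unfold Mo lam
  rw [← Finset.sum_sub_distrib]
  refine Finset.sum_congr rfl fun l _ => ?_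
  rw [← mul_sub, ← Finset.sum_sub_distrib]

private theorem Dist_mo_smul (χ : ℕ → ℂ → ℂ) (k : ℕ) (c v : ℂ) :
    Mo m k (fun j x => c * χ j x) v = c * Mo m k χ v := by
  unfold Mo lam
  rw [Finset.mul_sum]
  refine Finset.sum_congr rfl fun l _ => ?_
  rw [← Finset.mul_sum]
  ring

/-- the shift of a relation by the period -/
private theorem Dist_rl_shift (hL : LabR F c ε L) {χ : ℕ → ℂ → ℂ} {v : ℂ} (hv : v ∈ St (-ε) ε)
    (h : Rl m (yL L) χ (v + 1)) : Rl m (yL L) (fun j x => χ j (x + 1)) v := by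
  have hfam := fam_yL hL m
  have hv1 := Dist_shift hv
  have h1 := (rl_change (m := m) (u := v) (θ := fun x => x + 1)
    (Θ := fun p : ℂ × ℂ => (p.1 + 1, p.2)) (y := yL L) (Y := yL L) ?_ rfl ?_ ?_ ?_
    (fun j hj => hfam.an j hj v hv) (fun j hj => hfam.zero j hj v hv)
    (fun j hj => hfam.an j hj (v + 1) hv1) (fun j hj => hfam.zero j hj (v + 1) hv1) ?_ χ).1 h
  · refine h1.congr (fun j _ => EventuallyEq.rfl) (fun j hj => hfam.an j hj v hv)
      (fun j hj => hfam.zero j hj v hv) (fun j _ => Eventually.of_forall fun x => ?_)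
    simp
  · exact (analyticAt_fst.add analyticAt_const).prod analyticAt_snd
  · refine ⟨ContinuousLinearEquiv.refl ℂ (ℂ × ℂ), ?_⟩
    have h2 : (fun p : ℂ × ℂ => ((p.1 + 1, p.2) : ℂ × ℂ)) = fun p => p + (1, 0) := by
      funext p
      ext <;> simp
    rw [h2]
    exact (hasFDerivAt_id _).add_const _
  · exact analyticAt_id.add analyticAt_const
  · simp
  · intro j _
    have hc : Continuous fun p : ℂ × ℂ => ((p.1 + j * p.2, p.2) : ℂ × ℂ) := by fun_prop
    have ht := hc.tendsto (v, 0)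
    have hm : ((v + j * 0, 0) : ℂ × ℂ) ∈ St (-ε) ε ×ˢ ball (0:ℂ) ε := by
      rw [mul_zero, add_zero]
      exact ⟨hv, mem_ball_self hL.ε_pos⟩
    filter_upwards [ht.eventually (((Dist_open _ _).prod isOpen_ball).mem_nhds hm)] with p hp
    have h3 := hL.per _ hp
    change L (p.1 + 1 + j * p.2, p.2) = L (p.1 + j * p.2, p.2) + 1
    rw [← h3]
    congr 2
    ring

/-- a relation on the strip with vanishing moments of order `< K` -/
private def DR (m K : ℕ) (L : ℂ × ℂ → ℂ) (ε : ℝ) (χ : ℕ → ℂ → ℂ) : Prop :=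
  (∀ j ≤ m, AnalyticOnNhd ℂ (χ j) (St (-ε) ε)) ∧
  (∀ v ∈ St (-ε) ε, Rl m (yL L) χ v) ∧
  (∀ j < K, ∀ v ∈ St (-ε) ε, Mo m j χ v = 0)

private theorem DR_smul {K : ℕ} {χ : ℕ → ℂ → ℂ} (h : DR m K L ε χ) (a : ℂ) :
    DR m K L ε fun j x => a * χ j x := by
  refine ⟨fun j hj v hv => analyticAt_const.mul (h.1 j hj v hv), fun v hv => (h.2.1 v hv).smul a,
    fun j hj v hv => ?_⟩
  rw [Dist_mo_smul, h.2.2 j hj v hv, mul_zero]

private theorem DR_shift (hL : LabR F c ε L) {K : ℕ} {χ : ℕ → ℂ → ℂ} (h : DR m K L ε χ) :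
    DR m K L ε fun j x => χ j (x + 1) - χ j x := by
  refine ⟨fun j hj v hv => ?_, fun v hv => ?_, fun j hj v hv => ?_⟩
  · have h1 : AnalyticAt ℂ (fun x : ℂ => x + 1) v := analyticAt_id.add analyticAt_const
    have h2 : AnalyticAt ℂ (fun x => χ j (x + 1)) v :=
      AnalyticAt.fun_comp (g := χ j) (h.1 j hj (v + 1) (Dist_shift hv)) h1
    exact h2.sub (h.1 j hj v hv)
  · exact (Dist_rl_shift hL hv (h.2.1 (v + 1) (Dist_shift hv))).sub (h.2.1 v hv)
  · rw [Dist_mo_shift, h.2.2 j hj _ (Dist_shift hv), h.2.2 j hj v hv, sub_zero]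

private theorem Dist_deg (hL : LabR F c ε L) (K d : ℕ) : ∀ χ : ℕ → ℂ → ℂ, DR m K L ε χ →
    (∀ v ∈ St (-ε) ε, iteratedDeriv d (Mo m K χ) v = 0) →
    (∃ v ∈ St (-ε) ε, Mo m K χ v ≠ 0) →
    ∃ ψ : ℕ → ℂ → ℂ, DR m K L ε ψ ∧ ∀ v ∈ St (-ε) ε, Mo m K ψ v = 1 := by
  have hopen := Dist_open (-ε) ε
  have hpre := (Dist_convex (-ε) ε).isPreconnected
  induction d with
  | zero =>
    intro χ _ h0 hne
    obtain ⟨v, hv, hne⟩ := hne
    have := h0 v hv
    rw [iteratedDeriv_zero] at this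
    exact absurd this hne
  | succ d ih =>
    intro χ hχ h0 hne
    by_cases h1 : ∀ v ∈ St (-ε) ε, iteratedDeriv d (Mo m K χ) v = 0
    · exact ih χ hχ h1 hne
    push Not at h1
    obtain ⟨v₀, hv₀, hc⟩ := h1
    have hP : ∀ v ∈ St (-ε) ε, AnalyticAt ℂ (Mo m K χ) v := fun v hv =>
      Dist_mo_an (fun j hj => hχ.1 j hj v hv) K
    have hG : ∀ v ∈ St (-ε) ε,
        iteratedDeriv d (Mo m K χ) v = iteratedDeriv d (Mo m K χ) v₀ := by
      intro v hv
      refine hopen.is_const_of_deriv_eq_zero hpre ?_ ?_ hv hv₀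
      · exact fun x hx => (Dist_der (hP x hx) d).differentiableAt.differentiableWithinAt
      · intro x hx
        rw [(Dist_der (hP x hx) d).deriv]
        exact h0 x hx
    rcases d with _ | d
    · rw [iteratedDeriv_zero] at hc
      simp only [iteratedDeriv_zero] at hG
      refine ⟨_, DR_smul hχ (Mo m K χ v₀)⁻¹, fun v hv => ?_⟩
      rw [Dist_mo_smul, hG v hv, inv_mul_cancel₀ hc]
    · have hfun : Mo m K (fun j x => χ j (x + 1) - χ j x) =
          fun v => Mo m K χ (v + 1) - Mo m K χ v := by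
        funext v
        exact Dist_mo_shift χ K v
      have hit : ∀ n : ℕ, ∀ v ∈ St (-ε) ε,
          iteratedDeriv n (Mo m K fun j x => χ j (x + 1) - χ j x) v =
            iteratedDeriv n (Mo m K χ) (v + 1) - iteratedDeriv n (Mo m K χ) v := by
        intro n v hv
        have hs : AnalyticAt ℂ (fun x => Mo m K χ (x + 1)) v :=
          AnalyticAt.fun_comp (g := Mo m K χ) (hP (v + 1) (Dist_shift hv))
            (analyticAt_id.add analyticAt_const)
        rw [hfun, iteratedDeriv_fun_sub hs.contDiffAt (hP v hv).contDiffAt,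
          iteratedDeriv_comp_add_const]
      refine ih _ (DR_shift hL hχ) ?_ ?_
      · intro v hv
        rw [hit _ v hv, hG _ (Dist_shift hv), hG v hv, sub_self]
      · by_contra hno
        push Not at hno
        have h2 : iteratedDeriv d (Mo m K fun j x => χ j (x + 1) - χ j x) v₀ = 0 := by
          have h3 : (Mo m K fun j x => χ j (x + 1) - χ j x) =ᶠ[𝓝 v₀] fun _ => (0 : ℂ) := by
            filter_upwards [hopen.mem_nhds hv₀] with v hv using hno v hv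
          rw [h3.iteratedDeriv_eq]
          simp
        rw [hit _ v₀ hv₀] at h2
        have h4 : iteratedDeriv d (Mo m K χ) (v₀ + 1) -
            iteratedDeriv (d + 1) (Mo m K χ) v₀ * (v₀ + 1) =
            iteratedDeriv d (Mo m K χ) v₀ - iteratedDeriv (d + 1) (Mo m K χ) v₀ * v₀ := by
          have key : ∀ x ∈ St (-ε) ε, HasDerivAt (fun z => iteratedDeriv d (Mo m K χ) z -
              iteratedDeriv (d + 1) (Mo m K χ) v₀ * z) 0 x := by
            intro x hx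
            have h5 := Dist_der (hP x hx) d
            rw [hG x hx] at h5
            have h6 : HasDerivAt (fun z : ℂ => iteratedDeriv (d + 1) (Mo m K χ) v₀ * z)
                (iteratedDeriv (d + 1) (Mo m K χ) v₀ * 1) x :=
              (hasDerivAt_id x).const_mul _
            have h7 := h5.sub h6
            rw [mul_one, sub_self] at h7
            exact h7
          refine hopen.is_const_of_deriv_eq_zero (f := fun z => iteratedDeriv d (Mo m K χ) z -
              iteratedDeriv (d + 1) (Mo m K χ) v₀ * z) hpre ?_ ?_ (Dist_shift hv₀) hv₀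
          · exact fun x hx => (key x hx).differentiableAt.differentiableWithinAt
          · exact fun x hx => (key x hx).deriv
        apply hc
        linear_combination h2 - h4

theorem exists_dist (hL : LabR F c ε L) {ψ₀ : ℕ → ℂ → ℂ} (hu : u ∈ St (-ε) ε)
    (h : Rl m (yL L) ψ₀ u) (hne : ∃ j ≤ m, ¬ ∀ᶠ v in 𝓝 u, ψ₀ j v = 0) :
    ∃ (K : ℕ) (ψ : ℕ → ℂ → ℂ), Ds m K L ε ψ := by
  classical
  have hopen := Dist_open (-ε) ε
  have hconv := Dist_convex (-ε) ε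
  have hfam := fam_yL hL m
  obtain ⟨P, hP⟩ : ∃ P : ℕ → Prop, P = fun k => ∃ χ : ℕ → ℂ → ℂ, Rl m (yL L) χ u ∧
    (∀ j < k, ∀ᶠ v in 𝓝 u, Mo m j χ v = 0) ∧ ¬ ∀ᶠ v in 𝓝 u, Mo m k χ v = 0 := ⟨_, rfl⟩
  -- the first nonvanishing moment
  have hfirst : ∀ χ : ℕ → ℂ → ℂ, Rl m (yL L) χ u →
      (∃ j ≤ m, ¬ ∀ᶠ v in 𝓝 u, χ j v = 0) → ∀ K, (∀ j < K, ∀ᶠ v in 𝓝 u, Mo m j χ v = 0) →
      ∃ k, K ≤ k ∧ k < m ∧ P k := by
    intro χ hχ hχne K hK
    have h1 : ∃ j, j < m ∧ ¬ ∀ᶠ v in 𝓝 u, Mo m j χ v = 0 := by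
      by_contra hno
      push Not at hno
      obtain ⟨j, hj, hjne⟩ := hχne
      exact hjne (zero_of_mo hfam hu hχ hno j hj)
    refine ⟨Nat.find h1, ?_, (Nat.find_spec h1).1, ?_⟩
    · by_contra hlt
      exact (Nat.find_spec h1).2 (hK _ (not_le.1 hlt))
    · rw [hP]
      refine ⟨χ, hχ, fun j hj => ?_, (Nat.find_spec h1).2⟩
      have h2 := Nat.find_min h1 hj
      have h3 : j < m := hj.trans (Nat.find_spec h1).1
      by_contra h4
      exact h2 ⟨h3, h4⟩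
  obtain ⟨k₀, -, hk₀m, hk₀⟩ := hfirst ψ₀ h hne 0 (fun j hj => absurd hj (Nat.not_lt_zero j))
  obtain ⟨K, hKdef⟩ : ∃ K, K = Nat.findGreatest (fun k => k < m ∧ P k) m := ⟨_, rfl⟩
  have hKP : K < m ∧ P K := by
    rw [hKdef]
    exact Nat.findGreatest_spec (P := fun k => k < m ∧ P k) hk₀m.le ⟨hk₀m, hk₀⟩
  have hmaxi : ∀ k, K < k → k < m → ¬ P k := by
    intro k hk hkm hPk
    rw [hKdef] at hk
    exact Nat.findGreatest_is_greatest hk hkm.le ⟨hkm, hPk⟩
  obtain ⟨hKm, hPK⟩ := hKP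
  rw [hP] at hPK
  obtain ⟨χ, hχ, hχ0, hχK⟩ := hPK
  have hMx : Mx m K (yL L) u := by
    intro ψ hψ hψ0
    by_contra hno
    have hno' : ∃ j ≤ m, ¬ ∀ᶠ v in 𝓝 u, ψ j v = 0 := by
      simp only [not_forall] at hno
      obtain ⟨j, hj, hj'⟩ := hno
      exact ⟨j, hj, hj'⟩
    obtain ⟨k, hk1, hk2, hk3⟩ := hfirst ψ hψ hno' (K + 1) (fun j hj => hψ0 j (by omega))
    exact hmaxi k (by omega) hk2 hk3
  have hKpos : 0 < K := by
    by_contra h0
    have hK0 : K = 0 := by omega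
    subst hK0
    have h1 := mo_deriv hL hu hχ (k := 0) (fun j hj => absurd hj (Nat.not_lt_zero j))
    simp only [iteratedDeriv_zero] at h1
    exact hχK h1
  -- continuation to the strip
  obtain ⟨χ', han, heq, hrl⟩ := rl_ext hfam hconv hu hχ
  have hmoan : ∀ j, AnalyticOnNhd ℂ (Mo m j χ') (St (-ε) ε) := fun j z hz =>
    Dist_mo_an (fun l hl => han l hl z hz) j
  have hmoeq : ∀ j, Mo m j χ' =ᶠ[𝓝 u] Mo m j χ := by
    intro j
    filter_upwards [Dist_all heq] with z hz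
    exact Dist_mo_congr hz j
  have hmo0 : ∀ j < K, ∀ v ∈ St (-ε) ε, Mo m j χ' v = 0 := by
    intro j hj
    refine (hmoan j).eqOn_zero_of_preconnected_of_eventuallyEq_zero hconv.isPreconnected hu ?_
    filter_upwards [hmoeq j, hχ0 j hj] with z hz1 hz2
    rw [hz1]
    exact hz2
  have hDR : DR m K L ε χ' := ⟨han, hrl, hmo0⟩
  have hmoK : ∀ v ∈ St (-ε) ε, iteratedDeriv K (Mo m K χ') v = 0 := by
    intro v hv
    refine (mo_deriv hL hv (hrl v hv) (k := K) (fun j hj => ?_)).self_of_nhds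
    filter_upwards [hopen.mem_nhds hv] with z hz using hmo0 j hj z hz
  have hmoKne : ∃ v ∈ St (-ε) ε, Mo m K χ' v ≠ 0 := by
    by_contra hno
    push Not at hno
    apply hχK
    filter_upwards [hmoeq K, hopen.mem_nhds hu] with z hz1 hz2
    rw [← hz1]
    exact hno z hz2
  obtain ⟨ψ, hψ, hψ1⟩ := Dist_deg hL K K χ' hDR hmoK hmoKne
  have hmx := mx_persist hfam hconv hu hMx
  refine ⟨K, ψ, hKm, hKpos, hψ.1, hψ.2.1, hψ.2.2, hψ1, hmx, ?_⟩
  have hsh := DR_shift hL hψ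
  intro j hj v hv
  have h1 := hmx v hv _ (hsh.2.1 v hv) (fun i hi => by
    filter_upwards [hopen.mem_nhds hv] with z hz
    rcases lt_or_eq_of_le hi with h2 | h2
    · exact hsh.2.2 i h2 z hz
    · rw [h2, Dist_mo_shift, hψ1 z hz, hψ1 _ (Dist_shift hz), sub_self]) j hj
  exact sub_eq_zero.1 h1.self_of_nhds

/-- removal of the first term of a relation -/
private theorem Dist_drop (hL : LabR F c ε L) {ψ : ℕ → ℂ → ℂ} (hu : u ∈ St (-ε) ε)
    (h : Rl (m + 1) (yL L) ψ u) (h0 : ∀ᶠ v in 𝓝 u, ψ 0 v = 0) :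
    Rl m (yL L) (fun j => ψ (j + 1)) u := by
  refine ⟨fun j hj => h.1 (j + 1) (by omega), ?_⟩
  have hfam := fam_yL hL (m + 1)
  -- the inverse shear
  obtain ⟨S, hS⟩ : ∃ S : ℂ × ℂ →L[ℂ] ℂ × ℂ, ∀ p, S p = (p.1 - p.2, p.2) :=
    ⟨(ContinuousLinearMap.fst ℂ ℂ ℂ - ContinuousLinearMap.snd ℂ ℂ ℂ).prod
      (ContinuousLinearMap.snd ℂ ℂ ℂ), fun p => by simp⟩
  have hSt : Tendsto S (𝓝 ((u, 0) : ℂ × ℂ)) (𝓝 ((u, 0) : ℂ × ℂ)) := by
    have := S.continuous.tendsto (u, 0)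
    simpa [hS] using this
  have hyS : ∀ j : ℕ, (fun q => yL L (j + 1) (S q)) = yL L j := by
    intro j
    funext q
    rw [hS]
    change L (q.1 - q.2 + (j + 1 : ℕ) * q.2, q.2) = L (q.1 + j * q.2, q.2)
    congr 2
    push_cast
    ring
  have hy0 : Tendsto (yL L 0) (𝓝 ((u, 0) : ℂ × ℂ)) (𝓝 u) := by
    have := (hfam.an 0 (by omega) u hu).continuousAt.tendsto
    rwa [hfam.zero 0 (by omega) u hu] at this
  have h1 : ∀ᶠ p in 𝓝 ((u, 0) : ℂ × ℂ), ψ 0 (yL L 0 p) = 0 := hy0.eventually h0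
  have h2 : ∀ᶠ p in 𝓝 ((u, 0) : ℂ × ℂ), ∀ j ∈ Finset.range (m + 1),
      DifferentiableAt ℂ (yL L (j + 1)) p := by
    rw [Filter.eventually_all_finset]
    intro j hj
    have := Finset.mem_range.1 hj
    filter_upwards [(hfam.an (j + 1) (by omega) u hu).eventually_analyticAt] with p hp
    exact hp.differentiableAt
  filter_upwards [hSt.eventually (h.2.and (h1.and h2))] with q hq
  obtain ⟨hq1, hq2, hq3⟩ := hq
  have hz : (0 : ℂ) • fderiv ℂ (yL L 0) (S q) = 0 := by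
    refine ContinuousLinearMap.ext fun w => ?_
    simp
  rw [Finset.sum_range_succ', hq2, hz, add_zero] at hq1
  have h3 := congrArg (fun T : ℂ × ℂ →L[ℂ] ℂ => T.comp S) hq1
  simp only [ContinuousLinearMap.zero_comp, ContinuousLinearMap.finsetSum_comp] at h3
  rw [← h3]
  refine Finset.sum_congr rfl fun j hj => ?_
  have h4 : HasFDerivAt (fun q => yL L (j + 1) (S q)) ((fderiv ℂ (yL L (j + 1)) (S q)).comp S) q :=
    (hq3 j hj).hasFDerivAt.comp q S.hasFDerivAt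
  rw [hyS] at h4
  rw [ContinuousLinearMap.smul_comp, h4.fderiv, ← congrFun (hyS j) q]

/-- **the distinguished relation of minimal length** -/
theorem exists_dist0 (hL : LabR F c ε L) {M : ℕ} {ψ₀ : ℕ → ℂ → ℂ} (hu : u ∈ St (-ε) ε)
    (h : Rl M (yL L) ψ₀ u) (hne : ∃ j ≤ M, ¬ ∀ᶠ v in 𝓝 u, ψ₀ j v = 0) :
    ∃ (m K : ℕ) (ψ : ℕ → ℂ → ℂ), Ds m K L ε ψ ∧ ∃ v ∈ St (-ε) ε, ψ 0 v ≠ 0 := by
  classical
  have hex : ∃ m : ℕ, ∃ ψ : ℕ → ℂ → ℂ, Rl m (yL L) ψ u ∧
      ∃ j ≤ m, ¬ ∀ᶠ v in 𝓝 u, ψ j v = 0 := ⟨M, ψ₀, h, hne⟩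
  obtain ⟨ψ₁, h1, h2⟩ := Nat.find_spec hex
  obtain ⟨m, hm⟩ : ∃ m, m = Nat.find hex := ⟨_, rfl⟩
  rw [← hm] at h1 h2
  obtain ⟨K, ψ, hD⟩ := exists_dist hL hu h1 h2
  refine ⟨m, K, ψ, hD, ?_⟩
  by_contra hno
  push Not at hno
  obtain ⟨n, rfl⟩ : ∃ n, m = n + 1 := ⟨m - 1, by have := hD.lt; omega⟩
  have h0 : ∀ᶠ v in 𝓝 u, ψ 0 v = 0 := by
    filter_upwards [(Dist_open (-ε) ε).mem_nhds hu] with z hz using hno z hz
  have hlt : n < Nat.find hex := by omega
  refine Nat.find_min hex hlt ⟨_, Dist_drop hL hu (hD.rl u hu) h0, ?_⟩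
  by_contra hz
  push Not at hz
  have h3 : Mo (n + 1) K ψ u = 0 := by
    have h4 : ∀ j ≤ n + 1, ψ j u = 0 := by
      intro j hj
      rcases j with _ | j
      · exact h0.self_of_nhds
      · exact (hz j (by omega)).self_of_nhds
    have h5 := Dist_mo_congr (m := n + 1) (a := ψ) (b := fun _ _ => 0) (z := u) h4 K
    rw [h5]
    simp [Mo, lam]
  rw [hD.moK u hu] at h3
  exact one_ne_zero h3

end Pool.Agent.MP_ae5b4e_an_NB1B
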