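import Pool.Agent.Lib.MP_ae5b4e_an_NB1B.DrM

/-!
# MP_ae5b4e_an, NB_1 section 3: the elimination identity, analytic form
-/

noncomputable section

namespace Pool.Agent.MP_ae5b4e_an_NB1B

open Complex Set Filter Topology Metric
open Pool.Agent.MP_ae5b4e_an_NBT

/-- the derivative in `v`, `z` fixed -/
def dvF (z v g : ℂ × ℂ → ℂ) (q : ℂ × ℂ) : ℂ := Jf z g q / Jf z v q

/-- the derivative in `z`, `v` fixed -/
def dzF (z v g : ℂ × ℂ → ℂ) (q : ℂ × ℂ) : ℂ := Jf g v q / Jf z v q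

/-- the field of directions of the derivative in `v` -/
def ElA_xi (z v : ℂ × ℂ → ℂ) (q : ℂ × ℂ) : ℂ × ℂ :=
  (-fderiv ℂ z q (0, 1) / Jf z v q, fderiv ℂ z q (1, 0) / Jf z v q)

/-- the field of directions of the derivative in `z` -/
def ElA_et (z v : ℂ × ℂ → ℂ) (q : ℂ × ℂ) : ℂ × ℂ :=
  (fderiv ℂ v q (0, 1) / Jf z v q, -fderiv ℂ v q (1, 0) / Jf z v q)

theorem ElA_lin (L : ℂ × ℂ →L[ℂ] ℂ) (a b : ℂ) : L (a, b) = a * L (1, 0) + b * L (0, 1) := by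
  have h : ((a, b) : ℂ × ℂ) = a • ((1, 0) : ℂ × ℂ) + b • ((0, 1) : ℂ × ℂ) := by
    ext <;> simp
  rw [h, map_add, map_smul, map_smul, smul_eq_mul, smul_eq_mul]

theorem ElA_dv (z v g : ℂ × ℂ → ℂ) (q : ℂ × ℂ) :
    dvF z v g q = fderiv ℂ g q (ElA_xi z v q) := by
  unfold ElA_xi dvF
  rw [ElA_lin]
  unfold Jf
  ring

theorem ElA_dz (z v g : ℂ × ℂ → ℂ) (q : ℂ × ℂ) :
    dzF z v g q = fderiv ℂ g q (ElA_et z v q) := by
  unfold ElA_et dzF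
  rw [ElA_lin]
  unfold Jf
  ring

/-- differentiable at `q` with the derivatives `d` in `v` and `e` in `z` -/
def ElA_T (z v g : ℂ × ℂ → ℂ) (q : ℂ × ℂ) (d e : ℂ) : Prop :=
  ∃ L : ℂ × ℂ →L[ℂ] ℂ, HasFDerivAt g L q ∧ L (ElA_xi z v q) = d ∧ L (ElA_et z v q) = e

section rules

variable {z v g h : ℂ × ℂ → ℂ} {q : ℂ × ℂ} {d e d' e' : ℂ}

theorem ElA_T.dv (t : ElA_T z v g q d e) : dvF z v g q = d := by
  obtain ⟨L, h1, h2, -⟩ := t
  rw [ElA_dv, h1.fderiv, h2]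

theorem ElA_T.dz (t : ElA_T z v g q d e) : dzF z v g q = e := by
  obtain ⟨L, h1, -, h2⟩ := t
  rw [ElA_dz, h1.fderiv, h2]

theorem ElA_T.congr (t : ElA_T z v g q d e) (hh : h =ᶠ[𝓝 q] g) : ElA_T z v h q d e := by
  obtain ⟨L, h1, h2, h3⟩ := t
  exact ⟨L, h1.congr_of_eventuallyEq hh, h2, h3⟩

theorem ElA_T.of_eq (t : ElA_T z v g q d e) (h1 : d = d') (h2 : e = e') :
    ElA_T z v g q d' e' := by
  rw [← h1, ← h2]
  exact t

theorem ElA_T_z (hz : DifferentiableAt ℂ z q) (hW : Jf z v q ≠ 0) : ElA_T z v z q 0 1 := by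
  refine ⟨fderiv ℂ z q, hz.hasFDerivAt, ?_, ?_⟩
  · unfold ElA_xi
    rw [ElA_lin]
    ring
  · rw [← ElA_dz]
    exact div_self hW

theorem ElA_T_v (hv : DifferentiableAt ℂ v q) (hW : Jf z v q ≠ 0) : ElA_T z v v q 1 0 := by
  refine ⟨fderiv ℂ v q, hv.hasFDerivAt, ?_, ?_⟩
  · rw [← ElA_dv]
    exact div_self hW
  · unfold ElA_et
    rw [ElA_lin]
    ring

theorem ElA_T.add (t : ElA_T z v g q d e) (t' : ElA_T z v h q d' e') :
    ElA_T z v (fun x => g x + h x) q (d + d') (e + e') := by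
  obtain ⟨L, h1, h2, h3⟩ := t
  obtain ⟨L', h1', h2', h3'⟩ := t'
  refine ⟨L + L', h1.add h1', ?_, ?_⟩
  · rw [add_apply, h2, h2']
  · rw [add_apply, h3, h3']

theorem ElA_T.sub (t : ElA_T z v g q d e) (t' : ElA_T z v h q d' e') :
    ElA_T z v (fun x => g x - h x) q (d - d') (e - e') := by
  obtain ⟨L, h1, h2, h3⟩ := t
  obtain ⟨L', h1', h2', h3'⟩ := t'
  refine ⟨L - L', h1.sub h1', ?_, ?_⟩
  · rw [sub_apply, h2, h2']
  · rw [sub_apply, h3, h3']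

theorem ElA_T.mul (t : ElA_T z v g q d e) (t' : ElA_T z v h q d' e') :
    ElA_T z v (fun x => g x * h x) q (g q * d' + h q * d) (g q * e' + h q * e) := by
  obtain ⟨L, h1, h2, h3⟩ := t
  obtain ⟨L', h1', h2', h3'⟩ := t'
  refine ⟨g q • L' + h q • L, h1.mul h1', ?_, ?_⟩
  · rw [add_apply, smul_apply,
      smul_apply, h2, h2', smul_eq_mul, smul_eq_mul]
  · rw [add_apply, smul_apply,
      smul_apply, h3, h3', smul_eq_mul, smul_eq_mul]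

theorem ElA_T.comp (t : ElA_T z v g q d e) {φ : ℂ → ℂ} {c : ℂ} (hφ : HasDerivAt φ c (g q)) :
    ElA_T z v (fun x => φ (g x)) q (c * d) (c * e) := by
  obtain ⟨L, h1, h2, h3⟩ := t
  refine ⟨c • L, hφ.comp_hasFDerivAt q h1, ?_, ?_⟩
  · rw [smul_apply, h2, smul_eq_mul]
  · rw [smul_apply, h3, smul_eq_mul]

theorem ElA_T.const_mul (t : ElA_T z v g q d e) (c : ℂ) :
    ElA_T z v (fun x => c * g x) q (c * d) (c * e) :=
  t.comp (φ := fun x => c * x) (by simpa using (hasDerivAt_id (g q)).const_mul c)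

theorem ElA_T.pow (t : ElA_T z v g q d e) (n : ℕ) :
    ElA_T z v (fun x => g x ^ n) q (n * g q ^ (n - 1) * d) (n * g q ^ (n - 1) * e) :=
  t.comp (φ := fun x => x ^ n) (hasDerivAt_pow n (g q))

theorem ElA_T.inv (t : ElA_T z v g q d e) (hg : g q ≠ 0) :
    ElA_T z v (fun x => (g x)⁻¹) q (-(g q ^ 2)⁻¹ * d) (-(g q ^ 2)⁻¹ * e) :=
  t.comp (hasDerivAt_inv hg)

end rules

/-- the closed formula of the first derivative of `G` -/
def ElA_G1 (z v : ℂ × ℂ → ℂ) (κ ν : ℂ → ℂ) (q : ℂ × ℂ) : ℂ :=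
  deriv ν (z q + (κ (z q) - v q)⁻¹) * (κ (z q) - v q)⁻¹ ^ 4 +
    2 * (ν (z q + (κ (z q) - v q)⁻¹) * (κ (z q) - v q)⁻¹ ^ 3)

/-- the closed formula of the second derivative of `G` -/
def ElA_G2 (z v : ℂ × ℂ → ℂ) (κ ν : ℂ → ℂ) (q : ℂ × ℂ) : ℂ :=
  deriv (deriv ν) (z q + (κ (z q) - v q)⁻¹) * (κ (z q) - v q)⁻¹ ^ 6 +
    6 * deriv ν (z q + (κ (z q) - v q)⁻¹) * (κ (z q) - v q)⁻¹ ^ 5 +
    6 * ν (z q + (κ (z q) - v q)⁻¹) * (κ (z q) - v q)⁻¹ ^ 4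

/-- the coefficient in the formula of `R` -/
def ElA_c (z v : ℂ × ℂ → ℂ) (κ : ℂ → ℂ) (q : ℂ × ℂ) : ℂ :=
  2 * (κ (z q) * v q) - κ (z q) ^ 2 + deriv κ (z q)

section point

variable {z v : ℂ × ℂ → ℂ} {κ ν : ℂ → ℂ} {q : ℂ × ℂ}

theorem ElA_s (hz : DifferentiableAt ℂ z q) (hv : DifferentiableAt ℂ v q)
    (hW : Jf z v q ≠ 0) (hκ : DifferentiableAt ℂ κ (z q)) (hne : κ (z q) ≠ v q) :
    ElA_T z v (fun x => (κ (z x) - v x)⁻¹) q ((κ (z q) - v q)⁻¹ ^ 2)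
      (-deriv κ (z q) * (κ (z q) - v q)⁻¹ ^ 2) := by
  have h1 : ElA_T z v (fun x => κ (z x)) q _ _ := (ElA_T_z hz hW).comp hκ.hasDerivAt
  have h2 := (h1.sub (ElA_T_v hv hW)).inv (sub_ne_zero.2 hne)
  refine h2.of_eq ?_ ?_
  · rw [inv_pow]
    ring
  · rw [inv_pow]
    ring

theorem ElA_x (hz : DifferentiableAt ℂ z q) (hv : DifferentiableAt ℂ v q)
    (hW : Jf z v q ≠ 0) (hκ : DifferentiableAt ℂ κ (z q)) (hne : κ (z q) ≠ v q) :
    ElA_T z v (fun x => z x + (κ (z x) - v x)⁻¹) q ((κ (z q) - v q)⁻¹ ^ 2)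
      (1 - deriv κ (z q) * (κ (z q) - v q)⁻¹ ^ 2) :=
  ((ElA_T_z hz hW).add (ElA_s hz hv hW hκ hne)).of_eq (by ring) (by ring)

theorem ElA_G (hz : DifferentiableAt ℂ z q) (hv : DifferentiableAt ℂ v q)
    (hW : Jf z v q ≠ 0) (hκ : DifferentiableAt ℂ κ (z q)) (hne : κ (z q) ≠ v q)
    (hν : DifferentiableAt ℂ ν (z q + (κ (z q) - v q)⁻¹)) :
    ElA_T z v (fun x => ν (z x + (κ (z x) - v x)⁻¹) * (κ (z x) - v x)⁻¹ ^ 2) q
      (ElA_G1 z v κ ν q)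
      (deriv ν (z q + (κ (z q) - v q)⁻¹) * (κ (z q) - v q)⁻¹ ^ 2 -
        deriv κ (z q) * ElA_G1 z v κ ν q) := by
  have h1 := (ElA_x hz hv hW hκ hne).comp hν.hasDerivAt
  have h2 := (ElA_s hz hv hW hκ hne).pow 2
  refine (h1.mul h2).of_eq ?_ ?_
  · unfold ElA_G1
    push_cast
    ring
  · unfold ElA_G1
    push_cast
    ring

theorem ElA_G1_T (hz : DifferentiableAt ℂ z q) (hv : DifferentiableAt ℂ v q)
    (hW : Jf z v q ≠ 0) (hκ : DifferentiableAt ℂ κ (z q)) (hne : κ (z q) ≠ v q)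
    (hν : DifferentiableAt ℂ ν (z q + (κ (z q) - v q)⁻¹))
    (hν' : DifferentiableAt ℂ (deriv ν) (z q + (κ (z q) - v q)⁻¹)) :
    ∃ e, ElA_T z v (ElA_G1 z v κ ν) q (ElA_G2 z v κ ν q) e := by
  have h1 := (ElA_x hz hv hW hκ hne).comp hν.hasDerivAt
  have h1' := (ElA_x hz hv hW hκ hne).comp hν'.hasDerivAt
  have h2 := (ElA_s hz hv hW hκ hne).pow 4
  have h3 := (ElA_s hz hv hW hκ hne).pow 3
  refine ⟨_, ((h1'.mul h2).add ((h1.mul h3).const_mul 2)).of_eq ?_ rfl⟩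
  unfold ElA_G2
  push_cast
  ring

theorem ElA_c_T (hz : DifferentiableAt ℂ z q) (hv : DifferentiableAt ℂ v q)
    (hW : Jf z v q ≠ 0) (hκ : DifferentiableAt ℂ κ (z q))
    (hκ' : DifferentiableAt ℂ (deriv κ) (z q)) :
    ∃ e, ElA_T z v (ElA_c z v κ) q (2 * κ (z q)) e := by
  have h1 : ElA_T z v (fun x => κ (z x)) q _ _ := (ElA_T_z hz hW).comp hκ.hasDerivAt
  have h1' : ElA_T z v (fun x => deriv κ (z x)) q _ _ := (ElA_T_z hz hW).comp hκ'.hasDerivAt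
  have h2 := h1.mul (ElA_T_v hv hW)
  refine ⟨_, (((h2.const_mul 2).sub (h1.pow 2)).add h1').of_eq ?_ rfl⟩
  ring

end point

variable {z v G R : ℂ × ℂ → ℂ} {κ ν : ℂ → ℂ} {p : ℂ × ℂ}

/-- **the elimination identity**: `z` is the vertex, `s = 1 / (κ (z) - v)`, `G = ν (z + s) s ^ 2` -/
theorem elim_id (hz : AnalyticAt ℂ z p) (hv : AnalyticAt ℂ v p) (hκ : AnalyticAt ℂ κ (z p))
    (hvκ : κ (z p) ≠ v p) (hν : AnalyticAt ℂ ν (z p + (κ (z p) - v p)⁻¹)) (hW : Jf z v p ≠ 0)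
    (hG : ∀ᶠ q in 𝓝 p, G q = ν (z q + (κ (z q) - v q)⁻¹) * (κ (z q) - v q)⁻¹ ^ 2)
    (hR : ∀ᶠ q in 𝓝 p, R q = dvF z v (fun x => v x ^ 2 * G x) q - dzF z v G q) :
    AnalyticAt ℂ G p ∧ AnalyticAt ℂ R p ∧ AnalyticAt ℂ (dvF z v G) p ∧
    AnalyticAt ℂ (dvF z v (dvF z v G)) p ∧ AnalyticAt ℂ (dvF z v R) p ∧
    (∀ᶠ q in 𝓝 p, dvF z v G q * dvF z v R q - dvF z v (dvF z v G) q * R q =
      2 * κ (z q) * (2 * dvF z v G q ^ 2 - G q * dvF z v (dvF z v G) q)) ∧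
    ∀ᶠ q in 𝓝 p, 2 * dvF z v G q ^ 2 - G q * dvF z v (dvF z v G) q =
      (κ (z q) - v q)⁻¹ ^ 6 * (2 * ν (z q + (κ (z q) - v q)⁻¹) ^ 2 +
        2 * (κ (z q) - v q)⁻¹ * ν (z q + (κ (z q) - v q)⁻¹) *
          deriv ν (z q + (κ (z q) - v q)⁻¹) +
        (κ (z q) - v q)⁻¹ ^ 2 * (2 * deriv ν (z q + (κ (z q) - v q)⁻¹) ^ 2 -
          ν (z q + (κ (z q) - v q)⁻¹) * deriv (deriv ν) (z q + (κ (z q) - v q)⁻¹))) := by
  -- the neighbourhood
  have hW' : ∀ᶠ q in 𝓝 p, Jf z v q ≠ 0 := (Jf_an hz hv).continuousAt.eventually_ne hW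
  have hz' := hz.eventually_analyticAt
  have hv' := hv.eventually_analyticAt
  have hκ' : ∀ᶠ q in 𝓝 p, AnalyticAt ℂ κ (z q) :=
    hz.continuousAt.eventually hκ.eventually_analyticAt
  have hκz : AnalyticAt ℂ (fun q => κ (z q)) p := AnalyticAt.fun_comp (g := κ) (f := z) hκ hz
  have hne' : ∀ᶠ q in 𝓝 p, κ (z q) ≠ v q := by
    have h1 := (hκz.sub hv).continuousAt.eventually_ne (sub_ne_zero.2 hvκ)
    exact h1.mono fun q hq => sub_ne_zero.1 hq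
  have hs : AnalyticAt ℂ (fun q => (κ (z q) - v q)⁻¹) p := (hκz.sub hv).inv (sub_ne_zero.2 hvκ)
  have hx : AnalyticAt ℂ (fun q => z q + (κ (z q) - v q)⁻¹) p := hz.add hs
  have hν' : ∀ᶠ q in 𝓝 p, AnalyticAt ℂ ν (z q + (κ (z q) - v q)⁻¹) :=
    hx.continuousAt.eventually hν.eventually_analyticAt
  have hνx : AnalyticAt ℂ (fun q => ν (z q + (κ (z q) - v q)⁻¹)) p :=
    AnalyticAt.fun_comp (g := ν) (f := fun q => z q + (κ (z q) - v q)⁻¹) hν hx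
  -- analyticity
  have hGa : AnalyticAt ℂ G p :=
    (hνx.mul (hs.pow 2)).congr (Filter.EventuallyEq.symm hG)
  have hdv : ∀ {g : ℂ × ℂ → ℂ}, AnalyticAt ℂ g p → AnalyticAt ℂ (dvF z v g) p :=
    fun hg => (Jf_an hz hg).div (Jf_an hz hv) hW
  have hdz : ∀ {g : ℂ × ℂ → ℂ}, AnalyticAt ℂ g p → AnalyticAt ℂ (dzF z v g) p :=
    fun hg => (Jf_an hg hv).div (Jf_an hz hv) hW
  have hRa : AnalyticAt ℂ R p :=
    ((hdv ((hv.pow 2).mul hGa)).sub (hdz hGa)).congr (Filter.EventuallyEq.symm hR)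
  -- closed formulas
  have hG1 : ∀ᶠ q in 𝓝 p, dvF z v G q = ElA_G1 z v κ ν q ∧
      R q = 2 * (κ (z q) * G q) + ElA_c z v κ q * ElA_G1 z v κ ν q := by
    filter_upwards [hW', hz', hv', hκ', hne', hν', hG.eventually_nhds, hR]
      with q hW hz hv hκ hne hν hG hR
    have t := (ElA_G hz.differentiableAt hv.differentiableAt hW hκ.differentiableAt hne
      hν.differentiableAt).congr hG
    have t2 := (((ElA_T_v (z := z) hv.differentiableAt hW).pow 2).mul t).dv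
    refine ⟨t.dv, ?_⟩
    rw [hR, t2, t.dz, hG.self_of_nhds]
    unfold ElA_G1 ElA_c
    have h0 : κ (z q) - v q ≠ 0 := sub_ne_zero.2 hne
    generalize hs : (κ (z q) - v q)⁻¹ = s
    have h1 : κ (z q) = v q + s⁻¹ := by
      rw [← hs, inv_inv]
      ring
    have hs0 : s ≠ 0 := by
      rw [← hs]
      exact inv_ne_zero h0
    generalize deriv κ (z q) = k'
    rw [h1]
    push_cast
    field_simp
    ring
  have hG1' : ∀ᶠ q in 𝓝 p, dvF z v G q = ElA_G1 z v κ ν q := hG1.mono fun q h => h.1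
  have hR' : ∀ᶠ q in 𝓝 p,
      R q = 2 * (κ (z q) * G q) + ElA_c z v κ q * ElA_G1 z v κ ν q := hG1.mono fun q h => h.2
  have hG2 : ∀ᶠ q in 𝓝 p, dvF z v (dvF z v G) q = ElA_G2 z v κ ν q ∧
      dvF z v R q = 4 * (κ (z q) * ElA_G1 z v κ ν q) + ElA_c z v κ q * ElA_G2 z v κ ν q := by
    filter_upwards [hW', hz', hv', hκ', hne', hν', hG.eventually_nhds, hG1'.eventually_nhds,
      hR'.eventually_nhds] with q hW hz hv hκ hne hν hG hG1 hR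
    have t := (ElA_G hz.differentiableAt hv.differentiableAt hW hκ.differentiableAt hne
      hν.differentiableAt).congr hG
    obtain ⟨e1, t1⟩ := ElA_G1_T hz.differentiableAt hv.differentiableAt hW hκ.differentiableAt
      hne hν.differentiableAt hν.deriv.differentiableAt
    obtain ⟨e2, t2⟩ := ElA_c_T hz.differentiableAt hv.differentiableAt hW hκ.differentiableAt
      hκ.deriv.differentiableAt
    have tk : ElA_T z v (fun x => κ (z x)) q _ _ :=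
      (ElA_T_z hz.differentiableAt hW).comp hκ.differentiableAt.hasDerivAt
    refine ⟨(t1.congr hG1).dv, ?_⟩
    have t3 := ((((tk.mul t).const_mul 2).add (t2.mul t1)).congr hR).dv
    rw [t3]
    ring
  refine ⟨hGa, hRa, hdv hGa, hdv (hdv hGa), hdv hRa, ?_, ?_⟩
  · filter_upwards [hG1, hG2] with q h1 h2
    rw [h1.1, h1.2, h2.1, h2.2]
    ring
  · filter_upwards [hG1', hG2, hG] with q h1 h2 h3
    rw [h1, h2.1, h3]
    unfold ElA_G1 ElA_G2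
    ring

end Pool.Agent.MP_ae5b4e_an_NB1B
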