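import Pool.Agent.Lib.MP_ae5b4e_an_NB1B.DrM

/-!
# MP_ae5b4e_an, NB_1 section 3: the elimination operator

`X i` are the vertices `F (t + i ρ, ρ)`, `P i` the functions `∑_{j ≤ i + 1} Φ j (t + i ρ, ρ)`.
-/

noncomputable section

namespace Pool.Agent.MP_ae5b4e_an_NB1B

open Complex Set Filter Topology Metric
open Pool.Agent.MP_ae5b4e_an_NBT

/-- `v = 1 / (x₁ - x₀)` -/
def VE (X : ℕ → ℂ × ℂ → ℂ) (q : ℂ × ℂ) : ℂ := (X 1 q - X 0 q)⁻¹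

/-- the Jacobian of `x₀`, `v` -/
def WE (X : ℕ → ℂ × ℂ → ℂ) (q : ℂ × ℂ) : ℂ := JM (X 0) (VE X) q

/-- the derivative in `v`, `x₀` fixed -/
def dvE (X : ℕ → ℂ × ℂ → ℂ) (g : ℂ × ℂ → ℂ) (q : ℂ × ℂ) : ℂ := JM (X 0) g q / WE X q

/-- the derivative in `x₀`, `v` fixed -/
def dzE (X : ℕ → ℂ × ℂ → ℂ) (g : ℂ × ℂ → ℂ) (q : ℂ × ℂ) : ℂ := JM g (VE X) q / WE X q

/-- the function `G = Φ 0 (t - ρ, ρ) (x₋₁ - x₀) ^ 2` in terms of the other vertices -/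
def GE (m : ℕ) (β : ℂ → ℂ) (X P : ℕ → ℂ × ℂ → ℂ) (q : ℂ × ℂ) : ℂ :=
  (β q.2 * dtM (X 0) q + ∑ i ∈ Finset.Ico 1 (m - 1), P i q * JM (X i) (X 0) q) / WE X q

/-- `R = ∂_v (v ^ 2 G) - ∂_z G` -/
def RE (m : ℕ) (β : ℂ → ℂ) (X P : ℕ → ℂ × ℂ → ℂ) (q : ℂ × ℂ) : ℂ :=
  dvE X (fun x => VE X x ^ 2 * GE m β X P x) q - dzE X (GE m β X P) q

/-- the discriminant `2 G_v ^ 2 - G G_vv` -/
def DE (m : ℕ) (β : ℂ → ℂ) (X P : ℕ → ℂ × ℂ → ℂ) (q : ℂ × ℂ) : ℂ :=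
  2 * dvE X (GE m β X P) q ^ 2 - GE m β X P q * dvE X (dvE X (GE m β X P)) q

/-- the function `K` in terms of the vertices `X i`, `i ≥ 0` -/
def KE (m : ℕ) (β : ℂ → ℂ) (X P : ℕ → ℂ × ℂ → ℂ) (q : ℂ × ℂ) : ℂ :=
  (dvE X (GE m β X P) q * dvE X (RE m β X P) q -
    dvE X (dvE X (GE m β X P)) q * RE m β X P q) / (2 * DE m β X P q)

variable {m : ℕ} {β : ℂ → ℂ} {X P X' P' : ℕ → ℂ × ℂ → ℂ} {p : ℂ × ℂ}

/-- meromorphic and equal off a denominator -/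
private def eld_ME (f f' : ℂ × ℂ → ℂ) (p : ℂ × ℂ) : Prop := MerAt f p ∧ EqM f f' p

private lemma eld_an {f : ℂ × ℂ → ℂ} (h : AnalyticAt ℂ f p) : eld_ME f f p :=
  ⟨merAt_of_analyticAt h, EqM.refl f p⟩

private lemma eld_add {f f' g g' : ℂ × ℂ → ℂ} (hf : eld_ME f f' p) (hg : eld_ME g g' p) :
    eld_ME (fun q => f q + g q) (fun q => f' q + g' q) p :=
  ⟨hf.1.add hg.1, EqM.map₂ (fun x y => x + y) hf.2 hg.2⟩

private lemma eld_sub {f f' g g' : ℂ × ℂ → ℂ} (hf : eld_ME f f' p) (hg : eld_ME g g' p) :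
    eld_ME (fun q => f q - g q) (fun q => f' q - g' q) p :=
  ⟨hf.1.sub hg.1, EqM.map₂ (fun x y => x - y) hf.2 hg.2⟩

private lemma eld_mul {f f' g g' : ℂ × ℂ → ℂ} (hf : eld_ME f f' p) (hg : eld_ME g g' p) :
    eld_ME (fun q => f q * g q) (fun q => f' q * g' q) p :=
  ⟨hf.1.mul hg.1, EqM.map₂ (fun x y => x * y) hf.2 hg.2⟩

private lemma eld_div {f f' g g' : ℂ × ℂ → ℂ} (hf : eld_ME f f' p) (hg : eld_ME g g' p) :
    eld_ME (fun q => f q / g q) (fun q => f' q / g' q) p :=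
  ⟨hf.1.div hg.1, EqM.map₂ (fun x y => x / y) hf.2 hg.2⟩

private lemma eld_inv {f f' : ℂ × ℂ → ℂ} (hf : eld_ME f f' p) :
    eld_ME (fun q => (f q)⁻¹) (fun q => (f' q)⁻¹) p :=
  ⟨hf.1.inv, EqM.map (fun x => x⁻¹) hf.2⟩

private lemma eld_sq {f f' : ℂ × ℂ → ℂ} (hf : eld_ME f f' p) :
    eld_ME (fun q => f q ^ 2) (fun q => f' q ^ 2) p := by
  have h1 := eld_mul hf hf
  simp only [← pow_two] at h1
  exact h1

private lemma eld_JM {f f' g g' : ℂ × ℂ → ℂ} (hf : eld_ME f f' p) (hg : eld_ME g g' p) :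
    eld_ME (JM f g) (JM f' g') p :=
  ⟨merAt_JM hf.1 hg.1, eqM_JM hf.1 hg.1 hf.2 hg.2⟩

private lemma eld_dtM {f f' : ℂ × ℂ → ℂ} (hf : eld_ME f f' p) : eld_ME (dtM f) (dtM f') p :=
  ⟨hf.1.dtM, EqM.dtM hf.1 hf.2⟩

private lemma eld_sum {ι : Type*} (s : Finset ι) {f f' : ι → ℂ × ℂ → ℂ}
    (h : ∀ i ∈ s, eld_ME (f i) (f' i) p) :
    eld_ME (fun q => ∑ i ∈ s, f i q) (fun q => ∑ i ∈ s, f' i q) p := by
  classical
  induction s using Finset.induction_on with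
  | empty =>
    simp only [Finset.sum_empty]
    exact eld_an analyticAt_const
  | insert i s hi ih =>
    simp only [Finset.sum_insert hi]
    exact eld_add (h i (Finset.mem_insert_self i s))
      (ih fun k hk => h k (Finset.mem_insert_of_mem hk))

private lemma eld_VE (h0 : eld_ME (X 0) (X' 0) p) (h1 : eld_ME (X 1) (X' 1) p) :
    eld_ME (VE X) (VE X') p :=
  eld_inv (eld_sub h1 h0)

private lemma eld_WE (h0 : eld_ME (X 0) (X' 0) p) (h1 : eld_ME (X 1) (X' 1) p) :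
    eld_ME (WE X) (WE X') p :=
  eld_JM h0 (eld_VE h0 h1)

private lemma eld_dvE (h0 : eld_ME (X 0) (X' 0) p) (h1 : eld_ME (X 1) (X' 1) p)
    {g g' : ℂ × ℂ → ℂ} (hg : eld_ME g g' p) : eld_ME (dvE X g) (dvE X' g') p :=
  eld_div (eld_JM h0 hg) (eld_WE h0 h1)

private lemma eld_dzE (h0 : eld_ME (X 0) (X' 0) p) (h1 : eld_ME (X 1) (X' 1) p)
    {g g' : ℂ × ℂ → ℂ} (hg : eld_ME g g' p) : eld_ME (dzE X g) (dzE X' g') p :=
  eld_div (eld_JM hg (eld_VE h0 h1)) (eld_WE h0 h1)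

private lemma eld_GE (hm : 2 ≤ m) (hβ : AnalyticAt ℂ β p.2)
    (hX : ∀ i < m, eld_ME (X i) (X' i) p)
    (hP : ∀ i ∈ Finset.Ico 1 (m - 1), eld_ME (P i) (P' i) p) :
    eld_ME (GE m β X P) (GE m β X' P') p := by
  have h0 := hX 0 (by omega)
  have h1 := hX 1 (by omega)
  have hb : eld_ME (fun q : ℂ × ℂ => β q.2) (fun q : ℂ × ℂ => β q.2) p :=
    eld_an (AnalyticAt.fun_comp (g := β) (f := fun q : ℂ × ℂ => q.2) hβ analyticAt_snd)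
  refine eld_div (eld_add (eld_mul hb (eld_dtM h0)) (eld_sum _ fun i hi => ?_)) (eld_WE h0 h1)
  have h2 : i < m := by
    have h3 := (Finset.mem_Ico.1 hi).2
    omega
  exact eld_mul (hP i hi) (eld_JM (hX i h2) h0)

private lemma eld_KE (hm : 2 ≤ m) (hβ : AnalyticAt ℂ β p.2)
    (hX : ∀ i < m, eld_ME (X i) (X' i) p)
    (hP : ∀ i ∈ Finset.Ico 1 (m - 1), eld_ME (P i) (P' i) p) :
    eld_ME (KE m β X P) (KE m β X' P') p := by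
  have h0 := hX 0 (by omega)
  have h1 := hX 1 (by omega)
  have hG := eld_GE hm hβ hX hP
  have h2 : eld_ME (fun _ => (2 : ℂ)) (fun _ => (2 : ℂ)) p := eld_an analyticAt_const
  have hGv := eld_dvE h0 h1 hG
  have hGvv := eld_dvE h0 h1 hGv
  have hR : eld_ME (RE m β X P) (RE m β X' P') p :=
    eld_sub (eld_dvE h0 h1 (eld_mul (eld_sq (eld_VE h0 h1)) hG)) (eld_dzE h0 h1 hG)
  have hD : eld_ME (DE m β X P) (DE m β X' P') p :=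
    eld_sub (eld_mul h2 (eld_sq hGv)) (eld_mul hG hGvv)
  exact eld_div (eld_sub (eld_mul hGv (eld_dvE h0 h1 hR)) (eld_mul hGvv hR)) (eld_mul h2 hD)

theorem mer_KE (hm : 2 ≤ m) (hβ : AnalyticAt ℂ β p.2) (hX : ∀ i < m, MerAt (X i) p)
    (hP : ∀ i ∈ Finset.Ico 1 (m - 1), MerAt (P i) p) : MerAt (KE m β X P) p :=
  (eld_KE hm hβ (fun i hi => ⟨hX i hi, EqM.refl _ p⟩)
    (fun i hi => ⟨hP i hi, EqM.refl _ p⟩)).1

theorem eqM_KE (hm : 2 ≤ m) (hβ : AnalyticAt ℂ β p.2) (hX : ∀ i < m, MerAt (X i) p)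
    (hP : ∀ i ∈ Finset.Ico 1 (m - 1), MerAt (P i) p) (hX' : ∀ i < m, EqM (X i) (X' i) p)
    (hP' : ∀ i ∈ Finset.Ico 1 (m - 1), EqM (P i) (P' i) p) :
    EqM (KE m β X P) (KE m β X' P') p :=
  (eld_KE hm hβ (fun i hi => ⟨hX i hi, hX' i hi⟩) (fun i hi => ⟨hP i hi, hP' i hi⟩)).2

end Pool.Agent.MP_ae5b4e_an_NB1B
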