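import Pool.Agent.Lib.MP_ae5b4e_an_NB1B.Bas
import Pool.Agent.Lib.MP_ae5b4e_an_NB1B.ElA
import Pool.Agent.Lib.MP_ae5b4e_an_NB1B.ElD
import Pool.Agent.Lib.MP_ae5b4e_an_NBT.CliA

/-!
# MP_ae5b4e_an, NB_1 section 3: the elimination operator gives `K`, on the base
-/

noncomputable section

namespace Pool.Agent.MP_ae5b4e_an_NB1B

open Complex Set Filter Topology Metric
open Pool.Agent.MP_ae5b4e_an_NBT

/-- the vertices -/
def XB (F : ℂ × ℂ → ℂ) (i : ℕ) (q : ℂ × ℂ) : ℂ := F (q.1 + i * q.2, q.2)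

/-- the partial sums of the coefficients at the vertices -/
def PB (Φ : ℕ → ℂ × ℂ → ℂ) (i : ℕ) (q : ℂ × ℂ) : ℂ :=
  ∑ j ∈ Finset.range (i + 2), Φ j (q.1 + i * q.2, q.2)

variable {k β : ℂ → ℂ} {F : ℂ × ℂ → ℂ} {c a R : ℝ} {m K : ℕ} {Φ : ℕ → ℂ × ℂ → ℂ}

/-! ### Auxiliary lemmas -/

private lemma elb_R (h : BP k F c m K Φ β a R) : 4 * R ≤ a / 4 ∧ (m : ℝ) * R ≤ a / 4 := by
  have h1 := h.R_le
  have h2 := h.R_pos
  have h3 : (2:ℝ) ≤ m := by exact_mod_cast h.m_ge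
  constructor <;> nlinarith

private lemma elb_Fan (h : BP k F c m K Φ β a R) {p : ℂ × ℂ}
    (hp : p ∈ St (-a) a ×ˢ ball (0:ℂ) R) : AnalyticAt ℂ F p := by
  have hR := (elb_R h).1
  have h1 := h.a_le
  have h2 := h.a_pos
  have h3 := h.R_pos
  obtain ⟨h4, h5⟩ := hp
  rw [mem_St] at h4
  rw [mem_ball_zero_iff] at h5
  refine h.an p ⟨⟨by linarith, by linarith⟩, ?_⟩
  rw [mem_ball_zero_iff]
  linarith

private lemma elb_sh (h : BP k F c m K Φ β a R) {p : ℂ × ℂ} {i : ℕ} (hi : i ≤ m)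
    (hp : p ∈ St (-(a / 2)) (a / 2) ×ˢ ball (0:ℂ) R) :
    (p.1 + i * p.2, p.2) ∈ St (-a) a ×ˢ ball (0:ℂ) R := by
  have hR := (elb_R h).2
  have h3 := h.R_pos
  have ha := h.a_pos
  obtain ⟨h4, h5⟩ := hp
  refine ⟨?_, h5⟩
  rw [mem_St] at h4
  rw [mem_ball_zero_iff] at h5
  have h6 : |((i : ℂ) * p.2).im| ≤ m * R := by
    refine (abs_im_le_norm _).trans ?_
    rw [norm_mul, norm_natCast]
    have h7 : (i : ℝ) ≤ m := by exact_mod_cast hi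
    gcongr
  have h7 := abs_le.1 h6
  rw [mem_St]
  refine ⟨?_, ?_⟩ <;> rw [add_im] <;> linarith

private lemma elb_sm (h : BP k F c m K Φ β a R) {p : ℂ × ℂ}
    (hp : p ∈ St (-(a / 4)) (a / 4) ×ˢ ball (0:ℂ) R) :
    (p.1 - p.2, p.2) ∈ St (-(a / 2)) (a / 2) ×ˢ ball (0:ℂ) R := by
  have hR := (elb_R h).1
  have h3 := h.R_pos
  have ha := h.a_pos
  obtain ⟨h4, h5⟩ := hp
  refine ⟨?_, h5⟩
  rw [mem_St] at h4
  rw [mem_ball_zero_iff] at h5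
  have h7 := abs_le.1 ((abs_im_le_norm p.2).trans h5.le)
  rw [mem_St]
  refine ⟨?_, ?_⟩ <;> rw [sub_im] <;> linarith

private lemma elb_half {p : ℂ × ℂ} (ha : 0 < a)
    (hp : p ∈ St (-(a / 4)) (a / 4) ×ˢ ball (0:ℂ) R) :
    p ∈ St (-(a / 2)) (a / 2) ×ˢ ball (0:ℂ) R := by
  obtain ⟨h4, h5⟩ := hp
  refine ⟨?_, h5⟩
  rw [mem_St] at h4 ⊢
  constructor <;> linarith

private lemma elb_full {p : ℂ × ℂ} (ha : 0 < a)
    (hp : p ∈ St (-(a / 2)) (a / 2) ×ˢ ball (0:ℂ) R) :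
    p ∈ St (-a) a ×ˢ ball (0:ℂ) R := by
  obtain ⟨h4, h5⟩ := hp
  refine ⟨?_, h5⟩
  rw [mem_St] at h4 ⊢
  constructor <;> linarith

private lemma elb_fd (l : ℂ) {g : ℂ × ℂ → ℂ} {p : ℂ × ℂ}
    (hg : DifferentiableAt ℂ g (p.1 + l * p.2, p.2)) (v : ℂ × ℂ) :
    fderiv ℂ (fun q : ℂ × ℂ => g (q.1 + l * q.2, q.2)) p v =
      fderiv ℂ g (p.1 + l * p.2, p.2) (v.1 + l * v.2, v.2) := by
  have h1 : HasFDerivAt (fun q : ℂ × ℂ => (q.1 + l * q.2, q.2))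
      (((ContinuousLinearMap.fst ℂ ℂ ℂ) + l • (ContinuousLinearMap.snd ℂ ℂ ℂ)).prod
        (ContinuousLinearMap.snd ℂ ℂ ℂ)) p :=
    (hasFDerivAt_fst.add (hasFDerivAt_snd.const_mul l)).prodMk hasFDerivAt_snd
  have h2 : HasFDerivAt (fun q : ℂ × ℂ => g (q.1 + l * q.2, q.2))
      ((fderiv ℂ g (p.1 + l * p.2, p.2)).comp
        (((ContinuousLinearMap.fst ℂ ℂ ℂ) + l • (ContinuousLinearMap.snd ℂ ℂ ℂ)).prod
        (ContinuousLinearMap.snd ℂ ℂ ℂ))) p :=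
    HasFDerivAt.comp (g := g) (f := fun q : ℂ × ℂ => (q.1 + l * q.2, q.2)) p hg.hasFDerivAt h1
  rw [h2.fderiv]
  rfl

private lemma elb_anfd {C : ℂ × ℂ → ℂ} {q : ℂ × ℂ} (v : ℂ × ℂ) (hC : AnalyticAt ℂ C q) :
    AnalyticAt ℂ (fun x => fderiv ℂ C x v) q :=
  ((ContinuousLinearMap.apply ℂ ℂ v).analyticAt (fderiv ℂ C q)).comp hC.fderiv

private lemma elb_Ft (h : BP k F c m K Φ β a R) {p : ℂ × ℂ}
    (hp : p ∈ St (-a) a ×ˢ ball (0:ℂ) R) : fderiv ℂ F p (1, 0) ≠ 0 := by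
  have hR := (elb_R h).1
  have h1 := h.a_le
  have h2 := h.a_pos
  have h3 := h.R_pos
  have hFan := elb_Fan h hp
  obtain ⟨h4, h5⟩ := hp
  rw [mem_St] at h4
  rw [mem_ball_zero_iff] at h5
  have h6 := h.dt p ⟨⟨by linarith, by linarith⟩, by rw [mem_ball_zero_iff]; linarith⟩
  have h7 : HasDerivAt (fun s => F (s, p.2)) (fderiv ℂ F p (1, 0)) p.1 := by
    have h8 : HasFDerivAt F (fderiv ℂ F p) (p.1, p.2) := hFan.differentiableAt.hasFDerivAt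
    have h9 : HasDerivAt (fun s : ℂ => ((s, p.2) : ℂ × ℂ)) (1, 0) p.1 :=
      (hasDerivAt_id p.1).prodMk (hasDerivAt_const p.1 p.2)
    exact h8.comp_hasDerivAt p.1 h9
  rw [h7.deriv] at h6
  exact h6

private lemma elb_chain {ν : ℂ → ℂ} {g G : ℂ × ℂ → ℂ} {p : ℂ × ℂ}
    (hG : G =ᶠ[𝓝 p] fun q => ν (g q)) (hν : AnalyticAt ℂ ν (g p)) (hg : AnalyticAt ℂ g p)
    (h0 : fderiv ℂ g p (1, 0) ≠ 0) :
    (fun q => fderiv ℂ G q (1, 0) / fderiv ℂ g q (1, 0)) =ᶠ[𝓝 p] fun q => deriv ν (g q) := by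
  filter_upwards [hG.eventually_nhds, hg.eventually_analyticAt,
    hg.continuousAt.eventually hν.eventually_analyticAt,
    (elb_anfd (1, 0) hg).continuousAt.eventually_ne h0] with q h1 h2 h3 h4
  have h5 : G =ᶠ[𝓝 q] fun q => ν (g q) := h1
  have h6 : HasFDerivAt (fun q => ν (g q)) (deriv ν (g q) • fderiv ℂ g q) q :=
    (h3.differentiableAt.hasDerivAt).comp_hasFDerivAt q h2.differentiableAt.hasFDerivAt
  rw [h5.fderiv_eq, h6.fderiv]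
  show (deriv ν (g q) * fderiv ℂ g q (1, 0)) / fderiv ℂ g q (1, 0) = deriv ν (g q)
  exact mul_div_cancel_right₀ _ h4

private lemma elb_jac {v g x : ℂ × ℂ → ℂ} {κ : ℂ → ℂ} {ε : ℂ} {q : ℂ × ℂ}
    (hv : v =ᶠ[𝓝 q] fun y => κ (g y) + ε * (x y - g y)⁻¹) (hg : DifferentiableAt ℂ g q)
    (hx : DifferentiableAt ℂ x q) (hκ : DifferentiableAt ℂ κ (g q)) (hne : x q - g q ≠ 0) :
    Jf g v q = -(ε * ((x q - g q) ^ 2)⁻¹ * Jf g x q) := by
  have h1 : HasFDerivAt (fun y => κ (g y)) (deriv κ (g q) • fderiv ℂ g q) q :=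
    hκ.hasDerivAt.comp_hasFDerivAt q hg.hasFDerivAt
  have h2 : HasFDerivAt (fun y => x y - g y) (fderiv ℂ x q - fderiv ℂ g q) q :=
    hx.hasFDerivAt.sub hg.hasFDerivAt
  have h3 : HasFDerivAt (fun y => (x y - g y)⁻¹)
      ((-((x q - g q) ^ 2)⁻¹) • (fderiv ℂ x q - fderiv ℂ g q)) q :=
    (hasDerivAt_inv hne).comp_hasFDerivAt q h2
  have h4 : HasFDerivAt (fun y => κ (g y) + ε * (x y - g y)⁻¹)
      (deriv κ (g q) • fderiv ℂ g q +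
        ε • ((-((x q - g q) ^ 2)⁻¹) • (fderiv ℂ x q - fderiv ℂ g q))) q :=
    h1.add (h3.const_mul ε)
  unfold Jf
  rw [hv.fderiv_eq, h4.fderiv]
  simp only [add_apply, smul_apply, sub_apply, smul_eq_mul]
  ring

/-- the pulled back form at `(t, ρ)` -/
theorem form_pull (h : BP k F c m K Φ β a R) {p : ℂ × ℂ}
    (hp : p ∈ St (-(a / 4)) (a / 4) ×ˢ ball (0:ℂ) R) :
    Φ 0 (p.1 - p.2, p.2) * Jf (fun q => F (q.1 - q.2, q.2)) F p +
      ∑ i ∈ Finset.Ico 1 (m - 1), PB Φ i p * Jf (XB F i) F p =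
        -(β p.2 * fderiv ℂ F p (1, 0)) := by
  have hm := h.m_ge
  have hp' := elb_sm h hp
  have hf := h.form _ hp'
  have hFd : ∀ l < m, DifferentiableAt ℂ F (p.1 - p.2 + l * p.2, p.2) := fun l hl =>
    (elb_Fan h (elb_sh h hl.le hp')).differentiableAt
  obtain ⟨cf, hcf⟩ : ∃ cf : ℕ → ℂ, cf = fun l : ℕ =>
    ∑ i ∈ Finset.range (l + 1), Φ i (p.1 - p.2 + l * p.2, p.2) := ⟨_, rfl⟩
  obtain ⟨A, hA⟩ : ∃ A : ℕ → ℂ, A = fun l : ℕ =>
    fderiv ℂ F (p.1 - p.2 + l * p.2, p.2) (1, 0) := ⟨_, rfl⟩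
  obtain ⟨B, hB⟩ : ∃ B : ℕ → ℂ, B = fun l : ℕ =>
    fderiv ℂ F (p.1 - p.2 + l * p.2, p.2) (0, 1) := ⟨_, rfl⟩
  have hval : ∀ v : ℂ × ℂ, ∑ l ∈ Finset.range m, cf l * ((v.1 + l * v.2) * A l + v.2 * B l) =
      β p.2 * v.2 := by
    intro v
    have h1 := congrArg (fun L : ℂ × ℂ →L[ℂ] ℂ => L v) hf
    simp only [sum_apply, smul_apply, smul_eq_mul,
      ContinuousLinearMap.coe_snd'] at h1
    rw [← h1]
    refine Finset.sum_congr rfl fun l hl => ?_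
    have hl' := Finset.mem_range.1 hl
    rw [elb_fd (l : ℂ) (g := F) (p := (p.1 - p.2, p.2)) (hFd l hl') v, ElA_lin, hcf, hA, hB]
  have h1 : ∑ l ∈ Finset.range m, cf l * A l = 0 := by
    have h2 := hval (1, 0)
    simpa using h2
  have h2 : ∑ l ∈ Finset.range m, cf l * (l * A l + B l) = β p.2 := by
    have h2 := hval (0, 1)
    simpa using h2
  have h3 : ∀ l < m, Jf (fun q => F (q.1 + ((l:ℂ) - 1) * q.2, q.2)) F p =
      A l * fderiv ℂ F p (0, 1) - (((l:ℂ) - 1) * A l + B l) * fderiv ℂ F p (1, 0) := by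
    intro l hl
    have he : (p.1 + ((l:ℂ) - 1) * p.2, p.2) = (p.1 - p.2 + l * p.2, p.2) := by
      ext
      · show p.1 + ((l:ℂ) - 1) * p.2 = p.1 - p.2 + l * p.2
        ring
      · rfl
    have hd : DifferentiableAt ℂ F (p.1 + ((l:ℂ) - 1) * p.2, p.2) := by
      rw [he]
      exact hFd l hl
    unfold Jf
    rw [elb_fd ((l:ℂ) - 1) hd (1, 0), elb_fd ((l:ℂ) - 1) hd (0, 1), he]
    simp only [mul_zero, add_zero, mul_one, zero_add]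
    rw [ElA_lin _ ((l:ℂ) - 1) 1, hA, hB]
    ring
  have h4 : ∑ l ∈ Finset.range m, cf l * Jf (fun q => F (q.1 + ((l:ℂ) - 1) * q.2, q.2)) F p =
      -(β p.2 * fderiv ℂ F p (1, 0)) := by
    have h5 : ∑ l ∈ Finset.range m, cf l * Jf (fun q => F (q.1 + ((l:ℂ) - 1) * q.2, q.2)) F p =
        fderiv ℂ F p (0, 1) * ∑ l ∈ Finset.range m, cf l * A l -
        fderiv ℂ F p (1, 0) * (∑ l ∈ Finset.range m, cf l * (l * A l + B l) -
          ∑ l ∈ Finset.range m, cf l * A l) := by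
      rw [← Finset.sum_sub_distrib, Finset.mul_sum, Finset.mul_sum, ← Finset.sum_sub_distrib]
      refine Finset.sum_congr rfl fun l hl => ?_
      rw [h3 l (Finset.mem_range.1 hl)]
      ring
    rw [h5, h1, h2]
    ring
  rw [← h4]
  obtain ⟨n, rfl⟩ : ∃ n, m = n + 2 := ⟨m - 2, by omega⟩
  rw [Finset.sum_range_succ', Finset.sum_range_succ', Finset.sum_Ico_eq_sum_range]
  have e1 : n + 2 - 1 - 1 = n := by omega
  rw [e1]
  have e2 : ∑ l ∈ Finset.range n, cf (l + 1 + 1) *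
      Jf (fun q => F (q.1 + (((l + 1 + 1 : ℕ) : ℂ) - 1) * q.2, q.2)) F p =
      ∑ i ∈ Finset.range n, PB Φ (1 + i) p * Jf (XB F (1 + i)) F p := by
    refine Finset.sum_congr rfl fun l _ => ?_
    have h5 : (fun q : ℂ × ℂ => F (q.1 + (((l + 1 + 1 : ℕ) : ℂ) - 1) * q.2, q.2)) =
        XB F (1 + l) := by
      funext q
      unfold XB
      have h6 : (((l + 1 + 1 : ℕ) : ℂ) - 1) = ((1 + l : ℕ) : ℂ) := by
        push_cast
        ring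
      rw [h6]
    rw [h5, hcf]
    congr 1
    show ∑ i ∈ Finset.range (l + 1 + 1 + 1),
      Φ i (p.1 - p.2 + ((l + 1 + 1 : ℕ) : ℂ) * p.2, p.2) = _
    unfold PB
    have h6 : p.1 - p.2 + ((l + 1 + 1 : ℕ) : ℂ) * p.2 = p.1 + ((1 + l : ℕ) : ℂ) * p.2 := by
      push_cast
      ring
    have h7 : l + 1 + 1 + 1 = 1 + l + 2 := by omega
    rw [h6, h7]
  have e3 : Jf (fun q => F (q.1 + (((0 + 1 : ℕ) : ℂ) - 1) * q.2, q.2)) F p = 0 := by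
    have h5 : (fun q : ℂ × ℂ => F (q.1 + (((0 + 1 : ℕ) : ℂ) - 1) * q.2, q.2)) = F := by
      funext q
      simp
    rw [h5]
    unfold Jf
    ring
  have e4 : (fun q : ℂ × ℂ => F (q.1 + (((0 : ℕ) : ℂ) - 1) * q.2, q.2)) =
      fun q => F (q.1 - q.2, q.2) := by
    funext q
    have h6 : q.1 + (((0 : ℕ) : ℂ) - 1) * q.2 = q.1 - q.2 := by
      push_cast
      ring
    rw [h6]
  have e5 : cf 0 = Φ 0 (p.1 - p.2, p.2) := by
    rw [hcf]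
    simp
  rw [e2, e3, e4, e5]
  ring

private lemma elb_sum {ι : Type*} (s : Finset ι) {f f' : ι → ℂ × ℂ → ℂ} {p : ℂ × ℂ}
    (h : ∀ i ∈ s, EqM (f i) (f' i) p) :
    EqM (fun q => ∑ i ∈ s, f i q) (fun q => ∑ i ∈ s, f' i q) p := by
  classical
  induction s using Finset.induction_on with
  | empty =>
    simp only [Finset.sum_empty]
    exact EqM.refl _ p
  | insert i s hi ih =>
    simp only [Finset.sum_insert hi]
    exact EqM.map₂ (fun x y => x + y) (h i (Finset.mem_insert_self i s))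
      (ih fun k hk => h k (Finset.mem_insert_of_mem hk))

private lemma elb_eqM {X P : ℕ → ℂ × ℂ → ℂ} {p : ℂ × ℂ} {z v : ℂ × ℂ → ℂ} {G R : ℂ × ℂ → ℂ}
    (hz : AnalyticAt ℂ z p) (hv : AnalyticAt ℂ v p) (hX0 : X 0 = z) (hV : VE X = v)
    (hXan : ∀ i < m, AnalyticAt ℂ (X i) p)
    (hGd : G = fun q => (β q.2 * fderiv ℂ z q (1, 0) +
      ∑ i ∈ Finset.Ico 1 (m - 1), P i q * Jf (X i) z q) / Jf z v q)
    (hRd : R = fun q => dvF z v (fun x => v x ^ 2 * G x) q - dzF z v G q)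
    (hG : AnalyticAt ℂ G p) (hR : AnalyticAt ℂ R p) (hG1 : AnalyticAt ℂ (dvF z v G) p) :
    EqM (KE m β X P) (fun q => (dvF z v G q * dvF z v R q - dvF z v (dvF z v G) q * R q) /
      (2 * (2 * dvF z v G q ^ 2 - G q * dvF z v (dvF z v G) q))) p := by
  subst hX0
  subst hV
  have eW : EqM (WE X) (Jf (X 0) (VE X)) p :=
    eqM_JM_an (EqM.refl _ p) (EqM.refl _ p) hz hv
  have edv : ∀ {g g' : ℂ × ℂ → ℂ}, EqM g g' p → AnalyticAt ℂ g' p →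
      EqM (dvE X g) (dvF (X 0) (VE X) g') p := fun hg hg' =>
    EqM.map₂ (fun x y => x / y) (eqM_JM_an (EqM.refl _ p) hg hz hg') eW
  have edz : ∀ {g g' : ℂ × ℂ → ℂ}, EqM g g' p → AnalyticAt ℂ g' p →
      EqM (dzE X g) (dzF (X 0) (VE X) g') p := fun hg hg' =>
    EqM.map₂ (fun x y => x / y) (eqM_JM_an hg (EqM.refl _ p) hg' hv) eW
  have eG : EqM (GE m β X P) G p := by
    rw [hGd]
    refine EqM.map₂ (fun x y => x / y) (EqM.map₂ (fun x y => x + y) ?_ ?_) eW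
    · exact EqM.map₂ (fun x y => x * y) (EqM.refl (fun q : ℂ × ℂ => β q.2) p)
        (eqM_dtM_an (EqM.refl _ p) hz)
    · refine elb_sum _ fun i hi => ?_
      have h2 : i < m := by
        have h3 := (Finset.mem_Ico.1 hi).2
        omega
      exact EqM.map₂ (fun x y => x * y) (EqM.refl (P i) p)
        (eqM_JM_an (EqM.refl _ p) (EqM.refl _ p) (hXan i h2) hz)
  have eG1 := edv eG hG
  have eG2 := edv eG1 hG1
  have eVG : EqM (fun x => VE X x ^ 2 * GE m β X P x) (fun x => VE X x ^ 2 * G x) p :=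
    EqM.map₂ (fun x y => x ^ 2 * y) (EqM.refl _ p) eG
  have eR : EqM (RE m β X P) R p := by
    rw [hRd]
    exact EqM.map₂ (fun x y => x - y) (edv eVG ((hv.pow 2).mul hG)) (edz eG hG)
  have eR1 := edv eR hR
  have eD : EqM (DE m β X P) (fun q => 2 * dvF (X 0) (VE X) G q ^ 2 -
      G q * dvF (X 0) (VE X) (dvF (X 0) (VE X) G) q) p :=
    EqM.map₂ (fun x y => x - y) (EqM.map (fun x => 2 * x ^ 2) eG1)
      (EqM.map₂ (fun x y => x * y) eG eG2)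
  exact EqM.map₂ (fun x y => x / y)
    (EqM.map₂ (fun x y => x - y) (EqM.map₂ (fun x y => x * y) eG1 eR1)
      (EqM.map₂ (fun x y => x * y) eG2 eR)) (EqM.map (fun x => 2 * x) eD)

/-- the derivative of `Φ 0` along the vertex -/
private def elb_a1 (F : ℂ × ℂ → ℂ) (Φ : ℕ → ℂ × ℂ → ℂ) (q : ℂ × ℂ) : ℂ :=
  fderiv ℂ (Φ 0) q (1, 0) / fderiv ℂ F q (1, 0)

private def elb_a2 (F : ℂ × ℂ → ℂ) (Φ : ℕ → ℂ × ℂ → ℂ) (q : ℂ × ℂ) : ℂ :=
  fderiv ℂ (elb_a1 F Φ) q (1, 0) / fderiv ℂ F q (1, 0)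

private def elb_br (F : ℂ × ℂ → ℂ) (Φ : ℕ → ℂ × ℂ → ℂ) (q : ℂ × ℂ) : ℂ :=
  2 * Φ 0 (q.1 - q.2, q.2) ^ 2 +
    2 * (F (q.1 - q.2, q.2) - F q) * Φ 0 (q.1 - q.2, q.2) * elb_a1 F Φ (q.1 - q.2, q.2) +
    (F (q.1 - q.2, q.2) - F q) ^ 2 * (2 * elb_a1 F Φ (q.1 - q.2, q.2) ^ 2 -
      Φ 0 (q.1 - q.2, q.2) * elb_a2 F Φ (q.1 - q.2, q.2))

private lemma elb_Tan (l : ℂ) (p : ℂ × ℂ) :
    AnalyticAt ℂ (fun q : ℂ × ℂ => (q.1 + l * q.2, q.2)) p :=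
  (analyticAt_fst.add (analyticAt_const.mul analyticAt_snd)).prod analyticAt_snd

private lemma elb_San (p : ℂ × ℂ) : AnalyticAt ℂ (fun q : ℂ × ℂ => (q.1 - q.2, q.2)) p :=
  (analyticAt_fst.sub analyticAt_snd).prod analyticAt_snd

private lemma elb_Xan (h : BP k F c m K Φ β a R) {p : ℂ × ℂ} {i : ℕ} (hi : i ≤ m)
    (hp : p ∈ St (-(a / 4)) (a / 4) ×ˢ ball (0:ℂ) R) : AnalyticAt ℂ (XB F i) p :=
  AnalyticAt.fun_comp (g := F) (f := fun q : ℂ × ℂ => (q.1 + i * q.2, q.2))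
    (elb_Fan h (elb_sh h hi (elb_half h.a_pos hp))) (elb_Tan i p)

private lemma elb_fe (h : BP k F c m K Φ β a R) {q : ℂ × ℂ}
    (hq : q ∈ St (-(a / 4)) (a / 4) ×ˢ ball (0:ℂ) R) (h0 : q.2 ≠ 0) :
    (F (q.1 + q.2, q.2) - F q)⁻¹ + (F (q.1 - q.2, q.2) - F q)⁻¹ = k (F q) ∧
    F (q.1 + q.2, q.2) ≠ F q ∧ F (q.1 - q.2, q.2) ≠ F q := by
  have hR := (elb_R h).1
  have h1 := h.a_le
  have h2 := h.a_pos
  have h3 := h.R_pos
  obtain ⟨h4, h5⟩ := hq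
  rw [mem_St] at h4
  rw [mem_ball_zero_iff] at h5
  have h6 := abs_le.1 ((abs_im_le_norm q.2).trans h5.le)
  have hqc : q ∈ St (-c) c ×ˢ ball (0:ℂ) c :=
    ⟨⟨by linarith, by linarith⟩, by rw [mem_ball_zero_iff]; linarith⟩
  have hp1 : q.1 + q.2 ∈ St (-c) c := by
    rw [mem_St, add_im]
    constructor <;> linarith
  have hm1 : q.1 - q.2 ∈ St (-c) c := by
    rw [mem_St, sub_im]
    constructor <;> linarith
  refine ⟨h.fe q hqc h0 hp1 hm1, h.sep q hqc h0 hp1, ?_⟩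
  have hqs : (q.1 - q.2, q.2) ∈ St (-c) c ×ˢ ball (0:ℂ) c := ⟨hm1, hqc.2⟩
  have h7 := h.sep (q.1 - q.2, q.2) hqs h0 (by
    show q.1 - q.2 + q.2 ∈ _
    rw [sub_add_cancel]
    exact hqc.1)
  have h8 : F (q.1 - q.2 + q.2, q.2) ≠ F (q.1 - q.2, q.2) := h7
  rw [sub_add_cancel] at h8
  exact fun h9 => h8 h9.symm

private lemma elb_core (h : BP k F c m K Φ β a R) {p : ℂ × ℂ}
    (hp : p ∈ St (-(a / 4)) (a / 4) ×ˢ ball (0:ℂ) R) (hρ : p.2 ≠ 0)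
    (hJ : Jf F (XB F 1) p ≠ 0) (hbr : elb_br F Φ p ≠ 0) :
    EqM (KE m β (XB F) (PB Φ)) (KF F) p := by
  have ha := h.a_pos
  have hm := h.m_ge
  have hX0 : XB F 0 = F := by
    funext q
    simp [XB]
  have hop : IsOpen (St (-(a / 4)) (a / 4) ×ˢ ball (0:ℂ) R) := (isOpen_St _ _).prod isOpen_ball
  have hev : ∀ᶠ q in 𝓝 p, q ∈ St (-(a / 4)) (a / 4) ×ˢ ball (0:ℂ) R ∧ q.2 ≠ 0 :=
    Filter.Eventually.and (hop.mem_nhds hp) (continuousAt_snd.eventually_ne hρ)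
  have hpf := elb_full ha (elb_half ha hp)
  have hFan : AnalyticAt ℂ F p := elb_Fan h hpf
  have hSp : (p.1 - p.2, p.2) ∈ St (-a) a ×ˢ ball (0:ℂ) R := elb_full ha (elb_sm h hp)
  have hFS : AnalyticAt ℂ F (p.1 - p.2, p.2) := elb_Fan h hSp
  have hx1an : AnalyticAt ℂ (XB F 1) p := elb_Xan h (by omega) hp
  have hxman : AnalyticAt ℂ (fun q : ℂ × ℂ => F (q.1 - q.2, q.2)) p :=
    AnalyticAt.fun_comp (g := F) (f := fun q : ℂ × ℂ => (q.1 - q.2, q.2)) hFS (elb_San p)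
  have hkan : AnalyticAt ℂ k (F p) := by
    have hR := (elb_R h).1
    have h1 := h.a_le
    have h3 := h.R_pos
    obtain ⟨h4, h5⟩ := hp
    rw [mem_St] at h4
    rw [mem_ball_zero_iff] at h5
    exact h.reg p ⟨⟨by linarith, by linarith⟩, by rw [mem_ball_zero_iff]; linarith⟩
  have hXB1 : ∀ q : ℂ × ℂ, XB F 1 q = F (q.1 + q.2, q.2) := by
    intro q
    simp [XB]
  obtain ⟨hfep, hne1, hnem⟩ := elb_fe h hp hρ
  obtain ⟨v, hv⟩ : ∃ v, v = VE (XB F) := ⟨_, rfl⟩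
  have hvq : ∀ q, v q = (XB F 1 q - F q)⁻¹ := by
    intro q
    rw [hv]
    show (XB F 1 q - XB F 0 q)⁻¹ = _
    rw [hX0]
  have hne1' : XB F 1 p - F p ≠ 0 := by
    rw [hXB1]
    exact sub_ne_zero.2 hne1
  have hnem' : F (p.1 - p.2, p.2) - F p ≠ 0 := sub_ne_zero.2 hnem
  have hvan : AnalyticAt ℂ v p := by
    have h1 : v = fun q => (XB F 1 q - F q)⁻¹ := funext hvq
    rw [h1]
    exact (hx1an.sub hFan).inv hne1'
  -- the functional equation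
  have hfe : ∀ q : ℂ × ℂ, q ∈ St (-(a / 4)) (a / 4) ×ˢ ball (0:ℂ) R ∧ q.2 ≠ 0 →
      v q = k (F q) + (-1) * (F (q.1 - q.2, q.2) - F q)⁻¹ := by
    intro q hq
    rw [hvq, hXB1, ← (elb_fe h hq.1 hq.2).1]
    ring
  have hkv : ∀ q : ℂ × ℂ, q ∈ St (-(a / 4)) (a / 4) ×ˢ ball (0:ℂ) R ∧ q.2 ≠ 0 →
      (k (F q) - v q)⁻¹ = F (q.1 - q.2, q.2) - F q := by
    intro q hq
    rw [hfe q hq, ← inv_inv (F (q.1 - q.2, q.2) - F q)]
    congr 1
    rw [inv_inv]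
    ring
  -- the Jacobian
  have hWp : Jf F v p ≠ 0 := by
    have h1 : v =ᶠ[𝓝 p] fun y => (fun _ : ℂ => (0:ℂ)) (F y) + 1 * (XB F 1 y - F y)⁻¹ :=
      Eventually.of_forall fun y => by
        show v y = 0 + 1 * (XB F 1 y - F y)⁻¹
        rw [hvq]
        ring
    rw [elb_jac h1 hFan.differentiableAt hx1an.differentiableAt (differentiableAt_const _) hne1']
    refine neg_ne_zero.2 (mul_ne_zero (mul_ne_zero one_ne_zero ?_) hJ)
    exact inv_ne_zero (pow_ne_zero 2 hne1')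
  have hWev : ∀ᶠ q in 𝓝 p, Jf F v q ≠ 0 := (Jf_an hFan hvan).continuousAt.eventually_ne hWp
  -- the state at the shifted point
  obtain ⟨C, κ', al, hC, hFC, -, -, hal, hst⟩ := h.sj (p.1 - p.2, p.2) hSp
  have hFC' : F =ᶠ[𝓝 (p.1 - p.2, p.2)] C := EqM.eventuallyEq hFS hC hFC
  obtain ⟨ν, hν⟩ : ∃ ν, ν = al 0 := ⟨_, rfl⟩
  have hνan : AnalyticAt ℂ ν (F (p.1 - p.2, p.2)) := by
    rw [hν, hFC'.self_of_nhds]
    exact hst.rl.1 0 (Nat.zero_le _)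
  have hνC : AnalyticAt ℂ (fun q => ν (C q)) (p.1 - p.2, p.2) := by
    refine AnalyticAt.fun_comp (g := ν) (f := C) ?_ hC
    rw [← hFC'.self_of_nhds]
    exact hνan
  have hΦS : AnalyticAt ℂ (Φ 0) (p.1 - p.2, p.2) := h.Φ_an 0 (Nat.zero_le _) _ hSp
  have hΦC : Φ 0 =ᶠ[𝓝 (p.1 - p.2, p.2)] fun q => ν (F q) := by
    have h1 : Φ 0 =ᶠ[𝓝 (p.1 - p.2, p.2)] fun q => ν (C q) := by
      refine EqM.eventuallyEq hΦS hνC ?_
      rw [hν]
      exact hal 0 (Nat.zero_le _)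
    filter_upwards [h1, hFC'] with q h2 h3
    rw [h2, h3]
  have hFtS := elb_Ft h hSp
  have ha1 : elb_a1 F Φ =ᶠ[𝓝 (p.1 - p.2, p.2)] fun q => deriv ν (F q) :=
    elb_chain hΦC hνan hFS hFtS
  have ha2 : elb_a2 F Φ =ᶠ[𝓝 (p.1 - p.2, p.2)] fun q => deriv (deriv ν) (F q) :=
    elb_chain ha1 hνan.deriv hFS hFtS
  -- the functions of the elimination
  obtain ⟨G, hG⟩ : ∃ G : ℂ × ℂ → ℂ, G = fun q => (β q.2 * fderiv ℂ F q (1, 0) +
      ∑ i ∈ Finset.Ico 1 (m - 1), PB Φ i q * Jf (XB F i) F q) / Jf F v q := ⟨_, rfl⟩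
  obtain ⟨R', hR'⟩ : ∃ R' : ℂ × ℂ → ℂ, R' = fun q =>
      dvF F v (fun x => v x ^ 2 * G x) q - dzF F v G q := ⟨_, rfl⟩
  have hSt : Tendsto (fun q : ℂ × ℂ => (q.1 - q.2, q.2)) (𝓝 p) (𝓝 (p.1 - p.2, p.2)) :=
    (elb_San p).continuousAt
  have hGev : ∀ᶠ q in 𝓝 p,
      G q = ν (F q + (k (F q) - v q)⁻¹) * (k (F q) - v q)⁻¹ ^ 2 := by
    filter_upwards [hev.eventually_nhds, hWev, hSt.eventually hΦC, hFan.eventually_analyticAt,
      hxman.eventually_analyticAt, hFan.continuousAt.eventually hkan.eventually_analyticAt]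
      with q hq hW hΦq hFq hxq hkq
    have hq1 := hq.self_of_nhds
    obtain ⟨-, -, hneq⟩ := elb_fe h hq1.1 hq1.2
    have hneq' : F (q.1 - q.2, q.2) - F q ≠ 0 := sub_ne_zero.2 hneq
    have h1 : v =ᶠ[𝓝 q] fun y => k (F y) +
        (-1) * ((fun x : ℂ × ℂ => F (x.1 - x.2, x.2)) y - F y)⁻¹ := by
      filter_upwards [hq] with y hy
      exact hfe y hy
    have h2 := elb_jac h1 hFq.differentiableAt hxq.differentiableAt hkq.differentiableAt hneq'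
    have h3 := form_pull h hq1.1
    have h4 : Jf (fun x : ℂ × ℂ => F (x.1 - x.2, x.2)) F q =
        -Jf F (fun x : ℂ × ℂ => F (x.1 - x.2, x.2)) q := by
      unfold Jf
      ring
    rw [h4] at h3
    have hΦq' : Φ 0 (q.1 - q.2, q.2) = ν (F (q.1 - q.2, q.2)) := hΦq
    rw [hkv q hq1, add_sub_cancel, ← hΦq', hG]
    show (β q.2 * fderiv ℂ F q (1, 0) +
      ∑ i ∈ Finset.Ico 1 (m - 1), PB Φ i q * Jf (XB F i) F q) / Jf F v q = _
    have h5 : β q.2 * fderiv ℂ F q (1, 0) +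
        ∑ i ∈ Finset.Ico 1 (m - 1), PB Φ i q * Jf (XB F i) F q =
        Φ 0 (q.1 - q.2, q.2) * Jf F (fun x : ℂ × ℂ => F (x.1 - x.2, x.2)) q := by
      linear_combination h3
    rw [h5, div_eq_iff hW, h2]
    show _ = Φ 0 (q.1 - q.2, q.2) * (F (q.1 - q.2, q.2) - F q) ^ 2 *
      -(-1 * ((F (q.1 - q.2, q.2) - F q) ^ 2)⁻¹ *
        Jf F (fun x : ℂ × ℂ => F (x.1 - x.2, x.2)) q)
    field_simp
  have hp1 := hev.self_of_nhds
  have hvκ : k (F p) ≠ v p := by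
    intro h1
    have h2 := hkv p hp1
    rw [h1, sub_self, inv_zero] at h2
    exact hnem' h2.symm
  have hν' : AnalyticAt ℂ ν (F p + (k (F p) - v p)⁻¹) := by
    rw [hkv p hp1, add_sub_cancel]
    exact hνan
  obtain ⟨hGa, hRa, hG1a, hG2a, hR1a, hI1, hI2⟩ := elim_id hFan hvan hkan hvκ hν' hWp hGev
    (R := R') (Eventually.of_forall fun q => by rw [hR'])
  have hKE := elb_eqM (m := m) (β := β) (X := XB F) (P := PB Φ) hFan hvan hX0 hv.symm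
    (fun i hi => elb_Xan h hi.le hp) hG hR' hGa hRa hG1a
  refine hKE.trans (EqM.of_eventuallyEq ?_)
  -- the discriminant
  have hDp : 2 * dvF F v G p ^ 2 - G p * dvF F v (dvF F v G) p ≠ 0 := by
    rw [hI2.self_of_nhds, hkv p hp1, add_sub_cancel]
    refine mul_ne_zero (pow_ne_zero 6 hnem') ?_
    have h1 : Φ 0 (p.1 - p.2, p.2) = ν (F (p.1 - p.2, p.2)) := hΦC.self_of_nhds
    have h2 : elb_a1 F Φ (p.1 - p.2, p.2) = deriv ν (F (p.1 - p.2, p.2)) := ha1.self_of_nhds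
    have h3 : elb_a2 F Φ (p.1 - p.2, p.2) = deriv (deriv ν) (F (p.1 - p.2, p.2)) :=
      ha2.self_of_nhds
    rw [← h1, ← h2, ← h3]
    exact hbr
  have hDan : AnalyticAt ℂ (fun q => 2 * dvF F v G q ^ 2 - G q * dvF F v (dvF F v G) q) p :=
    (analyticAt_const.mul (hG1a.pow 2)).sub (hGa.mul hG2a)
  filter_upwards [hev, hI1, hDan.continuousAt.eventually_ne hDp] with q hq h1 h2
  rw [h1]
  have h3 : KF F q = k (F q) := (elb_fe h hq.1 hq.2).1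
  rw [h3]
  field_simp

/-- the elimination operator gives `K` at one point -/
theorem ke_point (h : BP k F c m K Φ β a R) :
    ∃ p ∈ St (-(a / 4)) (a / 4) ×ˢ ball (0:ℂ) R, EqM (KE m β (XB F) (PB Φ)) (KF F) p := by
  have ha := h.a_pos
  have hm := h.m_ge
  obtain ⟨t0, ht0, hΦ0⟩ := h.ne
  have hP0 : ((t0, (0:ℂ)) : ℂ × ℂ) ∈ St (-(a / 4)) (a / 4) ×ˢ ball (0:ℂ) R :=
    ⟨ht0, mem_ball_self h.R_pos⟩
  have hop : IsOpen (St (-(a / 4)) (a / 4) ×ˢ ball (0:ℂ) R) := (isOpen_St _ _).prod isOpen_ball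
  have hP0f := elb_full ha (elb_half ha hP0)
  have hFan : AnalyticAt ℂ F (t0, 0) := elb_Fan h hP0f
  have hFt := elb_Ft h hP0f
  have hΦan : AnalyticAt ℂ (Φ 0) (t0, 0) := h.Φ_an 0 (Nat.zero_le _) _ hP0f
  have ha1 : AnalyticAt ℂ (elb_a1 F Φ) (t0, 0) :=
    (elb_anfd (1, 0) hΦan).div (elb_anfd (1, 0) hFan) hFt
  have ha2 : AnalyticAt ℂ (elb_a2 F Φ) (t0, 0) :=
    (elb_anfd (1, 0) ha1).div (elb_anfd (1, 0) hFan) hFt
  have hSz : (((t0, 0) : ℂ × ℂ).1 - ((t0, 0) : ℂ × ℂ).2, ((t0, 0) : ℂ × ℂ).2) = (t0, 0) := by simp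
  have hcomp : ∀ {g : ℂ × ℂ → ℂ}, AnalyticAt ℂ g (t0, 0) →
      AnalyticAt ℂ (fun q : ℂ × ℂ => g (q.1 - q.2, q.2)) (t0, 0) := by
    intro g hg
    refine AnalyticAt.fun_comp (g := g) (f := fun q : ℂ × ℂ => (q.1 - q.2, q.2)) ?_ (elb_San _)
    rw [hSz]
    exact hg
  have hbran : AnalyticAt ℂ (elb_br F Φ) (t0, 0) := by
    have e1 := hcomp hΦan
    have e2 := hcomp hFan
    have e3 := hcomp ha1
    have e4 := hcomp ha2
    exact ((analyticAt_const.mul (e1.pow 2)).add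
      (((analyticAt_const.mul (e2.sub hFan)).mul e1).mul e3)).add
      (((e2.sub hFan).pow 2).mul ((analyticAt_const.mul (e3.pow 2)).sub (e1.mul e4)))
  have hbr0 : elb_br F Φ (t0, 0) ≠ 0 := by
    have h1 : elb_br F Φ (t0, 0) = 2 * Φ 0 (t0, 0) ^ 2 := by
      unfold elb_br
      simp
    rw [h1]
    exact mul_ne_zero two_ne_zero (pow_ne_zero 2 hΦ0)
  have hx1an : AnalyticAt ℂ (XB F 1) (t0, 0) := elb_Xan h (by omega) hP0
  have hJ0 : Jf F (XB F 1) (t0, 0) ≠ 0 := by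
    have he : (((t0, 0) : ℂ × ℂ).1 + ((1 : ℕ) : ℂ) * ((t0, 0) : ℂ × ℂ).2, ((t0, 0) : ℂ × ℂ).2) =
        ((t0, 0) : ℂ × ℂ) := by simp
    have hd : DifferentiableAt ℂ F (((t0, 0) : ℂ × ℂ).1 + ((1 : ℕ) : ℂ) * ((t0, 0) : ℂ × ℂ).2,
        ((t0, 0) : ℂ × ℂ).2) := by
      rw [he]
      exact hFan.differentiableAt
    have h1 : ∀ w : ℂ × ℂ, fderiv ℂ (XB F 1) (t0, 0) w =
        fderiv ℂ F (t0, 0) (w.1 + ((1 : ℕ) : ℂ) * w.2, w.2) := by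
      intro w
      have h2 := elb_fd ((1 : ℕ) : ℂ) hd w
      rw [he] at h2
      exact h2
    have h3 : Jf F (XB F 1) (t0, 0) = fderiv ℂ F (t0, 0) (1, 0) ^ 2 := by
      unfold Jf
      rw [h1, h1]
      simp only [Nat.cast_one, mul_zero, add_zero, one_mul, zero_add]
      rw [ElA_lin _ 1 1]
      ring
    rw [h3]
    exact pow_ne_zero 2 hFt
  have hρ : ∃ᶠ q in 𝓝 ((t0, 0) : ℂ × ℂ), q.2 ≠ 0 := by
    intro h1
    have h2 : Tendsto (fun z : ℂ => (t0, z)) (𝓝 0) (𝓝 (t0, 0)) := by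
      have h3 : Continuous (fun z : ℂ => (t0, z)) := by fun_prop
      exact h3.tendsto _
    have h3 : ∀ᶠ z : ℂ in 𝓝 0, z = 0 := (h2.eventually h1).mono fun z hz => not_not.1 hz
    have h4 : ∀ᶠ z : ℂ in 𝓝[≠] 0, z = 0 := h3.filter_mono nhdsWithin_le_nhds
    obtain ⟨z, hz1, hz2⟩ := (h4.and self_mem_nhdsWithin).exists
    exact hz2 hz1
  have hall : ∀ᶠ q in 𝓝 ((t0, 0) : ℂ × ℂ), q ∈ St (-(a / 4)) (a / 4) ×ˢ ball (0:ℂ) R ∧
      elb_br F Φ q ≠ 0 ∧ Jf F (XB F 1) q ≠ 0 :=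
    Filter.Eventually.and (hop.mem_nhds hP0)
      ((hbran.continuousAt.eventually_ne hbr0).and
        ((Jf_an hFan hx1an).continuousAt.eventually_ne hJ0))
  obtain ⟨p, hp0, hpU, hpb, hpJ⟩ := (hρ.and_eventually hall).exists
  exact ⟨p, hpU, elb_core h hpU hp0 hpJ hpb⟩

theorem ke_base (h : BP k F c m K Φ β a R) : ∀ p ∈ St (-(a / 4)) (a / 4) ×ˢ ball (0:ℂ) R,
    MerAt (KE m β (XB F) (PB Φ)) p ∧ EqM (KE m β (XB F) (PB Φ)) (KF F) p := by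
  have ha := h.a_pos
  have hm := h.m_ge
  have hR := (elb_R h).1
  have hRp := h.R_pos
  have hmer : Mer (KE m β (XB F) (PB Φ)) (St (-(a / 4)) (a / 4) ×ˢ ball (0:ℂ) R) := by
    intro p hp
    refine mer_KE hm (h.β_an p.2 hp.2) (fun i hi => merAt_of_analyticAt (elb_Xan h hi.le hp))
      fun i hi => ?_
    have hi' := (Finset.mem_Ico.1 hi).2
    refine merAt_of_analyticAt ?_
    refine Finset.analyticAt_fun_sum _ fun j hj => ?_
    have hj' := Finset.mem_range.1 hj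
    exact AnalyticAt.fun_comp (g := Φ j) (f := fun q : ℂ × ℂ => (q.1 + i * q.2, q.2))
      (h.Φ_an j (by omega) _ (elb_sh h (by omega) (elb_half ha hp))) (elb_Tan i p)
  have hmF : Mer F (St (-a) a ×ˢ ball 0 R) := Mer.of_analytic fun p hp => elb_Fan h hp
  have hmK : Mer (KF F) (St (-(a / 4)) (a / 4) ×ˢ ball (0:ℂ) R) :=
    (mer_KF (by linarith) hmF).mono fun p hp => elb_half ha hp
  obtain ⟨p₀, hp₀, h₀⟩ := ke_point h
  have hpre : IsPreconnected (St (-(a / 4)) (a / 4) ×ˢ ball (0:ℂ) R) :=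
    ((convex_St _ _).prod (convex_ball _ _)).isPreconnected
  have hall := Mer.eqM hpre hmer hmK hp₀ h₀
  exact fun p hp => ⟨hmer p hp, hall p hp⟩

end Pool.Agent.MP_ae5b4e_an_NB1B
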