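import Mathlib

/-!
# MP_ae5b4e_an, NB_1 section 3: functions with `f (t + ρ, ρ) = f (t, ρ)`
-/

noncomputable section

namespace Pool.Agent.MP_ae5b4e_an_NB1B

open Complex Set Filter Topology Metric

/-! ### Auxiliary lemmas -/

private theorem inv_line {g : ℂ × ℂ → ℂ} {p : ℂ × ℂ} (hg : AnalyticAt ℂ g p) :
    AnalyticAt ℂ (fun y => g (y, p.2)) p.1 := by
  have h1 : AnalyticAt ℂ (fun y : ℂ => ((y, p.2) : ℂ × ℂ)) p.1 :=
    analyticAt_id.prod analyticAt_const
  exact AnalyticAt.fun_comp (g := g) hg h1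

private theorem inv_line2 {g : ℂ × ℂ → ℂ} {p : ℂ × ℂ} (hg : AnalyticAt ℂ g p) :
    AnalyticAt ℂ (fun y => g (p.1, y)) p.2 := by
  have h1 : AnalyticAt ℂ (fun y : ℂ => ((p.1, y) : ℂ × ℂ)) p.2 :=
    analyticAt_const.prod analyticAt_id
  exact AnalyticAt.fun_comp (g := g) hg h1

private theorem inv_deriv {g : ℂ × ℂ → ℂ} {p : ℂ × ℂ} (hg : AnalyticAt ℂ g p) :
    deriv (fun y => g (y, p.2)) p.1 = fderiv ℂ g p (1, 0) := by
  have h1 : HasDerivAt (fun y : ℂ => ((y, p.2) : ℂ × ℂ)) ((1 : ℂ), (0 : ℂ)) p.1 :=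
    (hasDerivAt_id p.1).prodMk (hasDerivAt_const p.1 p.2)
  have h2 : HasFDerivAt g (fderiv ℂ g p) ((fun y : ℂ => ((y, p.2) : ℂ × ℂ)) p.1) :=
    hg.differentiableAt.hasFDerivAt
  exact (h2.comp_hasDerivAt p.1 h1).deriv

/-- the derivative in the first variable -/
private def Dt (g : ℂ × ℂ → ℂ) (p : ℂ × ℂ) : ℂ := fderiv ℂ g p (1, 0)

private theorem inv_Dt {g : ℂ × ℂ → ℂ} {p : ℂ × ℂ} (hg : AnalyticAt ℂ g p) :
    AnalyticAt ℂ (Dt g) p := by
  have h1 : AnalyticAt ℂ (fderiv ℂ g) p := hg.fderiv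
  have h2 : AnalyticAt ℂ (fun L : (ℂ × ℂ) →L[ℂ] ℂ => L (1, 0)) (fderiv ℂ g p) :=
    (ContinuousLinearMap.apply ℂ ℂ ((1 : ℂ), (0 : ℂ))).analyticAt _
  exact AnalyticAt.fun_comp (g := fun L : (ℂ × ℂ) →L[ℂ] ℂ => L (1, 0)) h2 h1

private theorem inv_iter {g : ℂ × ℂ → ℂ} {p : ℂ × ℂ} (hg : AnalyticAt ℂ g p) (k : ℕ) :
    AnalyticAt ℂ (Dt^[k] g) p ∧
      ∀ᶠ q in 𝓝 p, iteratedDeriv k (fun y => g (y, q.2)) q.1 = (Dt^[k] g) q := by
  induction k with
  | zero =>
    refine ⟨hg, Eventually.of_forall fun q => ?_⟩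
    rw [iteratedDeriv_zero]
    rfl
  | succ k ih =>
    rw [Function.iterate_succ_apply']
    refine ⟨inv_Dt ih.1, ?_⟩
    filter_upwards [ih.2.eventually_nhds, ih.1.eventually_analyticAt] with q hq hqa
    have h1 : Tendsto (fun y : ℂ => ((y, q.2) : ℂ × ℂ)) (𝓝 q.1) (𝓝 q) := by
      have : Continuous (fun y : ℂ => ((y, q.2) : ℂ × ℂ)) := by fun_prop
      exact this.tendsto q.1
    have h2 : (iteratedDeriv k fun y => g (y, q.2)) =ᶠ[𝓝 q.1] fun y => (Dt^[k] g) (y, q.2) :=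
      h1.eventually hq
    rw [iteratedDeriv_succ, h2.deriv_eq, inv_deriv hqa]
    rfl

private theorem inv_affine (f : ℂ → ℂ) (s c : ℂ) (n : ℕ) :
    iteratedDeriv n (fun x => f (s + c * x)) = fun x => c ^ n * iteratedDeriv n f (s + c * x) := by
  induction n with
  | zero =>
    funext x
    simp
  | succ n ih =>
    funext x
    rw [iteratedDeriv_succ, ih, deriv_const_mul_field]
    have h1 : deriv (fun x => iteratedDeriv n f (s + c * x)) x =
        c • deriv (fun y => iteratedDeriv n f (s + y)) (c * x) :=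
      deriv_comp_mul_left c (fun y => iteratedDeriv n f (s + y)) x
    rw [h1, deriv_comp_const_add, iteratedDeriv_succ, smul_eq_mul]
    ring

/-- Taylor expansion with a uniform constant -/
private theorem inv_taylor {φ : ℂ → ℂ} {r C : ℝ} (hr : 0 < r)
    (hφ : DifferentiableOn ℂ φ (ball 0 r)) (hC : ∀ z ∈ ball (0 : ℂ) r, ‖φ z‖ ≤ C) {k : ℕ}
    (hk : ∀ i < k, iteratedDeriv i φ 0 = 0) {x : ℂ} (hx : ‖x‖ ≤ r / 4) :
    ‖φ x - (k.factorial : ℂ)⁻¹ * (x ^ k * iteratedDeriv k φ 0)‖ ≤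
      2 * C * (2 * ‖x‖ / r) ^ (k + 1) := by
  have hC0 : 0 ≤ C := (norm_nonneg _).trans (hC 0 (mem_ball_self hr))
  have hr2 : 0 < r / 2 := by positivity
  have hxb : x ∈ ball (0 : ℂ) r := by
    rw [mem_ball_zero_iff]
    linarith
  have h1 := Complex.hasSum_taylorSeries_on_ball hφ hxb
  have hsub : closedBall (0 : ℂ) (r / 2) ⊆ ball 0 r := closedBall_subset_ball (by linarith)
  have hd : DiffContOnCl ℂ φ (ball 0 (r / 2)) := by
    refine DifferentiableOn.diffContOnCl ?_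
    refine hφ.mono ?_
    rw [closure_ball _ hr2.ne']
    exact hsub
  have h2 : ∀ n, ‖iteratedDeriv n φ 0‖ ≤ n.factorial * C / (r / 2) ^ n := fun n =>
    Complex.norm_iteratedDeriv_le_of_forall_mem_sphere_norm_le n hr2 hd fun z hz =>
      hC z (hsub (sphere_subset_closedBall hz))
  set q : ℝ := 2 * ‖x‖ / r with hq
  have hq0 : 0 ≤ q := by positivity
  have hq1 : q ≤ 1 / 2 := by
    rw [hq, div_le_iff₀ hr]
    linarith
  set f : ℕ → ℂ := fun n => (n.factorial : ℂ)⁻¹ • (x - 0) ^ n • iteratedDeriv n φ 0 with hf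
  have h3 : ∀ n, ‖f n‖ ≤ C * q ^ n := by
    intro n
    have hfac : (0 : ℝ) < n.factorial := by exact_mod_cast Nat.factorial_pos n
    have h4 : ‖f n‖ = (n.factorial : ℝ)⁻¹ * (‖x‖ ^ n * ‖iteratedDeriv n φ 0‖) := by
      rw [hf]
      simp only [sub_zero, norm_smul, norm_inv, norm_pow, Complex.norm_natCast]
    rw [h4]
    calc (n.factorial : ℝ)⁻¹ * (‖x‖ ^ n * ‖iteratedDeriv n φ 0‖)
        ≤ (n.factorial : ℝ)⁻¹ * (‖x‖ ^ n * (n.factorial * C / (r / 2) ^ n)) := by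
          gcongr
          exact h2 n
      _ = C * (‖x‖ / (r / 2)) ^ n := by
          rw [div_pow ‖x‖ (r / 2) n]
          field_simp
      _ = C * q ^ n := by
          rw [hq]
          congr 2
          field_simp
  have h5 : HasSum (fun n => f (n + (k + 1))) (φ x - ∑ i ∈ Finset.range (k + 1), f i) :=
    (hasSum_nat_add_iff' (k + 1)).mpr h1
  have h6 : ∑ i ∈ Finset.range (k + 1), f i =
      (k.factorial : ℂ)⁻¹ * (x ^ k * iteratedDeriv k φ 0) := by
    rw [Finset.sum_range_succ, Finset.sum_eq_zero, zero_add]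
    · rw [hf]
      simp only [sub_zero, smul_eq_mul]
    · intro i hi
      rw [hf]
      simp only [hk i (Finset.mem_range.mp hi), smul_zero]
  rw [h6] at h5
  have h7 : HasSum (fun n : ℕ => C * q ^ (k + 1) * q ^ n) (C * q ^ (k + 1) * (1 - q)⁻¹) :=
    (hasSum_geometric_of_lt_one hq0 (by linarith)).mul_left _
  have h8 := h5.norm_le_of_bounded h7 fun n => by
    refine (h3 _).trans (le_of_eq ?_)
    rw [pow_add]
    ring
  refine h8.trans ?_
  have h9 : (1 - q)⁻¹ ≤ 2 := by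
    rw [inv_le_comm₀ (by linarith) (by norm_num)]
    linarith
  calc C * q ^ (k + 1) * (1 - q)⁻¹ ≤ C * q ^ (k + 1) * 2 := by gcongr
    _ = 2 * C * q ^ (k + 1) := by ring

/-- an analytic function with `f (t + ρ, ρ) = f (t, ρ)` does not depend on `t` -/
theorem dt_eq_zero_of_shift {f : ℂ × ℂ → ℂ} {t : ℂ} (hf : AnalyticAt ℂ f (t, 0))
    (h : ∀ᶠ p in 𝓝 ((t, 0) : ℂ × ℂ), f (p.1 + p.2, p.2) = f p) :
    ∀ᶠ p in 𝓝 ((t, 0) : ℂ × ℂ), fderiv ℂ f p (1, 0) = 0 := by
  obtain ⟨r, hr, hball⟩ := Metric.eventually_nhds_iff_ball.mp (h.and hf.eventually_analyticAt)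
  have hmem : ∀ s ρ : ℂ, ‖s - t‖ < r → ‖ρ‖ < r → ((s, ρ) : ℂ × ℂ) ∈ ball ((t, 0) : ℂ × ℂ) r := by
    intro s ρ hs hρ
    rw [mem_ball, Prod.dist_eq, max_lt_iff]
    refine ⟨?_, ?_⟩
    · rw [dist_eq_norm]
      exact hs
    · rw [dist_eq_norm, sub_zero]
      exact hρ
  -- the identity for finite sums of steps
  have hstep : ∀ s x : ℂ, ‖s - t‖ < r / 2 → ‖x‖ < r / 2 → ∀ n : ℕ, 0 < n → ∀ j : ℕ, j ≤ n →
      f (s + j * (x / n), x / n) = f (s, x / n) := by
    intro s x hs hx n hn j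
    have hn' : (0 : ℝ) < n := by exact_mod_cast hn
    have hxn : ‖x / n‖ < r := by
      rw [norm_div, Complex.norm_natCast, div_lt_iff₀ hn']
      have h1 : (1 : ℝ) ≤ n := by exact_mod_cast hn
      nlinarith [norm_nonneg x]
    induction j with
    | zero =>
      intro _
      simp
    | succ j ih =>
      intro hj
      have h1 := ih (by omega)
      have h2 : ‖s + j * (x / n) - t‖ < r := by
        have h3 : ‖(j : ℂ) * (x / n)‖ ≤ ‖x‖ := by
          rw [norm_mul, norm_div, Complex.norm_natCast, Complex.norm_natCast]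
          have h4 : (j : ℝ) ≤ n := by exact_mod_cast (by omega : j ≤ n)
          rw [mul_div_assoc', div_le_iff₀ hn', mul_comm]
          exact mul_le_mul_of_nonneg_left h4 (norm_nonneg _)
        calc ‖s + j * (x / n) - t‖ = ‖(s - t) + j * (x / n)‖ := by
              congr 1
              ring
          _ ≤ ‖s - t‖ + ‖(j : ℂ) * (x / n)‖ := norm_add_le _ _
          _ < r := by linarith
      have h3 := (hball _ (hmem _ _ h2 hxn)).1
      rw [← h1, ← h3]
      congr 2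
      push_cast
      ring
  -- independence of the first variable
  have hind : ∀ s x ρ : ℂ, ‖s - t‖ < r / 2 → ‖x‖ < r / 2 → ‖ρ‖ < r →
      f (s + x, ρ) = f (s, ρ) := by
    intro s x ρ hs hx hρ
    by_cases hx0 : x = 0
    · rw [hx0, add_zero]
    have hsx : ‖s + x - t‖ < r := by
      calc ‖s + x - t‖ = ‖(s - t) + x‖ := by
            congr 1
            ring
        _ ≤ ‖s - t‖ + ‖x‖ := norm_add_le _ _
        _ < r := by linarith
    have hs' : ‖s - t‖ < r := by linarith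
    have han : AnalyticOnNhd ℂ (fun ρ => f (s + x, ρ) - f (s, ρ)) (ball 0 r) := by
      intro ρ' hρ'
      rw [mem_ball_zero_iff] at hρ'
      have h1 := (hball _ (hmem _ _ hsx hρ')).2
      have h2 := (hball _ (hmem _ _ hs' hρ')).2
      exact (inv_line2 h1).sub (inv_line2 h2)
    have hfr : ∃ᶠ z in 𝓝[≠] (0 : ℂ), f (s + x, z) - f (s, z) = 0 := by
      have htend : Tendsto (fun n : ℕ => x / (n + 1 : ℕ)) atTop (𝓝[≠] (0 : ℂ)) := by
        refine tendsto_nhdsWithin_iff.mpr ⟨?_, Eventually.of_forall fun n => ?_⟩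
        · have h1 : Tendsto (fun n : ℕ => x / (n : ℂ)) atTop (𝓝 0) :=
            tendsto_const_div_atTop_nhds_zero_nat x
          exact (tendsto_add_atTop_iff_nat (f := fun n : ℕ => x / (n : ℂ)) 1).mpr h1
        · refine div_ne_zero hx0 ?_
          exact_mod_cast Nat.succ_ne_zero n
      refine htend.frequently (Frequently.of_forall fun n => ?_)
      have h1 := hstep s x hs hx (n + 1) (Nat.succ_pos n) (n + 1) le_rfl
      have h2 : ((n + 1 : ℕ) : ℂ) * (x / (n + 1 : ℕ)) = x := by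
        have h3 : ((n + 1 : ℕ) : ℂ) ≠ 0 := by exact_mod_cast Nat.succ_ne_zero n
        field_simp
      rw [h2] at h1
      rw [h1, sub_self]
    have h3 := han.eqOn_zero_of_preconnected_of_frequently_eq_zero
      (convex_ball (0 : ℂ) r).isPreconnected (mem_ball_self hr) hfr
    have h4 := h3 (mem_ball_zero_iff.mpr hρ)
    exact sub_eq_zero.mp h4
  rw [Metric.eventually_nhds_iff_ball]
  refine ⟨r / 2, by positivity, fun p hp => ?_⟩
  rw [mem_ball, Prod.dist_eq, max_lt_iff, dist_eq_norm, dist_eq_norm, sub_zero] at hp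
  have hpa : AnalyticAt ℂ f p := by
    have h1 := (hball _ (hmem p.1 p.2 (by linarith [hp.1]) (by linarith [hp.2]))).2
    exact h1
  rw [← inv_deriv hpa]
  have h2 : (fun y => f (y, p.2)) =ᶠ[𝓝 p.1] fun _ => f (p.1, p.2) := by
    rw [Filter.EventuallyEq, Metric.eventually_nhds_iff_ball]
    refine ⟨r / 2, by positivity, fun y hy => ?_⟩
    rw [mem_ball, dist_eq_norm] at hy
    have h3 := hind p.1 (y - p.1) p.2 hp.1 hy (by linarith [hp.2])
    rw [add_sub_cancel] at h3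
    exact h3
  rw [h2.deriv_eq]
  simp

/-- the Taylor expansion of `∑ g l (t + l ρ, ρ)`, when the lower moments vanish identically -/
theorem moment_of_shift {m k : ℕ} {g : ℕ → ℂ × ℂ → ℂ} {t : ℂ}
    (hg : ∀ l < m, AnalyticAt ℂ (g l) (t, 0))
    (h : ∀ᶠ p in 𝓝 ((t, 0) : ℂ × ℂ), ∑ l ∈ Finset.range m, g l (p.1 + l * p.2, p.2) = 0)
    (h0 : ∀ j < k, ∀ᶠ p in 𝓝 ((t, 0) : ℂ × ℂ), ∑ l ∈ Finset.range m, (l : ℂ) ^ j * g l p = 0) :
    ∀ᶠ s in 𝓝 t, iteratedDeriv k (fun s => ∑ l ∈ Finset.range m, (l : ℂ) ^ k * g l (s, 0)) s = 0 := by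
  -- the moment of order `k`
  set M : ℂ × ℂ → ℂ := fun p => ∑ l ∈ Finset.range m, (l : ℂ) ^ k * g l p with hM
  have hMa : AnalyticAt ℂ M (t, 0) := by
    rw [hM]
    refine Finset.analyticAt_fun_sum _ fun l hl => ?_
    exact analyticAt_const.mul (hg l (Finset.mem_range.mp hl))
  obtain ⟨hDa, hDe⟩ := inv_iter hMa k
  -- a bound
  set C : ℝ := ∑ l ∈ Finset.range m, (‖g l (t, 0)‖ + 1) with hC
  have hev1 : ∀ᶠ p in 𝓝 ((t, 0) : ℂ × ℂ), ∀ l ∈ Finset.range m,
      AnalyticAt ℂ (g l) p ∧ ‖g l p‖ ≤ ‖g l (t, 0)‖ + 1 := by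
    rw [Filter.eventually_all_finset]
    intro l hl
    have h1 := hg l (Finset.mem_range.mp hl)
    refine h1.eventually_analyticAt.and ?_
    have h2 : ContinuousAt (fun p => ‖g l p‖) (t, 0) := h1.continuousAt.norm
    have h3 : ∀ᶠ p in 𝓝 ((t, 0) : ℂ × ℂ), ‖g l p‖ < ‖g l (t, 0)‖ + 1 :=
      h2.eventually_lt continuousAt_const (by linarith)
    filter_upwards [h3] with p hp
    exact hp.le
  have hev2 : ∀ᶠ p in 𝓝 ((t, 0) : ℂ × ℂ), ∀ j ∈ Finset.range k,
      ∑ l ∈ Finset.range m, (l : ℂ) ^ j * g l p = 0 := by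
    rw [Filter.eventually_all_finset]
    intro j hj
    exact h0 j (Finset.mem_range.mp hj)
  obtain ⟨ε, hε, hball⟩ := Metric.eventually_nhds_iff_ball.mp
    (((hev1.and hev2).and h).and (hDe.and hDa.eventually_analyticAt))
  have hmem : ∀ s ρ : ℂ, ‖s - t‖ < ε → ‖ρ‖ < ε → ((s, ρ) : ℂ × ℂ) ∈ ball ((t, 0) : ℂ × ℂ) ε := by
    intro s ρ hs hρ
    rw [mem_ball, Prod.dist_eq, max_lt_iff]
    refine ⟨?_, ?_⟩
    · rw [dist_eq_norm]
      exact hs
    · rw [dist_eq_norm, sub_zero]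
      exact hρ
  set r : ℝ := ε / (2 * (m + 1)) with hrdef
  have hm0 : (0 : ℝ) ≤ m := Nat.cast_nonneg m
  have hr : 0 < r := by positivity
  have hmr : (m : ℝ) * r < ε / 2 := by
    rw [hrdef, mul_div_assoc', div_lt_div_iff₀ (by positivity) (by norm_num)]
    nlinarith
  have hrε : r < ε := by
    rw [hrdef, div_lt_iff₀ (by positivity)]
    nlinarith
  rw [Metric.eventually_nhds_iff_ball]
  refine ⟨ε / 2, by positivity, fun s hs => ?_⟩
  rw [mem_ball, dist_eq_norm] at hs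
  -- points of the ball
  have hin : ∀ l ∈ Finset.range m, ∀ x ρ : ℂ, ‖x‖ < r → ‖ρ‖ < ε →
      ((s + l * x, ρ) : ℂ × ℂ) ∈ ball ((t, 0) : ℂ × ℂ) ε := by
    intro l hl x ρ hx hρ
    refine hmem _ _ ?_ hρ
    have h1 : ‖(l : ℂ) * x‖ ≤ m * r := by
      rw [norm_mul, Complex.norm_natCast]
      have h2 : (l : ℝ) ≤ m := by exact_mod_cast (Finset.mem_range.mp hl).le
      exact mul_le_mul h2 hx.le (norm_nonneg _) hm0
    calc ‖s + l * x - t‖ = ‖(s - t) + l * x‖ := by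
          congr 1
          ring
      _ ≤ ‖s - t‖ + ‖(l : ℂ) * x‖ := norm_add_le _ _
      _ < ε := by linarith
  have hsb : ∀ ρ : ℂ, ‖ρ‖ < ε → ((s, ρ) : ℂ × ℂ) ∈ ball ((t, 0) : ℂ × ℂ) ε :=
    fun ρ hρ => hmem _ _ (by linarith) hρ
  -- the derivatives of the sum in the auxiliary variable
  have hder : ∀ ρ : ℂ, ‖ρ‖ < ε → ∀ i : ℕ,
      iteratedDeriv i (fun x => ∑ l ∈ Finset.range m, g l (s + l * x, ρ)) 0 =
        iteratedDeriv i (fun y => ∑ l ∈ Finset.range m, (l : ℂ) ^ i * g l (y, ρ)) s := by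
    intro ρ hρ i
    have hline : ∀ l ∈ Finset.range m, AnalyticAt ℂ (fun y => g l (y, ρ)) s := by
      intro l hl
      exact inv_line (p := (s, ρ)) ((hball _ (hsb ρ hρ)).1.1.1 l hl).1
    rw [iteratedDeriv_fun_sum (f := fun (l : ℕ) x => g l (s + l * x, ρ)),
      iteratedDeriv_fun_sum (f := fun (l : ℕ) y => (l : ℂ) ^ i * g l (y, ρ))]
    · refine Finset.sum_congr rfl fun l hl => ?_
      have h1 := congrFun (inv_affine (fun y => g l (y, ρ)) s l i) 0
      rw [h1, mul_zero, add_zero, iteratedDeriv_const_mul_field]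
    · intro l hl
      exact contDiffAt_const.mul (hline l hl).contDiffAt
    · intro l hl
      have h1 : AnalyticAt ℂ (fun x : ℂ => s + l * x) 0 :=
        analyticAt_const.add (analyticAt_const.mul analyticAt_id)
      have h2 : AnalyticAt ℂ (fun y => g l (y, ρ)) ((fun x : ℂ => s + l * x) 0) := by
        simpa using hline l hl
      exact (AnalyticAt.fun_comp (g := fun y => g l (y, ρ)) (f := fun x : ℂ => s + l * x)
        h2 h1).contDiffAt
  -- the lower derivatives vanish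
  have hlow : ∀ ρ : ℂ, ‖ρ‖ < ε → ∀ i < k,
      iteratedDeriv i (fun x => ∑ l ∈ Finset.range m, g l (s + l * x, ρ)) 0 = 0 := by
    intro ρ hρ i hi
    rw [hder ρ hρ i]
    have h1 : (fun y => ∑ l ∈ Finset.range m, (l : ℂ) ^ i * g l (y, ρ)) =ᶠ[𝓝 s] fun _ => 0 := by
      have h2 : Tendsto (fun y : ℂ => ((y, ρ) : ℂ × ℂ)) (𝓝 s) (𝓝 (s, ρ)) := by
        have : Continuous (fun y : ℂ => ((y, ρ) : ℂ × ℂ)) := by fun_prop
        exact this.tendsto s
      filter_upwards [h2.eventually (isOpen_ball.mem_nhds (hsb ρ hρ))] with y hy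
      exact (hball _ hy).1.1.2 i (Finset.mem_range.mpr hi)
    rw [h1.iteratedDeriv_eq]
    simp
  -- the estimate
  have hest : ∀ ρ : ℂ, ρ ≠ 0 → ‖ρ‖ ≤ r / 4 →
      ‖(Dt^[k] M) (s, ρ)‖ ≤ k.factorial * (2 * C * (2 / r) ^ (k + 1)) * ‖ρ‖ := by
    intro ρ hρ0 hρ
    have hρε : ‖ρ‖ < ε := by linarith
    have hfac : (0 : ℝ) < k.factorial := by exact_mod_cast Nat.factorial_pos k
    have hnρ : 0 < ‖ρ‖ := norm_pos_iff.mpr hρ0
    have h1 := inv_taylor (φ := fun x => ∑ l ∈ Finset.range m, g l (s + l * x, ρ)) (C := C) hr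
      (by
        intro x hx
        rw [mem_ball_zero_iff] at hx
        refine DifferentiableAt.differentiableWithinAt ?_
        refine DifferentiableAt.fun_sum fun l hl => ?_
        have h2 := ((hball _ (hin l hl x ρ hx hρε)).1.1.1 l hl).1
        have h3 : DifferentiableAt ℂ (fun x : ℂ => ((s + l * x, ρ) : ℂ × ℂ)) x := by fun_prop
        exact DifferentiableAt.comp (g := g l) x h2.differentiableAt h3)
      (by
        intro x hx
        rw [mem_ball_zero_iff] at hx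
        refine (norm_sum_le _ _).trans (Finset.sum_le_sum fun l hl => ?_)
        have h2 := ((hball _ (hin l hl x ρ hx hρε)).1.1.1 l hl).2
        exact h2) (hlow ρ hρε) hρ
    have h2 : ∑ l ∈ Finset.range m, g l (s + l * ρ, ρ) = 0 := (hball _ (hsb ρ hρε)).1.2
    have h3 : iteratedDeriv k (fun x => ∑ l ∈ Finset.range m, g l (s + l * x, ρ)) 0 =
        (Dt^[k] M) (s, ρ) := by
      rw [hder ρ hρε k]
      exact (hball _ (hsb ρ hρε)).2.1
    rw [h2, h3, zero_sub, norm_neg, norm_mul, norm_inv, norm_mul, norm_pow,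
      Complex.norm_natCast] at h1
    have h4 : ‖ρ‖ ^ k * ‖(Dt^[k] M) (s, ρ)‖ ≤
        ‖ρ‖ ^ k * (k.factorial * (2 * C * (2 / r) ^ (k + 1)) * ‖ρ‖) := by
      rw [inv_mul_le_iff₀ hfac] at h1
      refine h1.trans (le_of_eq ?_)
      have h5 : 2 * ‖ρ‖ / r = 2 / r * ‖ρ‖ := by ring
      rw [h5, mul_pow, pow_succ ‖ρ‖ k]
      ring
    exact le_of_mul_le_mul_left h4 (pow_pos hnρ k)
  -- the limit
  have hcont : ContinuousAt (fun ρ : ℂ => (Dt^[k] M) (s, ρ)) 0 := by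
    have h1 := (hball _ (hsb 0 (by rw [norm_zero]; exact hε))).2.2
    exact (inv_line2 (p := (s, 0)) h1).continuousAt
  have hlim0 : (Dt^[k] M) (s, 0) = 0 := by
    have h1 : Tendsto (fun ρ : ℂ => (Dt^[k] M) (s, ρ)) (𝓝[≠] 0) (𝓝 ((Dt^[k] M) (s, 0))) :=
      hcont.tendsto.mono_left nhdsWithin_le_nhds
    have h2 : Tendsto (fun ρ : ℂ => (Dt^[k] M) (s, ρ)) (𝓝[≠] 0) (𝓝 0) := by
      have h3 : Tendsto (fun ρ : ℂ => k.factorial * (2 * C * (2 / r) ^ (k + 1)) * ‖ρ‖) (𝓝[≠] 0)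
          (𝓝 0) := by
        have h4 : Continuous (fun ρ : ℂ =>
            (k.factorial : ℝ) * (2 * C * (2 / r) ^ (k + 1)) * ‖ρ‖) := by fun_prop
        have h5 := h4.tendsto 0
        rw [norm_zero, mul_zero] at h5
        exact h5.mono_left nhdsWithin_le_nhds
      refine squeeze_zero_norm' ?_ h3
      have h4 : ∀ᶠ ρ : ℂ in 𝓝[≠] 0, ‖ρ‖ ≤ r / 4 := by
        refine Filter.Eventually.filter_mono nhdsWithin_le_nhds ?_
        filter_upwards [closedBall_mem_nhds (0 : ℂ) (show 0 < r / 4 by positivity)] with ρ hρ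
        exact mem_closedBall_zero_iff.mp hρ
      filter_upwards [h4, self_mem_nhdsWithin] with ρ h5 h6
      exact hest ρ h6 h5
    exact tendsto_nhds_unique h1 h2
  have hfin := (hball _ (hsb 0 (by rw [norm_zero]; exact hε))).2.1
  have h9 : iteratedDeriv k (fun y => M (y, 0)) s = (Dt^[k] M) (s, 0) := hfin
  rw [hlim0] at h9
  exact h9

end Pool.Agent.MP_ae5b4e_an_NB1B
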