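import Pool.Agent.Lib.MP_ae5b4e_an_NB1B.Cont
import Pool.Agent.Lib.MP_ae5b4e_an_NB1B.Lab0
import Pool.Agent.Lib.MP_ae5b4e_an_NB1B.Inv

/-!
# MP_ae5b4e_an, NB_1 section 3: relations of the labels, the invariant form
-/

noncomputable section

namespace Pool.Agent.MP_ae5b4e_an_NB1B

open Complex Set Filter Topology Metric
open Pool.Agent.MP_ae5b4e_an_NBT

/-- the family of the labels -/
def yL (L : ℂ × ℂ → ℂ) (j : ℕ) (p : ℂ × ℂ) : ℂ := L (p.1 + j * p.2, p.2)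

variable {F L : ℂ × ℂ → ℂ} {c ε : ℝ} {m : ℕ} {ψ : ℕ → ℂ → ℂ} {u : ℂ}

private theorem Frm_open (a b : ℝ) : IsOpen (St a b) :=
  (isOpen_lt continuous_const Complex.continuous_im).inter
    (isOpen_lt Complex.continuous_im continuous_const)

private theorem Frm_fst {f : ℂ × ℂ → ℂ} {p : ℂ × ℂ} (hf : DifferentiableAt ℂ f p) :
    HasDerivAt (fun s => f (s, p.2)) (fderiv ℂ f p (1, 0)) p.1 := by
  have h1 : HasDerivAt (fun y : ℂ => ((y, p.2) : ℂ × ℂ)) ((1 : ℂ), (0 : ℂ)) p.1 :=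
    (hasDerivAt_id p.1).prodMk (hasDerivAt_const p.1 p.2)
  have h2 : HasFDerivAt f (fderiv ℂ f p) ((fun y : ℂ => ((y, p.2) : ℂ × ℂ)) p.1) :=
    hf.hasFDerivAt
  exact h2.comp_hasDerivAt p.1 h1

private theorem Frm_snd {f : ℂ × ℂ → ℂ} {p : ℂ × ℂ} (hf : DifferentiableAt ℂ f p) :
    HasDerivAt (fun s => f (p.1, s)) (fderiv ℂ f p (0, 1)) p.2 := by
  have h1 : HasDerivAt (fun y : ℂ => ((p.1, y) : ℂ × ℂ)) ((0 : ℂ), (1 : ℂ)) p.2 :=
    (hasDerivAt_const p.2 p.1).prodMk (hasDerivAt_id p.2)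
  have h2 : HasFDerivAt f (fderiv ℂ f p) ((fun y : ℂ => ((p.1, y) : ℂ × ℂ)) p.2) :=
    hf.hasFDerivAt
  exact h2.comp_hasDerivAt p.2 h1

/-- the shear -/
private def FrmT (j : ℂ) : ℂ × ℂ →L[ℂ] ℂ × ℂ :=
  (ContinuousLinearMap.fst ℂ ℂ ℂ + j • ContinuousLinearMap.snd ℂ ℂ ℂ).prod
    (ContinuousLinearMap.snd ℂ ℂ ℂ)

private theorem FrmT_apply (j : ℂ) (p : ℂ × ℂ) : FrmT j p = (p.1 + j * p.2, p.2) := by
  simp [FrmT]

private theorem Frm_comp {f : ℂ × ℂ → ℂ} {p : ℂ × ℂ} (j : ℂ)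
    (hf : DifferentiableAt ℂ f (p.1 + j * p.2, p.2)) :
    HasFDerivAt (fun q : ℂ × ℂ => f (q.1 + j * q.2, q.2))
      ((fderiv ℂ f (p.1 + j * p.2, p.2)).comp (FrmT j)) p := by
  have h1 : HasFDerivAt (FrmT j) (FrmT j) p := (FrmT j).hasFDerivAt
  have h2 : HasFDerivAt f (fderiv ℂ f (p.1 + j * p.2, p.2)) (FrmT j p) := by
    rw [FrmT_apply]
    exact hf.hasFDerivAt
  have h3 := h2.comp p h1
  have h4 : f ∘ (FrmT j) = fun q : ℂ × ℂ => f (q.1 + j * q.2, q.2) := by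
    funext q
    simp only [Function.comp_apply, FrmT_apply]
  rwa [h4] at h3

private theorem Frm_tend (j u : ℂ) :
    Tendsto (fun p : ℂ × ℂ => ((p.1 + j * p.2, p.2) : ℂ × ℂ)) (𝓝 (u, 0)) (𝓝 (u, 0)) := by
  have : Continuous fun p : ℂ × ℂ => ((p.1 + j * p.2, p.2) : ℂ × ℂ) := by fun_prop
  have h := this.tendsto (u, 0)
  simpa using h

private theorem Frm_mem (hL : LabR F c ε L) (hu : u ∈ St (-ε) ε) :
    ((u, 0) : ℂ × ℂ) ∈ St (-ε) ε ×ˢ ball (0:ℂ) ε := ⟨hu, mem_ball_self hL.ε_pos⟩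

private theorem Frm_L1 (hL : LabR F c ε L) (hu : u ∈ St (-ε) ε) :
    fderiv ℂ L (u, 0) (1, 0) = 1 := by
  have h1 := Frm_fst (hL.an _ (Frm_mem hL hu)).differentiableAt
  have h2 : (fun s => L (s, ((u, 0) : ℂ × ℂ).2)) =ᶠ[𝓝 u] fun s => s := by
    filter_upwards [(Frm_open _ _).mem_nhds hu] with s hs
    exact hL.zero s hs
  have h3 : HasDerivAt (fun s => L (s, ((u, 0) : ℂ × ℂ).2)) 1 u :=
    (hasDerivAt_id u).congr_of_eventuallyEq h2
  exact h1.unique h3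

private theorem Frm_L2 (hL : LabR F c ε L) (hu : u ∈ St (-ε) ε) :
    fderiv ℂ L (u, 0) (0, 1) = 0 := by
  have h1 := Frm_snd (hL.an _ (Frm_mem hL hu)).differentiableAt
  have h1' : HasDerivAt (fun s => L (u, s)) (fderiv ℂ L (u, 0) (0, 1)) 0 := h1
  have h2 : (fun s => L (u, s)) =ᶠ[𝓝 0] fun s => L (u, -s) := by
    filter_upwards [isOpen_ball.mem_nhds (mem_ball_self (x := (0:ℂ)) hL.ε_pos)] with s hs
    exact (hL.even (u, s) ⟨hu, hs⟩).symm
  have h3 : HasDerivAt (fun s => L (u, -s)) (-fderiv ℂ L (u, 0) (0, 1)) 0 := by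
    have h4 : HasDerivAt (fun s : ℂ => -s) (-1) 0 := (hasDerivAt_id (0:ℂ)).neg
    have h5 : HasDerivAt (fun s => L (u, s)) (fderiv ℂ L (u, 0) (0, 1)) (-0) := by
      rw [neg_zero]
      exact h1'
    have h6 : HasDerivAt (fun s => L (u, -s)) (fderiv ℂ L (u, 0) (0, 1) * -1) 0 :=
      h5.comp (0:ℂ) h4
    rwa [mul_neg_one] at h6
  have h7 := h1'.unique (h3.congr_of_eventuallyEq h2)
  have h8 : (2:ℂ) * fderiv ℂ L (u, 0) (0, 1) = 0 := by linear_combination h7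
  exact (mul_eq_zero.1 h8).resolve_left two_ne_zero

theorem fam_yL (hL : LabR F c ε L) (m : ℕ) : Fam m (yL L) (St (-ε) ε) where
  isOpen := Frm_open _ _
  an := by
    intro j _ u hu
    have h1 : AnalyticAt ℂ (fun p : ℂ × ℂ => ((p.1 + j * p.2, p.2) : ℂ × ℂ)) (u, 0) :=
      (analyticAt_fst.add (analyticAt_const.mul analyticAt_snd)).prod analyticAt_snd
    have h2 : AnalyticAt ℂ (fun p : ℂ × ℂ => L (p.1 + j * p.2, p.2)) (u, 0) :=
      AnalyticAt.fun_comp_of_eq (hL.an _ (Frm_mem hL hu)) h1 (by simp)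
    exact h2
  zero := by
    intro j _ u hu
    show L (u + j * 0, 0) = u
    rw [mul_zero, add_zero]
    exact hL.zero u hu
  der := by
    intro j _ u hu
    have h1 : DifferentiableAt ℂ L (((u, 0) : ℂ × ℂ).1 + (j:ℂ) * ((u, 0) : ℂ × ℂ).2,
        ((u, 0) : ℂ × ℂ).2) := by
      simpa using (hL.an _ (Frm_mem hL hu)).differentiableAt
    have h2 : HasFDerivAt (yL L j) _ (u, 0) := Frm_comp (j:ℂ) h1
    rw [h2.fderiv]
    simp only [ContinuousLinearMap.comp_apply, FrmT_apply, mul_zero, add_zero, zero_add, mul_one]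
    have h3 : (((j:ℂ), (1:ℂ)) : ℂ × ℂ) = (j:ℂ) • ((1:ℂ), (0:ℂ)) + ((0:ℂ), (1:ℂ)) := by simp
    rw [h3, map_add, map_smul, Frm_L1 hL hu, Frm_L2 hL hu]
    simp

/-- the sum of the coefficients of a relation vanishes -/
theorem sum_zero {y : ℕ → ℂ × ℂ → ℂ} {U : Set ℂ} (hF : Fam m y U) (hu : u ∈ U)
    (h : Rl m y ψ u) : ∀ᶠ v in 𝓝 u, ∑ j ∈ Finset.range (m + 1), ψ j v = 0 := by
  have ht : Tendsto (fun v : ℂ => ((v, 0) : ℂ × ℂ)) (𝓝 u) (𝓝 ((u, 0) : ℂ × ℂ)) := by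
    have h : Continuous fun v : ℂ => ((v, 0) : ℂ × ℂ) := by fun_prop
    exact h.tendsto u
  filter_upwards [hF.isOpen.mem_nhds hu, ht.eventually h.2] with v hv h1
  have h2 := congrArg (fun T : ℂ × ℂ →L[ℂ] ℂ => T (1, 0)) h1
  simp only [FunLike.coe_sum, Finset.sum_apply, _root_.smul_apply, _root_.zero_apply] at h2
  rw [← h2]
  refine Finset.sum_congr rfl fun j hj => ?_
  have hj' : j ≤ m := Nat.lt_succ_iff.1 (Finset.mem_range.1 hj)
  have h3 := Frm_fst (hF.an j hj' v hv).differentiableAt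
  have h4 : (fun s => y j (s, ((v, 0) : ℂ × ℂ).2)) =ᶠ[𝓝 v] fun s => s := by
    filter_upwards [hF.isOpen.mem_nhds hv] with s hs
    exact hF.zero j hj' s hs
  have h5 : HasDerivAt (fun s => y j (s, ((v, 0) : ℂ × ℂ).2)) 1 v :=
    (hasDerivAt_id v).congr_of_eventuallyEq h4
  have h6 : fderiv ℂ (y j) (v, 0) (1, 0) = 1 := h3.unique h5
  rw [h6, hF.zero j hj' v hv, smul_eq_mul, mul_one]

private theorem Frm_alg0 (ψ : ℕ → ℂ → ℂ) (y : ℕ → ℂ) (D : ℕ → ℂ) (n : ℕ) :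
    ∑ l ∈ Finset.range n, lam ψ l (y l) * D l + lam ψ n (y n) * D n =
      ∑ l ∈ Finset.range n, lam ψ l (y (l + 1)) * D (l + 1) +
      ∑ l ∈ Finset.range (n + 1), ψ l (y l) * D l := by
  induction n with
  | zero => simp [lam]
  | succ n ih =>
    have h1 : lam ψ (n + 1) (y (n + 1)) = lam ψ n (y (n + 1)) + ψ (n + 1) (y (n + 1)) := by
      unfold lam
      rw [Finset.sum_range_succ]
    rw [Finset.sum_range_succ, ih, h1,
      Finset.sum_range_succ (fun l => lam ψ l (y (l + 1)) * D (l + 1)) n,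
      Finset.sum_range_succ (fun l => ψ l (y l) * D l) (n + 1)]
    ring

private theorem Frm_alg (ψ : ℕ → ℂ → ℂ) (y : ℕ → ℂ) (D : ℕ → (ℂ × ℂ →L[ℂ] ℂ)) (n : ℕ)
    (h0 : lam ψ n (y n) = 0) (h1 : ∑ l ∈ Finset.range (n + 1), ψ l (y l) • D l = 0) :
    ∑ l ∈ Finset.range n, lam ψ l (y l) • D l =
      ∑ l ∈ Finset.range n, lam ψ l (y (l + 1)) • D (l + 1) := by
  refine ContinuousLinearMap.ext fun w => ?_
  have h2 := Frm_alg0 ψ y (fun l => D l w) n
  have h3 := congrArg (fun T : ℂ × ℂ →L[ℂ] ℂ => T w) h1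
  simp only [FunLike.coe_sum, Finset.sum_apply, _root_.smul_apply, _root_.zero_apply,
    smul_eq_mul] at h3 ⊢
  rw [h3, h0] at h2
  simpa using h2

/-- the derivative of an exact form is symmetric -/
private theorem Frm_symm {y : ℂ × ℂ → ℂ} {g : ℂ → ℂ} {p : ℂ × ℂ} (hy : AnalyticAt ℂ y p)
    (hg : AnalyticAt ℂ g (y p)) :
    ∃ D : ℂ × ℂ →L[ℂ] (ℂ × ℂ →L[ℂ] ℂ),
      HasFDerivAt (fun q => g (y q) • fderiv ℂ y q) D p ∧ ∀ v w, D v w = D w v := by
  have h1 : HasFDerivAt (fun q => g (y q)) (deriv g (y p) • fderiv ℂ y p) p :=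
    HasDerivAt.comp_hasFDerivAt p hg.differentiableAt.hasDerivAt hy.differentiableAt.hasFDerivAt
  have h2 : HasFDerivAt (fderiv ℂ y) (fderiv ℂ (fderiv ℂ y) p) p :=
    hy.fderiv.differentiableAt.hasFDerivAt
  have h3 : ∀ v w, fderiv ℂ (fderiv ℂ y) p v w = fderiv ℂ (fderiv ℂ y) p w v := by
    intro v w
    have h4 : IsSymmSndFDerivAt ℂ y p := by
      refine ContDiffAt.isSymmSndFDerivAt (n := 2) hy.contDiffAt ?_
      simp
    exact h4 v w
  refine ⟨_, h1.smul h2, fun v w => ?_⟩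
  simp only [_root_.add_apply, _root_.smul_apply, ContinuousLinearMap.smulRight_apply,
    smul_eq_mul]
  rw [h3 v w]
  ring

/-- **the invariant form** -/
theorem rel_form (hL : LabR F c ε L) (hu : u ∈ St (-ε) ε) (h : Rl m (yL L) ψ u) :
    ∃ β : ℂ → ℂ, AnalyticAt ℂ β 0 ∧ ∀ᶠ p in 𝓝 ((u, 0) : ℂ × ℂ),
      ∑ l ∈ Finset.range m, lam ψ l (yL L l p) • fderiv ℂ (yL L l) p =
        β p.2 • ContinuousLinearMap.snd ℂ ℂ ℂ := by
  obtain ⟨Ω, hΩ⟩ : ∃ Ω : ℂ × ℂ → (ℂ × ℂ →L[ℂ] ℂ), Ω = fun p =>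
    ∑ l ∈ Finset.range m, lam ψ l (yL L l p) • fderiv ℂ (yL L l) p := ⟨_, rfl⟩
  have hya : ∀ l : ℕ, AnalyticAt ℂ (yL L l) (u, 0) := fun l =>
    (fam_yL hL l).an l le_rfl u hu
  have hy0 : ∀ l : ℕ, yL L l (u, 0) = u := fun l => (fam_yL hL l).zero l le_rfl u hu
  have hyt : ∀ l : ℕ, Tendsto (yL L l) (𝓝 (u, 0)) (𝓝 u) := fun l => by
    have := (hya l).continuousAt.tendsto
    rwa [hy0 l] at this
  have hla : ∀ l, l < m → AnalyticAt ℂ (lam ψ l) u := by
    intro l hl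
    have : AnalyticAt ℂ (fun v => ∑ i ∈ Finset.range (l + 1), ψ i v) u := by
      refine Finset.analyticAt_fun_sum _ fun i hi => ?_
      exact h.1 i (by have := Finset.mem_range.1 hi; omega)
    exact this
  have hΩa : AnalyticAt ℂ Ω (u, 0) := by
    rw [hΩ]
    refine Finset.analyticAt_fun_sum _ fun l hl => ?_
    have h1 : AnalyticAt ℂ (fun p => lam ψ l (yL L l p)) (u, 0) :=
      AnalyticAt.fun_comp_of_eq (hla l (Finset.mem_range.1 hl)) (hya l) (hy0 l)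
    exact h1.smul (hya l).fderiv
  -- invariance
  have hinv : ∀ᶠ p in 𝓝 ((u, 0) : ℂ × ℂ), Ω p = (Ω (p.1 + 1 * p.2, p.2)).comp (FrmT 1) := by
    have h1 : ∀ᶠ p in 𝓝 ((u, 0) : ℂ × ℂ), ∀ l ∈ Finset.range m,
        DifferentiableAt ℂ (yL L l) (p.1 + 1 * p.2, p.2) := by
      rw [Filter.eventually_all_finset]
      intro l _
      have := (Frm_tend 1 u).eventually (hya l).eventually_analyticAt
      filter_upwards [this] with p hp using hp.differentiableAt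
    have h2 : ∀ᶠ p in 𝓝 ((u, 0) : ℂ × ℂ), lam ψ m (yL L m p) = 0 :=
      (hyt m).eventually (sum_zero (fam_yL hL m) hu h)
    filter_upwards [h1, h2, h.2] with p hp1 hp2 hp3
    have h4 := Frm_alg ψ (fun l => yL L l p) (fun l => fderiv ℂ (yL L l) p) m hp2 hp3
    rw [hΩ]
    simp only
    rw [h4, ContinuousLinearMap.finsetSum_comp]
    refine Finset.sum_congr rfl fun l hl => ?_
    have h5 : (fun q : ℂ × ℂ => yL L l (q.1 + 1 * q.2, q.2)) = yL L (l + 1) := by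
      funext q
      show L (q.1 + 1 * q.2 + l * q.2, q.2) = L (q.1 + (l + 1 : ℕ) * q.2, q.2)
      congr 2
      push_cast
      ring
    have h6 := Frm_comp 1 (hp1 l hl)
    rw [h5] at h6
    rw [h6.fderiv, ContinuousLinearMap.smul_comp, ← congrFun h5 p]
  -- the components
  obtain ⟨A, hA⟩ : ∃ A : ℂ × ℂ → ℂ, A = fun p => Ω p (1, 0) := ⟨_, rfl⟩
  obtain ⟨B, hB⟩ : ∃ B : ℂ × ℂ → ℂ, B = fun p => Ω p (0, 1) := ⟨_, rfl⟩
  have hAa : AnalyticAt ℂ A (u, 0) := by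
    rw [hA]
    exact AnalyticAt.fun_comp (g := fun T : (ℂ × ℂ) →L[ℂ] ℂ => T (1, 0))
      ((ContinuousLinearMap.apply ℂ ℂ ((1 : ℂ), (0 : ℂ))).analyticAt _) hΩa
  have hBa : AnalyticAt ℂ B (u, 0) := by
    rw [hB]
    exact AnalyticAt.fun_comp (g := fun T : (ℂ × ℂ) →L[ℂ] ℂ => T (0, 1))
      ((ContinuousLinearMap.apply ℂ ℂ ((0 : ℂ), (1 : ℂ))).analyticAt _) hΩa
  have hAT : ∀ᶠ p in 𝓝 ((u, 0) : ℂ × ℂ), A (p.1 + p.2, p.2) = A p := by
    filter_upwards [hinv] with p hp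
    have h1 := congrArg (fun T : ℂ × ℂ →L[ℂ] ℂ => T (1, 0)) hp
    simp only [ContinuousLinearMap.comp_apply, FrmT_apply, mul_zero, add_zero, one_mul] at h1
    rw [hA]
    exact h1.symm
  have hBT : ∀ᶠ p in 𝓝 ((u, 0) : ℂ × ℂ),
      B p = A (p.1 + p.2, p.2) + B (p.1 + p.2, p.2) := by
    filter_upwards [hinv] with p hp
    have h1 := congrArg (fun T : ℂ × ℂ →L[ℂ] ℂ => T (0, 1)) hp
    simp only [ContinuousLinearMap.comp_apply, FrmT_apply, zero_add, one_mul] at h1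
    have h2 : (((1:ℂ), (1:ℂ)) : ℂ × ℂ) = ((1:ℂ), (0:ℂ)) + ((0:ℂ), (1:ℂ)) := by simp
    rw [h2, map_add] at h1
    rw [hA, hB]
    exact h1
  have hAt := dt_eq_zero_of_shift hAa hAT
  have hsym : ∀ᶠ p in 𝓝 ((u, 0) : ℂ × ℂ), fderiv ℂ B p (1, 0) = fderiv ℂ A p (0, 1) := by
    have h1 : ∀ᶠ p in 𝓝 ((u, 0) : ℂ × ℂ), ∀ l ∈ Finset.range m,
        AnalyticAt ℂ (yL L l) p ∧ AnalyticAt ℂ (lam ψ l) (yL L l p) := by
      rw [Filter.eventually_all_finset]
      intro l hl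
      exact (hya l).eventually_analyticAt.and
        ((hyt l).eventually (hla l (Finset.mem_range.1 hl)).eventually_analyticAt)
    filter_upwards [h1] with p hp
    have h2 : ∀ l : ℕ, ∃ D : ℂ × ℂ →L[ℂ] (ℂ × ℂ →L[ℂ] ℂ), l ∈ Finset.range m →
        HasFDerivAt (fun q => lam ψ l (yL L l q) • fderiv ℂ (yL L l) q) D p ∧
        ∀ v w, D v w = D w v := by
      intro l
      by_cases hl : l ∈ Finset.range m
      · obtain ⟨D, hD⟩ := Frm_symm (hp l hl).1 (hp l hl).2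
        exact ⟨D, fun _ => hD⟩
      · exact ⟨0, fun h => absurd h hl⟩
    choose D hD using h2
    have h3 : HasFDerivAt Ω (∑ l ∈ Finset.range m, D l) p := by
      rw [hΩ]
      exact HasFDerivAt.fun_sum fun l hl => (hD l hl).1
    have h4 : HasFDerivAt A ((ContinuousLinearMap.apply ℂ ℂ ((1 : ℂ), (0 : ℂ))).comp
        (∑ l ∈ Finset.range m, D l)) p := by
      rw [hA]
      exact (ContinuousLinearMap.apply ℂ ℂ ((1 : ℂ), (0 : ℂ))).hasFDerivAt.comp p h3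
    have h5 : HasFDerivAt B ((ContinuousLinearMap.apply ℂ ℂ ((0 : ℂ), (1 : ℂ))).comp
        (∑ l ∈ Finset.range m, D l)) p := by
      rw [hB]
      exact (ContinuousLinearMap.apply ℂ ℂ ((0 : ℂ), (1 : ℂ))).hasFDerivAt.comp p h3
    rw [h4.fderiv, h5.fderiv]
    simp only [ContinuousLinearMap.comp_apply, ContinuousLinearMap.apply_apply,
      FunLike.coe_sum, Finset.sum_apply]
    exact Finset.sum_congr rfl fun l hl => (hD l hl).2 _ _
  -- a box
  obtain ⟨r, hr, hball⟩ := Metric.eventually_nhds_iff_ball.1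
    (((hAa.eventually_analyticAt.and hBa.eventually_analyticAt).and (hAT.and hBT)).and
      (hAt.and hsym))
  have hmem : ∀ s ρ : ℂ, s ∈ ball u r → ρ ∈ ball (0:ℂ) r →
      ((s, ρ) : ℂ × ℂ) ∈ ball ((u, 0) : ℂ × ℂ) r := by
    intro s ρ hs hρ
    rw [mem_ball, Prod.dist_eq, max_lt_iff]
    exact ⟨hs, hρ⟩
  have hub : u ∈ ball u r := mem_ball_self hr
  have hA1 : ∀ s ∈ ball u r, ∀ ρ ∈ ball (0:ℂ) r, A (s, ρ) = A (u, ρ) := by
    intro s hs ρ hρ
    refine isOpen_ball.is_const_of_deriv_eq_zero (f := fun s => A (s, ρ))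
      (convex_ball u r).isPreconnected ?_ ?_ hs hub
    · intro x hx
      have h1 := Frm_fst (p := (x, ρ)) (hball _ (hmem x ρ hx hρ)).1.1.1.differentiableAt
      exact h1.differentiableAt.differentiableWithinAt
    · intro x hx
      have h1 := Frm_fst (p := (x, ρ)) (hball _ (hmem x ρ hx hρ)).1.1.1.differentiableAt
      rw [(hball _ (hmem x ρ hx hρ)).2.1] at h1
      exact h1.deriv
  obtain ⟨a, ha⟩ : ∃ a : ℂ → ℂ, a = fun ρ => A (u, ρ) := ⟨_, rfl⟩
  have had : ∀ ρ ∈ ball (0:ℂ) r, HasDerivAt a (deriv a ρ) ρ := by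
    intro ρ hρ
    have h1 := Frm_snd (p := (u, ρ)) (hball _ (hmem u ρ hub hρ)).1.1.1.differentiableAt
    have h2 : HasDerivAt a (fderiv ℂ A (u, ρ) (0, 1)) ρ := by
      rw [ha]
      exact h1
    exact h2.differentiableAt.hasDerivAt
  have hA2 : ∀ s ∈ ball u r, ∀ ρ ∈ ball (0:ℂ) r, fderiv ℂ A (s, ρ) (0, 1) = deriv a ρ := by
    intro s hs ρ hρ
    have h1 := Frm_snd (p := (s, ρ)) (hball _ (hmem s ρ hs hρ)).1.1.1.differentiableAt
    have h2 : a =ᶠ[𝓝 ρ] fun x => A (((s, ρ) : ℂ × ℂ).1, x) := by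
      filter_upwards [isOpen_ball.mem_nhds hρ] with x hx
      rw [ha]
      exact (hA1 s hs x hx).symm
    exact (h1.congr_of_eventuallyEq h2).deriv.symm
  have hB1 : ∀ s ∈ ball u r, ∀ ρ ∈ ball (0:ℂ) r,
      B (s, ρ) - s * deriv a ρ = B (u, ρ) - u * deriv a ρ := by
    intro s hs ρ hρ
    have key : ∀ x ∈ ball u r, HasDerivAt (fun s => B (s, ρ) - s * deriv a ρ) 0 x := by
      intro x hx
      have h1 := Frm_fst (p := (x, ρ)) (hball _ (hmem x ρ hx hρ)).1.1.2.differentiableAt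
      rw [(hball _ (hmem x ρ hx hρ)).2.2, hA2 x hx ρ hρ] at h1
      have h2 : HasDerivAt (fun s : ℂ => s * deriv a ρ) (1 * deriv a ρ) x :=
        (hasDerivAt_id x).mul_const _
      have h3 := h1.sub h2
      rw [one_mul, sub_self] at h3
      exact h3
    refine isOpen_ball.is_const_of_deriv_eq_zero (f := fun s => B (s, ρ) - s * deriv a ρ)
      (convex_ball u r).isPreconnected ?_ ?_ hs hub
    · exact fun x hx => (key x hx).differentiableAt.differentiableWithinAt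
    · exact fun x hx => (key x hx).deriv
  have hode : ∀ ρ ∈ ball (0:ℂ) r, a ρ + ρ * deriv a ρ = 0 := by
    intro ρ hρ
    have hs : u + ρ ∈ ball u r := by
      rw [mem_ball, dist_eq_norm, add_sub_cancel_left]
      simpa using hρ
    have h1 := hB1 _ hs ρ hρ
    have h2 := (hball _ (hmem u ρ hub hρ)).1.2.2
    have h3 := hA1 _ hs ρ hρ
    simp only at h2
    rw [h3] at h2
    have h4 : A (u, ρ) = a ρ := by rw [ha]
    rw [h4] at h2
    linear_combination -h1 - h2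
  have ha0 : ∀ ρ ∈ ball (0:ℂ) r, a ρ = 0 := by
    intro ρ hρ
    by_cases hρ0 : ρ = 0
    · have := hode ρ hρ
      rw [hρ0] at this ⊢
      simpa using this
    · have key : ∀ x ∈ ball (0:ℂ) r, HasDerivAt (fun x => x * a x) 0 x := by
        intro x hx
        have h1 := (hasDerivAt_id x).fun_mul (had x hx)
        have h2 : 1 * a x + id x * deriv a x = 0 := by
          rw [one_mul]
          exact hode x hx
        rw [h2] at h1
        exact h1
      have h1 := isOpen_ball.is_const_of_deriv_eq_zero (f := fun x => x * a x)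
        (convex_ball (0:ℂ) r).isPreconnected
        (fun x hx => (key x hx).differentiableAt.differentiableWithinAt)
        (fun x hx => (key x hx).deriv) hρ (mem_ball_self hr)
      simp only [zero_mul] at h1
      exact (mul_eq_zero.1 h1).resolve_left hρ0
  have hda : ∀ ρ ∈ ball (0:ℂ) r, deriv a ρ = 0 := by
    intro ρ hρ
    have h1 : a =ᶠ[𝓝 ρ] fun _ => 0 := by
      filter_upwards [isOpen_ball.mem_nhds hρ] with x hx using ha0 x hx
    rw [h1.deriv_eq]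
    exact deriv_const ρ 0
  refine ⟨fun ρ => B (u, ρ), ?_, ?_⟩
  · exact AnalyticAt.fun_comp (g := B) (f := fun ρ : ℂ => ((u, ρ) : ℂ × ℂ)) hBa
      (analyticAt_const.prod analyticAt_id)
  · filter_upwards [isOpen_ball.mem_nhds (mem_ball_self (x := ((u, 0) : ℂ × ℂ)) hr)] with p hp
    have hp1 : p.1 ∈ ball u r := by
      rw [mem_ball, Prod.dist_eq, max_lt_iff] at hp
      exact hp.1
    have hp2 : p.2 ∈ ball (0:ℂ) r := by
      rw [mem_ball, Prod.dist_eq, max_lt_iff] at hp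
      exact hp.2
    have h1 : Ω p (1, 0) = 0 := by
      have h2 := hA1 p.1 hp1 p.2 hp2
      have h3 := ha0 p.2 hp2
      rw [ha] at h3
      simp only at h3
      rw [h3, hA] at h2
      exact h2
    have h2 : Ω p (0, 1) = B (u, p.2) := by
      have h3 := hB1 p.1 hp1 p.2 hp2
      rw [hda p.2 hp2, mul_zero, mul_zero, sub_zero, sub_zero] at h3
      rw [← h3, hB]
    have h3 : ∑ l ∈ Finset.range m, lam ψ l (yL L l p) • fderiv ℂ (yL L l) p = Ω p := by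
      rw [hΩ]
    rw [h3]
    refine ContinuousLinearMap.ext fun x => ?_
    have h4 : x = x.1 • ((1:ℂ), (0:ℂ)) + x.2 • ((0:ℂ), (1:ℂ)) := by
      ext <;> simp
    rw [h4, map_add, map_smul, map_smul, h1, h2]
    simp [mul_comm]

/-- the moments are polynomials -/
theorem mo_deriv (hL : LabR F c ε L) (hu : u ∈ St (-ε) ε) (h : Rl m (yL L) ψ u) {k : ℕ}
    (h0 : ∀ j < k, ∀ᶠ v in 𝓝 u, Mo m j ψ v = 0) :
    ∀ᶠ v in 𝓝 u, iteratedDeriv k (Mo m k ψ) v = 0 := by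
  obtain ⟨β, -, hβ⟩ := rel_form hL hu h
  have hLa : AnalyticAt ℂ L (u, 0) := hL.an _ (Frm_mem hL hu)
  have hL0 : L (u, 0) = u := hL.zero u hu
  have hLt : Tendsto L (𝓝 (u, 0)) (𝓝 u) := by
    have := hLa.continuousAt.tendsto
    rwa [hL0] at this
  have hla : ∀ l, l < m → AnalyticAt ℂ (lam ψ l) u := by
    intro l hl
    have : AnalyticAt ℂ (fun v => ∑ i ∈ Finset.range (l + 1), ψ i v) u := by
      refine Finset.analyticAt_fun_sum _ fun i hi => ?_
      exact h.1 i (by have := Finset.mem_range.1 hi; omega)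
    exact this
  have hDa : AnalyticAt ℂ (fun q => fderiv ℂ L q (1, 0)) (u, 0) :=
    AnalyticAt.fun_comp (g := fun T : (ℂ × ℂ) →L[ℂ] ℂ => T (1, 0))
      ((ContinuousLinearMap.apply ℂ ℂ ((1 : ℂ), (0 : ℂ))).analyticAt _) hLa.fderiv
  have key := moment_of_shift (m := m) (k := k)
    (g := fun l q => lam ψ l (L q) * fderiv ℂ L q (1, 0)) (t := u) ?_ ?_ ?_
  · filter_upwards [key, (Frm_open _ _).mem_nhds hu] with s h1 h2
    rw [← h1]
    refine Filter.EventuallyEq.iteratedDeriv_eq k ?_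
    filter_upwards [(Frm_open _ _).mem_nhds h2] with v hv
    unfold Mo
    refine Finset.sum_congr rfl fun l _ => ?_
    rw [hL.zero v hv, Frm_L1 hL hv, mul_one]
  · intro l hl
    exact (AnalyticAt.fun_comp_of_eq (hla l hl) hLa hL0).mul hDa
  · have h1 : ∀ᶠ p in 𝓝 ((u, 0) : ℂ × ℂ), ∀ l ∈ Finset.range m,
        DifferentiableAt ℂ L (p.1 + (l:ℂ) * p.2, p.2) := by
      rw [Filter.eventually_all_finset]
      intro l _
      have := (Frm_tend l u).eventually hLa.eventually_analyticAt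
      filter_upwards [this] with p hp using hp.differentiableAt
    filter_upwards [h1, hβ] with p hp1 hp2
    have h2 := congrArg (fun T : ℂ × ℂ →L[ℂ] ℂ => T (1, 0)) hp2
    simp only [FunLike.coe_sum, Finset.sum_apply, _root_.smul_apply,
      ContinuousLinearMap.coe_snd', smul_zero] at h2
    refine Eq.trans ?_ h2
    refine Finset.sum_congr rfl fun l hl => ?_
    have h3 : HasFDerivAt (yL L l) _ p := Frm_comp (l:ℂ) (hp1 l hl)
    rw [h3.fderiv]
    simp only [ContinuousLinearMap.comp_apply, FrmT_apply, mul_zero, add_zero, smul_eq_mul]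
    rfl
  · intro j hj
    filter_upwards [hLt.eventually (h0 j hj)] with q hq
    have h1 : ∑ l ∈ Finset.range m, (l : ℂ) ^ j * (lam ψ l (L q) * fderiv ℂ L q (1, 0)) =
        Mo m j ψ (L q) * fderiv ℂ L q (1, 0) := by
      unfold Mo
      rw [Finset.sum_mul]
      exact Finset.sum_congr rfl fun l _ => by ring
    rw [h1, hq, zero_mul]

end Pool.Agent.MP_ae5b4e_an_NB1B
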