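import Pool.Agent.Lib.MP_ae5b4e_an_NB1B.PlA

/-!
# MP_ae5b4e_an, NB_1 section 3: homogeneous relations at a conical point
-/

noncomputable section

namespace Pool.Agent.MP_ae5b4e_an_NB1B

open Complex Set Filter Topology Metric

private theorem Hom_ev (a : ℂ) (ha : a ≠ 0) (d : ℂ) :
    ∀ᶠ E in 𝓝[≠] (0:ℂ), a / E + d ≠ 0 := by
  have h1 : Tendsto (fun E : ℂ => a + d * E) (𝓝[≠] (0:ℂ)) (𝓝 (a + d * 0)) :=
    (Continuous.tendsto (by fun_prop) 0).mono_left nhdsWithin_le_nhds
  have h2 : a + d * 0 ≠ 0 := by simpa using ha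
  filter_upwards [h1.eventually_ne h2, self_mem_nhdsWithin] with E hE hE0 h
  have hE0' : E ≠ 0 := hE0
  apply hE
  have h3 : (a / E + d) * E = 0 := by rw [h, zero_mul]
  rw [add_mul, div_mul_cancel₀ _ hE0'] at h3
  exact h3

/-- the homogeneous polygon for `κ = c / z`, `(1 + c) ν = 1` -/
theorem hom_step {c : ℂ} {ν : ℤ} (hν : (1 + c) * ν = 1) (j : ℕ) :
    ∀ᶠ E in 𝓝[≠] (0:ℂ), (∀ i ≤ j, ((ν : ℂ) / E + i) ≠ 0) ∧
      Ac 1 (fun _ => c) j (0, E) =
        ∏ i ∈ Finset.range j, ((ν : ℂ) / E + i + ν) / ((ν : ℂ) / E + i) := by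
  have hν0 : (ν : ℂ) ≠ 0 := by
    intro h
    rw [h, mul_zero] at hν
    exact zero_ne_one hν
  have e1 : ∀ᶠ E in 𝓝[≠] (0:ℂ), ∀ i ∈ Finset.range (j + 1), (ν : ℂ) / E + i ≠ 0 :=
    (Finset.eventually_all _).2 fun i _ => Hom_ev _ hν0 _
  have e2 : ∀ᶠ E in 𝓝[≠] (0:ℂ), ∀ i ∈ Finset.range (j + 1), (ν : ℂ) / E + (i + ν) ≠ 0 :=
    (Finset.eventually_all _).2 fun i _ => Hom_ev _ hν0 _
  filter_upwards [e1, e2, self_mem_nhdsWithin] with E h1 h2 hE
  have hE0 : E ≠ 0 := hE
  refine ⟨fun i hi => h1 i (Finset.mem_range.2 (by omega)), ?_⟩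
  have key : ∀ i ≤ j, (stA 1 (fun _ => c) 0)^[i] (1, E) =
      (∏ l ∈ Finset.range i, ((ν : ℂ) / E + l + ν) / ((ν : ℂ) / E + l),
        (∏ l ∈ Finset.range i, ((ν : ℂ) / E + l + ν) / ((ν : ℂ) / E + l)) * ν /
          ((ν : ℂ) / E + i)) := by
    intro i
    induction i with
    | zero =>
      intro _
      simp only [Function.iterate_zero, id_eq, Finset.range_zero, Finset.prod_empty,
        Nat.cast_zero, add_zero, one_mul]
      rw [div_div_cancel₀ hν0]
    | succ i ih =>
      intro hi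
      rw [Function.iterate_succ_apply', ih (by omega), Finset.prod_range_succ]
      have a1 : (ν : ℂ) / E + i ≠ 0 := h1 i (Finset.mem_range.2 (by omega))
      have a2 : (ν : ℂ) / E + i + ν ≠ 0 := by
        have := h2 i (Finset.mem_range.2 (by omega))
        rwa [← add_assoc] at this
      have a3 : (ν : ℂ) / E + ((i + 1 : ℕ) : ℂ) ≠ 0 :=
        h1 (i + 1) (Finset.mem_range.2 (by omega))
      have hP : ∏ l ∈ Finset.range i, ((ν : ℂ) / E + l + ν) / ((ν : ℂ) / E + l) ≠ 0 := by
        refine Finset.prod_ne_zero_iff.2 fun l hl => ?_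
        have hl' := Finset.mem_range.1 hl
        refine div_ne_zero ?_ (h1 l (Finset.mem_range.2 (by omega)))
        have := h2 l (Finset.mem_range.2 (by omega))
        rwa [← add_assoc] at this
      have hc : (ν : ℂ) + c * ν = 1 := by rw [← hν]; ring
      generalize (∏ l ∈ Finset.range i, ((ν : ℂ) / E + l + ν) / ((ν : ℂ) / E + l)) = P at hP ⊢
      generalize (ν : ℂ) / E = u at a1 a2 a3 ⊢
      push_cast at a3 ⊢
      have b1 : P + P * ν / (u + i) = P * ((u + i + ν) / (u + i)) := by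
        field_simp
      unfold stA qA
      simp only
      rw [b1]
      refine Prod.ext rfl ?_
      simp only
      have b2 : 1 + P * ν / (u + i) * (c / (P * ((u + i + ν) / (u + i)))) =
          (u + (i + 1)) / (u + i + ν) := by
        field_simp
        linear_combination hc
      rw [b2]
      field_simp
  rw [Ac, key j le_rfl]

/-- the sums of logarithms -/
private def homT (N j : ℕ) (u : ℂ) : ℂ := ∑ i ∈ Finset.range N, log (u + i + j)

private def homR (N j : ℕ) (u : ℂ) : ℂ := ∏ i ∈ Finset.range N, (u + i + j)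

private def homQ (N j : ℕ) (u : ℂ) : ℂ := ∏ i ∈ Finset.range j, (u + i + N) / (u + i)

private theorem homR_succ (N j : ℕ) (u : ℂ) :
    (u + j) * homR N (j + 1) u = homR N j u * (u + j + N) := by
  unfold homR
  have h := Finset.prod_range_succ (fun i : ℕ => u + i + j) N
  have h' := Finset.prod_range_succ' (fun i : ℕ => u + i + j) N
  rw [h] at h'
  have e1 : ∏ i ∈ Finset.range N, (u + i + ((j + 1 : ℕ) : ℂ)) =
      ∏ i ∈ Finset.range N, (u + ((i + 1 : ℕ) : ℂ) + j) := by
    refine Finset.prod_congr rfl fun i _ => ?_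
    push_cast
    ring
  rw [e1, mul_comm]
  have e2 : u + ((0 : ℕ) : ℂ) + j = u + j := by simp
  rw [e2] at h'
  rw [← h']
  ring

private theorem Hom_ne {u : ℂ} (hu : u.im ≠ 0) (i j : ℕ) : u + i + j ≠ 0 := by
  intro h
  have := congrArg Complex.im h
  simp at this
  exact hu this

private theorem Hom_ne' {u : ℂ} (hu : u.im ≠ 0) (i : ℕ) : u + i ≠ 0 := by
  have := Hom_ne hu i 0
  simpa using this

private theorem homQR {u : ℂ} (hu : u.im ≠ 0) (N j : ℕ) :
    homQ N j u * homR N 0 u = homR N j u := by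
  induction j with
  | zero => simp [homQ]
  | succ j ih =>
    have h1 : homQ N (j + 1) u = homQ N j u * ((u + j + N) / (u + j)) := by
      unfold homQ
      rw [Finset.prod_range_succ]
    have h2 := homR_succ N j u
    have h3 := Hom_ne' hu j
    rw [h1, mul_right_comm, ih, ← mul_div_assoc, ← h2, mul_div_cancel_left₀ _ h3]

private theorem Hom_exp {u : ℂ} (hu : u.im ≠ 0) (N j : ℕ) : exp (homT N j u) = homR N j u := by
  unfold homT homR
  rw [Complex.exp_sum]
  exact Finset.prod_congr rfl fun i _ => exp_log (Hom_ne hu i j)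

private theorem Hom_diff {w : ℂ} (hw : w.im ≠ 0) (j : ℕ) :
    log (w + j) - log w = log (1 + j / w) := by
  have hw0 : w ≠ 0 := by
    rintro rfl
    exact hw rfl
  have him : (w + (j:ℂ)).im = w.im := by simp
  have hwj : w + j ≠ 0 := by
    intro h
    rw [h] at him
    exact hw him.symm
  have h1 : exp (log (w + j) - log w) = 1 + j / w := by
    rw [exp_sub, exp_log hwj, exp_log hw0]
    field_simp
  rw [← h1, log_exp]
  · rw [sub_im, log_im, log_im]
    rcases lt_or_gt_of_ne hw with h | h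
    · have a1 := neg_pi_lt_arg (w + j)
      have a2 : arg w < 0 := arg_neg_iff.2 h
      linarith
    · have a1 : 0 ≤ arg (w + j) := arg_nonneg_iff.2 (by rw [him]; exact h.le)
      have a2 : arg w < Real.pi := arg_lt_pi_iff.2 (Or.inr hw)
      linarith
  · rw [sub_im, log_im, log_im]
    rcases lt_or_gt_of_ne hw with h | h
    · have a1 := neg_pi_lt_arg w
      have a2 : arg (w + j) < 0 := arg_neg_iff.2 (by rw [him]; exact h)
      linarith
    · have a1 : 0 ≤ arg w := arg_nonneg_iff.2 h.le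
      have a2 := arg_le_pi (w + j)
      linarith

private theorem Hom_log (N j : ℕ) : ∀ᶠ u in Bornology.cobounded ℂ, u.im ≠ 0 →
    log (homQ N j u) = homT N j u - homT N 0 u ∧
      log (homQ N j u)⁻¹ = -(homT N j u - homT N 0 u) := by
  have h1 : Tendsto (fun u : ℂ => ∑ i ∈ Finset.range N, log (1 + j / (u + i)))
      (Bornology.cobounded ℂ) (𝓝 (∑ i ∈ Finset.range N, (0:ℂ))) := by
    refine tendsto_finsetSum _ fun i _ => ?_
    have a1 : Tendsto (fun u : ℂ => (u + i)⁻¹) (Bornology.cobounded ℂ) (𝓝 0) :=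
      tendsto_inv₀_cobounded.comp (tendsto_add_const_cobounded (i : ℂ))
    have a2 : Tendsto (fun u : ℂ => 1 + j / (u + i)) (Bornology.cobounded ℂ) (𝓝 1) := by
      have a3 := (a1.const_mul (j : ℂ)).const_add 1
      simpa [div_eq_mul_inv] using a3
    have a4 : ContinuousAt log (1:ℂ) := continuousAt_clog (by simp)
    have a5 := a4.tendsto.comp a2
    rw [log_one] at a5
    exact a5
  rw [Finset.sum_const_zero] at h1
  have h2 : ∀ᶠ u in Bornology.cobounded ℂ,
      ‖∑ i ∈ Finset.range N, log (1 + j / (u + i))‖ < Real.pi := by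
    have := h1.norm
    rw [norm_zero] at this
    exact this.eventually_lt_const Real.pi_pos
  filter_upwards [h2] with u hu him
  have h3 : homT N j u - homT N 0 u = ∑ i ∈ Finset.range N, log (1 + j / (u + i)) := by
    unfold homT
    rw [← Finset.sum_sub_distrib]
    refine Finset.sum_congr rfl fun i _ => ?_
    have h4 : (u + (i:ℂ)).im ≠ 0 := by simpa using him
    rw [Nat.cast_zero, add_zero, ← Hom_diff h4]
  have h5 : homQ N j u = exp (homT N j u - homT N 0 u) := by
    rw [exp_sub, Hom_exp him, Hom_exp him, ← homQR him, mul_div_assoc, div_self, mul_one]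
    exact Finset.prod_ne_zero_iff.2 fun i _ => Hom_ne him i 0
  rw [h5, ← exp_neg, h3]
  have h6 := (abs_lt.1 ((abs_im_le_norm _).trans_lt hu))
  refine ⟨log_exp h6.1 h6.2.le, log_exp ?_ ?_⟩
  · rw [neg_im]
    linarith
  · rw [neg_im]
    linarith

private def homF (N m : ℕ) (b : ℂ) (β : ℕ → ℂ) (u : ℂ) : ℂ :=
  ∑ j ∈ Finset.range (m + 1), β j * exp (b * homT N j u)

private theorem Hom_dif (N m : ℕ) (b : ℂ) (β : ℕ → ℂ) {u : ℂ} (hu : u.im ≠ 0) :
    DifferentiableAt ℂ (homF N m b β) u := by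
  unfold homF homT
  refine DifferentiableAt.fun_sum fun j _ => ?_
  refine DifferentiableAt.const_mul (DifferentiableAt.cexp (DifferentiableAt.const_mul ?_ _)) _
  refine DifferentiableAt.fun_sum fun i _ => ?_
  refine DifferentiableAt.clog (by fun_prop) ?_
  rw [mem_slitPlane_iff]
  right
  simpa using hu

private theorem Hom_zero {N m : ℕ} {b : ℂ} {β : ℕ → ℂ}
    (h : ∀ᶠ u in Bornology.cobounded ℂ, u.im ≠ 0 → homF N m b β u = 0) {s : ℝ}
    (hs : s = 1 ∨ s = -1) (u : ℂ) (hu : 0 < s * u.im) : homF N m b β u = 0 := by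
  have hs2 : s * s = 1 := by rcases hs with rfl | rfl <;> norm_num
  have hsa : |s| = 1 := by rcases hs with rfl | rfl <;> norm_num
  have hU : IsOpen {u : ℂ | 0 < s * u.im} :=
    isOpen_lt continuous_const (continuous_const.mul continuous_im)
  have hconv : Convex ℝ {u : ℂ | 0 < s * u.im} := by
    have := (convex_Ioi (0:ℝ)).linear_preimage (s • Complex.imLm)
    convert! this using 1
  have han : AnalyticOnNhd ℂ (homF N m b β) {u : ℂ | 0 < s * u.im} := by
    refine DifferentiableOn.analyticOnNhd (fun v hv => ?_) hU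
    refine (Hom_dif N m b β ?_).differentiableWithinAt
    intro h0
    have hv' : 0 < s * v.im := hv
    rw [h0, mul_zero] at hv'
    exact lt_irrefl _ hv'
  obtain ⟨R, -, hR⟩ := hasBasis_cobounded_norm.eventually_iff.1 h
  have hz1 : (((|R| + 1) * s : ℝ) * I : ℂ).im = (|R| + 1) * s := by simp
  have hz2 : ‖(((|R| + 1) * s : ℝ) * I : ℂ)‖ = |R| + 1 := by
    rw [norm_mul, norm_I, mul_one, norm_real, Real.norm_eq_abs, abs_mul, hsa, mul_one,
      abs_of_pos (by positivity)]
  have hmem : (((|R| + 1) * s : ℝ) * I : ℂ) ∈ {u : ℂ | 0 < s * u.im} := by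
    change 0 < s * _
    rw [hz1]
    have : s * ((|R| + 1) * s) = (|R| + 1) * (s * s) := by ring
    rw [this, hs2]
    positivity
  have hev : homF N m b β =ᶠ[𝓝 (((|R| + 1) * s : ℝ) * I : ℂ)] 0 := by
    have h1 : ∀ᶠ v in 𝓝 (((|R| + 1) * s : ℝ) * I : ℂ), R < ‖v‖ := by
      refine continuous_norm.continuousAt.eventually_const_lt ?_
      change R < ‖_‖
      rw [hz2]
      exact (le_abs_self R).trans_lt (lt_add_one _)
    filter_upwards [h1, hU.mem_nhds hmem] with v hv1 hv2
    refine hR (show R ≤ ‖v‖ from hv1.le) ?_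
    intro h0
    have hv' : 0 < s * v.im := hv2
    rw [h0, mul_zero] at hv'
    exact lt_irrefl _ hv'
  exact han.eqOn_zero_of_preconnected_of_eventuallyEq_zero hconv.isPreconnected hmem hev hu

private theorem Hom_lim {N m J : ℕ} {b : ℂ} {β : ℕ → ℂ} (hJ : ∀ j < J, β j = 0) {s : ℝ}
    (hs : s = 1 ∨ s = -1) (hz : ∀ u : ℂ, 0 < s * u.im → homF N m b β u = 0) :
    ∑ j ∈ Finset.range (m + 1), β j * exp (b * ∑ i ∈ Finset.range N,
      if i = 0 ∧ j = J then (Real.log ‖(-1 / 4 : ℂ)‖ + s * (Real.pi * I) : ℂ)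
      else log (-J - 1 / 4 + i + j)) = 0 := by
  have hs2 : s * s = 1 := by rcases hs with rfl | rfl <;> norm_num
  have hlim : Tendsto (fun ε : ℝ => homF N m b β (-J - 1 / 4 + ε * s * I)) (𝓝[>] 0)
      (𝓝 (∑ j ∈ Finset.range (m + 1), β j * exp (b * ∑ i ∈ Finset.range N,
        if i = 0 ∧ j = J then (Real.log ‖(-1 / 4 : ℂ)‖ + s * (Real.pi * I) : ℂ)
        else log (-J - 1 / 4 + i + j)))) := by
    unfold homF homT
    refine tendsto_finsetSum _ fun j _ => ?_
    by_cases hj : j < J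
    · simp only [hJ j hj, zero_mul]
      exact tendsto_const_nhds
    refine Tendsto.const_mul _ (Tendsto.cexp (Tendsto.const_mul _ ?_))
    refine tendsto_finsetSum _ fun i _ => ?_
    split_ifs with hij
    · obtain ⟨rfl, rfl⟩ := hij
      have e1 : ∀ ε : ℝ, (-(j:ℂ) - 1 / 4 + ε * s * I + ((0:ℕ) : ℂ) + j) = -1 / 4 + ε * s * I := by
        intro ε
        push_cast
        ring
      simp only [e1]
      have e2 : Tendsto (fun ε : ℝ => (-1 / 4 + ε * s * I : ℂ)) (𝓝[>] 0) (𝓝 (-1 / 4)) := by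
        have : Continuous fun ε : ℝ => (-1 / 4 + ε * s * I : ℂ) := by fun_prop
        have h2 := (this.tendsto 0).mono_left (nhdsWithin_le_nhds (s := Ioi (0:ℝ)))
        simpa using h2
      have e3 : ∀ ε : ℝ, (-1 / 4 + ε * s * I : ℂ).im = ε * s := by
        intro ε
        have : (-1 / 4 + ε * s * I : ℂ) = ((-1 / 4 : ℝ) : ℂ) + ((ε * s : ℝ) : ℂ) * I := by
          push_cast
          ring
        rw [this]
        simp
      have hre : (-1 / 4 : ℂ).re < 0 := by
        have : (-1 / 4 : ℂ) = ((-1 / 4 : ℝ) : ℂ) := by push_cast; ring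
        rw [this, ofReal_re]
        norm_num
      have him : (-1 / 4 : ℂ).im = 0 := by
        have : (-1 / 4 : ℂ) = ((-1 / 4 : ℝ) : ℂ) := by push_cast; ring
        rw [this, ofReal_im]
      rcases hs with rfl | rfl
      · have h3 := tendsto_log_nhdsWithin_im_nonneg_of_re_neg_of_im_zero hre him
        have h4 : Tendsto (fun ε : ℝ => (-1 / 4 + ε * (1:ℝ) * I : ℂ)) (𝓝[>] 0)
            (𝓝[{z : ℂ | 0 ≤ z.im}] (-1 / 4)) := by
          refine tendsto_nhdsWithin_iff.2 ⟨e2, ?_⟩
          filter_upwards [self_mem_nhdsWithin] with ε hε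
          change 0 ≤ (_ : ℂ).im
          rw [e3, mul_one]
          exact (show (0:ℝ) < ε from hε).le
        have h5 := h3.comp h4
        have e6 : (Real.log ‖(-1 / 4 : ℂ)‖ + ((1:ℝ) : ℂ) * (Real.pi * I) : ℂ) =
            Real.log ‖(-1 / 4 : ℂ)‖ + Real.pi * I := by
          push_cast
          ring
        rw [e6]
        exact h5
      · have h3 := tendsto_log_nhdsWithin_im_neg_of_re_neg_of_im_zero hre him
        have h4 : Tendsto (fun ε : ℝ => (-1 / 4 + ε * ((-1:ℝ) : ℂ) * I : ℂ)) (𝓝[>] 0)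
            (𝓝[{z : ℂ | z.im < 0}] (-1 / 4)) := by
          refine tendsto_nhdsWithin_iff.2 ⟨e2, ?_⟩
          filter_upwards [self_mem_nhdsWithin] with ε hε
          change (_ : ℂ).im < 0
          rw [e3]
          have : (0:ℝ) < ε := hε
          linarith
        have h5 := h3.comp h4
        have e6 : (Real.log ‖(-1 / 4 : ℂ)‖ + ((-1:ℝ) : ℂ) * (Real.pi * I) : ℂ) =
            Real.log ‖(-1 / 4 : ℂ)‖ - Real.pi * I := by
          push_cast
          ring
        rw [e6]
        exact h5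
    · refine Tendsto.clog ?_ ?_
      · have : Continuous fun ε : ℝ => (-(J:ℂ) - 1 / 4 + ε * s * I + i + j : ℂ) := by fun_prop
        have h2 := (this.tendsto 0).mono_left (nhdsWithin_le_nhds (s := Ioi (0:ℝ)))
        simpa using h2
      · have h1 : J + 1 ≤ i + j := by
          by_contra h
          exact hij ⟨by omega, by omega⟩
        have h2 : (-(J:ℂ) - 1 / 4 + i + j : ℂ) = ((-(J:ℝ) - 1 / 4 + i + j : ℝ) : ℂ) := by
          push_cast
          ring
        rw [h2, ofReal_mem_slitPlane]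
        have h3 : (J:ℝ) + 1 ≤ i + j := by exact_mod_cast h1
        linarith
  refine tendsto_nhds_unique hlim ((tendsto_congr' ?_).2 tendsto_const_nhds)
  filter_upwards [self_mem_nhdsWithin] with ε hε
  refine hz _ ?_
  have h1 : (-(J:ℂ) - 1 / 4 + ε * s * I : ℂ).im = ε * s := by
    have : (-(J:ℂ) - 1 / 4 + ε * s * I : ℂ) =
        ((-(J:ℝ) - 1 / 4 : ℝ) : ℂ) + ((ε * s : ℝ) : ℂ) * I := by
      push_cast
      ring
    rw [this]
    simp
  rw [h1]
  have h2 : s * (ε * s) = ε * (s * s) := by ring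
  rw [h2, hs2, mul_one]
  exact hε

private theorem Hom_core {N : ℕ} (hN : 0 < N) {m : ℕ} {b : ℂ} (hb : ∀ n : ℤ, b ≠ n) {β : ℕ → ℂ}
    (h : ∀ᶠ u in Bornology.cobounded ℂ, u.im ≠ 0 → homF N m b β u = 0) :
    ∀ j ≤ m, β j = 0 := by
  intro j
  induction j using Nat.strong_induction_on with
  | _ J ih =>
    intro hJm
    have hJ : ∀ j < J, β j = 0 := fun j hj => ih j hj (by omega)
    by_contra hβ
    have h1 := Hom_lim hJ (Or.inl rfl) (Hom_zero h (Or.inl rfl))
    have h2 := Hom_lim hJ (Or.inr rfl) (Hom_zero h (Or.inr rfl))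
    have h3 := h1.trans h2.symm
    rw [← sub_eq_zero, ← Finset.sum_sub_distrib, Finset.sum_eq_single J] at h3
    · obtain ⟨N, rfl⟩ := Nat.exists_eq_succ_of_ne_zero hN.ne'
      rw [Nat.succ_eq_add_one, Finset.sum_range_succ', Finset.sum_range_succ'] at h3
      simp only [Nat.succ_ne_zero, false_and, if_false, and_self, if_true] at h3
      generalize (∑ i ∈ Finset.range N, log (-(J:ℂ) - 1 / 4 + ((i + 1 : ℕ) : ℂ) + J)) = C at h3
      rw [← mul_sub, mul_eq_zero] at h3
      have h4 := sub_eq_zero.1 (h3.resolve_left hβ)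
      have h5 : b * (C + (Real.log ‖(-1 / 4 : ℂ)‖ + ((1:ℝ) : ℂ) * (Real.pi * I))) =
          b * (C + (Real.log ‖(-1 / 4 : ℂ)‖ + ((-1:ℝ) : ℂ) * (Real.pi * I))) +
            b * (2 * Real.pi * I) := by
        push_cast
        ring
      rw [h5, exp_add] at h4
      have h6 : exp (b * (2 * Real.pi * I)) = 1 := by
        refine mul_left_cancel₀ (exp_ne_zero _) (h4.trans (mul_one _).symm)
      obtain ⟨n, hn⟩ := exp_eq_one_iff.1 h6
      exact hb n (mul_right_cancel₀ two_pi_I_ne_zero hn)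
    · intro j _ hj
      have e1 : ∀ i : ℕ, ¬ (i = 0 ∧ j = J) := fun i hi => hj hi.2
      simp only [e1, if_false, sub_self]
    · intro hJ'
      exact absurd (Finset.mem_range.2 (by omega)) hJ'

/-- **no homogeneous relations with a nonintegral exponent** -/
theorem hom_rel {m : ℕ} {ν : ℤ} (hν : ν ≠ 0) {b : ℂ} (hb : ∀ N : ℤ, b ≠ N) {β : ℕ → ℂ}
    (h : ∀ᶠ u in Bornology.cobounded ℂ, ∑ j ∈ Finset.range (m + 1),
      β j * exp (b * log (∏ i ∈ Finset.range j, (u + i + ν) / (u + i))) = 0) :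
    ∀ j ≤ m, β j = 0 := by
  rcases lt_or_gt_of_ne hν with hneg | hpos
  · obtain ⟨N, hN⟩ : ∃ N : ℕ, ν = -(N : ℤ) := ⟨ν.natAbs, by omega⟩
    subst hN
    have hN0 : 0 < N := by omega
    refine Hom_core hN0 (b := -b) ?_ ?_
    · intro n hn
      exact hb (-n) (by push_cast; rw [← hn, neg_neg])
    have h1 := (tendsto_add_const_cobounded (N : ℂ)).eventually h
    have h2 : ∀ᶠ u in Bornology.cobounded ℂ, ∀ j ∈ Finset.range (m + 1), u.im ≠ 0 →
        log (homQ N j u) = homT N j u - homT N 0 u ∧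
          log (homQ N j u)⁻¹ = -(homT N j u - homT N 0 u) :=
      (Finset.eventually_all _).2 fun j _ => Hom_log N j
    filter_upwards [h1, h2] with u hu1 hu2 him
    have e1 : ∀ j : ℕ, ∏ i ∈ Finset.range j, (u + N + i + ((-(N:ℤ) : ℤ) : ℂ)) / (u + N + i) =
        (homQ N j u)⁻¹ := by
      intro j
      unfold homQ
      rw [← Finset.prod_inv_distrib]
      refine Finset.prod_congr rfl fun i _ => ?_
      rw [inv_div]
      push_cast
      congr 1 <;> ring
    simp only [e1] at hu1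
    have e2 : homF N m (-b) β u = (∑ j ∈ Finset.range (m + 1),
        β j * exp (b * log (homQ N j u)⁻¹)) * exp (-b * homT N 0 u) := by
      unfold homF
      rw [Finset.sum_mul]
      refine Finset.sum_congr rfl fun j hj => ?_
      rw [(hu2 j hj him).2, mul_assoc, ← exp_add]
      congr 2
      ring
    rw [e2, hu1, zero_mul]
  · obtain ⟨N, hN⟩ : ∃ N : ℕ, ν = (N : ℤ) := ⟨ν.natAbs, by omega⟩
    subst hN
    have hN0 : 0 < N := by omega
    refine Hom_core hN0 hb ?_
    have h2 : ∀ᶠ u in Bornology.cobounded ℂ, ∀ j ∈ Finset.range (m + 1), u.im ≠ 0 →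
        log (homQ N j u) = homT N j u - homT N 0 u ∧
          log (homQ N j u)⁻¹ = -(homT N j u - homT N 0 u) :=
      (Finset.eventually_all _).2 fun j _ => Hom_log N j
    filter_upwards [h, h2] with u hu1 hu2 him
    have e1 : ∀ j : ℕ, ∏ i ∈ Finset.range j, (u + i + ((N : ℤ) : ℂ)) / (u + i) = homQ N j u := by
      intro j
      unfold homQ
      refine Finset.prod_congr rfl fun i _ => ?_
      push_cast
      rfl
    simp only [e1] at hu1
    have e2 : homF N m b β u = (∑ j ∈ Finset.range (m + 1),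
        β j * exp (b * log (homQ N j u))) * exp (b * homT N 0 u) := by
      unfold homF
      rw [Finset.sum_mul]
      refine Finset.sum_congr rfl fun j hj => ?_
      rw [(hu2 j hj him).1, mul_assoc, ← exp_add]
      congr 2
      ring
    rw [e2, hu1, zero_mul]

end Pool.Agent.MP_ae5b4e_an_NB1B
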