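import Pool.Agent.Lib.MP_ae5b4e_an_NB1B.Sl
import Pool.Agent.Lib.MP_ae5b4e_an_NBT.HartS
import Pool.Agent.Lib.MP_ae5b4e_an_MERO.Countable
import Pool.Agent.Lib.MP_ae5b4e_an_NBT.LabelC

/-!
# MP_ae5b4e_an, NB_1 section 3: the slice continuation is jointly analytic at regular points
-/

noncomputable section

namespace Pool.Agent.MP_ae5b4e_an_NB1B

open Complex Set Filter Topology Metric
open Pool.Agent.MP_ae5b4e_an_NBT

/-- regular points: `F` and `K` have analytic germs, `F` is immersed in `t` -/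
def Rgp (F K : ℂ × ℂ → ℂ) (p : ℂ × ℂ) : Prop :=
  ∃ C H : ℂ × ℂ → ℂ, AnalyticAt ℂ C p ∧ EqM F C p ∧ fderiv ℂ C p (1, 0) ≠ 0 ∧
    AnalyticAt ℂ H p ∧ EqM K H p

/-- the data of the continuation: `F`, `K` are meromorphic up to the height `y`, the state is
known up to the height `a` -/
structure JD (m k : ℕ) (F K : ℂ × ℂ → ℂ) (Φ : ℕ → ℂ × ℂ → ℂ) (a y δ : ℝ) (ρ₁ : ℂ) : Prop where
  a_pos : 0 < a
  a_le : a ≤ y
  δ_pos : 0 < δ
  F_mer : Mer F (St (-a) y ×ˢ ball ρ₁ δ)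
  K_mer : Mer K (St (-a) y ×ˢ ball ρ₁ δ)
  F_per : ∀ p ∈ St (-a) y ×ˢ ball ρ₁ δ, EqM (fun q => F (q.1 + 1, q.2)) F p
  K_per : ∀ p ∈ St (-a) y ×ˢ ball ρ₁ δ, EqM (fun q => K (q.1 + 1, q.2)) K p
  Φ_per : ∀ j ≤ m, ∀ p ∈ St (-a) a ×ˢ ball ρ₁ δ, EqM (fun q => Φ j (q.1 + 1, q.2)) (Φ j) p
  base : ∀ p ∈ St (-a) a ×ˢ ball ρ₁ δ, SJ m k F K Φ p

variable {m k : ℕ} {F K : ℂ × ℂ → ℂ} {Φ : ℕ → ℂ × ℂ → ℂ} {a y δ : ℝ} {ρ₁ : ℂ}

/-! ### Auxiliary lemmas -/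

private lemma ja_tendsto_line (t ρ : ℂ) : Tendsto (fun s : ℂ => (s, ρ)) (𝓝 t) (𝓝 (t, ρ)) := by
  have : Continuous (fun s : ℂ => (s, ρ)) := by fun_prop
  exact this.tendsto t

private lemma ja_an_line {B : ℂ × ℂ → ℂ} {t ρ : ℂ} (hB : AnalyticAt ℂ B (t, ρ)) :
    AnalyticAt ℂ (fun s : ℂ => B (s, ρ)) t :=
  AnalyticAt.fun_comp (g := B) (f := fun s : ℂ => (s, ρ)) hB (analyticAt_id.prod analyticAt_const)

private lemma ja_nfM {f C : ℂ × ℂ → ℂ} {q : ℂ × ℂ} (hC : AnalyticAt ℂ C q)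
    (h : EqM f C q) : ∀ᶠ x in 𝓝 q, nfM f x = C x := by
  filter_upwards [hC.eventually_analyticAt, h.eventually] with x h1 h2
  exact nfM_eq h1 h2

private lemma ja_sl {f C : ℂ × ℂ → ℂ} {s ρ : ℂ} (hC : AnalyticAt ℂ C (s, ρ))
    (h : EqM f C (s, ρ)) : sl f ρ =ᶠ[𝓝 s] fun x => C (x, ρ) := by
  filter_upwards [(ja_tendsto_line s ρ).eventually (ja_nfM hC h)] with x hx
  exact hx

private lemma ja_deriv_line {C : ℂ × ℂ → ℂ} {t ρ : ℂ} (hC : AnalyticAt ℂ C (t, ρ)) :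
    deriv (fun s => C (s, ρ)) t = fderiv ℂ C (t, ρ) (1, 0) := by
  have h1 : HasFDerivAt C (fderiv ℂ C (t, ρ)) (t, ρ) := hC.differentiableAt.hasFDerivAt
  have h2 : HasDerivAt (fun s : ℂ => (s, ρ)) ((1 : ℂ), (0 : ℂ)) t :=
    (hasDerivAt_id t).prodMk (hasDerivAt_const t ρ)
  have h3 : HasDerivAt (fun s : ℂ => C (s, ρ)) (fderiv ℂ C (t, ρ) (1, 0)) t :=
    HasFDerivAt.comp_hasDerivAt t (f := fun s : ℂ => (s, ρ)) (l := C) h1 h2
  exact h3.deriv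

/-- the value by continuity -/
private lemma ja_lim_mer {φ : ℂ → ℂ} {t : ℂ} (h : MeromorphicAt φ t) :
    ∀ᶠ s in 𝓝[≠] t, limUnder (𝓝[≠] s) φ = φ s := by
  filter_upwards [h.eventually_analyticAt] with s hs
  exact (hs.continuousAt.tendsto.mono_left nhdsWithin_le_nhds).limUnder_eq

private lemma ja_lim_an {φ G : ℂ → ℂ} {t : ℂ} (hG : AnalyticAt ℂ G t)
    (h : ∀ᶠ s in 𝓝[≠] t, φ s = G s) : ∀ᶠ s in 𝓝 t, limUnder (𝓝[≠] s) φ = G s := by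
  rw [eventually_nhdsWithin_iff] at h
  filter_upwards [h.eventually_nhds, hG.eventually_analyticAt] with s hs hGs
  have h1 : ∀ᶠ x in 𝓝[≠] s, φ x = G x := by
    have h2 : ∀ᶠ x in 𝓝[≠] s, x ≠ t := by
      by_cases hst : s = t
      · subst hst
        exact self_mem_nhdsWithin
      · exact (eventually_ne_nhds hst).filter_mono nhdsWithin_le_nhds
    filter_upwards [h2, hs.filter_mono nhdsWithin_le_nhds] with x hx1 hx2
    exact hx2 hx1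
  have h3 : Tendsto φ (𝓝[≠] s) (𝓝 (G s)) :=
    (hGs.continuousAt.tendsto.mono_left nhdsWithin_le_nhds).congr' (h1.mono fun _ h => h.symm)
  exact h3.limUnder_eq

private lemma ja_zero_mem (ha : 0 < a) : (0 : ℂ) ∈ St (-a) a := by
  rw [mem_St]
  simp
  exact ha

/-- the states of the slices -/
theorem SJ.ss {p : ℂ × ℂ} (h : SJ m k F K Φ p) :
    SS m k (sl F p.2) (sl K p.2) (fun j => sl (Φ j) p.2) p.1 := by
  obtain ⟨t, ρ⟩ := p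
  obtain ⟨C, κ, b, hC, hF, hd, hK, hΦ, hst⟩ := h
  have hf : sl F ρ =ᶠ[𝓝 t] fun x => C (x, ρ) := ja_sl hC hF
  have hCl : AnalyticAt ℂ (fun x => C (x, ρ)) t := ja_an_line hC
  have hft : sl F ρ t = C (t, ρ) := hf.self_of_nhds
  have hκ : AnalyticAt ℂ (fun q => κ (C q)) (t, ρ) :=
    AnalyticAt.fun_comp (g := κ) (f := C) hst.good.1 hC
  refine ⟨κ, b, hCl.congr hf.symm, ?_, ?_, ?_, ?_⟩
  · show deriv (sl F ρ) t ≠ 0
    rw [hf.deriv_eq, ja_deriv_line hC]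
    exact hd
  · filter_upwards [hf, ja_sl hκ hK] with x hx1 hx2
    show sl K ρ x = κ (sl F ρ x)
    rw [hx2, hx1]
  · intro j hj
    have haj : AnalyticAt ℂ (fun q => b j (C q)) (t, ρ) :=
      AnalyticAt.fun_comp (g := b j) (f := C) (hst.rl.1 j hj) hC
    filter_upwards [hf, ja_sl haj (hΦ j hj)] with x hx1 hx2
    show sl (Φ j) ρ x = b j (sl F ρ x)
    rw [hx2, hx1]
  · show Stt m k κ b (sl F ρ t)
    rw [hft]
    exact hst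

private lemma ja_base_rgp {p : ℂ × ℂ} (h : SJ m k F K Φ p) : Rgp F K p := by
  obtain ⟨C, κ, b, hC, hF, hd, hK, hΦ, hst⟩ := h
  exact ⟨C, fun q => κ (C q), hC, hF, hd, AnalyticAt.fun_comp (g := κ) (f := C) hst.good.1 hC, hK⟩

theorem JD.sl_mer (h : JD m k F K Φ a y δ ρ₁) {ρ : ℂ} (hρ : ρ ∈ ball ρ₁ δ) {t : ℂ}
    (ht : t ∈ St (-a) y) : SlAt F (t, ρ) ∧ SlAt K (t, ρ) ∧ ∀ᶠ s in 𝓝[≠] t, Rgp F K (s, ρ) := by
  have hVc : IsPreconnected (St (-a) y) := (convex_St _ _).isPreconnected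
  have ha := h.a_pos
  have hay := h.a_le
  have h0 : (0 : ℂ) ∈ St (-a) a := ja_zero_mem ha
  have h0' : (0 : ℂ) ∈ St (-a) y := ⟨h0.1, h0.2.trans_le hay⟩
  obtain ⟨C, H, hC, hF, hd, hH, hK⟩ := ja_base_rgp (h.base (0, ρ) ⟨h0, hρ⟩)
  have hSF : ∀ t ∈ St (-a) y, SlAt F (t, ρ) :=
    slAt_of_mer hVc (fun s hs => h.F_mer (s, ρ) ⟨hs, hρ⟩) h0'
      ((slAt_of_analyticAt hC).congr hF.symm)
  have hSK : ∀ t ∈ St (-a) y, SlAt K (t, ρ) :=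
    slAt_of_mer hVc (fun s hs => h.K_mer (s, ρ) ⟨hs, hρ⟩) h0'
      ((slAt_of_analyticAt hH).congr hK.symm)
  refine ⟨hSF t ht, hSK t ht, ?_⟩
  have hmer : MeromorphicOn (sl F ρ) (St (-a) y) := fun s hs => (hSF s hs).meromorphicAt
  have hmd : MeromorphicOn (deriv (sl F ρ)) (St (-a) y) := fun s hs => (hmer s hs).deriv
  have hf0 : sl F ρ =ᶠ[𝓝 0] fun x => C (x, ρ) := ja_sl hC hF
  have hd0 : deriv (sl F ρ) 0 ≠ 0 := by
    rw [hf0.deriv_eq, ja_deriv_line hC]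
    exact hd
  have hda : AnalyticAt ℂ (deriv (sl F ρ)) 0 := ((ja_an_line hC).congr hf0.symm).deriv
  have hord0 : meromorphicOrderAt (deriv (sl F ρ)) 0 ≠ ⊤ := by
    rw [meromorphicOrderAt_ne_top_iff_eventually_ne_zero hda.meromorphicAt]
    exact (hda.continuousAt.eventually_ne hd0).filter_mono nhdsWithin_le_nhds
  have hord : meromorphicOrderAt (deriv (sl F ρ)) t ≠ ⊤ :=
    hmd.meromorphicOrderAt_ne_top_of_isPreconnected hVc h0' ht hord0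
  rw [meromorphicOrderAt_ne_top_iff_eventually_ne_zero (hmd t ht)] at hord
  filter_upwards [hord, (hSF t ht).germ, (hSK t ht).germ] with s h1 h2 h3
  obtain ⟨C', hC', hF'⟩ := h2
  obtain ⟨H', hH', hK'⟩ := h3
  refine ⟨C', H', hC', hF', ?_, hH', hK'⟩
  rw [← ja_deriv_line hC', ← (ja_sl hC' hF').deriv_eq]
  exact h1

theorem rgp_open {p : ℂ × ℂ} (h : Rgp F K p) : ∀ᶠ q in 𝓝 p, Rgp F K q := by
  obtain ⟨C, H, hC, hF, hd, hH, hK⟩ := h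
  have h1 : ContinuousAt (fun q => fderiv ℂ C q (1, 0)) p := by
    have h2 : AnalyticAt ℂ (fun x => fderiv ℂ C x (1, 0)) p :=
      ((ContinuousLinearMap.apply ℂ ℂ ((1 : ℂ), (0 : ℂ))).analyticAt (fderiv ℂ C p)).comp hC.fderiv
    exact h2.continuousAt
  filter_upwards [hC.eventually_analyticAt, hF.eventually, h1.eventually_ne hd,
    hH.eventually_analyticAt, hK.eventually] with q a1 a2 a3 a4 a5
  exact ⟨C, H, a1, a2, a3, a4, a5⟩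

/-- **the slice continuation is jointly analytic at the regular points** -/
theorem joint_sg (h : JD m k F K Φ a y δ ρ₁) :
    ∃ Ψ : ℕ → ℂ × ℂ → ℂ,
      (∀ j ≤ m, ∀ ρ ∈ ball ρ₁ δ, ∀ t ∈ St (-a) y, MeromorphicAt (fun t => Ψ j (t, ρ)) t) ∧
      (∀ j ≤ m, ∀ p ∈ St (-a) a ×ˢ ball ρ₁ δ, EqM (Ψ j) (Φ j) p) ∧
      ∀ p ∈ St (-a) y ×ˢ ball ρ₁ δ, Rgp F K p → ∀ j ≤ m, AnalyticAt ℂ (Ψ j) p := by
  classical
  have ha := h.a_pos
  have hay := h.a_le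
  have hex : ∀ ρ ∈ ball ρ₁ δ, ∃ φ' : ℕ → ℂ → ℂ,
      (∀ j ≤ m, ∀ t ∈ St (-a) y, MeromorphicAt (φ' j) t) ∧
      (∀ j ≤ m, ∀ t ∈ St (-a) a, φ' j t = sl (Φ j) ρ t) ∧
      ∀ t ∈ St (-a) y, ∀ᶠ s in 𝓝[≠] t, SS m k (sl F ρ) (sl K ρ) φ' s := by
    intro ρ hρ
    refine slice_ext (φ := fun j => sl (Φ j) ρ) ha hay ?_ ?_ ?_ ?_ ?_ ?_
    · intro t ht
      exact (h.sl_mer hρ ht).1.meromorphicAt
    · intro t ht
      exact (h.sl_mer hρ ht).2.1.meromorphicAt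
    · intro t ht
      rw [← labelC_sl_shift]
      exact (sl_congr (h.F_per (t, ρ) ⟨ht, hρ⟩)).self_of_nhds
    · intro t ht
      rw [← labelC_sl_shift]
      exact (sl_congr (h.K_per (t, ρ) ⟨ht, hρ⟩)).self_of_nhds
    · intro j hj t ht
      show sl (Φ j) ρ (t + 1) = sl (Φ j) ρ t
      rw [← labelC_sl_shift]
      exact (sl_congr (h.Φ_per j hj (t, ρ) ⟨ht, hρ⟩)).self_of_nhds
    · intro t ht
      exact (h.base (t, ρ) ⟨ht, hρ⟩).ss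
  choose! φ' hφ1 hφ2 hφ3 using hex
  set Ψ : ℕ → ℂ × ℂ → ℂ := fun j p => limUnder (𝓝[≠] p.1) (φ' p.2 j) with hΨ
  -- the base
  have hbase : ∀ j ≤ m, ∀ p ∈ St (-a) a ×ˢ ball ρ₁ δ,
      AnalyticAt ℂ (Ψ j) p ∧ EqM (Ψ j) (Φ j) p := by
    rintro j hj ⟨t, ρ⟩ ⟨ht, hρ⟩
    obtain ⟨C, κ, b, hC, hF, hd, hK, hΦ, hst⟩ := h.base (t, ρ) ⟨ht, hρ⟩
    have haj : AnalyticAt ℂ (fun q => b j (C q)) (t, ρ) :=
      AnalyticAt.fun_comp (g := b j) (f := C) (hst.rl.1 j hj) hC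
    have hev : Ψ j =ᶠ[𝓝 (t, ρ)] fun q => b j (C q) := by
      have hop : IsOpen (St (-a) a ×ˢ ball ρ₁ δ) := (isOpen_St _ _).prod isOpen_ball
      filter_upwards [haj.eventually_analyticAt, (hΦ j hj).eventually,
        hop.mem_nhds ⟨ht, hρ⟩] with q h1 h2 h3
      obtain ⟨t', ρ'⟩ := q
      show limUnder (𝓝[≠] t') (φ' ρ' j) = b j (C (t', ρ'))
      have h4 : sl (Φ j) ρ' =ᶠ[𝓝 t'] fun x => b j (C (x, ρ')) := ja_sl h1 h2
      have h5 : ∀ᶠ s in 𝓝[≠] t', φ' ρ' j s = b j (C (s, ρ')) := by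
        filter_upwards [h4.filter_mono nhdsWithin_le_nhds,
          nhdsWithin_le_nhds ((isOpen_St _ _).mem_nhds h3.1)] with s hs1 hs2
        rw [hφ2 ρ' h3.2 j hj s hs2, hs1]
      exact (ja_lim_an (ja_an_line h1) h5).self_of_nhds
    exact ⟨haj.congr hev.symm, (EqM.of_eventuallyEq hev).trans (hΦ j hj).symm⟩
  -- the slices at the regular points
  have hslice : ∀ j ≤ m, ∀ t ∈ St (-a) y, ∀ ρ ∈ ball ρ₁ δ, Rgp F K (t, ρ) →
      AnalyticAt ℂ (fun s => Ψ j (s, ρ)) t := by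
    intro j hj t ht ρ hρ hr
    obtain ⟨C, H, hC, hF, hd, hH, hK⟩ := hr
    have hf : sl F ρ =ᶠ[𝓝 t] fun x => C (x, ρ) := ja_sl hC hF
    have hg : sl K ρ =ᶠ[𝓝 t] fun x => H (x, ρ) := ja_sl hH hK
    have hd' : deriv (sl F ρ) t ≠ 0 := by
      rw [hf.deriv_eq, ja_deriv_line hC]
      exact hd
    obtain ⟨φ'', h1, h2⟩ := SS.of_punctured ((ja_an_line hC).congr hf.symm) hd'
      ((ja_an_line hH).congr hg.symm) (hφ3 ρ hρ t ht)
    have h3 : AnalyticAt ℂ (φ'' j) t := h2.an j hj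
    have h4 : ∀ᶠ s in 𝓝 t, limUnder (𝓝[≠] s) (φ' ρ j) = φ'' j s :=
      ja_lim_an h3 ((h1 j hj).mono fun _ h => h.symm)
    refine h3.congr ?_
    filter_upwards [h4] with s hs
    exact hs.symm
  refine ⟨Ψ, ?_, fun j hj p hp => (hbase j hj p hp).2, ?_⟩
  · intro j hj ρ hρ t ht
    refine (hφ1 ρ hρ j hj t ht).congr ?_
    filter_upwards [ja_lim_mer (hφ1 ρ hρ j hj t ht)] with s hs
    exact hs.symm
  -- joint analyticity
  rintro ⟨t', ρ'⟩ ⟨ht', hρ'⟩ hr j hj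
  have hop : IsOpen (St (-a) y ×ˢ ball ρ₁ δ) := (isOpen_St _ _).prod isOpen_ball
  set R : Set ℂ := {t | t ∈ St (-a) y ∧ Rgp F K (t, ρ')} with hR
  have hTo : IsOpen {t : ℂ | AnalyticAt ℂ (Ψ j) (t, ρ')} :=
    (isOpen_analyticAt ℂ (Ψ j)).preimage (f := fun t : ℂ => ((t, ρ') : ℂ × ℂ)) (by fun_prop)
  have hcount : (St (-a) y \ R).Countable := by
    refine Pool.Agent.MP_ae5b4e_an_MERO.CN.countable_of_eventually (D := St (-a) y)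
      sdiff_subset ?_
    intro s hs
    filter_upwards [(h.sl_mer hρ' hs).2.2,
      nhdsWithin_le_nhds ((isOpen_St _ _).mem_nhds hs)] with x hx1 hx2 hx3
    exact hx3.2 ⟨hx2, hx1⟩
  have hReq : St (-a) y \ (St (-a) y \ R) = R := by
    rw [sdiff_sdiff_cancel_left]
    exact fun x hx => hx.1
  have hRpre : IsPreconnected R := by
    rw [← hReq]
    exact Pool.Agent.MP_ae5b4e_an_MERO.isPreconnected_diff (isOpen_St _ _) (convex_St _ _) hcount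
  have hcl : closure {t : ℂ | AnalyticAt ℂ (Ψ j) (t, ρ')} ∩ R ⊆
      {t : ℂ | AnalyticAt ℂ (Ψ j) (t, ρ')} := by
    rintro t₀ ⟨hcl, ht₀, hr₀⟩
    have h1 : ∀ᶠ q in 𝓝 ((t₀, ρ') : ℂ × ℂ), Rgp F K q ∧ q ∈ St (-a) y ×ˢ ball ρ₁ δ :=
      (rgp_open hr₀).and (hop.mem_nhds ⟨ht₀, hρ'⟩)
    obtain ⟨r, hr0, h2⟩ := Metric.eventually_nhds_iff_ball.1 h1
    rw [← ball_prod_same] at h2
    obtain ⟨t₁, ht₁T, ht₁⟩ := Metric.mem_closure_iff.1 hcl (r / 2) (half_pos hr0)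
    obtain ⟨ε, hε, h3⟩ := Metric.eventually_nhds_iff_ball.1
      (ht₁T : AnalyticAt ℂ (Ψ j) (t₁, ρ')).eventually_analyticAt
    rw [← ball_prod_same] at h3
    have hsub : ball t₁ (r / 2) ⊆ ball t₀ r := by
      intro z hz
      rw [mem_ball] at hz ⊢
      have := dist_triangle z t₁ t₀
      rw [dist_comm t₁ t₀] at this
      linarith
    have h4 := joint_disc (G := Ψ j) (W := ball ρ' (min ε r)) isOpen_ball (t₀ := t₁)
      (r₀ := min ε (r / 2)) (r := r / 2) (lt_min hε (half_pos hr0)) (min_le_right _ _)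
      (fun ρ hρ s hs => by
        have h5 := h2 (s, ρ) ⟨hsub hs, ball_subset_ball (min_le_right _ _) hρ⟩
        exact hslice j hj s h5.2.1 ρ h5.2.2 h5.1)
      (fun p hp => h3 p ⟨ball_subset_ball (min_le_left _ _) hp.1,
        ball_subset_ball (min_le_left _ _) hp.2⟩)
    exact h4 (t₀, ρ') ⟨ht₁, mem_ball_self (lt_min hε hr0)⟩
  have h0 : (0 : ℂ) ∈ St (-a) a := ja_zero_mem ha
  have h0' : (0 : ℂ) ∈ St (-a) y := ⟨h0.1, h0.2.trans_le hay⟩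
  have h0R : (0 : ℂ) ∈ R := ⟨h0', ja_base_rgp (h.base (0, ρ') ⟨h0, hρ'⟩)⟩
  have h0T : (0 : ℂ) ∈ {t : ℂ | AnalyticAt ℂ (Ψ j) (t, ρ')} := (hbase j hj (0, ρ') ⟨h0, hρ'⟩).1
  exact hRpre.subset_of_closure_inter_subset hTo ⟨0, h0R, h0T⟩ hcl ⟨ht', hr⟩

end Pool.Agent.MP_ae5b4e_an_NB1B
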