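import Mathlib
import Pool.Agent.Lib.MP_ae5b4e_an_NBT.Mom
import Pool.Agent.Lib.MP_ae5b4e_an_NBT.Elim

/-!
# MP_ae5b4e_an, NB_1: functions with meromorphic slices (Baire)

A function which is analytic near (parameters) x (circle), and whose slices extend
meromorphically to the disc for all parameters outside a countable set, extends meromorphically.
-/

noncomputable section

namespace Pool.Agent.MP_ae5b4e_an_NB1B

open Complex Set Filter Topology Metric
open Pool.Agent.MP_ae5b4e_an_NBT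

/-- a function which is meromorphic near a compact set becomes analytic after multiplication by a
polynomial -/
private lemma exists_poly_mul {K : Set ℂ} (hK : IsCompact K) {u : ℂ → ℂ}
    (hu : ∀ w ∈ K, MeromorphicAt u w) :
    ∃ Q : Polynomial ℂ, Q ≠ 0 ∧ ∀ w ∈ K, AnalyticAt ℂ (fun z => Q.eval z * u z) w := by
  refine hK.induction_on (p := fun S => ∃ Q : Polynomial ℂ, Q ≠ 0 ∧
    ∀ w ∈ S, AnalyticAt ℂ (fun z => Q.eval z * u z) w) ?_ ?_ ?_ ?_
  · exact ⟨1, one_ne_zero, fun w hw => absurd hw (notMem_empty w)⟩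
  · rintro S T hST ⟨Q, hQ, h⟩
    exact ⟨Q, hQ, fun w hw => h w (hST hw)⟩
  · rintro S T ⟨Q, hQ, h⟩ ⟨Q', hQ', h'⟩
    refine ⟨Q * Q', mul_ne_zero hQ hQ', fun w hw => ?_⟩
    have hp : ∀ P : Polynomial ℂ, AnalyticAt ℂ (fun z => P.eval z) w := fun P =>
      P.differentiable.analyticAt w
    rcases hw with hw | hw
    · have h1 := (hp Q').mul (h w hw)
      refine h1.congr (Eventually.of_forall fun z => ?_)
      simp only [Pi.mul_apply, Polynomial.eval_mul]
      ring
    · have h1 := (hp Q).mul (h' w hw)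
      refine h1.congr (Eventually.of_forall fun z => ?_)
      simp only [Pi.mul_apply, Polynomial.eval_mul]
      ring
  · intro w hw
    obtain ⟨n, hn⟩ := hu w hw
    refine ⟨{z | AnalyticAt ℂ (fun z => (z - w) ^ n • u z) z},
      mem_nhdsWithin_of_mem_nhds hn.eventually_analyticAt,
      (Polynomial.X - Polynomial.C w) ^ n, pow_ne_zero n (Polynomial.X_sub_C_ne_zero w),
      fun z hz => ?_⟩
    refine AnalyticAt.congr (f := fun z => (z - w) ^ n • u z) hz
      (Eventually.of_forall fun z => ?_)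
    simp

/-- a function of one variable which is meromorphic on a closed disc and analytic on the circle: its
moments satisfy a recurrence -/
private lemma exists_rec_one {u φ : ℂ → ℂ} {c : ℂ} {r1 : ℝ} (hr : 0 < r1)
    (hu : ∀ w ∈ closedBall c r1, MeromorphicAt u w)
    (hφ : ∀ w ∈ sphere c r1, ContinuousAt φ w)
    (huφ : ∀ w ∈ sphere c r1, u w = φ w) :
    ∃ (N : ℕ) (q : Fin (N + 1) → ℂ), q ≠ 0 ∧
      ∀ n : ℕ, ∑ j, q j * (∮ w in C(c, r1), φ w * (w - c) ^ (n + (j : ℕ))) = 0 := by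
  obtain ⟨Q, hQ, h1⟩ := exists_poly_mul (isCompact_closedBall c r1) hu
  set P := Polynomial.taylor c Q with hP
  have hP0 : P ≠ 0 := by
    intro h
    exact hQ (Polynomial.taylor_injective c (by rw [← hP, h, map_zero]))
  have hPQ : ∀ z, Q.eval z = ∑ j ∈ Finset.range (P.natDegree + 1), P.coeff j * (z - c) ^ j := by
    intro z
    rw [← Polynomial.taylor_eval_sub c Q z, ← hP, Polynomial.eval_eq_sum_range]
  refine ⟨P.natDegree, fun j => P.coeff j, ?_, fun n => ?_⟩
  · intro h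
    have h2 := congrFun h ⟨P.natDegree, Nat.lt_succ_self _⟩
    simp only [Pi.zero_apply] at h2
    exact hP0 (Polynomial.leadingCoeff_eq_zero.1 h2)
  · have h2 : ∮ w in C(c, r1), (Q.eval w * u w) * (w - c) ^ n = 0 := by
      refine Complex.circleIntegral_eq_zero_of_differentiable_on_off_countable hr.le
        countable_empty (fun w hw => ?_) (fun w hw => ?_)
      · exact (((h1 w hw).mul ((analyticAt_id.sub analyticAt_const).pow n)).continuousAt).continuousWithinAt
      · exact ((h1 w (ball_subset_closedBall hw.1)).mul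
          ((analyticAt_id.sub analyticAt_const).pow n)).differentiableAt
    have h3 : ∮ w in C(c, r1), (Q.eval w * u w) * (w - c) ^ n =
        ∮ w in C(c, r1), ∑ j ∈ Finset.range (P.natDegree + 1),
          P.coeff j * (φ w * (w - c) ^ (n + j)) := by
      refine circleIntegral.integral_congr hr.le fun w hw => ?_
      rw [huφ w hw, hPQ w, Finset.sum_mul, Finset.sum_mul]
      refine Finset.sum_congr rfl fun j _ => ?_
      ring
    have h4 : ∀ j, CircleIntegrable (fun w => P.coeff j * (φ w * (w - c) ^ (n + j))) c r1 := by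
      intro j
      refine ContinuousOn.circleIntegrable hr.le fun w hw => ?_
      refine ContinuousAt.continuousWithinAt ?_
      exact continuousAt_const.mul ((hφ w hw).mul
        ((continuousAt_id.sub continuousAt_const).pow (n + j)))
    rw [h3] at h2
    rw [circleIntegral.integral_fun_sum] at h2
    · rw [Finset.sum_range] at h2
      rw [← h2]
      refine Finset.sum_congr rfl fun j _ => ?_
      rw [circleIntegral.integral_const_mul]
    · intro j _
      exact h4 j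

theorem exists_rec_slices {F : ℂ × ℂ → ℂ} {V : Set ℂ} (hV : IsOpen V) (hne : V.Nonempty) {c : ℂ}
    {r1 η : ℝ} (hη : 0 < η) (hr : η < r1)
    (hF : AnalyticOnNhd ℂ F (V ×ˢ Ann c (r1 - η) (r1 + η))) {X : Set ℂ} (hX : X.Countable)
    (hsl : ∀ s ∈ V, s ∉ X → ∃ g : ℂ → ℂ, (∀ w ∈ closedBall c r1, MeromorphicAt g w) ∧
      ∀ w ∈ sphere c r1, g w = F (s, w)) :
    ∃ (N : ℕ) (W : Set ℂ), IsOpen W ∧ W.Nonempty ∧ W ⊆ V ∧ ∀ s ∈ W, ∃ q : Fin (N + 1) → ℂ,
      q ≠ 0 ∧ ∀ n, ∑ j, q j * mom F c r1 (n + j) s = 0 := by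
  classical
  have hr1 : 0 < r1 := hη.trans hr
  -- the recurrence for one parameter
  have key : ∀ s ∈ V, s ∉ X → ∃ (N : ℕ) (q : Fin (N + 1) → ℂ), q ≠ 0 ∧
      ∀ n : ℕ, ∑ j, q j * mom F c r1 (n + (j : ℕ)) s = 0 := by
    intro s hs hsX
    obtain ⟨g, hg, hgF⟩ := hsl s hs hsX
    have hF1 : ∀ w ∈ sphere c r1, AnalyticAt ℂ F (s, w) := by
      intro w hw
      have hw' : dist w c = r1 := hw
      exact hF (s, w) ⟨hs, by constructor <;> rw [hw'] <;> linarith⟩
    have hφ1 : ∀ w ∈ sphere c r1, ContinuousAt (fun w => F (s, w)) w := by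
      intro w hw
      have h5 : ContinuousAt (fun w' : ℂ => ((s, w') : ℂ × ℂ)) w :=
        continuousAt_const.prodMk continuousAt_id
      exact ContinuousAt.comp (g := F) (f := fun w' : ℂ => ((s, w') : ℂ × ℂ))
          (hF1 w hw).continuousAt h5
    obtain ⟨N, q, hq, h⟩ := exists_rec_one (u := g) (φ := fun w => F (s, w)) (c := c) (r1 := r1)
      hr1 hg hφ1 hgF
    refine ⟨N, q, hq, fun n => ?_⟩
    have h1 := h n
    have h3 : ∀ j : Fin (N + 1), (∮ w in C(c, r1), F (s, w) * (w - c) ^ (n + (j : ℕ))) =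
        (2 * Real.pi * I) * mom F c r1 (n + (j : ℕ)) s := by
      intro j
      unfold mom
      rw [smul_eq_mul]
      have h5 : (2 * Real.pi * I : ℂ) ≠ 0 := Complex.two_pi_I_ne_zero
      field_simp
    simp only [h3] at h1
    have h4 : ∑ j, q j * ((2 * Real.pi * I) * mom F c r1 (n + (j : ℕ)) s) =
        (2 * Real.pi * I) * ∑ j, q j * mom F c r1 (n + (j : ℕ)) s := by
      rw [Finset.mul_sum]
      refine Finset.sum_congr rfl fun j _ => ?_
      ring
    rw [h4] at h1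
    exact (mul_eq_zero.1 h1).resolve_left Complex.two_pi_I_ne_zero
  -- the moments are continuous
  have hmom : ∀ n, ContinuousOn (mom F c r1 n) V := by
    intro n s hs
    obtain ⟨ε, hε, hεV⟩ := Metric.isOpen_iff.1 hV s hs
    have h1 := mom_an (F := F) (s₀ := s) (δ := ε) hη hr
      (hF.mono (prod_mono hεV (Subset.refl _))) n
    exact (h1 s (mem_ball_self hε)).continuousAt.continuousWithinAt
  -- Baire
  have : LocallyCompactSpace V := hV.locallyCompactSpace
  have : Nonempty V := hne.to_subtype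
  have : Countable X := hX.to_subtype
  let E : ℕ → Set V := fun N => {s | ∃ q : Fin (N + 1) → ℂ,
      q ≠ 0 ∧ ∀ n : ℕ, ∑ j, q j * mom F c r1 (n + (j : ℕ)) s = 0}
  have hE : ∀ N, IsClosed (E N) := by
    intro N
    let Z : Set (V × sphere (0 : Fin (N + 1) → ℂ) 1) :=
      ⋂ n : ℕ, {p | ∑ j, (p.2 : Fin (N + 1) → ℂ) j * mom F c r1 (n + (j : ℕ)) (p.1 : ℂ) = 0}
    have hZ : IsClosed Z := by
      refine isClosed_iInter fun n => isClosed_eq ?_ continuous_const
      refine continuous_finsetSum _ fun j _ => ?_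
      have h1 : Continuous fun s : V => mom F c r1 (n + (j : ℕ)) (s : ℂ) :=
        (hmom (n + (j : ℕ))).domRestrict
      have h2 : Continuous fun p : V × sphere (0 : Fin (N + 1) → ℂ) 1 =>
          (p.2 : Fin (N + 1) → ℂ) j :=
        (continuous_apply j).comp (continuous_subtype_val.comp continuous_snd)
      exact h2.mul (h1.comp continuous_fst)
    have hEZ : E N = Prod.fst '' Z := by
      ext s
      constructor
      · rintro ⟨q, hq, h⟩
        have hq0 : ‖q‖ ≠ 0 := norm_ne_zero_iff.2 hq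
        refine ⟨(s, ⟨(((‖q‖⁻¹ : ℝ) : ℂ)) • q, ?_⟩), ?_, rfl⟩
        · rw [mem_sphere_zero_iff_norm, norm_smul, Complex.norm_real, norm_inv, norm_norm,
            inv_mul_cancel₀ hq0]
        · refine mem_iInter.2 fun n => ?_
          change ∑ j, ((((‖q‖⁻¹ : ℝ) : ℂ)) • q) j * mom F c r1 (n + (j : ℕ)) (s : ℂ) = 0
          have h1 : ∑ j, ((((‖q‖⁻¹ : ℝ) : ℂ)) • q) j * mom F c r1 (n + (j : ℕ)) (s : ℂ) =
              ((‖q‖⁻¹ : ℝ) : ℂ) * ∑ j, q j * mom F c r1 (n + (j : ℕ)) (s : ℂ) := by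
            rw [Finset.mul_sum]
            refine Finset.sum_congr rfl fun j _ => ?_
            rw [Pi.smul_apply, smul_eq_mul]
            ring
          rw [h1, h n, mul_zero]
      · rintro ⟨⟨s', q⟩, hp, rfl⟩
        refine ⟨q, ?_, fun n => mem_iInter.1 hp n⟩
        intro h
        have h1 : ‖(q : Fin (N + 1) → ℂ)‖ = 1 := mem_sphere_zero_iff_norm.1 q.2
        rw [h, norm_zero] at h1
        exact zero_ne_one h1
    rw [hEZ]
    exact isClosedMap_fst_of_compactSpace _ hZ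
  let T : ℕ ⊕ X → Set V := Sum.elim E (fun x => {s : V | (s : ℂ) = x})
  have hT : ∀ i, IsClosed (T i) := by
    rintro (N | x)
    · exact hE N
    · exact isClosed_eq continuous_subtype_val continuous_const
  have hTU : ⋃ i, T i = univ := by
    refine eq_univ_of_forall fun s => ?_
    by_cases hs : (s : ℂ) ∈ X
    · exact mem_iUnion.2 ⟨Sum.inr ⟨s, hs⟩, rfl⟩
    · obtain ⟨N, q, hq, h⟩ := key s s.2 hs
      exact mem_iUnion.2 ⟨Sum.inl N, q, hq, h⟩
  obtain ⟨i, hi⟩ := nonempty_interior_of_iUnion_of_closed hT hTU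
  rcases i with N | x
  · refine ⟨N, Subtype.val '' interior (E N), hV.isOpenMap_subtype_val _ isOpen_interior,
      hi.image _, ?_, ?_⟩
    · rintro _ ⟨s, -, rfl⟩
      exact s.2
    · rintro _ ⟨s, hs, rfl⟩
      have h1 : s ∈ E N := interior_subset hs
      exact h1
  · exfalso
    obtain ⟨s, hs⟩ := hi
    have h1 : IsOpen (Subtype.val '' interior {s : V | (s : ℂ) = x}) :=
      hV.isOpenMap_subtype_val _ isOpen_interior
    have h2 : (s : ℂ) ∈ Subtype.val '' interior {s : V | (s : ℂ) = x} := ⟨s, hs, rfl⟩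
    have h3 := infinite_of_mem_nhds (s : ℂ) (h1.mem_nhds h2)
    apply h3
    refine (finite_singleton (x : ℂ)).subset ?_
    rintro _ ⟨y, hy, rfl⟩
    have h4 : y ∈ {s : V | (s : ℂ) = x} := interior_subset hy
    exact h4

/-- the polynomial in `w` with the coefficients `q j s` -/
private def levQ {N : ℕ} (q : Fin (N + 1) → ℂ → ℂ) (c : ℂ) (p : ℂ × ℂ) : ℂ :=
  ∑ j, q j p.1 * (p.2 - c) ^ (j : ℕ)

private lemma levQ_an {N : ℕ} {q : Fin (N + 1) → ℂ → ℂ} {D : Set ℂ}
    (hq : ∀ j, AnalyticOnNhd ℂ (q j) D) (c : ℂ) {p : ℂ × ℂ} (hp : p.1 ∈ D) :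
    AnalyticAt ℂ (levQ q c) p := by
  unfold levQ
  refine Finset.analyticAt_fun_sum _ fun j _ => ?_
  refine AnalyticAt.mul ?_ ((analyticAt_snd.sub analyticAt_const).pow _)
  exact AnalyticAt.fun_comp (g := q j) (f := fun p : ℂ × ℂ => p.1) (hq j _ hp) analyticAt_fst

/-- a polynomial which vanishes near a point has zero coefficients -/
private lemma lev_poly {N : ℕ} {a : Fin (N + 1) → ℂ} {c w₁ : ℂ}
    (h : ∀ᶠ w in 𝓝 w₁, ∑ j, a j * (w - c) ^ (j : ℕ) = 0) : ∀ j, a j = 0 := by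
  classical
  set P : Polynomial ℂ := ∑ j : Fin (N + 1), Polynomial.C (a j) * Polynomial.X ^ (j : ℕ) with hP
  have hev : ∀ x : ℂ, P.eval x = ∑ j, a j * x ^ (j : ℕ) := by
    intro x
    rw [hP, Polynomial.eval_finsetSum]
    simp
  have h1 : {x : ℂ | P.IsRoot x}.Infinite := by
    have h2 : {w : ℂ | ∑ j, a j * (w - c) ^ (j : ℕ) = 0}.Infinite := infinite_of_mem_nhds w₁ h
    have h3 := h2.image (f := fun w => w - c) (fun x _ y _ hxy => by simpa using hxy)
    refine h3.mono ?_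
    rintro _ ⟨w, hw, rfl⟩
    change P.eval (w - c) = 0
    rw [hev]
    exact hw
  have h2 : P = 0 := Polynomial.eq_zero_of_infinite_isRoot P h1
  intro j
  have h3 : P.coeff (j : ℕ) = a j := by
    rw [hP, Polynomial.finsetSum_coeff]
    simp only [Polynomial.coeff_C_mul, Polynomial.coeff_X_pow]
    rw [Finset.sum_eq_single j]
    · simp
    · intro i _ hij
      rw [if_neg (fun h4 => hij (Fin.ext h4.symm)), mul_zero]
    · simp
  rw [← h3, h2, Polynomial.coeff_zero]

private lemma levQ_den {N : ℕ} {q : Fin (N + 1) → ℂ → ℂ} {D : Set ℂ} (hDc : IsPreconnected D)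
    (hq : ∀ j, AnalyticOnNhd ℂ (q j) D) (hne : ∃ j, ∃ s ∈ D, q j s ≠ 0) (c : ℂ) {p : ℂ × ℂ}
    (hp : p.1 ∈ D) : Den (levQ q c) p := by
  refine ⟨levQ_an hq c hp, fun h => ?_⟩
  obtain ⟨j, s, hs, h0⟩ := hne
  apply h0
  obtain ⟨s₁, w₁⟩ := p
  have h1 : ∀ᶠ s in 𝓝 s₁, ∀ᶠ w in 𝓝 w₁, levQ q c (s, w) = 0 := by
    rw [nhds_prod_eq] at h
    exact h.curry
  have h2 : q j =ᶠ[𝓝 s₁] 0 := by
    filter_upwards [h1] with x hx
    exact lev_poly (a := fun j => q j x) hx j
  exact (hq j).eqOn_zero_of_preconnected_of_eventuallyEq_zero hDc hp h2 hs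

/-- the moments of the product with a polynomial -/
private lemma mom_levQ {N : ℕ} {q : Fin (N + 1) → ℂ → ℂ} {F : ℂ × ℂ → ℂ} {c s : ℂ} {r1 : ℝ}
    (hr : 0 ≤ r1) (hF : ContinuousOn (fun w => F (s, w)) (sphere c r1)) (n : ℕ) :
    mom (fun p => levQ q c p * F p) c r1 n s = ∑ j, q j s * mom F c r1 (n + j) s := by
  unfold mom levQ
  have h1 : ∀ w, (∑ j, q j s * (w - c) ^ (j : ℕ)) * F (s, w) * (w - c) ^ n =
      ∑ j, q j s * (F (s, w) * (w - c) ^ (n + (j : ℕ))) := by
    intro w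
    rw [Finset.sum_mul, Finset.sum_mul]
    refine Finset.sum_congr rfl fun j _ => ?_
    rw [pow_add]
    ring
  simp only [h1]
  rw [circleIntegral.integral_fun_sum]
  · rw [Finset.smul_sum]
    refine Finset.sum_congr rfl fun j _ => ?_
    rw [circleIntegral.integral_const_mul, smul_eq_mul, smul_eq_mul]
    ring
  · intro j _
    apply ContinuousOn.circleIntegrable hr
    refine continuousOn_const.mul (hF.mul ?_)
    fun_prop

/-- **the slice lemma**, the disc variable is the second one -/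
theorem mer_of_slices {F : ℂ × ℂ → ℂ} {s₀ c : ℂ} {δ r1 η : ℝ} (hδ : 0 < δ) (hη : 0 < η)
    (hr : η < r1) (hF : AnalyticOnNhd ℂ F (ball s₀ δ ×ˢ Ann c (r1 - η) (r1 + η))) {X : Set ℂ}
    (hX : X.Countable)
    (hsl : ∀ s ∈ ball s₀ δ, s ∉ X → ∃ g : ℂ → ℂ, (∀ w ∈ closedBall c r1, MeromorphicAt g w) ∧
      ∀ w ∈ sphere c r1, g w = F (s, w)) :
    ∃ G : ℂ × ℂ → ℂ, Mer G (ball s₀ δ ×ˢ ball c (r1 + η)) ∧
      ∀ p ∈ ball s₀ δ ×ˢ Ann c (r1 - η) (r1 + η), EqM G F p := by
  have hr10 : 0 < r1 := hη.trans hr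
  set D : Set ℂ := ball s₀ δ with hD
  have hDo : IsOpen D := isOpen_ball
  have hDc : IsPreconnected D := (convex_ball s₀ δ).isPreconnected
  obtain ⟨N, W, hWo, hWne, hWV, hrec⟩ := exists_rec_slices hDo ⟨s₀, mem_ball_self hδ⟩ hη hr hF hX
    hsl
  obtain ⟨q, hqa, hqne, hq0⟩ := exists_analytic_rec (c := mom F c r1) hDo hDc
    (fun n => mom_an hη hr hF n) hWo hWne hWV hrec
  have hF2 : AnalyticOnNhd ℂ (fun p => levQ q c p * F p)
      (D ×ˢ Ann c (r1 - η) (r1 + η)) := fun p hp => (levQ_an hqa c hp.1).mul (hF p hp)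
  have hm0 : ∀ n, ∀ s ∈ D, mom (fun p => levQ q c p * F p) c r1 n s = 0 := by
    intro n s hs
    rw [mom_levQ hr10.le ?_ n]
    · exact hq0 s hs n
    · intro w hw
      have h1 : w ∈ Ann c (r1 - η) (r1 + η) := by
        rw [mem_sphere] at hw
        exact ⟨by rw [hw]; linarith, by rw [hw]; linarith⟩
      have h2 : ContinuousAt F (s, w) := (hF (s, w) ⟨hs, h1⟩).continuousAt
      have h3 : ContinuousAt (fun w => F (s, w)) w :=
        ContinuousAt.comp (f := fun w : ℂ => (s, w)) (g := F) h2 (by fun_prop)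
      exact h3.continuousWithinAt
  obtain ⟨G, hGa, hG⟩ := exists_of_mom hη hr hF2 hm0
  have hQd : ∀ p : ℂ × ℂ, p.1 ∈ D → Den (levQ q c) p := fun p hp => levQ_den hDc hqa hqne c hp
  refine ⟨fun x => G x / levQ q c x, fun p hp => ?_, fun p hp => ?_⟩
  · exact ⟨G, _, hGa p hp, hQd p hp.1, Eventually.of_forall fun x _ => rfl⟩
  · refine ⟨_, hQd p hp.1, ?_⟩
    have hAo : IsOpen (D ×ˢ Ann c (r1 - η) (r1 + η)) := hDo.prod
      ((isOpen_lt continuous_const (continuous_id.dist continuous_const)).inter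
        (isOpen_lt (continuous_id.dist continuous_const) continuous_const))
    filter_upwards [hAo.mem_nhds hp] with x hx hx0
    rw [hG x hx, mul_div_cancel_left₀ _ hx0]

/-- **the slice lemma**, the disc variable is the first one -/
theorem mer_of_slices' {F : ℂ × ℂ → ℂ} {s₀ c : ℂ} {δ r1 η : ℝ} (hδ : 0 < δ) (hη : 0 < η)
    (hr : η < r1) (hF : AnalyticOnNhd ℂ F (Ann c (r1 - η) (r1 + η) ×ˢ ball s₀ δ)) {X : Set ℂ}
    (hX : X.Countable)
    (hsl : ∀ s ∈ ball s₀ δ, s ∉ X → ∃ g : ℂ → ℂ, (∀ w ∈ closedBall c r1, MeromorphicAt g w) ∧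
      ∀ w ∈ sphere c r1, g w = F (w, s)) :
    ∃ G : ℂ × ℂ → ℂ, Mer G (ball c (r1 + η) ×ˢ ball s₀ δ) ∧
      ∀ p ∈ Ann c (r1 - η) (r1 + η) ×ˢ ball s₀ δ, EqM G F p := by
  let e : (ℂ × ℂ) ≃ₜ (ℂ × ℂ) := Homeomorph.prodComm ℂ ℂ
  have hea : ∀ p : ℂ × ℂ, AnalyticAt ℂ e p := by
    intro p
    have h1 : AnalyticAt ℂ (fun p : ℂ × ℂ => (p.2, p.1)) p := analyticAt_snd.prod analyticAt_fst
    exact h1
  obtain ⟨G, hG, hGF⟩ := mer_of_slices (F := fun q => F (q.2, q.1)) hδ hη hr
    (fun p hp => AnalyticAt.fun_comp (g := F) (f := fun q : ℂ × ℂ => (q.2, q.1))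
      (hF (p.2, p.1) ⟨hp.2, hp.1⟩) (analyticAt_snd.prod analyticAt_fst)) hX hsl
  refine ⟨fun q => G (q.2, q.1), fun p hp => ?_, fun p hp => ?_⟩
  · exact MerAt.comp e (hea p) (hG (p.2, p.1) ⟨hp.2, hp.1⟩)
  · exact EqM.comp e (hea p) (hGF (p.2, p.1) ⟨hp.2, hp.1⟩)

end Pool.Agent.MP_ae5b4e_an_NB1B
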