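import Pool.Agent.Lib.MP_ae5b4e_an_NB1B.JoA
import Pool.Agent.Lib.MP_ae5b4e_an_NB1B.SliceB

/-!
# MP_ae5b4e_an, NB_1 section 3: the distinguished relation is meromorphic where `F`, `K` are
-/

noncomputable section

namespace Pool.Agent.MP_ae5b4e_an_NB1B

open Complex Set Filter Topology Metric
open Pool.Agent.MP_ae5b4e_an_NBT

variable {m k : ℕ} {F K : ℂ × ℂ → ℂ} {Φ : ℕ → ℂ × ℂ → ℂ} {a y δ : ℝ} {ρ₁ : ℂ}

private lemma joB_line (t ρ : ℂ) : Tendsto (fun s : ℂ => (s, ρ)) (𝓝 t) (𝓝 (t, ρ)) := by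
  have : Continuous (fun s : ℂ => (s, ρ)) := by fun_prop
  exact this.tendsto t

private lemma joB_an_line {B : ℂ × ℂ → ℂ} {t ρ : ℂ} (hB : AnalyticAt ℂ B (t, ρ)) :
    AnalyticAt ℂ (fun s : ℂ => B (s, ρ)) t :=
  AnalyticAt.fun_comp (g := B) (f := fun s : ℂ => (s, ρ)) hB (analyticAt_id.prod analyticAt_const)

private lemma joB_deriv_line {C : ℂ × ℂ → ℂ} {q : ℂ × ℂ} (hC : AnalyticAt ℂ C q) :
    deriv (fun s => C (s, q.2)) q.1 = fderiv ℂ C q (1, 0) := by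
  have h1 : HasFDerivAt C (fderiv ℂ C q) q := hC.differentiableAt.hasFDerivAt
  have h2 : HasDerivAt (fun s : ℂ => (s, q.2)) ((1 : ℂ), (0 : ℂ)) q.1 :=
    (hasDerivAt_id q.1).prodMk (hasDerivAt_const q.1 q.2)
  have h3 : HasDerivAt (fun s : ℂ => C (s, q.2)) (fderiv ℂ C q (1, 0)) q.1 :=
    HasFDerivAt.comp_hasDerivAt q.1 (f := fun s : ℂ => (s, q.2)) (l := C) h1 h2
  exact h3.deriv

private lemma joB_an_dt {C : ℂ × ℂ → ℂ} {q : ℂ × ℂ} (hC : AnalyticAt ℂ C q) :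
    AnalyticAt ℂ (fun x => fderiv ℂ C x (1, 0)) q :=
  ((ContinuousLinearMap.apply ℂ ℂ ((1 : ℂ), (0 : ℂ))).analyticAt (fderiv ℂ C q)).comp hC.fderiv

private lemma joB_quot {A B : ℂ × ℂ → ℂ} {q : ℂ × ℂ} (hA : AnalyticAt ℂ A q)
    (hB : AnalyticAt ℂ B q) (h0 : B q ≠ 0) :
    fderiv ℂ (fun y => A y / B y) q (1, 0) =
      (fderiv ℂ A q (1, 0) * B q - A q * fderiv ℂ B q (1, 0)) / (B q * B q) := by
  have hq : AnalyticAt ℂ (fun y => A y / B y) q := hA.div hB h0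
  rw [← joB_deriv_line hq, ← joB_deriv_line hA, ← joB_deriv_line hB]
  have h1 : DifferentiableAt ℂ (fun s => A (s, q.2)) q.1 :=
    (joB_an_line (t := q.1) (ρ := q.2) hA).differentiableAt
  have h2 : DifferentiableAt ℂ (fun s => B (s, q.2)) q.1 :=
    (joB_an_line (t := q.1) (ρ := q.2) hB).differentiableAt
  have h3 := (h1.hasDerivAt.div h2.hasDerivAt h0).deriv
  have h4 : deriv (fun s => A (s, q.2) / B (s, q.2)) q.1 =
      (deriv (fun s => A (s, q.2)) q.1 * B (q.1, q.2) -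
        A (q.1, q.2) * deriv (fun s => B (s, q.2)) q.1) / B (q.1, q.2) ^ 2 := h3
  rw [h4, pow_two]

private lemma joB_open (a y δ : ℝ) (ρ₁ : ℂ) : IsOpen (St (-a) y ×ˢ ball ρ₁ δ) :=
  (isOpen_St _ _).prod isOpen_ball

/-- the irregular points are contained in the zeros of a denominator -/
theorem exists_den_rgp (h : JD m k F K Φ a y δ ρ₁) {p : ℂ × ℂ}
    (hp : p ∈ St (-a) y ×ˢ ball ρ₁ δ) :
    ∃ B : ℂ × ℂ → ℂ, Den B p ∧ ∀ᶠ q in 𝓝 p, B q ≠ 0 → Rgp F K q := by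
  obtain ⟨A, B, hA, hB, hF⟩ := h.F_mer p hp
  obtain ⟨A2, B2, hA2, hB2, hK⟩ := h.K_mer p hp
  have hNan : AnalyticAt ℂ
      (fun q => fderiv ℂ A q (1, 0) * B q - A q * fderiv ℂ B q (1, 0)) p :=
    ((joB_an_dt hA).mul hB.an).sub (hA.mul (joB_an_dt hB.an))
  have hN : Den (fun q => fderiv ℂ A q (1, 0) * B q - A q * fderiv ℂ B q (1, 0)) p := by
    refine ⟨hNan, fun h0 => ?_⟩
    have hev : ∀ᶠ q in 𝓝 p, (fderiv ℂ A q (1, 0) * B q - A q * fderiv ℂ B q (1, 0) = 0) ∧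
        (∀ᶠ x in 𝓝 q, B x ≠ 0 → F x = A x / B x) ∧ AnalyticAt ℂ A q ∧ Den B q ∧
        q ∈ St (-a) y ×ˢ ball ρ₁ δ := by
      filter_upwards [h0, hF.eventually_nhds, hA.eventually_analyticAt, hB.eventually,
        (joB_open a y δ ρ₁).mem_nhds hp] with q h1 h2 h3 h4 h5
      exact ⟨h1, h2, h3, h4, h5⟩
    obtain ⟨q0, hq0, hq1, hq1'⟩ := (hB.freq.and_eventually
      (hev.eventually_nhds.and hev)).exists
    obtain ⟨-, -, -, hBq, hqD⟩ := hq1'
    obtain ⟨-, -, hreg⟩ := h.sl_mer (ρ := q0.2) hqD.2 (t := q0.1) hqD.1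
    have hq1l : ∀ᶠ s in 𝓝 q0.1, (fderiv ℂ A (s, q0.2) (1, 0) * B (s, q0.2) -
        A (s, q0.2) * fderiv ℂ B (s, q0.2) (1, 0) = 0) ∧
        (∀ᶠ x in 𝓝 (s, q0.2), B x ≠ 0 → F x = A x / B x) ∧ AnalyticAt ℂ A (s, q0.2) ∧
        Den B (s, q0.2) ∧ (s, q0.2) ∈ St (-a) y ×ˢ ball ρ₁ δ :=
      (joB_line q0.1 q0.2).eventually hq1
    have hB0 : ∀ᶠ s in 𝓝 q0.1, B (s, q0.2) ≠ 0 :=
      (joB_line q0.1 q0.2).eventually (hBq.an.continuousAt.eventually_ne hq0)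
    obtain ⟨s, hs1, hs2, hs3⟩ :=
      (hreg.and ((hq1l.and hB0).filter_mono nhdsWithin_le_nhds)).exists
    obtain ⟨hs4, hs5, hs6, hs7, -⟩ := hs2
    obtain ⟨C, H, hC, hFC, hC0, -, -⟩ := hs1
    have hqan : AnalyticAt ℂ (fun x => A x / B x) (s, q0.2) := hs6.div hs7.an hs3
    have hE : EqM F (fun x => A x / B x) (s, q0.2) := ⟨B, hs7, hs5⟩
    have hCe : C =ᶠ[𝓝 (s, q0.2)] fun x => A x / B x :=
      (hFC.symm.trans hE).eventuallyEq hC hqan
    apply hC0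
    rw [hCe.fderiv_eq, joB_quot hs6 hs7.an hs3, hs4, zero_div]
  refine ⟨_, (hB.mul hB2).mul hN, ?_⟩
  filter_upwards [hF.eventually_nhds, hK.eventually_nhds, hA.eventually_analyticAt,
    hA2.eventually_analyticAt, hB.eventually, hB2.eventually] with q h1 h2 h3 h4 h5 h6 h7
  have hN0 := right_ne_zero_of_mul h7
  have hBq := left_ne_zero_of_mul (left_ne_zero_of_mul h7)
  have hB2q := right_ne_zero_of_mul (left_ne_zero_of_mul h7)
  refine ⟨fun x => A x / B x, fun x => A2 x / B2 x, h3.div h5.an hBq, ⟨B, h5, h1⟩, ?_,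
    h4.div h6.an hB2q, ⟨B2, h6, h2⟩⟩
  rw [joB_quot h3 h5.an hBq]
  exact div_ne_zero hN0 (mul_ne_zero hBq hBq)

/-- a meromorphic function and a function with meromorphic slices which agree on an annulus agree
at the points where both are analytic -/
private lemma joB_agree {G P : ℂ × ℂ → ℂ} {c ρ t : ℂ} {r r' : ℝ} (hr : 0 ≤ r) (hrr : r < r')
    (hG : ∀ s ∈ ball c r', MerAt G (s, ρ))
    (hP : ∀ s ∈ ball c r', MeromorphicAt (fun s => P (s, ρ)) s)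
    (hA : ∀ s ∈ Ann c r r', AnalyticAt ℂ P (s, ρ) ∧ EqM G P (s, ρ)) (ht : t ∈ ball c r')
    (hGt : AnalyticAt ℂ G (t, ρ)) (hPt : AnalyticAt ℂ P (t, ρ)) : G (t, ρ) = P (t, ρ) := by
  have hopen : IsOpen (Ann c r r') :=
    (isOpen_lt continuous_const (continuous_id.dist continuous_const)).inter
      (isOpen_lt (continuous_id.dist continuous_const) continuous_const)
  -- a point of the annulus
  obtain ⟨s0, hs0⟩ : ∃ s0, s0 ∈ Ann c r r' := by
    refine ⟨c + (((r + r') / 2 : ℝ) : ℂ), ?_⟩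
    have h1 : dist (c + (((r + r') / 2 : ℝ) : ℂ)) c = (r + r') / 2 := by
      rw [dist_eq_norm, add_sub_cancel_left, Complex.norm_real, Real.norm_eq_abs,
        abs_of_nonneg (by linarith)]
    refine ⟨?_, ?_⟩
    · rw [h1]
      linarith
    · rw [h1]
      linarith
  have hs0b : s0 ∈ ball c r' := mem_ball.2 hs0.2
  have hpre : IsPreconnected (ball c r') := (convex_ball c r').isPreconnected
  have hsl := slAt_of_mer (f := G) (ρ := ρ) hpre hG hs0b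
    ((slAt_of_analyticAt (hA s0 hs0).1).congr (hA s0 hs0).2.symm)
  have hmer : MeromorphicOn (fun s => sl G ρ s - P (s, ρ)) (ball c r') :=
    fun s hs => ((hsl s hs).meromorphicAt).sub (hP s hs)
  have hzero : ∀ᶠ s in 𝓝[≠] s0, sl G ρ s - P (s, ρ) = 0 := by
    filter_upwards [mem_nhdsWithin_of_mem_nhds (hopen.mem_nhds hs0)] with s hs
    have h1 : sl G ρ s = P (s, ρ) := nfM_eq (hA s hs).1 (hA s hs).2
    rw [h1, sub_self]
  have htop : meromorphicOrderAt (fun s => sl G ρ s - P (s, ρ)) t = ⊤ := by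
    by_contra hne
    exact hmer.meromorphicOrderAt_ne_top_of_isPreconnected hpre ht hs0b hne
      (meromorphicOrderAt_eq_top_iff.2 hzero)
  have h1 := meromorphicOrderAt_eq_top_iff.1 htop
  have h2 : ∀ᶠ s in 𝓝 t, sl G ρ s = G (s, ρ) := by
    filter_upwards [(joB_line t ρ).eventually hGt.eventually_analyticAt] with s hs
    exact sl_of_analyticAt hs
  have h3 : ∀ᶠ s in 𝓝[≠] t, G (s, ρ) = P (s, ρ) := by
    filter_upwards [h1, h2.filter_mono nhdsWithin_le_nhds] with s hs1 hs2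
    rw [← hs2]
    exact sub_eq_zero.1 hs1
  have h4 : ∀ᶠ s in 𝓝 t, G (s, ρ) = P (s, ρ) := by
    have h5 : AnalyticAt ℂ (fun s => G (s, ρ)) t := joB_an_line hGt
    have h6 : AnalyticAt ℂ (fun s => P (s, ρ)) t := joB_an_line hPt
    exact (AnalyticAt.frequently_eq_iff_eventually_eq h5 h6).1 h3.frequently
  exact h4.self_of_nhds

/-- **the distinguished relation is meromorphic where `F` and `K` are meromorphic** -/
theorem joint_ext (h : JD m k F K Φ a y δ ρ₁) :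
    ∃ Ψ : ℕ → ℂ × ℂ → ℂ, (∀ j ≤ m, Mer (Ψ j) (St (-a) y ×ˢ ball ρ₁ δ)) ∧
      ∀ j ≤ m, ∀ p ∈ St (-a) a ×ˢ ball ρ₁ δ, EqM (Ψ j) (Φ j) p := by
  obtain ⟨Ψ, hΨ1, hΨ2, hΨ3⟩ := joint_sg h
  refine ⟨Ψ, fun j hj p hp => ?_, hΨ2⟩
  obtain ⟨t1, ρs⟩ := p
  have ht1 : t1 ∈ St (-a) y := hp.1
  have hρs : ρs ∈ ball ρ₁ δ := hp.2
  -- the radii
  obtain ⟨-, -, hreg⟩ := h.sl_mer hρs ht1
  have hev : ∀ᶠ s in 𝓝 t1, (s ≠ t1 → Rgp F K (s, ρs)) ∧ s ∈ St (-a) y := by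
    rw [eventually_nhdsWithin_iff] at hreg
    filter_upwards [hreg, (isOpen_St (-a) y).mem_nhds ht1] with s h1 h2
    exact ⟨h1, h2⟩
  obtain ⟨r, hr, hball⟩ := Metric.eventually_nhds_iff_ball.1 hev
  -- the parameters
  have hKc : IsCompact {s : ℂ | r / 4 ≤ dist s t1 ∧ dist s t1 ≤ 3 * r / 4} := by
    refine Metric.isCompact_of_isClosed_isBounded ?_ ?_
    · exact (isClosed_le continuous_const (continuous_id.dist continuous_const)).inter
        (isClosed_le (continuous_id.dist continuous_const) continuous_const)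
    · exact (Metric.isBounded_closedBall (x := t1) (r := 3 * r / 4)).subset
        fun s hs => mem_closedBall.2 hs.2
  have htube : ∀ᶠ ρ in 𝓝 ρs, ∀ s ∈ {s : ℂ | r / 4 ≤ dist s t1 ∧ dist s t1 ≤ 3 * r / 4},
      Rgp F K (s, ρ) := by
    refine hKc.eventually_forall_of_forall_eventually (P := fun ρ s => Rgp F K (s, ρ)) ?_
    intro s hs
    have hne : s ≠ t1 := by
      rintro rfl
      have h1 := hs.1
      rw [dist_self] at h1
      linarith
    have hsb : s ∈ ball t1 r := mem_ball.2 (by linarith [hs.2])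
    have h1 := rgp_open ((hball s hsb).1 hne)
    have hsw : Tendsto (fun z : ℂ × ℂ => (z.2, z.1)) (𝓝 (ρs, s)) (𝓝 (s, ρs)) := by
      have : Continuous (fun z : ℂ × ℂ => (z.2, z.1)) := by fun_prop
      exact this.tendsto _
    exact hsw.eventually h1
  obtain ⟨δ', hδ', hδb⟩ := Metric.eventually_nhds_iff_ball.1
    (htube.and (isOpen_ball.mem_nhds hρs))
  have e1 : r / 2 - r / 4 = r / 4 := by ring
  have e2 : r / 2 + r / 4 = 3 * r / 4 := by ring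
  have hann : ∀ s ∈ Ann t1 (r / 2 - r / 4) (r / 2 + r / 4), ∀ ρ ∈ ball ρs δ',
      AnalyticAt ℂ (Ψ j) (s, ρ) := by
    intro s hs ρ hρ
    obtain ⟨hs1, hs2⟩ := hs
    rw [e1] at hs1
    rw [e2] at hs2
    refine hΨ3 (s, ρ) ⟨(hball s (mem_ball.2 (by linarith))).2, (hδb ρ hρ).2⟩
      ((hδb ρ hρ).1 s ⟨hs1.le, hs2.le⟩) j hj
  obtain ⟨G, hG, hGΨ⟩ := mer_of_slices' (F := Ψ j) (s₀ := ρs) (c := t1) (δ := δ') (r1 := r / 2)
    (η := r / 4) hδ' (by linarith) (by linarith) (fun q hq => hann q.1 hq.1 q.2 hq.2)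
    (X := ∅) countable_empty (fun ρ hρ _ => ⟨fun s => Ψ j (s, ρ), fun w hw =>
      hΨ1 j hj ρ (hδb ρ hρ).2 w (hball w (mem_ball.2 (by
        have := mem_closedBall.1 hw
        linarith))).2, fun _ _ => rfl⟩)
  have hpG : ((t1, ρs) : ℂ × ℂ) ∈ ball t1 (r / 2 + r / 4) ×ˢ ball ρs δ' :=
    ⟨mem_ball_self (by linarith), mem_ball_self hδ'⟩
  obtain ⟨B, hB, hBr⟩ := exists_den_rgp h (p := (t1, ρs)) ⟨ht1, hρs⟩
  obtain ⟨A3, B3, hA3, hB3, hG3⟩ := hG _ hpG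
  have hclaim : EqM G (Ψ j) (t1, ρs) := by
    refine ⟨_, hB.mul hB3, ?_⟩
    have hopen : IsOpen (ball t1 (r / 2 + r / 4) ×ˢ ball ρs δ') := isOpen_ball.prod isOpen_ball
    filter_upwards [hBr, hG3.eventually_nhds, hA3.eventually_analyticAt, hB3.eventually,
      hopen.mem_nhds hpG] with q h1 h2 h3 h4 h5 h6
    obtain ⟨t, ρ⟩ := q
    have hBq := left_ne_zero_of_mul h6
    have hB3q := right_ne_zero_of_mul h6
    have ht : t ∈ ball t1 (r / 2 + r / 4) := h5.1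
    have hρ : ρ ∈ ball ρs δ' := h5.2
    have htr : t ∈ ball t1 r := ball_subset_ball (by linarith) ht
    have hPan : AnalyticAt ℂ (Ψ j) (t, ρ) :=
      hΨ3 (t, ρ) ⟨(hball t htr).2, (hδb ρ hρ).2⟩ (h1 hBq) j hj
    have hGan : AnalyticAt ℂ G (t, ρ) := by
      refine (h3.div h4.an hB3q).congr ?_
      filter_upwards [h2, h4.an.continuousAt.eventually_ne hB3q] with x hx1 hx2
      exact (hx1 hx2).symm
    refine joB_agree (G := G) (P := Ψ j) (c := t1) (ρ := ρ) (t := t) (r := r / 2 - r / 4)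
      (r' := r / 2 + r / 4) (by linarith) (by linarith) (fun s hs => hG (s, ρ) ⟨hs, hρ⟩)
      (fun s hs => hΨ1 j hj ρ (hδb ρ hρ).2 s
        (hball s (ball_subset_ball (by linarith) hs)).2)
      (fun s hs => ⟨hann s hs ρ hρ, hGΨ (s, ρ) ⟨hs, hρ⟩⟩) ht hGan hPan
  exact (hG _ hpG).congr hclaim

end Pool.Agent.MP_ae5b4e_an_NB1B
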