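import Pool.Agent.Lib.MP_ae5b4e_an_NB1B.SttL
import Pool.Agent.Lib.MP_ae5b4e_an_LAT.NDMobG

/-!
# MP_ae5b4e_an, NB_1 section 3: the coordinate `1 / x`
-/

noncomputable section

namespace Pool.Agent.MP_ae5b4e_an_NB1B

open Complex Set Filter Topology Metric
open Pool.Agent.MP_ae5b4e_an_NBT
open Pool.Agent.MP_ae5b4e_an_ND (Good mobk)

/-- the coefficients in the coordinate `u = 1 / x` -/
def moba (a : ℕ → ℂ → ℂ) (j : ℕ) (u : ℂ) : ℂ := -(a j u⁻¹) / u ^ 2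

/-- the change of coordinates on pairs -/
private def mobs_T (p : ℂ × ℂ) : ℂ × ℂ := (p.1⁻¹, (p.1 + p.2)⁻¹ - p.1⁻¹)

private lemma mobs_mobk (κ : ℂ → ℂ) (v : ℂ) : mobk 0 κ v = -(κ v⁻¹) / v ^ 2 - 2 / v := by
  unfold mobk
  rw [zero_add, one_div]

/-- one step, an identity of rational functions -/
private lemma mobs_step {κ : ℂ → ℂ} {v Q : ℂ} (hv : v ≠ 0) (hw : v + Q ≠ 0)
    (h1 : (v + Q) ^ 2 - κ (v + Q)⁻¹ * Q - 2 * (v + Q) * Q ≠ 0)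
    (h2 : (v + Q) ^ 2 - κ (v + Q)⁻¹ * Q - (v + Q) * Q ≠ 0) :
    MP_ae5b4e_an_ND.TI κ (mobs_T (v, Q)) = mobs_T (MP_ae5b4e_an_ND.TI (mobk 0 κ) (v, Q)) := by
  obtain ⟨w, hw'⟩ : ∃ w : ℂ, w = v + Q := ⟨_, rfl⟩
  obtain ⟨k, hk⟩ : ∃ k : ℂ, k = κ (v + Q)⁻¹ := ⟨_, rfl⟩
  rw [← hk, ← hw'] at h1 h2
  rw [← hw'] at hw
  have hQ : Q = w - v := by rw [hw']; ring
  have e0 : v⁻¹ + (w⁻¹ - v⁻¹) = w⁻¹ := by ring
  have e1 : 1 + mobk 0 κ w * Q = (w ^ 2 - k * Q - 2 * w * Q) / w ^ 2 := by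
    rw [mobs_mobk, hw', ← hk, ← hw']
    field_simp
    ring
  have e2 : w + Q / ((w ^ 2 - k * Q - 2 * w * Q) / w ^ 2) =
      w * (w ^ 2 - k * Q - w * Q) / (w ^ 2 - k * Q - 2 * w * Q) := by
    rw [div_div_eq_mul_div, eq_div_iff h1, add_mul, div_mul_cancel₀ _ h1]
    ring
  have e3 : 1 + k * (w⁻¹ - v⁻¹) = (w ^ 2 - k * Q - w * Q) / (v * w) := by
    rw [hQ]
    field_simp
    ring
  refine Prod.ext ?_ ?_
  · change v⁻¹ + ((v + Q)⁻¹ - v⁻¹) = (v + Q)⁻¹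
    rw [← hw', e0]
  · change ((v + Q)⁻¹ - v⁻¹) / (1 + κ (v⁻¹ + ((v + Q)⁻¹ - v⁻¹)) * ((v + Q)⁻¹ - v⁻¹)) =
      (v + Q + Q / (1 + mobk 0 κ (v + Q) * Q))⁻¹ - (v + Q)⁻¹
    rw [← hw', e0, e1, e2]
    rw [← hw'] at hk
    rw [← hk, e3]
    have e4 : w⁻¹ - v⁻¹ = -Q / (v * w) := by
      rw [hQ]
      field_simp
      ring
    rw [e4, div_div_div_cancel_right₀ (mul_ne_zero hv hw)]
    obtain ⟨D, hD⟩ : ∃ D : ℂ, D = w ^ 2 - k * Q - w * Q := ⟨_, rfl⟩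
    have hD1 : w ^ 2 - k * Q - 2 * w * Q = D - w * Q := by rw [hD]; ring
    rw [← hD] at h2
    rw [hD1, ← hD, inv_div]
    field_simp
    ring

private lemma mobs_ti {κ : ℂ → ℂ} {x : ℂ} (hκ : AnalyticAt ℂ κ x) :
    Tendsto (MP_ae5b4e_an_ND.TI κ) (𝓝 (x, 0)) (𝓝 (x, 0)) := by
  have h0 : AnalyticAt ℂ (fun p : ℂ × ℂ => p.1 + p.2) (x, 0) := analyticAt_fst.add analyticAt_snd
  have h1 : AnalyticAt ℂ (fun p : ℂ × ℂ => κ (p.1 + p.2)) (x, 0) :=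
    AnalyticAt.fun_comp (by simpa using hκ) h0
  have h2 : AnalyticAt ℂ (fun p : ℂ × ℂ => p.2 / (1 + κ (p.1 + p.2) * p.2)) (x, 0) :=
    analyticAt_snd.div (analyticAt_const.add (h1.mul analyticAt_snd)) (by simp)
  have h3 : ContinuousAt (MP_ae5b4e_an_ND.TI κ) (x, 0) := (h0.prod h2).continuousAt
  have h4 : MP_ae5b4e_an_ND.TI κ (x, 0) = (x, 0) := by
    refine Prod.ext ?_ ?_
    · change x + 0 = x
      rw [add_zero]
    · change (0 : ℂ) / _ = 0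
      rw [zero_div]
  rw [ContinuousAt, h4] at h3
  exact h3

private lemma mobs_an {κ : ℂ → ℂ} {x : ℂ} (hκ : AnalyticAt ℂ κ x) (m j : ℕ) (hj : j ≤ m) :
    AnalyticAt ℂ (yc κ j) (x, 0) ∧ yc κ j (x, 0) = x := by
  have hF := fam_yc (κ := κ) m (isOpen_analyticAt ℂ κ) (fun v hv => hv)
  exact ⟨hF.an j hj x hκ, hF.zero j hj x hκ⟩

private lemma mobs_kan {κ : ℂ → ℂ} {u : ℂ} (hu : u ≠ 0) (hκ : AnalyticAt ℂ κ u⁻¹) :
    AnalyticAt ℂ (mobk 0 κ) u := by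
  have h1 : AnalyticAt ℂ (fun v : ℂ => κ v⁻¹) u :=
    AnalyticAt.fun_comp hκ (analyticAt_id.inv hu)
  have h2 : AnalyticAt ℂ (fun v : ℂ => -(κ v⁻¹) / v ^ 2 - 2 / v) u :=
    (h1.neg.div (analyticAt_id.pow 2) (pow_ne_zero 2 hu)).sub
      (analyticAt_const.div analyticAt_id hu)
  have h3 : mobk 0 κ = fun v : ℂ => -(κ v⁻¹) / v ^ 2 - 2 / v := funext (mobs_mobk κ)
  rw [h3]
  exact h2

private lemma mobs_conj {κ : ℂ → ℂ} {u : ℂ} (hu : u ≠ 0) (hκ : AnalyticAt ℂ κ u⁻¹) (j : ℕ) :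
    ∀ᶠ p in 𝓝 ((u, 0) : ℂ × ℂ), (MP_ae5b4e_an_ND.TI κ)^[j] (mobs_T p) = mobs_T ((MP_ae5b4e_an_ND.TI (mobk 0 κ))^[j] p) := by
  have hstep : ∀ᶠ p in 𝓝 ((u, 0) : ℂ × ℂ),
      MP_ae5b4e_an_ND.TI κ (mobs_T p) = mobs_T (MP_ae5b4e_an_ND.TI (mobk 0 κ) p) := by
    have c0 : ContinuousAt (fun p : ℂ × ℂ => p.1 + p.2) (u, 0) :=
      continuousAt_fst.add continuousAt_snd
    have c1 : ContinuousAt (fun p : ℂ × ℂ => κ (p.1 + p.2)⁻¹) (u, 0) := by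
      have h1 : ContinuousAt (fun v : ℂ => κ v⁻¹) u :=
        (AnalyticAt.fun_comp hκ (analyticAt_id.inv hu)).continuousAt
      exact ContinuousAt.comp (f := fun p : ℂ × ℂ => p.1 + p.2) (g := fun v : ℂ => κ v⁻¹)
        (by simpa using h1) c0
    have n1 : ∀ᶠ p : ℂ × ℂ in 𝓝 (u, 0), p.1 ≠ 0 := continuousAt_fst.eventually_ne hu
    have n2 : ∀ᶠ p : ℂ × ℂ in 𝓝 (u, 0), p.1 + p.2 ≠ 0 := c0.eventually_ne (by simpa using hu)
    have n3 : ∀ᶠ p : ℂ × ℂ in 𝓝 (u, 0),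
        (p.1 + p.2) ^ 2 - κ (p.1 + p.2)⁻¹ * p.2 - 2 * (p.1 + p.2) * p.2 ≠ 0 := by
      refine ContinuousAt.eventually_ne (((c0.pow 2).sub (c1.mul continuousAt_snd)).sub
        ((continuousAt_const.mul c0).mul continuousAt_snd)) ?_
      simpa using hu
    have n4 : ∀ᶠ p : ℂ × ℂ in 𝓝 (u, 0),
        (p.1 + p.2) ^ 2 - κ (p.1 + p.2)⁻¹ * p.2 - (p.1 + p.2) * p.2 ≠ 0 := by
      refine ContinuousAt.eventually_ne (((c0.pow 2).sub (c1.mul continuousAt_snd)).sub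
        (c0.mul continuousAt_snd)) ?_
      simpa using hu
    filter_upwards [n1, n2, n3, n4] with p h1 h2 h3 h4
    exact mobs_step h1 h2 h3 h4
  have ht := mobs_ti (mobs_kan hu hκ)
  induction j with
  | zero => exact Filter.Eventually.of_forall fun p => rfl
  | succ j ih =>
    have h1 : Tendsto ((MP_ae5b4e_an_ND.TI (mobk 0 κ))^[j]) (𝓝 ((u, 0) : ℂ × ℂ)) (𝓝 (u, 0)) := ht.iterate j
    filter_upwards [ih, h1.eventually hstep] with p h2 h3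
    rw [Function.iterate_succ', Function.iterate_succ', Function.comp_apply,
      Function.comp_apply, h2, h3]

private lemma mobs_lam (a : ℕ → ℂ → ℂ) (l : ℕ) (v : ℂ) :
    lam (moba a) l v = -(lam a l v⁻¹) / v ^ 2 := by
  unfold lam moba
  rw [← Finset.sum_div, Finset.sum_neg_distrib]

private lemma mobs_Mo (a : ℕ → ℂ → ℂ) (m j : ℕ) (v : ℂ) :
    Mo m j (moba a) v = -(Mo m j a v⁻¹) / v ^ 2 := by
  unfold Mo
  rw [← Finset.sum_neg_distrib, Finset.sum_div]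
  refine Finset.sum_congr rfl fun l _ => ?_
  rw [mobs_lam]
  ring

private lemma mobs_der {u : ℂ} (hu : u ≠ 0) :
    ∃ e : (ℂ × ℂ) ≃L[ℂ] (ℂ × ℂ), HasFDerivAt mobs_T (e : ℂ × ℂ →L[ℂ] ℂ × ℂ) (u, 0) := by
  have hc : -(u ^ 2)⁻¹ ≠ 0 := neg_ne_zero.2 (inv_ne_zero (pow_ne_zero 2 hu))
  refine ⟨ContinuousLinearEquiv.smulLeft (Units.mk0 _ hc), ?_⟩
  have h1 : HasFDerivAt (fun p : ℂ × ℂ => p.1⁻¹) ((-(u ^ 2)⁻¹) • ContinuousLinearMap.fst ℂ ℂ ℂ)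
      (u, 0) := by
    have h3 : HasDerivAt (fun v : ℂ => v⁻¹) (-(u ^ 2)⁻¹) ((u, 0) : ℂ × ℂ).1 := hasDerivAt_inv hu
    exact h3.comp_hasFDerivAt ((u, 0) : ℂ × ℂ) hasFDerivAt_fst
  have h2 : HasFDerivAt (fun p : ℂ × ℂ => (p.1 + p.2)⁻¹)
      ((-(u ^ 2)⁻¹) • (ContinuousLinearMap.fst ℂ ℂ ℂ + ContinuousLinearMap.snd ℂ ℂ ℂ)) (u, 0) := by
    have h3 : HasDerivAt (fun v : ℂ => v⁻¹) (-(u ^ 2)⁻¹)
        (((u, 0) : ℂ × ℂ).1 + ((u, 0) : ℂ × ℂ).2) := by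
      simpa using hasDerivAt_inv hu
    exact h3.comp_hasFDerivAt ((u, 0) : ℂ × ℂ) (hasFDerivAt_fst.add hasFDerivAt_snd)
  refine (h1.prodMk (h2.sub h1)).congr_fderiv ?_
  ext <;> simp

theorem Stt.inv {m k : ℕ} {κ : ℂ → ℂ} {a : ℕ → ℂ → ℂ} {x : ℂ} (h : Stt m k κ a x)
    (hx : x ≠ 0) : Stt m k (mobk 0 κ) (moba a) x⁻¹ := by
  obtain ⟨u, hu⟩ : ∃ u : ℂ, u = x⁻¹ := ⟨_, rfl⟩
  have hu0 : u ≠ 0 := by rw [hu]; exact inv_ne_zero hx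
  have hux : u⁻¹ = x := by rw [hu, inv_inv]
  rw [← hu]
  have hκ : AnalyticAt ℂ κ u⁻¹ := by rw [hux]; exact h.good.1
  have hκ' : AnalyticAt ℂ (mobk 0 κ) u := mobs_kan hu0 hκ
  have hinv : Tendsto (fun v : ℂ => v⁻¹) (𝓝 u) (𝓝 x) := by
    have h1 := (continuousAt_inv₀ hu0).tendsto
    rw [hux] at h1
    exact h1
  have hT : AnalyticAt ℂ mobs_T (u, 0) := by
    have h1 : AnalyticAt ℂ (fun p : ℂ × ℂ => p.1⁻¹) (u, 0) := analyticAt_fst.inv hu0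
    have h2 : AnalyticAt ℂ (fun p : ℂ × ℂ => (p.1 + p.2)⁻¹ - p.1⁻¹) (u, 0) :=
      ((analyticAt_fst.add analyticAt_snd).inv (by simpa using hu0)).sub h1
    exact h1.prod h2
  have hT0 : mobs_T (u, 0) = ((fun v : ℂ => v⁻¹) u, 0) := by
    refine Prod.ext rfl ?_
    change (u + 0)⁻¹ - u⁻¹ = 0
    rw [add_zero, sub_self]
  have hθ : AnalyticAt ℂ (fun v : ℂ => v⁻¹) u := analyticAt_id.inv hu0
  have hθd : deriv (fun v : ℂ => v⁻¹) u ≠ 0 := by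
    rw [(hasDerivAt_inv hu0).deriv]
    exact neg_ne_zero.2 (inv_ne_zero (pow_ne_zero 2 hu0))
  have hyY : ∀ j ≤ m, ∀ᶠ p in 𝓝 ((u, 0) : ℂ × ℂ),
      yc κ j (mobs_T p) = (fun v : ℂ => v⁻¹) (yc (mobk 0 κ) j p) := by
    intro j _
    filter_upwards [mobs_conj hu0 hκ j] with p hp
    unfold yc
    rw [hp]
    rfl
  have hm : moba a = fun (j : ℕ) (v : ℂ) =>
      a j ((fun v : ℂ => v⁻¹) v) * deriv (fun v : ℂ => v⁻¹) v := by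
    funext j v
    have h1 : deriv (fun v : ℂ => v⁻¹) v = -(v ^ 2)⁻¹ := deriv_inv
    rw [h1]
    unfold moba
    ring
  refine ⟨?_, ?_, ?_, ?_, ?_, ?_⟩
  · have h1 := MP_ae5b4e_an_ND.good_mob h.good hx
    rw [sub_zero, one_div, ← hu] at h1
    exact h1
  · rw [hm]
    refine (rl_change hT hT0 (mobs_der hu0) hθ hθd (fun j hj => (mobs_an hκ' m j hj).1)
      (fun j hj => (mobs_an hκ' m j hj).2) (fun j hj => (mobs_an hκ m j hj).1)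
      (fun j hj => (mobs_an hκ m j hj).2) hyY a).1 ?_
    rw [hux]
    exact h.rl
  · intro j hj
    filter_upwards [hinv.eventually (h.mom j hj)] with v hv
    rw [mobs_Mo, hv, neg_zero, zero_div]
  · filter_upwards [hinv.eventually h.ode, eventually_ne_nhds hu0] with v hv hv0
    have h1 : HasDerivAt (fun v : ℂ => Mo m k a v⁻¹)
        (κ v⁻¹ * Mo m k a v⁻¹ * -(v ^ 2)⁻¹) v := hv.comp v (hasDerivAt_inv hv0)
    have h2 : HasDerivAt (fun v : ℂ => v ^ 2) (2 * v) v := by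
      simpa using hasDerivAt_pow 2 v
    have h3 := (h1.neg.div h2 (pow_ne_zero 2 hv0))
    have h4 : Mo m k (moba a) = fun v => -(Mo m k a v⁻¹) / v ^ 2 := funext (mobs_Mo a m k)
    rw [h4]
    refine h3.congr_deriv ?_
    rw [mobs_mobk]
    simp only [Pi.neg_apply]
    field_simp
    ring
  · rw [mobs_Mo, hux]
    exact div_ne_zero (neg_ne_zero.2 h.ne) (pow_ne_zero 2 hu0)
  · refine (mx_change hT hT0 (mobs_der hu0) hθ hθd (fun j hj => (mobs_an hκ' m j hj).1)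
      (fun j hj => (mobs_an hκ' m j hj).2) (fun j hj => (mobs_an hκ m j hj).1)
      (fun j hj => (mobs_an hκ m j hj).2) hyY).1 ?_
    rw [hux]
    exact h.mx

/-- slices in the coordinate `1 / x` -/
theorem SS.inv {m k : ℕ} {f g : ℂ → ℂ} {φ : ℕ → ℂ → ℂ} {s : ℂ} (h : SS m k f g φ s)
    (hf : f s ≠ 0) : SS m k (fun t => (f t)⁻¹) (fun t => -(f t) ^ 2 * g t - 2 * f t)
      (fun j t => -(f t) ^ 2 * φ j t) s := by
  obtain ⟨κ, a, hfa, hfd, hg, hφ, hS⟩ := h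
  have hne : ∀ᶠ t in 𝓝 s, f t ≠ 0 := hfa.continuousAt.eventually_ne hf
  refine ⟨mobk 0 κ, moba a, hfa.inv hf, ?_, ?_, ?_, hS.inv hf⟩
  · have h1 : HasDerivAt (fun t => (f t)⁻¹) (-deriv f s / f s ^ 2) s :=
      hfa.differentiableAt.hasDerivAt.inv hf
    rw [h1.deriv]
    exact div_ne_zero (neg_ne_zero.2 hfd) (pow_ne_zero 2 hf)
  · filter_upwards [hne, hg] with t h1 h2
    rw [mobs_mobk, h2, inv_inv]
    field_simp
  · intro j hj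
    filter_upwards [hne, hφ j hj] with t h1 h2
    rw [h2]
    unfold moba
    rw [inv_inv]
    field_simp

end Pool.Agent.MP_ae5b4e_an_NB1B
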