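import Pool.Agent.Lib.MP_ae5b4e_an_NB1B.PlA

/-!
# MP_ae5b4e_an, NB_1 section 3: periodic functions of exponential growth on a half plane
-/

noncomputable section

namespace Pool.Agent.MP_ae5b4e_an_NB1B

open Complex Set Filter Topology Metric

private theorem PerM_exp {n : ℕ} (hn : 0 < n) {w : ℂ} (hw : w ≠ 0) :
    exp ((n * log w) / n) = w := by
  have hn' : (n : ℂ) ≠ 0 := Nat.cast_ne_zero.mpr hn.ne'
  rw [mul_div_cancel_left₀ _ hn', exp_log hw]

private theorem PerM_mem {n : ℕ} (hn : 0 < n) {δ : ℝ} {w : ℂ} (hw : w ≠ 0) (h : ‖w‖ < δ) :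
    (n : ℂ) * log w ∈ HP n δ := by
  change ‖exp ((n * log w) / n)‖ < δ
  rw [PerM_exp hn hw]
  exact h

private theorem PerM_shift {n : ℕ} (hn : 0 < n) (Z : ℂ) :
    exp ((Z + 2 * Real.pi * I * n) / n) = exp (Z / n) := by
  have hn' : (n : ℂ) ≠ 0 := Nat.cast_ne_zero.mpr hn.ne'
  rw [add_div, mul_div_cancel_right₀ _ hn']
  exact exp_periodic (Z / n)

private theorem PerM_nat {n : ℕ} (hn : 0 < n) {δ : ℝ} {ψ : ℂ → ℂ}
    (hper : ∀ Z ∈ HP n δ, ψ (Z + 2 * Real.pi * I * n) = ψ Z) (k : ℕ) :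
    ∀ Z ∈ HP n δ, ψ (Z + k * (2 * Real.pi * I * n)) = ψ Z ∧
      Z + k * (2 * Real.pi * I * n) ∈ HP n δ := by
  induction k with
  | zero =>
    intro Z hZ
    rw [Nat.cast_zero, zero_mul, add_zero]
    exact ⟨rfl, hZ⟩
  | succ k ih =>
    intro Z hZ
    obtain ⟨h1, h2⟩ := ih Z hZ
    have h3 : Z + ((k + 1 : ℕ) : ℂ) * (2 * Real.pi * I * n) =
        (Z + k * (2 * Real.pi * I * n)) + 2 * Real.pi * I * n := by
      push_cast
      ring
    rw [h3]
    refine ⟨(hper _ h2).trans h1, ?_⟩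
    change ‖exp (_ / n)‖ < δ
    rw [PerM_shift hn]
    exact h2

private theorem PerM_eq {n : ℕ} (hn : 0 < n) {δ : ℝ} {ψ : ℂ → ℂ}
    (hper : ∀ Z ∈ HP n δ, ψ (Z + 2 * Real.pi * I * n) = ψ Z) {Z Z' : ℂ} (hZ : Z ∈ HP n δ)
    (hZ' : Z' ∈ HP n δ) (h : exp (Z / n) = exp (Z' / n)) : ψ Z = ψ Z' := by
  have hn' : (n : ℂ) ≠ 0 := Nat.cast_ne_zero.mpr hn.ne'
  obtain ⟨k, hk⟩ := exp_eq_exp_iff_exists_int.mp h
  have hk' : Z = Z' + k * (2 * Real.pi * I * n) := by
    have h1 : Z = (Z / n) * n := by field_simp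
    rw [h1, hk]
    field_simp
  obtain ⟨m, hm | hm⟩ := Int.eq_nat_or_neg k
  · rw [hk', hm, Int.cast_natCast]
    exact (PerM_nat hn hper m Z' hZ').1
  · have h2 : Z' = Z + m * (2 * Real.pi * I * n) := by
      rw [hk', hm]
      push_cast
      ring
    rw [h2]
    exact (PerM_nat hn hper m Z hZ).1.symm

/-- a periodic function on the half plane which grows at most exponentially is a meromorphic
function of `w = exp (Z / n)` -/
theorem exists_mer_of_per {n : ℕ} (hn : 0 < n) {δ : ℝ} (hδ : 0 < δ) {ψ : ℂ → ℂ}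
    (hψ : AnalyticOnNhd ℂ ψ (HP n δ))
    (hper : ∀ Z ∈ HP n δ, ψ (Z + 2 * Real.pi * I * n) = ψ Z)
    (hgr : ∃ δ' > 0, ∃ Z₂ : ℂ, ∃ C K : ℝ, δ' ≤ δ ∧
      ∀ Z ∈ HP n δ', ‖ψ Z‖ ≤ C * Real.exp (K * ‖Z - Z₂‖)) :
    ∃ f : ℂ → ℂ, MeromorphicAt f 0 ∧ (∀ w ∈ ball (0:ℂ) δ, w ≠ 0 → AnalyticAt ℂ f w) ∧
      ∀ Z ∈ HP n δ, ψ Z = f (exp (Z / n)) := by
  have hn' : (n : ℂ) ≠ 0 := Nat.cast_ne_zero.mpr hn.ne'
  have han : ∀ w ∈ ball (0:ℂ) δ, w ≠ 0 → AnalyticAt ℂ (fun w => ψ (n * log w)) w := by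
    intro w₀ hw₀ hne
    rw [mem_ball_zero_iff] at hw₀
    have hZ0 : (n : ℂ) * log w₀ ∈ HP n δ := PerM_mem hn hne hw₀
    have hg : AnalyticAt ℂ (fun w : ℂ => (n : ℂ) * log w₀ + n * log (w / w₀)) w₀ := by
      have h1 : AnalyticAt ℂ (fun w : ℂ => w / w₀) w₀ := analyticAt_id.div analyticAt_const hne
      have h2 : AnalyticAt ℂ (fun w : ℂ => log (w / w₀)) w₀ := by
        refine h1.clog ?_
        rw [div_self hne]
        exact one_mem_slitPlane
      exact analyticAt_const.add (analyticAt_const.mul h2)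
    have hval : (n : ℂ) * log w₀ + n * log (w₀ / w₀) = n * log w₀ := by
      rw [div_self hne, log_one, mul_zero, add_zero]
    have hcomp : AnalyticAt ℂ (fun w : ℂ => ψ ((n : ℂ) * log w₀ + n * log (w / w₀))) w₀ := by
      refine AnalyticAt.comp' (g := ψ) ?_ hg
      rw [hval]
      exact hψ _ hZ0
    refine hcomp.congr ?_
    have hev : ∀ᶠ w in 𝓝 w₀, w ≠ 0 ∧ ‖w‖ < δ :=
      (isOpen_ne.eventually_mem hne).and
        ((isOpen_lt continuous_norm continuous_const).eventually_mem hw₀)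
    filter_upwards [hev] with w hw
    have hdiv : w / w₀ ≠ 0 := div_ne_zero hw.1 hne
    have hexp : exp (((n : ℂ) * log w₀ + n * log (w / w₀)) / n) = w := by
      rw [← mul_add, mul_div_cancel_left₀ _ hn', exp_add, exp_log hne, exp_log hdiv]
      field_simp
    refine PerM_eq hn hper ?_ (PerM_mem hn hw.1 hw.2) ?_
    · change ‖exp (_ / n)‖ < δ
      rw [hexp]
      exact hw.2
    · rw [hexp, PerM_exp hn hw.1]
  refine ⟨fun w => ψ (n * log w), ?_, han, ?_⟩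
  · obtain ⟨δ', hδ', Z₂, C, K, _, hb⟩ := hgr
    set a : ℝ := |K| * n with ha
    obtain ⟨N, hN⟩ := exists_nat_ge (a + 1)
    have hapos : 0 ≤ a := by positivity
    have hN1 : (1 : ℝ) ≤ N := by linarith
    have hN0 : N ≠ 0 := by
      rintro rfl
      norm_num at hN1
    set M : ℝ := |C| * Real.exp (a * Real.pi + |K| * ‖Z₂‖) with hM
    refine ⟨N, ?_⟩
    have hbound : ∀ w : ℂ, ‖w‖ < min δ' 1 →
        ‖(w - 0) ^ N • ψ (n * log w)‖ ≤ M * ‖w‖ := by
      intro w hw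
      by_cases hw0 : w = 0
      · rw [hw0, sub_zero, zero_pow hN0, zero_smul, norm_zero, mul_zero]
      have hw1 : ‖w‖ < δ' := lt_of_lt_of_le hw (min_le_left _ _)
      have hw2 : ‖w‖ < 1 := lt_of_lt_of_le hw (min_le_right _ _)
      have hwp : 0 < ‖w‖ := norm_pos_iff.mpr hw0
      have hl0 : Real.log ‖w‖ ≤ 0 := Real.log_nonpos hwp.le hw2.le
      have h1 := hb _ (PerM_mem hn hw0 hw1)
      have hlog : ‖log w‖ ≤ -Real.log ‖w‖ + Real.pi := by
        have h2 : ‖log w‖ ≤ |(log w).re| + |(log w).im| := norm_le_abs_re_add_abs_im _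
        rw [log_re, log_im, abs_of_nonpos hl0] at h2
        have h3 := abs_arg_le_pi w
        linarith
      have h4 : K * ‖(n : ℂ) * log w - Z₂‖ ≤ a * (-Real.log ‖w‖ + Real.pi) + |K| * ‖Z₂‖ := by
        have h5 : ‖(n : ℂ) * log w - Z₂‖ ≤ n * (-Real.log ‖w‖ + Real.pi) + ‖Z₂‖ := by
          calc ‖(n : ℂ) * log w - Z₂‖ ≤ ‖(n : ℂ) * log w‖ + ‖Z₂‖ := norm_sub_le _ _
            _ = n * ‖log w‖ + ‖Z₂‖ := by rw [norm_mul, Complex.norm_natCast]
            _ ≤ n * (-Real.log ‖w‖ + Real.pi) + ‖Z₂‖ := by gcongr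
        calc K * ‖(n : ℂ) * log w - Z₂‖ ≤ |K| * ‖(n : ℂ) * log w - Z₂‖ := by
              gcongr
              exact le_abs_self K
          _ ≤ |K| * (n * (-Real.log ‖w‖ + Real.pi) + ‖Z₂‖) := by gcongr
          _ = a * (-Real.log ‖w‖ + Real.pi) + |K| * ‖Z₂‖ := by
              rw [ha]
              ring
      have h6 : ‖ψ (n * log w)‖ ≤
          M * Real.exp (-a * Real.log ‖w‖) := by
        calc ‖ψ (n * log w)‖ ≤ C * Real.exp (K * ‖(n : ℂ) * log w - Z₂‖) := h1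
          _ ≤ |C| * Real.exp (K * ‖(n : ℂ) * log w - Z₂‖) := by
              gcongr
              exact le_abs_self C
          _ ≤ |C| * Real.exp (a * (-Real.log ‖w‖ + Real.pi) + |K| * ‖Z₂‖) := by gcongr
          _ = M * Real.exp (-a * Real.log ‖w‖) := by
              rw [hM, mul_assoc |C|, ← Real.exp_add (a * Real.pi + |K| * ‖Z₂‖)]
              congr 2
              ring
      have h7 : ‖w‖ ^ N * Real.exp (-a * Real.log ‖w‖) ≤ ‖w‖ := by
        have h8 : ‖w‖ ^ N = Real.exp (N * Real.log ‖w‖) := by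
          rw [mul_comm, Real.exp_mul, Real.exp_log hwp, Real.rpow_natCast]
        rw [h8, ← Real.exp_add]
        calc Real.exp (N * Real.log ‖w‖ + -a * Real.log ‖w‖) ≤ Real.exp (Real.log ‖w‖) := by
              rw [Real.exp_le_exp]
              nlinarith
          _ = ‖w‖ := Real.exp_log hwp
      have hMp : 0 ≤ M := by positivity
      rw [sub_zero, smul_eq_mul, norm_mul, norm_pow]
      calc ‖w‖ ^ N * ‖ψ (n * log w)‖ ≤ ‖w‖ ^ N * (M * Real.exp (-a * Real.log ‖w‖)) := by gcongr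
        _ = M * (‖w‖ ^ N * Real.exp (-a * Real.log ‖w‖)) := by ring
        _ ≤ M * ‖w‖ := by gcongr
    refine analyticAt_of_differentiable_on_punctured_nhds_of_continuousAt ?_ ?_
    · rw [eventually_nhdsWithin_iff]
      filter_upwards [ball_mem_nhds (0 : ℂ) hδ] with w hw hw0
      have h9 := (han w hw hw0).differentiableAt
      exact ((differentiableAt_id.sub_const (0 : ℂ)).pow N).smul h9
    · have h10 : (fun z : ℂ => (z - 0) ^ N • ψ (n * log z)) 0 = 0 := by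
        simp [zero_pow hN0]
      unfold ContinuousAt
      rw [h10]
      refine squeeze_zero_norm' (a := fun w => M * ‖w‖) ?_ ?_
      · filter_upwards [ball_mem_nhds (0 : ℂ) (lt_min hδ' one_pos)] with w hw
        rw [mem_ball_zero_iff] at hw
        exact hbound w hw
      · have h11 : Tendsto (fun w : ℂ => M * ‖w‖) (𝓝 0) (𝓝 (M * ‖(0 : ℂ)‖)) :=
          (continuous_const.mul continuous_norm).continuousAt
        rwa [norm_zero, mul_zero] at h11
  · intro Z hZ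
    refine PerM_eq hn hper hZ ?_ ?_
    · exact PerM_mem hn (exp_ne_zero _) hZ
    · exact (PerM_exp hn (exp_ne_zero _)).symm

end Pool.Agent.MP_ae5b4e_an_NB1B
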