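import Pool.Agent.Lib.MP_ae5b4e_an_NB1B.Defs

/-!
# MP_ae5b4e_an, NB_1 section 3: the polygons near a place, logarithmic coordinate

At a place `x = e + w ^ n` with `κ (e + w ^ n) = p w / w ^ n`, `p` analytic, the coordinates are
`w = exp (Z / n)`, `x = e + exp Z`, `P = exp Z * E`, and the vertices are `e + exp (Yl n p j)`.
-/

noncomputable section

namespace Pool.Agent.MP_ae5b4e_an_NB1B

open Complex Set Filter Topology Metric
open Pool.Agent.MP_ae5b4e_an_NBT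

/-- `z κ (e + z A)` for `z = w ^ n` -/
def qA (n : ℕ) (p : ℂ → ℂ) (w A : ℂ) : ℂ := p (w * exp (log A / n)) / A

/-- the step of the scaled polygon -/
def stA (n : ℕ) (p : ℂ → ℂ) (w : ℂ) (s : ℂ × ℂ) : ℂ × ℂ :=
  (s.1 + s.2, s.2 / (1 + s.2 * qA n p w (s.1 + s.2)))

/-- the vertices of the scaled polygon -/
def Ac (n : ℕ) (p : ℂ → ℂ) (j : ℕ) (q : ℂ × ℂ) : ℂ := ((stA n p q.1)^[j] (1, q.2)).1

/-- the vertices in the logarithmic coordinate -/
def Yl (n : ℕ) (p : ℂ → ℂ) (j : ℕ) (q : ℂ × ℂ) : ℂ := q.1 + log (Ac n p j (exp (q.1 / n), q.2))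

/-- the half plane `|exp (Z / n)| < δ` -/
def HP (n : ℕ) (δ : ℝ) : Set ℂ := {Z | ‖exp (Z / n)‖ < δ}

/-- the functions of `exp (Z / n)` -/
def ClE (n : ℕ) (δ : ℝ) : Set (ℂ → ℂ) :=
  {f | ∃ g : ℂ → ℂ, AnalyticOnNhd ℂ g (ball 0 δ) ∧ ∀ Z ∈ HP n δ, f Z = g (exp (Z / n))}

variable {n : ℕ} {p : ℂ → ℂ} {δ : ℝ}

theorem isOpen_HP (n : ℕ) (δ : ℝ) : IsOpen (HP n δ) :=
  isOpen_lt (by fun_prop) continuous_const

theorem convex_HP (hn : 0 < n) (δ : ℝ) : Convex ℝ (HP n δ) := by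
  have hn' : (0:ℝ) < n := Nat.cast_pos.mpr hn
  rcases le_or_gt δ 0 with hδ | hδ
  · have : HP n δ = ∅ := by
      ext Z
      simp only [HP, mem_ofPred_eq, mem_empty_iff_false, iff_false, not_lt]
      exact hδ.trans (norm_nonneg _)
    rw [this]
    exact convex_empty
  · have : HP n δ = {Z : ℂ | Z.re < n * Real.log δ} := by
      ext Z
      simp only [HP, mem_ofPred_eq, norm_exp]
      rw [show (Z / (n:ℂ)).re = Z.re / n from by
        rw [show (n:ℂ) = ((n:ℝ):ℂ) from by push_cast; rfl, div_ofReal_re]]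
      rw [← Real.lt_log_iff_exp_lt hδ, div_lt_iff₀ hn', mul_comm]
    rw [this]
    exact convex_halfSpace_re_lt _

theorem mem_HP {Z : ℂ} : Z ∈ HP n δ ↔ exp (Z / n) ∈ ball (0:ℂ) δ := by
  simp [HP]

theorem cls_ClE (hn : 0 < n) (δ : ℝ) : Cls {f | f ∈ ClE n δ ∧ AnalyticOnNhd ℂ f (HP n δ)} where
  const c := ⟨⟨fun _ => c, analyticOnNhd_const, fun _ _ => rfl⟩, analyticOnNhd_const⟩
  add := by
    rintro f ⟨⟨f', hf', hf⟩, hfa⟩ g ⟨⟨g', hg', hg⟩, hga⟩
    exact ⟨⟨fun w => f' w + g' w, hf'.add hg', fun Z hZ => by simp only [hf Z hZ, hg Z hZ]⟩,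
      hfa.add hga⟩
  mul := by
    rintro f ⟨⟨f', hf', hf⟩, hfa⟩ g ⟨⟨g', hg', hg⟩, hga⟩
    exact ⟨⟨fun w => f' w * g' w, hf'.mul hg', fun Z hZ => by simp only [hf Z hZ, hg Z hZ]⟩,
      hfa.mul hga⟩
  deriv := by
    rintro f ⟨⟨g, hg, hf⟩, hfa⟩
    refine ⟨⟨fun w => deriv g w * (w / n), ?_, ?_⟩, hfa.deriv⟩
    · exact hg.deriv.mul (fun w _ => analyticAt_id.div_const)
    · intro Z hZ
      have h1 : f =ᶠ[𝓝 Z] fun Z => g (exp (Z / n)) := by
        filter_upwards [(isOpen_HP n δ).mem_nhds hZ] with V hV using hf V hV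
      rw [h1.deriv_eq]
      have h2 : HasDerivAt (fun Z : ℂ => exp (Z / n)) (exp (Z / n) * (1 / n)) Z := by
        have := ((hasDerivAt_id Z).div_const (n:ℂ)).cexp
        simpa using this
      have h3 := ((hg _ (mem_HP.mp hZ)).differentiableAt.hasDerivAt).comp Z h2
      have h4 : deriv (fun Z : ℂ => g (exp (Z / n))) Z
          = deriv g (exp (Z / n)) * (exp (Z / n) * (1 / n)) := h3.deriv
      rw [h4]
      ring

/-- the iterates of the step near `(1, 0)` -/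
theorem stA_iter (hp : AnalyticOnNhd ℂ p (ball 0 δ)) {w : ℂ} (hw : w ∈ ball (0:ℂ) δ) (j : ℕ) :
    AnalyticAt ℂ (fun q : ℂ × ℂ => (stA n p q.1)^[j] (1, q.2)) (w, 0) ∧
      (∀ v : ℂ, (stA n p v)^[j] (1, 0) = (1, 0)) ∧
      HasFDerivAt (fun q : ℂ × ℂ => (stA n p q.1)^[j] (1, q.2))
        ((ContinuousLinearMap.snd ℂ ℂ ℂ).smulRight ((j:ℂ), (1:ℂ))) (w, 0) := by
  induction j with
  | zero =>
    refine ⟨?_, fun v => rfl, ?_⟩
    · simp only [Function.iterate_zero, id_eq]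
      exact AnalyticAt.prod analyticAt_const analyticAt_snd
    · simp only [Function.iterate_zero, id_eq]
      have h1 : HasFDerivAt (fun q : ℂ × ℂ => ((1:ℂ), q.2))
          ((0 : ℂ × ℂ →L[ℂ] ℂ).prod (ContinuousLinearMap.snd ℂ ℂ ℂ)) (w, 0) :=
        (hasFDerivAt_const (1:ℂ) _).prodMk hasFDerivAt_snd
      refine h1.congr_fderiv ?_
      ext <;> simp
  | succ j ih =>
    obtain ⟨ha, hz, hd⟩ := ih
    have hval : (fun q : ℂ × ℂ => (stA n p q.1)^[j] (1, q.2)) (w, 0) = ((1:ℂ), (0:ℂ)) := hz w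
    have e1 : (fun q : ℂ × ℂ => (stA n p q.1)^[j+1] (1, q.2)) =
        fun q : ℂ × ℂ => stA n p q.1 ((stA n p q.1)^[j] (1, q.2)) := by
      funext q
      rw [Function.iterate_succ_apply']
    have hz' : ∀ v : ℂ, (stA n p v)^[j+1] (1, 0) = (1, 0) := by
      intro v
      rw [Function.iterate_succ_apply', hz v]
      simp [stA]
    -- analyticity of the first and second components
    have hA1 : AnalyticAt ℂ (fun q : ℂ × ℂ => ((stA n p q.1)^[j] (1, q.2)).1) (w, 0) :=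
      analyticAt_fst.comp ha
    have hA2 : AnalyticAt ℂ (fun q : ℂ × ℂ => ((stA n p q.1)^[j] (1, q.2)).2) (w, 0) :=
      analyticAt_snd.comp ha
    set a1 : ℂ × ℂ → ℂ := fun q => ((stA n p q.1)^[j] (1, q.2)).1 with ha1
    set a2 : ℂ × ℂ → ℂ := fun q => ((stA n p q.1)^[j] (1, q.2)).2 with ha2
    have v1 : a1 (w, 0) = 1 := by simp only [ha1]; rw [hz w]
    have v2 : a2 (w, 0) = 0 := by simp only [ha2]; rw [hz w]
    have hS : AnalyticAt ℂ (fun q : ℂ × ℂ => a1 q + a2 q) (w, 0) := hA1.add hA2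
    have vS : (fun q : ℂ × ℂ => a1 q + a2 q) (w, 0) = 1 := by simp [v1, v2]
    have hL : AnalyticAt ℂ (fun q : ℂ × ℂ => log (a1 q + a2 q)) (w, 0) := by
      refine hS.clog ?_
      rw [v1, v2]; simp
    have hE : AnalyticAt ℂ (fun q : ℂ × ℂ => q.1 * exp (log (a1 q + a2 q) / n)) (w, 0) :=
      analyticAt_fst.mul (hL.div_const.cexp)
    have vE : (fun q : ℂ × ℂ => q.1 * exp (log (a1 q + a2 q) / n)) (w, 0) = w := by
      simp only [v1, v2, add_zero, log_one, zero_div, exp_zero, mul_one]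
    have hP : AnalyticAt ℂ (fun q : ℂ × ℂ => p (q.1 * exp (log (a1 q + a2 q) / n))) (w, 0) :=
      AnalyticAt.fun_comp_of_eq (hp w hw) hE vE
    have hQ : AnalyticAt ℂ (fun q : ℂ × ℂ => qA n p q.1 (a1 q + a2 q)) (w, 0) := by
      refine hP.div hS ?_
      rw [v1, v2]; simp
    have hD : AnalyticAt ℂ (fun q : ℂ × ℂ => 1 + a2 q * qA n p q.1 (a1 q + a2 q)) (w, 0) :=
      analyticAt_const.add (hA2.mul hQ)
    have vD : (fun q : ℂ × ℂ => 1 + a2 q * qA n p q.1 (a1 q + a2 q)) (w, 0) = 1 := by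
      simp only [v2, zero_mul, add_zero]
    have hR : AnalyticAt ℂ (fun q : ℂ × ℂ => a2 q / (1 + a2 q * qA n p q.1 (a1 q + a2 q)))
        (w, 0) := hA2.div hD (by rw [v2]; simp)
    have e2 : (fun q : ℂ × ℂ => (stA n p q.1)^[j+1] (1, q.2)) =
        fun q : ℂ × ℂ => (a1 q + a2 q, a2 q / (1 + a2 q * qA n p q.1 (a1 q + a2 q))) := by
      rw [e1]; rfl
    rw [e2]
    refine ⟨hS.prod hR, hz', ?_⟩
    -- derivatives
    have d1 : HasFDerivAt a1 ((ContinuousLinearMap.snd ℂ ℂ ℂ).smulRight (j:ℂ)) (w, 0) := by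
      have := (hasFDerivAt_fst (𝕜 := ℂ) (E := ℂ) (F := ℂ)
        (p := (fun q : ℂ × ℂ => (stA n p q.1)^[j] (1, q.2)) (w, 0))).comp (w, 0) hd
      refine this.congr_fderiv ?_
      ext <;> simp
    have d2 : HasFDerivAt a2 ((ContinuousLinearMap.snd ℂ ℂ ℂ).smulRight (1:ℂ)) (w, 0) := by
      have := (hasFDerivAt_snd (𝕜 := ℂ) (E := ℂ) (F := ℂ)
        (p := (fun q : ℂ × ℂ => (stA n p q.1)^[j] (1, q.2)) (w, 0))).comp (w, 0) hd
      refine this.congr_fderiv ?_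
      ext <;> simp
    have dI : AnalyticAt ℂ (fun q : ℂ × ℂ => (1 + a2 q * qA n p q.1 (a1 q + a2 q))⁻¹) (w, 0) :=
      hD.inv (by rw [v2]; simp)
    have d3 := d2.mul dI.differentiableAt.hasFDerivAt
    have d4 : HasFDerivAt (fun q : ℂ × ℂ => a2 q / (1 + a2 q * qA n p q.1 (a1 q + a2 q)))
        ((ContinuousLinearMap.snd ℂ ℂ ℂ).smulRight (1:ℂ)) (w, 0) := by
      have e3 : (fun q : ℂ × ℂ => a2 q / (1 + a2 q * qA n p q.1 (a1 q + a2 q))) =
          fun q : ℂ × ℂ => a2 q * (1 + a2 q * qA n p q.1 (a1 q + a2 q))⁻¹ := by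
        funext q; rw [div_eq_mul_inv]
      rw [e3]
      refine d3.congr_fderiv ?_
      rw [v2]
      ext <;> simp
    refine ((d1.add d2).prodMk d4).congr_fderiv ?_
    ext <;> simp

theorem Ac_an (hp : AnalyticOnNhd ℂ p (ball 0 δ)) {w : ℂ} (hw : w ∈ ball (0:ℂ) δ) (j : ℕ) :
    AnalyticAt ℂ (Ac n p j) (w, 0) ∧ Ac n p j (w, 0) = 1 ∧
      fderiv ℂ (Ac n p j) (w, 0) (0, 1) = j := by
  obtain ⟨ha, hz, hd⟩ := stA_iter (n := n) hp hw j
  refine ⟨analyticAt_fst.comp ha, ?_, ?_⟩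
  · simp only [Ac]
    rw [hz w]
  · have := (hasFDerivAt_fst (𝕜 := ℂ) (E := ℂ) (F := ℂ)
        (p := (fun q : ℂ × ℂ => (stA n p q.1)^[j] (1, q.2)) (w, 0))).comp (w, 0) hd
    have h2 : fderiv ℂ (Ac n p j) (w, 0) = _ := this.fderiv
    rw [h2]
    simp

/-- `log Ac` near `(w, 0)` -/
theorem logAc_an (hp : AnalyticOnNhd ℂ p (ball 0 δ)) {w : ℂ} (hw : w ∈ ball (0:ℂ) δ) (j : ℕ) :
    AnalyticAt ℂ (fun q => log (Ac n p j q)) (w, 0) := by
  obtain ⟨h1, h2, -⟩ := Ac_an (n := n) hp hw j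
  refine h1.clog ?_
  rw [h2]; simp

theorem fam_Yl (hn : 0 < n) (hp : AnalyticOnNhd ℂ p (ball 0 δ)) (m : ℕ) :
    Fam m (Yl n p) (HP n δ) := by
  have key : ∀ j : ℕ, ∀ u ∈ HP n δ, AnalyticAt ℂ (Yl n p j) (u, 0) ∧ Yl n p j (u, 0) = u ∧
      fderiv ℂ (Yl n p j) (u, 0) (0, 1) = j := by
    intro j u hu
    have hw : exp (u / n) ∈ ball (0:ℂ) δ := mem_HP.mp hu
    obtain ⟨h1, h2, h3⟩ := Ac_an (n := n) hp hw j
    have hg : AnalyticAt ℂ (fun q : ℂ × ℂ => (exp (q.1 / n), q.2)) (u, 0) :=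
      (analyticAt_fst.div_const.cexp).prod analyticAt_snd
    have hc : AnalyticAt ℂ (fun q : ℂ × ℂ => Ac n p j (exp (q.1 / n), q.2)) (u, 0) :=
      AnalyticAt.fun_comp (by exact h1) hg
    have hv : Ac n p j (exp (u / n), 0) = 1 := h2
    have hl : AnalyticAt ℂ (fun q : ℂ × ℂ => log (Ac n p j (exp (q.1 / n), q.2))) (u, 0) := by
      refine hc.clog ?_
      simp only [hv]; simp
    refine ⟨analyticAt_fst.add hl, ?_, ?_⟩
    · simp only [Yl, hv, log_one, add_zero]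
    · -- derivative along `(0, 1)`
      have hY : AnalyticAt ℂ (Yl n p j) (u, 0) := analyticAt_fst.add hl
      have hline : HasDerivAt (fun E : ℂ => (u, E)) ((0:ℂ), (1:ℂ)) 0 :=
        (hasDerivAt_const (0:ℂ) u).prodMk (hasDerivAt_id (0:ℂ))
      have hline' : HasDerivAt (fun E : ℂ => (exp (u / n), E)) ((0:ℂ), (1:ℂ)) 0 :=
        (hasDerivAt_const (0:ℂ) _).prodMk (hasDerivAt_id (0:ℂ))
      have c1 : HasDerivAt (fun E : ℂ => Yl n p j (u, E)) (fderiv ℂ (Yl n p j) (u, 0) (0, 1)) 0 :=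
        hY.differentiableAt.hasFDerivAt.comp_hasDerivAt (0:ℂ) hline
      have c2 : HasDerivAt (fun E : ℂ => Ac n p j (exp (u / n), E)) (j:ℂ) 0 := by
        have := h1.differentiableAt.hasFDerivAt.comp_hasDerivAt (0:ℂ) hline'
        rw [h3] at this
        exact this
      have c3 : HasDerivAt (fun E : ℂ => Yl n p j (u, E)) ((j:ℂ) / 1) 0 := by
        have h5 : HasDerivAt (fun E : ℂ => log (Ac n p j (exp (u / n), E))) ((j:ℂ) / 1) 0 := by
          have := c2.clog (by rw [hv]; simp)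
          rwa [hv] at this
        exact h5.const_add u
      rw [c1.unique c3, div_one]
  exact ⟨isOpen_HP n δ, fun j _ u hu => (key j u hu).1, fun j _ u hu => (key j u hu).2.1,
    fun j _ u hu => (key j u hu).2.2⟩

/-- the partial derivatives in the second variable, restricted to `E = 0` -/
theorem iter_snd_an {G : ℂ × ℂ → ℂ} {U : Set ℂ} (hG : ∀ w ∈ U, AnalyticAt ℂ G (w, 0)) (k : ℕ) :
    AnalyticOnNhd ℂ (fun w => iteratedDeriv k (fun E => G (w, E)) 0) U := by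
  -- `D = ∂ / ∂ E`
  have hstep : ∀ (H : ℂ × ℂ → ℂ) (q : ℂ × ℂ), AnalyticAt ℂ H q →
      AnalyticAt ℂ (fun q => fderiv ℂ H q (0, 1)) q := fun H q hH =>
    (ContinuousLinearMap.apply ℂ ℂ ((0:ℂ), (1:ℂ))).analyticAt _ |>.comp hH.fderiv
  set D : (ℂ × ℂ → ℂ) → ℂ × ℂ → ℂ := fun H q => fderiv ℂ H q (0, 1) with hDdef
  have hDk : ∀ k : ℕ, ∀ q : ℂ × ℂ, AnalyticAt ℂ G q → AnalyticAt ℂ (D^[k] G) q := by
    intro k
    induction k with
    | zero => intro q hq; simpa using hq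
    | succ k ih =>
      intro q hq
      rw [Function.iterate_succ_apply']
      exact hstep _ _ (ih q hq)
  have hD1 : ∀ (H : ℂ × ℂ → ℂ) (q : ℂ × ℂ), AnalyticAt ℂ H q →
      deriv (fun E => H (q.1, E)) q.2 = D H q := by
    intro H q hH
    have hline : HasDerivAt (fun E : ℂ => (q.1, E)) ((0:ℂ), (1:ℂ)) q.2 :=
      (hasDerivAt_const (q.2:ℂ) q.1).prodMk (hasDerivAt_id (q.2:ℂ))
    have : HasDerivAt (fun E : ℂ => H (q.1, E)) (fderiv ℂ H q (0, 1)) q.2 :=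
      HasFDerivAt.comp_hasDerivAt (x := q.2) (f := fun E : ℂ => (q.1, E))
        (hH.differentiableAt.hasFDerivAt) hline
    exact this.deriv
  have hk : ∀ k : ℕ, ∀ q : ℂ × ℂ, AnalyticAt ℂ G q →
      iteratedDeriv k (fun E => G (q.1, E)) q.2 = (D^[k] G) q := by
    intro k
    induction k with
    | zero => intro q _; simp
    | succ k ih =>
      intro q hq
      rw [iteratedDeriv_succ, Function.iterate_succ_apply']
      rw [← hD1 _ _ (hDk k q hq)]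
      refine Filter.EventuallyEq.deriv_eq ?_
      have hev : ∀ᶠ E in 𝓝 q.2, AnalyticAt ℂ G (q.1, E) := by
        have hc : ContinuousAt (fun E : ℂ => (q.1, E)) q.2 := by fun_prop
        exact hc.eventually (hq.eventually_analyticAt)
      filter_upwards [hev] with E hE
      exact ih (q.1, E) hE
  intro w hw
  have h1 : AnalyticAt ℂ (fun v : ℂ => (D^[k] G) (v, 0)) w :=
    AnalyticAt.fun_comp (f := fun v : ℂ => (v, (0:ℂ))) (hDk k (w, 0) (hG w hw))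
      (analyticAt_id.prod analyticAt_const)
  refine h1.congr ?_
  have hev : ∀ᶠ v in 𝓝 w, AnalyticAt ℂ G (v, 0) := by
    have hc : ContinuousAt (fun v : ℂ => (v, (0:ℂ))) w := by fun_prop
    exact hc.eventually (hG w hw).eventually_analyticAt
  filter_upwards [hev] with v hv
  exact (hk k (v, 0) hv).symm

theorem jet_Yl (hn : 0 < n) (hp : AnalyticOnNhd ℂ p (ball 0 δ)) (j k : ℕ) (hk : 1 ≤ k) :
    ∃ f ∈ ClE n δ, AnalyticOnNhd ℂ f (HP n δ) ∧
      ∀ Z ∈ HP n δ, f Z = iteratedDeriv k (fun E => Yl n p j (Z, E)) 0 := by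
  have hg := iter_snd_an (G := fun q => log (Ac n p j q)) (U := ball (0:ℂ) δ)
    (fun w hw => logAc_an (n := n) hp hw j) k
  set g : ℂ → ℂ := fun w => iteratedDeriv k (fun E => log (Ac n p j (w, E))) 0 with hgdef
  refine ⟨fun Z => g (exp (Z / n)), ⟨g, hg, fun Z _ => rfl⟩, ?_, ?_⟩
  · intro Z hZ
    exact AnalyticAt.fun_comp (hg _ (mem_HP.mp hZ)) (analyticAt_id.div_const.cexp)
  · intro Z hZ
    simp only [hgdef, Yl]
    obtain ⟨k, rfl⟩ : ∃ k', k = k' + 1 := ⟨k - 1, by omega⟩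
    rw [iteratedDeriv_succ', iteratedDeriv_succ']
    congr 1
    funext E
    rw [deriv_const_add]

/-- the functions of the class are bounded on smaller half planes -/
theorem bdd_ClE {δ' : ℝ} (hδ : δ' < δ) {f : ℂ → ℂ} (hf : f ∈ ClE n δ) :
    ∃ K : ℝ, ∀ Z ∈ HP n δ', ‖f Z‖ ≤ K := by
  obtain ⟨g, hg, hfg⟩ := hf
  have hc : ContinuousOn g (closedBall (0:ℂ) δ') := fun w hw =>
    (hg w (closedBall_subset_ball hδ hw)).continuousAt.continuousWithinAt
  obtain ⟨K, hK⟩ := (isCompact_closedBall (0:ℂ) δ').exists_bound_of_continuousOn hc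
  refine ⟨K, fun Z hZ => ?_⟩
  have hZ' : Z ∈ HP n δ := lt_trans hZ hδ
  rw [hfg Z hZ']
  refine hK _ ?_
  rw [mem_closedBall_zero_iff]
  exact le_of_lt hZ

end Pool.Agent.MP_ae5b4e_an_NB1B
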