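import Pool.Agent.Lib.MP_ae5b4e_an_NB1B.PlA
import Pool.Agent.Lib.MP_ae5b4e_an_NB1B.Chg
import Pool.Agent.Lib.MP_ae5b4e_an_NB1B.Chain

/-!
# MP_ae5b4e_an, NB_1 section 3: relations near a place in the logarithmic coordinate
-/

noncomputable section

namespace Pool.Agent.MP_ae5b4e_an_NB1B

open Complex Set Filter Topology Metric
open Pool.Agent.MP_ae5b4e_an_NBT
open Pool.Agent.MP_ae5b4e_an_ND (TI)

variable {m k n : ℕ} {p κ : ℂ → ℂ} {δ : ℝ} {e Z₁ : ℂ}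

private lemma plb_lim (hp : AnalyticOnNhd ℂ p (ball 0 δ)) (hZ : Z₁ ∈ HP n δ) (j : ℕ) :
    Tendsto (fun q : ℂ × ℂ => Ac n p j (exp (q.1 / n), q.2)) (𝓝 (Z₁, 0)) (𝓝 1) := by
  have hw : exp (Z₁ / n) ∈ ball (0:ℂ) δ := by
    rw [mem_ball_zero_iff]; exact hZ
  obtain ⟨h1, h2, -⟩ := Ac_an hp hw (n := n) j
  have h3 : Tendsto (fun q : ℂ × ℂ => ((exp (q.1 / n), q.2) : ℂ × ℂ)) (𝓝 (Z₁, 0))
      (𝓝 (exp (Z₁ / n), 0)) := by
    have : Continuous fun q : ℂ × ℂ => ((exp (q.1 / n), q.2) : ℂ × ℂ) := by fun_prop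
    exact this.tendsto (Z₁, 0)
  have h4 := h1.continuousAt.tendsto
  rw [h2] at h4
  exact h4.comp h3

private lemma plb_main (hp : AnalyticOnNhd ℂ p (ball 0 δ)) (hZ : Z₁ ∈ HP n δ)
    (hκp : ∀ᶠ Z in 𝓝 Z₁, κ (e + exp Z) = p (exp (Z / n)) / exp Z) (j : ℕ) :
    ∀ᶠ q in 𝓝 ((Z₁, 0) : ℂ × ℂ), (TI κ)^[j] (e + exp q.1, exp q.1 * q.2) =
      (e + exp q.1 * ((stA n p (exp (q.1 / n)))^[j] (1, q.2)).1,
        exp q.1 * ((stA n p (exp (q.1 / n)))^[j] (1, q.2)).2) := by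
  induction j with
  | zero =>
    refine Eventually.of_forall fun q => ?_
    simp
  | succ j ih =>
    have hlim := plb_lim (n := n) hp hZ (j + 1)
    have hl : Tendsto (fun q : ℂ × ℂ => q.1 + log (Ac n p (j + 1) (exp (q.1 / n), q.2)))
        (𝓝 (Z₁, 0)) (𝓝 Z₁) := by
      have h1 : Tendsto (fun q : ℂ × ℂ => log (Ac n p (j + 1) (exp (q.1 / n), q.2)))
          (𝓝 (Z₁, 0)) (𝓝 (log 1)) :=
        ((continuousAt_clog (by simp : (1:ℂ) ∈ slitPlane)).tendsto).comp hlim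
      rw [log_one] at h1
      have h2 : Tendsto (fun q : ℂ × ℂ => q.1) (𝓝 (Z₁, 0)) (𝓝 Z₁) :=
        continuous_fst.tendsto ((Z₁, 0) : ℂ × ℂ)
      have h3 := h2.add h1
      rwa [add_zero] at h3
    have hne : ∀ᶠ q in 𝓝 ((Z₁, 0) : ℂ × ℂ), Ac n p (j + 1) (exp (q.1 / n), q.2) ≠ 0 :=
      hlim.eventually_ne one_ne_zero
    filter_upwards [ih, hl.eventually hκp, hne] with q hq hk hA
    rw [Function.iterate_succ_apply', hq, Function.iterate_succ_apply']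
    have hAc : Ac n p (j + 1) (exp (q.1 / n), q.2) =
        ((stA n p (exp (q.1 / n)))^[j] (1, q.2)).1 +
          ((stA n p (exp (q.1 / n)))^[j] (1, q.2)).2 := by
      unfold Ac
      rw [Function.iterate_succ_apply']
      rfl
    set s := (stA n p (exp (q.1 / n)))^[j] (1, q.2) with hs
    rw [hAc] at hk hA
    have hex : exp (q.1 + log (s.1 + s.2)) = exp q.1 * (s.1 + s.2) := by
      rw [exp_add, exp_log hA]
    have hex2 : exp ((q.1 + log (s.1 + s.2)) / n) = exp (q.1 / n) * exp (log (s.1 + s.2) / n) := by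
      rw [← exp_add]; congr 1; ring
    rw [hex, hex2] at hk
    have hz : exp q.1 ≠ 0 := exp_ne_zero _
    have hx : e + exp q.1 * s.1 + exp q.1 * s.2 = e + exp q.1 * (s.1 + s.2) := by ring
    unfold TI stA
    simp only
    rw [hx, hk]
    refine Prod.ext rfl ?_
    simp only
    unfold qA
    rw [mul_div_assoc]
    congr 2
    field_simp

/-- the polygons of `κ` near `e + exp Z₁` -/
theorem yc_Yl (hn : 0 < n) (hp : AnalyticOnNhd ℂ p (ball 0 δ)) (hZ : Z₁ ∈ HP n δ)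
    (hκ : AnalyticAt ℂ κ (e + exp Z₁))
    (hκp : ∀ᶠ Z in 𝓝 Z₁, κ (e + exp Z) = p (exp (Z / n)) / exp Z) (j : ℕ) :
    ∀ᶠ q in 𝓝 ((Z₁, 0) : ℂ × ℂ), yc κ j (e + exp q.1, exp q.1 * q.2) = e + exp (Yl n p j q) := by
  have hne : ∀ᶠ q in 𝓝 ((Z₁, 0) : ℂ × ℂ), Ac n p j (exp (q.1 / n), q.2) ≠ 0 :=
    (plb_lim (n := n) hp hZ j).eventually_ne one_ne_zero
  filter_upwards [plb_main hp hZ hκp j, hne] with q hq hA
  unfold yc Yl
  rw [hq, exp_add, exp_log hA]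
  rfl

theorem rl_Yl (hn : 0 < n) (hp : AnalyticOnNhd ℂ p (ball 0 δ)) (hZ : Z₁ ∈ HP n δ)
    (hκ : AnalyticAt ℂ κ (e + exp Z₁))
    (hκp : ∀ᶠ Z in 𝓝 Z₁, κ (e + exp Z) = p (exp (Z / n)) / exp Z) (a : ℕ → ℂ → ℂ) :
    Rl m (yc κ) a (e + exp Z₁) ↔ Rl m (Yl n p) (fun j Z => a j (e + exp Z) * exp Z) Z₁ := by
  set θ : ℂ → ℂ := fun Z => e + exp Z with hθ
  set Θ : ℂ × ℂ → ℂ × ℂ := fun q => (e + exp q.1, exp q.1 * q.2) with hΘ
  have hderiv : ∀ Z, HasDerivAt θ (exp Z) Z := fun Z => (hasDerivAt_exp Z).const_add e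
  have hθa : AnalyticAt ℂ θ Z₁ := by
    rw [hθ]; fun_prop
  have hΘa : AnalyticAt ℂ Θ (Z₁, 0) := by
    have h1 : AnalyticAt ℂ (fun q : ℂ × ℂ => exp q.1) (Z₁, 0) := analyticAt_fst.cexp
    exact (analyticAt_const.add h1).prod (h1.mul analyticAt_snd)
  have hΘi : ∃ e' : (ℂ × ℂ) ≃L[ℂ] (ℂ × ℂ), HasFDerivAt Θ (e' : ℂ × ℂ →L[ℂ] ℂ × ℂ) (Z₁, 0) := by
    refine ⟨ContinuousLinearEquiv.smulLeft (Units.mk0 (exp Z₁) (exp_ne_zero _)), ?_⟩
    have h1 : HasFDerivAt (fun q : ℂ × ℂ => exp q.1) (exp Z₁ • ContinuousLinearMap.fst ℂ ℂ ℂ)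
        (Z₁, 0) := by
      have h2 : HasFDerivAt (fun q : ℂ × ℂ => q.1) (ContinuousLinearMap.fst ℂ ℂ ℂ) (Z₁, 0) :=
        hasFDerivAt_fst
      exact h2.cexp
    have h3 : HasFDerivAt (fun q : ℂ × ℂ => exp q.1 * q.2)
        (exp Z₁ • ContinuousLinearMap.snd ℂ ℂ ℂ +
          (0:ℂ) • (exp Z₁ • ContinuousLinearMap.fst ℂ ℂ ℂ)) (Z₁, 0) :=
      h1.mul hasFDerivAt_snd
    have h4 := (h1.const_add e).prodMk h3
    refine h4.congr_fderiv ?_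
    ext v <;> simp [Units.smul_def]
  have hθd : deriv θ Z₁ ≠ 0 := by
    rw [(hderiv Z₁).deriv]; exact exp_ne_zero _
  have hF := fam_Yl hn hp m
  obtain ⟨r, hr, hκr⟩ := hκ.exists_ball_analyticOnNhd
  have hG := fam_yc m isOpen_ball hκr
  have hmem : e + exp Z₁ ∈ ball (e + exp Z₁) r := mem_ball_self hr
  have key := rl_change (m := m) (y := yc κ) (Y := Yl n p) (u := Z₁) (θ := θ) (Θ := Θ) hΘa
    (by simp [hΘ, hθ]) hΘi hθa hθd (fun j hj => hF.an j hj Z₁ hZ) (fun j hj => hF.zero j hj Z₁ hZ)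
    (fun j hj => hG.an j hj _ hmem) (fun j hj => hG.zero j hj _ hmem)
    (fun j _ => yc_Yl hn hp hZ hκ hκp j) a
  have hfun : (fun j v => a j (θ v) * deriv θ v) = fun j Z => a j (e + exp Z) * exp Z := by
    funext j v
    rw [(hderiv v).deriv]
  rw [hfun] at key
  exact key

end Pool.Agent.MP_ae5b4e_an_NB1B
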