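import Pool.Agent.Lib.MP_ae5b4e_an_NB1B.PlB
import Pool.Agent.Lib.MP_ae5b4e_an_NB1B.SttL

/-!
# MP_ae5b4e_an, NB_1 section 3: continuation of the distinguished relation around a place
-/

noncomputable section

namespace Pool.Agent.MP_ae5b4e_an_NB1B

open Complex Set Filter Topology Metric
open Pool.Agent.MP_ae5b4e_an_NBT

variable {m k n : ℕ} {p g : ℂ → ℂ} {δ : ℝ} {e w₁ : ℂ} {κ₁ : ℂ → ℂ} {a : ℕ → ℂ → ℂ}

/-- the state of the functions `ψ j Z = a j (e + exp Z) * exp Z` at `Z` -/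
def QZ (m k n : ℕ) (p : ℂ → ℂ) (e : ℂ) (ψ : ℕ → ℂ → ℂ) (Z : ℂ) : Prop :=
  ∃ (κ : ℂ → ℂ) (a : ℕ → ℂ → ℂ), Stt m k κ a (e + exp Z) ∧
    (∀ᶠ Z' in 𝓝 Z, κ (e + exp Z') = p (exp (Z' / n)) / exp Z') ∧
    ∀ j ≤ m, ∀ᶠ Z' in 𝓝 Z, ψ j Z' = a j (e + exp Z') * exp Z'

private theorem ev_exp {P : ℂ → Prop} {e Z : ℂ} :
    (∀ᶠ Z' in 𝓝 Z, P (e + exp Z')) ↔ ∀ᶠ x in 𝓝 (e + exp Z), P x := by
  have h1 : HasStrictDerivAt (fun Z' : ℂ => e + exp Z') (exp Z) Z :=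
    (Complex.hasStrictDerivAt_exp Z).const_add e
  have h2 := h1.map_nhds_eq (exp_ne_zero Z)
  rw [← h2, eventually_map]

private theorem cont_exp (e Z : ℂ) : ContinuousAt (fun Z' : ℂ => e + exp Z') Z := by
  fun_prop

private theorem local_kappa (hp : AnalyticOnNhd ℂ p (ball 0 δ)) {Z₀ : ℂ}
    (hZ₀ : Z₀ ∈ HP n δ) (e : ℂ) : ∃ r > 0, ∃ κ₀ : ℂ → ℂ,
      AnalyticOnNhd ℂ κ₀ (ball (e + exp Z₀) r) ∧ ∃ ρ > 0, ball Z₀ ρ ⊆ HP n δ ∧
        ∀ Z ∈ ball Z₀ ρ, e + exp Z ∈ ball (e + exp Z₀) r ∧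
          κ₀ (e + exp Z) = p (exp (Z / n)) / exp Z := by
  have hz0 : exp Z₀ ≠ 0 := exp_ne_zero Z₀
  have hx1 : (e + exp Z₀ - e) / exp Z₀ = 1 := by
    rw [add_sub_cancel_left, div_self hz0]
  have hLan : ∀ x : ℂ, (x - e) / exp Z₀ ∈ slitPlane →
      AnalyticAt ℂ (fun x => Z₀ + log ((x - e) / exp Z₀)) x := by
    intro x hx
    exact analyticAt_const.add (((analyticAt_id.sub analyticAt_const).div_const).clog hx)
  have hL0 : Z₀ + log ((e + exp Z₀ - e) / exp Z₀) = Z₀ := by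
    rw [hx1, log_one, add_zero]
  have h1s : (e + exp Z₀ - e) / exp Z₀ ∈ slitPlane := by
    rw [hx1]
    exact one_mem_slitPlane
  have hev : ∀ᶠ x in 𝓝 (e + exp Z₀), (x - e) / exp Z₀ ∈ slitPlane ∧
      Z₀ + log ((x - e) / exp Z₀) ∈ HP n δ := by
    refine Filter.Eventually.and ?_ ?_
    · have hc : ContinuousAt (fun x : ℂ => (x - e) / exp Z₀) (e + exp Z₀) := by fun_prop
      exact hc.eventually (isOpen_slitPlane.mem_nhds h1s)
    · refine (hLan _ h1s).continuousAt.eventually ?_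
      show ∀ᶠ y in 𝓝 (Z₀ + log ((e + exp Z₀ - e) / exp Z₀)), y ∈ HP n δ
      rw [hL0]
      exact (isOpen_HP n δ).mem_nhds hZ₀
  obtain ⟨r, hr, hB⟩ := Metric.eventually_nhds_iff_ball.mp hev
  refine ⟨r, hr, fun x => p (exp ((Z₀ + log ((x - e) / exp Z₀)) / n)) / (x - e), ?_, ?_⟩
  · intro x hx
    obtain ⟨hx1', hx2⟩ := hB x hx
    have hne : x - e ≠ 0 := by
      intro h
      rw [h, zero_div] at hx1'
      exact zero_notMem_slitPlane hx1'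
    have hpa : AnalyticAt ℂ p (exp ((Z₀ + log ((x - e) / exp Z₀)) / n)) := by
      refine hp _ ?_
      rw [mem_ball_zero_iff]
      exact hx2
    refine AnalyticAt.div ?_ (analyticAt_id.sub analyticAt_const) hne
    have h3 : AnalyticAt ℂ (fun x => exp ((Z₀ + log ((x - e) / exp Z₀)) / n)) x :=
      ((hLan x hx1').div_const).cexp
    exact AnalyticAt.comp (g := p)
      (f := fun x => exp ((Z₀ + log ((x - e) / exp Z₀)) / n)) hpa h3
  · have hev2 : ∀ᶠ Z in 𝓝 Z₀, Z ∈ HP n δ ∧ e + exp Z ∈ ball (e + exp Z₀) r ∧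
        |(Z - Z₀).im| < Real.pi := by
      have h0 : ∀ᶠ Z in 𝓝 Z₀, Z ∈ HP n δ := (isOpen_HP n δ).mem_nhds hZ₀
      refine h0.and (Filter.Eventually.and ?_ ?_)
      · exact (cont_exp e Z₀).eventually (ball_mem_nhds _ hr)
      · have hc : ContinuousAt (fun Z : ℂ => |(Z - Z₀).im|) Z₀ :=
          (Complex.continuous_im.comp (continuous_id.sub continuous_const)).abs.continuousAt
        refine hc.eventually (Iio_mem_nhds ?_)
        simp [Real.pi_pos]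
    obtain ⟨ρ, hρ, hW⟩ := Metric.eventually_nhds_iff_ball.mp hev2
    refine ⟨ρ, hρ, fun Z hZ => (hW Z hZ).1, fun Z hZ => ⟨(hW Z hZ).2.1, ?_⟩⟩
    obtain ⟨-, -, him⟩ := hW Z hZ
    have him' := abs_lt.mp him
    show p (exp ((Z₀ + log ((e + exp Z - e) / exp Z₀)) / n)) / (e + exp Z - e) = _
    rw [add_sub_cancel_left, ← Complex.exp_sub, log_exp him'.1 him'.2.le, add_sub_cancel]

private theorem QZ_open (m k n : ℕ) (p : ℂ → ℂ) (e : ℂ) (ψ : ℕ → ℂ → ℂ) :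
    IsOpen {Z | QZ m k n p e ψ Z} := by
  rw [isOpen_iff_mem_nhds]
  rintro Z ⟨κ, a, hS, hκ, hψ⟩
  have h1 := (cont_exp e Z).eventually hS.eventually
  have h2 := hκ.eventually_nhds
  have h3 : ∀ᶠ Z' in 𝓝 Z, ∀ j ∈ Finset.range (m + 1), ∀ᶠ Z'' in 𝓝 Z',
      ψ j Z'' = a j (e + exp Z'') * exp Z'' := by
    rw [Filter.eventually_all_finset]
    intro j hj
    exact (hψ j (Nat.lt_succ_iff.mp (Finset.mem_range.mp hj))).eventually_nhds
  filter_upwards [h1, h2, h3] with Z' h1 h2 h3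
  exact ⟨κ, a, h1, h2, fun j hj => h3 j (Finset.mem_range.mpr (Nat.lt_succ_iff.mpr hj))⟩

private theorem QZ_all (hn : 0 < n) (hp : AnalyticOnNhd ℂ p (ball 0 δ)) {Z₁ : ℂ}
    (hZ₁ : Z₁ ∈ HP n δ) {ψ : ℕ → ℂ → ℂ} (hψ : ∀ j ≤ m, AnalyticOnNhd ℂ (ψ j) (HP n δ))
    (h1 : QZ m k n p e ψ Z₁) : ∀ Z ∈ HP n δ, QZ m k n p e ψ Z := by
  have hpc : IsPreconnected (HP n δ) := (convex_HP hn δ).isPreconnected
  refine hpc.subset_of_closure_inter_subset (QZ_open m k n p e ψ) ⟨Z₁, hZ₁, h1⟩ ?_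
  rintro Z₀ ⟨hcl, hZ₀⟩
  obtain ⟨r, hr, κ₀, hκ₀, ρ, hρ, hsub, hW⟩ := local_kappa hp hZ₀ e
  obtain ⟨Z', hZ', hQ⟩ := mem_closure_iff.mp hcl (ball Z₀ ρ) isOpen_ball (mem_ball_self hρ)
  obtain ⟨κ', a', hS', hκ', hψ'⟩ := hQ
  have hx' : e + exp Z' ∈ ball (e + exp Z₀) r := (hW Z' hZ').1
  have hκκ : κ' =ᶠ[𝓝 (e + exp Z')] κ₀ := by
    refine ev_exp.mp ?_
    filter_upwards [hκ', isOpen_ball.mem_nhds hZ'] with Z h1 h2
    rw [h1, (hW Z h2).2]
  have hS2 : Stt m k κ₀ a' (e + exp Z') := hS'.congr hκκ fun j _ => EventuallyEq.rfl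
  obtain ⟨a'', ha'', haa, hS3⟩ := hS2.ext hx' hκ₀
  refine ⟨κ₀, a'', hS3 _ (mem_ball_self hr), ?_, fun j hj => ?_⟩
  · filter_upwards [ball_mem_nhds Z₀ hρ] with Z hZ
    exact (hW Z hZ).2
  · have hA1 : AnalyticOnNhd ℂ (ψ j) (ball Z₀ ρ) := (hψ j hj).mono hsub
    have hA2 : AnalyticOnNhd ℂ (fun Z => a'' j (e + exp Z) * exp Z) (ball Z₀ ρ) := by
      intro Z hZ
      have h3 : AnalyticAt ℂ (fun Z : ℂ => e + exp Z) Z := analyticAt_const.add analyticAt_cexp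
      have h4 : AnalyticAt ℂ (a'' j) (e + exp Z) := ha'' j hj _ (hW Z hZ).1
      have h5 : AnalyticAt ℂ (fun Z => a'' j (e + exp Z)) Z :=
        AnalyticAt.comp (g := a'' j) (f := fun Z : ℂ => e + exp Z) h4 h3
      exact h5.mul analyticAt_cexp
    have hloc : ψ j =ᶠ[𝓝 Z'] fun Z => a'' j (e + exp Z) * exp Z := by
      filter_upwards [hψ' j hj, (cont_exp e Z').eventually (haa j hj)] with Z h1 h2
      rw [h1, h2]
    have heq := hA1.eqOn_of_preconnected_of_eventuallyEq hA2 (convex_ball Z₀ ρ).isPreconnected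
      hZ' hloc
    filter_upwards [ball_mem_nhds Z₀ hρ] with Z hZ
    exact heq hZ

private theorem Mo_eq {ψ : ℕ → ℂ → ℂ} {a : ℕ → ℂ → ℂ} {Z x c : ℂ}
    (h : ∀ j ≤ m, ψ j Z = a j x * c) : Mo m k ψ Z = Mo m k a x * c := by
  unfold Mo lam
  rw [Finset.sum_mul]
  refine Finset.sum_congr rfl fun l hl => ?_
  rw [mul_assoc, Finset.sum_mul]
  congr 1
  refine Finset.sum_congr rfl fun i hi => h i ?_
  have h1 := Finset.mem_range.mp hl
  have h2 := Finset.mem_range.mp hi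
  omega

private theorem Bt_deriv {ψ : ℕ → ℂ → ℂ} {Z : ℂ} (h : QZ m k n p e ψ Z) :
    HasDerivAt (Mo m k ψ) ((p (exp (Z / n)) + 1) * Mo m k ψ Z) Z := by
  obtain ⟨κ, a, hS, hκ, hψ⟩ := h
  have hall : ∀ᶠ Z' in 𝓝 Z, ∀ j ∈ Finset.range (m + 1), ψ j Z' = a j (e + exp Z') * exp Z' := by
    rw [Filter.eventually_all_finset]
    intro j hj
    exact hψ j (Nat.lt_succ_iff.mp (Finset.mem_range.mp hj))
  have hB : Mo m k ψ =ᶠ[𝓝 Z] fun Z' => Mo m k a (e + exp Z') * exp Z' := by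
    filter_upwards [hall] with Z' h1
    exact Mo_eq fun j hj => h1 j (Finset.mem_range.mpr (Nat.lt_succ_iff.mpr hj))
  have h1 : HasDerivAt (fun Z' : ℂ => e + exp Z') (exp Z) Z := (hasDerivAt_exp Z).const_add e
  have h2 := hS.ode.self_of_nhds
  have h3 : HasDerivAt (fun Z' => Mo m k a (e + exp Z'))
      (κ (e + exp Z) * Mo m k a (e + exp Z) * exp Z) Z :=
    HasDerivAt.comp (h₂ := Mo m k a) (h := fun Z' : ℂ => e + exp Z') Z h2 h1
  have h4 := h3.mul (hasDerivAt_exp Z)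
  have h5 := h4.congr_of_eventuallyEq hB
  have hez : exp Z ≠ 0 := exp_ne_zero Z
  refine h5.congr_deriv ?_
  rw [hB.self_of_nhds, hκ.self_of_nhds]
  field_simp

private theorem Bt_ne {ψ : ℕ → ℂ → ℂ} {Z : ℂ} (h : QZ m k n p e ψ Z) : Mo m k ψ Z ≠ 0 := by
  obtain ⟨κ, a, hS, hκ, hψ⟩ := h
  rw [Mo_eq (m := m) (k := k) (a := a) (x := e + exp Z) (c := exp Z)
    fun j hj => (hψ j hj).self_of_nhds]
  exact mul_ne_zero hS.ne (exp_ne_zero Z)

private theorem exp_shift (hn : 0 < n) (Z : ℂ) :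
    exp ((Z + 2 * Real.pi * I * n) / n) = exp (Z / n) := by
  have hn' : (n : ℂ) ≠ 0 := by exact_mod_cast hn.ne'
  rw [add_div, mul_div_assoc, div_self hn', mul_one, Complex.exp_add, Complex.exp_two_pi_mul_I,
    mul_one]

private theorem exp_shift' (n : ℕ) (Z : ℂ) : exp (Z + 2 * Real.pi * I * n) = exp Z := by
  rw [Complex.exp_add]
  have h : exp (2 * Real.pi * I * n) = 1 := by
    rw [mul_comm]
    exact Complex.exp_nat_mul_two_pi_mul_I n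
  rw [h, mul_one]

private theorem HP_shift (hn : 0 < n) {Z : ℂ} (hZ : Z ∈ HP n δ) :
    Z + 2 * Real.pi * I * n ∈ HP n δ := by
  show ‖exp ((Z + 2 * Real.pi * I * n) / n)‖ < δ
  rw [exp_shift hn]
  exact hZ

private theorem Bt_mult (hn : 0 < n) (hδ : 0 < δ) (hp : AnalyticOnNhd ℂ p (ball 0 δ))
    {B : ℂ → ℂ} (hB : ∀ Z ∈ HP n δ, HasDerivAt B ((p (exp (Z / n)) + 1) * B Z) Z) {Z : ℂ}
    (hZ : Z ∈ HP n δ) :
    B (Z + 2 * Real.pi * I * n) = exp (2 * Real.pi * I * n * p 0) * B Z := by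
  have hn' : (n : ℂ) ≠ 0 := by exact_mod_cast hn.ne'
  have hpd : DifferentiableOn ℂ p (ball 0 δ) := hp.differentiableOn
  have hq : DifferentiableOn ℂ (dslope p 0) (ball 0 δ) :=
    (Complex.differentiableOn_dslope (ball_mem_nhds 0 hδ)).mpr hpd
  obtain ⟨Q, hQ⟩ := hq.isExactOn_ball
  have hG : ∀ Y ∈ HP n δ, HasDerivAt
      (fun Y => B Y * exp (-((1 + p 0) * Y + n * Q (exp (Y / n))))) 0 Y := by
    intro Y hY
    have hw : exp (Y / n) ∈ ball (0:ℂ) δ := by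
      rw [mem_ball_zero_iff]
      exact hY
    have h1 : HasDerivAt (fun Y : ℂ => exp (Y / n)) (exp (Y / n) * (1 / n)) Y :=
      ((hasDerivAt_id Y).div_const (n : ℂ)).cexp
    have h2 : HasDerivAt (fun Y => Q (exp (Y / n)))
        (dslope p 0 (exp (Y / n)) * (exp (Y / n) * (1 / n))) Y := (hQ _ hw).comp Y h1
    have h3 : HasDerivAt (fun Y : ℂ => (1 + p 0) * Y) (1 + p 0) Y := by
      have := (hasDerivAt_id Y).const_mul (1 + p 0)
      rwa [mul_one] at this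
    have h4 := ((h3.add (h2.const_mul (n : ℂ))).neg).cexp
    have h5 := (hB Y hY).mul h4
    have hs : exp (Y / n) * dslope p 0 (exp (Y / n)) = p (exp (Y / n)) - p 0 := by
      have := sub_smul_dslope p 0 (exp (Y / n))
      rwa [sub_zero, smul_eq_mul] at this
    refine h5.congr_deriv ?_
    have e1 : (n : ℂ) * (dslope p 0 (exp (Y / n)) * (exp (Y / n) * (1 / n))) =
        p (exp (Y / n)) - p 0 := by
      rw [← hs]
      field_simp
    rw [e1]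
    ring
  have hconst := (isOpen_HP n δ).is_const_of_deriv_eq_zero (convex_HP hn δ).isPreconnected
    (fun Y hY => (hG Y hY).differentiableAt.differentiableWithinAt)
    (fun Y hY => (hG Y hY).deriv) (HP_shift hn hZ) hZ
  simp only [exp_shift hn] at hconst
  have he : exp (-((1 + p 0) * Z + n * Q (exp (Z / n)))) =
      exp (-((1 + p 0) * (Z + 2 * Real.pi * I * n) + n * Q (exp (Z / n)))) *
        exp (2 * Real.pi * I * n * p 0) := by
    have h7 : -((1 + p 0) * (Z + 2 * Real.pi * I * n) + n * Q (exp (Z / n))) +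
        2 * Real.pi * I * n * p 0 + 2 * Real.pi * I * n =
        -((1 + p 0) * Z + n * Q (exp (Z / n))) := by ring
    rw [← Complex.exp_add, ← exp_shift' n (-((1 + p 0) * (Z + 2 * Real.pi * I * n) +
      n * Q (exp (Z / n))) + 2 * Real.pi * I * n * p 0), h7]
  rw [he] at hconst
  have hne := exp_ne_zero (-((1 + p 0) * (Z + 2 * Real.pi * I * n) + n * Q (exp (Z / n))))
  refine mul_right_cancel₀ hne ?_
  rw [hconst]
  ring

/-- the continuation to the half plane, with the multiplier `exp (2 π i n p 0)` -/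
theorem exists_psi (hn : 0 < n) (hδ : 0 < δ) (hp : AnalyticOnNhd ℂ p (ball 0 δ)) {Z₁ : ℂ}
    (hZ₁ : Z₁ ∈ HP n δ) (hS : Stt m k κ₁ a (e + exp Z₁))
    (hκ : ∀ᶠ Z in 𝓝 Z₁, κ₁ (e + exp Z) = p (exp (Z / n)) / exp Z) :
    ∃ ψ : ℕ → ℂ → ℂ, (∀ j ≤ m, AnalyticOnNhd ℂ (ψ j) (HP n δ)) ∧
      (∀ j ≤ m, ∀ᶠ Z in 𝓝 Z₁, ψ j Z = a j (e + exp Z) * exp Z) ∧
      (∀ Z ∈ HP n δ, QZ m k n p e ψ Z) ∧
      (∀ j ≤ m, ∀ Z ∈ HP n δ, ψ j (Z + 2 * Real.pi * I * n) =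
        exp (2 * Real.pi * I * n * p 0) * ψ j Z) ∧
      ∀ δ' < δ, ∀ Z₂ ∈ HP n δ', ∃ C K : ℝ, 0 ≤ C ∧ 0 ≤ K ∧
        ∀ j ≤ m, ∀ Z ∈ HP n δ', ‖ψ j Z‖ ≤ C * Real.exp (K * ‖Z - Z₂‖) := by
  have hrl := (rl_Yl (m := m) hn hp hZ₁ hS.good.1 hκ a).mp hS.rl
  obtain ⟨ψ, hψ, hψ1, hψR⟩ := rl_ext (fam_Yl hn hp m) (convex_HP hn δ) hZ₁ hrl
  have hQ1 : QZ m k n p e ψ Z₁ := ⟨κ₁, a, hS, hκ, hψ1⟩
  have hQ := QZ_all hn hp hZ₁ hψ hQ1
  refine ⟨ψ, hψ, hψ1, hQ, ?_, ?_⟩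
  · intro j hj Z hZ
    have hZT := HP_shift hn hZ
    obtain ⟨κ, b, hS1, hκ1, hb⟩ := hQ Z hZ
    obtain ⟨κ₂, b₂, hS2, hκ2, hb2⟩ := hQ _ hZT
    rw [exp_shift'] at hS2
    have hc : exp (2 * Real.pi * I * n * p 0) ≠ 0 := exp_ne_zero _
    have hκκ : κ =ᶠ[𝓝 (e + exp Z)] κ₂ := by
      refine ev_exp.mp ?_
      have hT : ContinuousAt (fun Z' : ℂ => Z' + 2 * Real.pi * I * n) Z := by fun_prop
      filter_upwards [hκ1, hT.eventually hκ2] with Z' h1 h2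
      rw [exp_shift hn, exp_shift'] at h2
      rw [h1, h2]
    have hM := Bt_mult hn hδ hp (fun Y hY => Bt_deriv (hQ Y hY)) hZ
    have hb' : ∀ i ≤ m, ψ i Z = b i (e + exp Z) * exp Z := fun i hi => (hb i hi).self_of_nhds
    have hb2' : ∀ i ≤ m, ψ i (Z + 2 * Real.pi * I * n) = b₂ i (e + exp Z) * exp Z := by
      intro i hi
      have h := (hb2 i hi).self_of_nhds
      rwa [exp_shift'] at h
    rw [Mo_eq hb2', Mo_eq hb'] at hM
    have hM2 : Mo m k b₂ (e + exp Z) =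
        exp (2 * Real.pi * I * n * p 0) * Mo m k b (e + exp Z) := by
      refine mul_right_cancel₀ (exp_ne_zero Z) ?_
      rw [hM]
      ring
    have hS3 := hS2.smul (inv_ne_zero hc)
    have hM3 : Mo m k b (e + exp Z) =
        Mo m k (fun j v => (exp (2 * Real.pi * I * n * p 0))⁻¹ * b₂ j v) (e + exp Z) := by
      have h8 : Mo m k (fun j v => (exp (2 * Real.pi * I * n * p 0))⁻¹ * b₂ j v) (e + exp Z) =
          Mo m k b₂ (e + exp Z) * (exp (2 * Real.pi * I * n * p 0))⁻¹ :=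
        Mo_eq fun i _ => mul_comm _ _
      rw [h8, hM2]
      field_simp
    have h9 := (hS1.unique hS3 hκκ hM3 j hj).self_of_nhds
    rw [hb2' j hj, hb' j hj, h9]
    field_simp
  · intro δ' hδ' Z₂ hZ₂
    have hsub : HP n δ' ⊆ HP n δ := fun Z hZ => lt_trans hZ hδ'
    exact rl_growth (fam_Yl hn (hp.mono (ball_subset_ball hδ'.le)) m) (convex_HP hn δ')
      (cls_ClE hn δ) (fun f hf => hf.2.mono hsub)
      (fun j _ i hi => by
        obtain ⟨f, hf1, hf2, hf3⟩ := jet_Yl hn hp j i hi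
        exact ⟨f, ⟨hf1, hf2⟩, fun u hu => hf3 u (hsub hu)⟩)
      (fun f hf => bdd_ClE hδ' hf.1)
      (fun j hj => (hψ j hj).mono hsub) (fun u hu => hψR u (hsub hu)) hZ₂

end Pool.Agent.MP_ae5b4e_an_NB1B
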