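import Pool.Agent.Lib.MP_ae5b4e_an_NB1B.PlC
import Pool.Agent.Lib.MP_ae5b4e_an_NB1B.PerM
import Pool.Agent.Lib.MP_ae5b4e_an_NB1B.Hom

/-!
# MP_ae5b4e_an, NB_1 section 3: there are no conical points
-/

noncomputable section

namespace Pool.Agent.MP_ae5b4e_an_NB1B

open Complex Set Filter Topology Metric
open Pool.Agent.MP_ae5b4e_an_NBT

/-- finitely many meromorphic germs, not all zero: a common power of `z` -/
private theorem PlD_mer {m : ℕ} {F : ℕ → ℂ → ℂ} (hF : ∀ j ≤ m, MeromorphicAt (F j) 0)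
    (hne : ∃ j ≤ m, ¬ ∀ᶠ z in 𝓝[≠] (0:ℂ), F j z = 0) :
    ∃ (k0 : ℤ) (H : ℕ → ℂ → ℂ), (∀ j ≤ m, AnalyticAt ℂ (H j) 0 ∧
      ∀ᶠ z in 𝓝[≠] (0:ℂ), F j z = z ^ k0 * H j z) ∧ ∃ j ≤ m, H j 0 ≠ 0 := by
  classical
  set o : ℕ → ℤ := fun j => (meromorphicOrderAt (F j) 0).untop₀ with ho
  have h1 : ∀ j, ∃ g : ℂ → ℂ, j ≤ m → (¬ ∀ᶠ z in 𝓝[≠] (0:ℂ), F j z = 0) →
      AnalyticAt ℂ g 0 ∧ g 0 ≠ 0 ∧ ∀ᶠ z in 𝓝[≠] (0:ℂ), F j z = z ^ (o j) * g z := by
    intro j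
    by_cases hj : j ≤ m ∧ ¬ ∀ᶠ z in 𝓝[≠] (0:ℂ), F j z = 0
    · have h2 : meromorphicOrderAt (F j) 0 ≠ ⊤ :=
        fun h => hj.2 (meromorphicOrderAt_eq_top_iff.1 h)
      obtain ⟨g, hg1, hg2, hg3⟩ := (meromorphicOrderAt_ne_top_iff (hF j hj.1)).1 h2
      refine ⟨g, fun _ _ => ⟨hg1, hg2, ?_⟩⟩
      filter_upwards [hg3] with z hz
      rw [hz, sub_zero, smul_eq_mul]
    · exact ⟨0, fun h h' => absurd ⟨h, h'⟩ hj⟩
  choose g hg using h1
  obtain ⟨j1, hj1, hj1'⟩ := hne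
  obtain ⟨j0, hj0, hmin⟩ := Finset.exists_min_image
    ((Finset.range (m+1)).filter (fun j => ¬ ∀ᶠ z in 𝓝[≠] (0:ℂ), F j z = 0)) o
    ⟨j1, Finset.mem_filter.2 ⟨Finset.mem_range.2 (by omega), hj1'⟩⟩
  rw [Finset.mem_filter, Finset.mem_range] at hj0
  refine ⟨o j0, fun j => if (∀ᶠ z in 𝓝[≠] (0:ℂ), F j z = 0) then 0 else
    fun z => z ^ (o j - o j0).toNat * g j z, ?_, ⟨j0, by omega, ?_⟩⟩
  · intro j hj
    by_cases hz : ∀ᶠ z in 𝓝[≠] (0:ℂ), F j z = 0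
    · simp only [if_pos hz]
      refine ⟨analyticAt_const, ?_⟩
      filter_upwards [hz] with z hz'
      rw [hz']
      simp
    · simp only [if_neg hz]
      obtain ⟨hg1, -, hg3⟩ := hg j hj hz
      refine ⟨(analyticAt_id.pow _).mul hg1, ?_⟩
      have hle : o j0 ≤ o j := hmin j (Finset.mem_filter.2 ⟨Finset.mem_range.2 (by omega), hz⟩)
      filter_upwards [hg3, self_mem_nhdsWithin] with z hz' hz0
      have hz0' : z ≠ 0 := hz0
      rw [hz', ← mul_assoc, ← zpow_natCast z, ← zpow_add₀ hz0']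
      congr 2
      rw [Int.toNat_of_nonneg (by omega)]
      ring
  · simp only [if_neg hj0.2, sub_self, Int.toNat_zero, pow_zero, one_mul]
    exact (hg j0 (by omega) hj0.2).2.1

/-- the relation in the direction of the first variable -/
private theorem PlD_rel {m k : ℕ} {p : ℂ → ℂ} {δ : ℝ} {e : ℂ} {ψ : ℕ → ℂ → ℂ} {b : ℂ}
    {k0 : ℤ} {F H : ℕ → ℂ → ℂ} (hp : AnalyticOnNhd ℂ p (ball 0 δ)) {z₁ : ℂ}
    (hz1 : z₁ ∈ slitPlane) (hz1δ : z₁ ∈ ball (0:ℂ) δ) (hQ : QZ m k 1 p e ψ (log z₁))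
    (hF : ∀ j ≤ m, ∀ Z ∈ HP 1 δ, ψ j Z * exp (-(b * Z)) = F j (exp (Z / (1:ℕ))))
    (hH : ∀ j ≤ m, ∀ᶠ z in 𝓝 z₁, F j z = z ^ k0 * H j z) :
    ∀ᶠ q in 𝓝 ((z₁, 0) : ℂ × ℂ), ∑ j ∈ Finset.range (m + 1),
      exp ((b + k0) * log (Ac 1 p j q)) * H j (q.1 * Ac 1 p j q) *
        (1 + q.1 * fderiv ℂ (Ac 1 p j) q (1, 0) / Ac 1 p j q) = 0 := by
  obtain ⟨κ, a, hS, hκ, ha⟩ := hQ
  have hz0 : z₁ ≠ 0 := slitPlane_ne_zero hz1
  have hexp : exp (log z₁) = z₁ := exp_log hz0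
  have hexp1 : exp (log z₁ / (1:ℕ)) = z₁ := by
    rw [Nat.cast_one, div_one, hexp]
  set Z₁ : ℂ := log z₁ with hZ₁
  have hZ1 : Z₁ ∈ HP 1 δ := by
    rw [mem_HP, hexp1]
    exact hz1δ
  have hfam := fam_Yl (n := 1) one_pos hp m
  obtain ⟨-, hrel⟩ := (rl_Yl (m := m) (n := 1) one_pos hp hZ1 hS.good.1 hκ a).1 hS.rl
  have hYc : ∀ j ≤ m, Tendsto (Yl 1 p j) (𝓝 ((Z₁, 0) : ℂ × ℂ)) (𝓝 Z₁) := by
    intro j hj
    have h := (hfam.an j hj Z₁ hZ1).continuousAt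
    rw [ContinuousAt, hfam.zero j hj Z₁ hZ1] at h
    exact h
  have e1 : ∀ᶠ q in 𝓝 ((Z₁, 0) : ℂ × ℂ), ∀ j ∈ Finset.range (m + 1),
      ψ j (Yl 1 p j q) = a j (e + exp (Yl 1 p j q)) * exp (Yl 1 p j q) := by
    rw [Filter.eventually_all_finset]
    intro j hj
    have hj' : j ≤ m := by
      rw [Finset.mem_range] at hj
      omega
    exact (hYc j hj').eventually (ha j hj')
  have e2 : ∀ᶠ q in 𝓝 ((Z₁, 0) : ℂ × ℂ), ∀ j ∈ Finset.range (m + 1),
      Yl 1 p j q ∈ HP 1 δ := by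
    rw [Filter.eventually_all_finset]
    intro j hj
    have hj' : j ≤ m := by
      rw [Finset.mem_range] at hj
      omega
    exact (hYc j hj').eventually ((isOpen_HP 1 δ).mem_nhds hZ1)
  have e3 : ∀ᶠ q in 𝓝 ((Z₁, 0) : ℂ × ℂ), ∀ j ∈ Finset.range (m + 1),
      AnalyticAt ℂ (Yl 1 p j) q := by
    rw [Filter.eventually_all_finset]
    intro j hj
    have hj' : j ≤ m := by
      rw [Finset.mem_range] at hj
      omega
    exact (hfam.an j hj' Z₁ hZ1).eventually_analyticAt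
  have hL : Tendsto (fun q : ℂ × ℂ => (log q.1, q.2)) (𝓝 ((z₁, 0) : ℂ × ℂ))
      (𝓝 ((Z₁, 0) : ℂ × ℂ)) := by
    have h : ContinuousAt (fun q : ℂ × ℂ => (log q.1, q.2)) ((z₁, 0) : ℂ × ℂ) :=
      (continuousAt_fst.clog hz1).prodMk continuousAt_snd
    exact h
  have f1 : ∀ᶠ q in 𝓝 ((z₁, 0) : ℂ × ℂ), ∀ j ∈ Finset.range (m + 1),
      AnalyticAt ℂ (Ac 1 p j) q ∧ Ac 1 p j q ∈ slitPlane := by
    rw [Filter.eventually_all_finset]
    intro j _
    obtain ⟨h1, h2, -⟩ := Ac_an (n := 1) hp hz1δ j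
    refine h1.eventually_analyticAt.and ?_
    refine h1.continuousAt.eventually_mem (isOpen_slitPlane.mem_nhds ?_)
    rw [h2]
    exact one_mem_slitPlane
  have f2 : ∀ᶠ q in 𝓝 ((z₁, 0) : ℂ × ℂ), ∀ j ∈ Finset.range (m + 1),
      F j (q.1 * Ac 1 p j q) = (q.1 * Ac 1 p j q) ^ k0 * H j (q.1 * Ac 1 p j q) := by
    rw [Filter.eventually_all_finset]
    intro j hj
    have hj' : j ≤ m := by
      rw [Finset.mem_range] at hj
      omega
    obtain ⟨h1, h2, -⟩ := Ac_an (n := 1) hp hz1δ j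
    have h3 : Tendsto (fun q : ℂ × ℂ => q.1 * Ac 1 p j q) (𝓝 ((z₁, 0) : ℂ × ℂ)) (𝓝 z₁) := by
      have h4 : ContinuousAt (fun q : ℂ × ℂ => q.1 * Ac 1 p j q) ((z₁, 0) : ℂ × ℂ) :=
        continuousAt_fst.mul h1.continuousAt
      rw [ContinuousAt, h2, mul_one] at h4
      exact h4
    exact h3.eventually (hH j hj')
  have f3 : ∀ᶠ q in 𝓝 ((z₁, 0) : ℂ × ℂ), q.1 ≠ 0 :=
    continuousAt_fst.eventually_ne hz0
  filter_upwards [hL.eventually (hrel.and (e1.and (e2.and e3))), f1, f2, f3]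
    with q ⟨h1, h2, h3, h4⟩ h5 h6 h7
  have hq : exp (log q.1 / (1:ℕ)) = q.1 := by
    rw [Nat.cast_one, div_one, exp_log h7]
  have hYq : ∀ j, Yl 1 p j (log q.1, q.2) = log q.1 + log (Ac 1 p j q) := by
    intro j
    simp only [Yl]
    rw [hq]
  have hD : ∀ j ∈ Finset.range (m + 1), fderiv ℂ (Yl 1 p j) (log q.1, q.2) (1, 0) =
      1 + q.1 * fderiv ℂ (Ac 1 p j) q (1, 0) / Ac 1 p j q := by
    intro j hj
    obtain ⟨hA1, hA2⟩ := h5 j hj
    have hline : HasDerivAt (fun Z : ℂ => (Z, q.2)) ((1:ℂ), (0:ℂ)) (log q.1) :=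
      (hasDerivAt_id (log q.1)).prodMk (hasDerivAt_const (log q.1) q.2)
    have c1 : HasDerivAt (fun Z : ℂ => Yl 1 p j (Z, q.2))
        (fderiv ℂ (Yl 1 p j) (log q.1, q.2) (1, 0)) (log q.1) :=
      HasFDerivAt.comp_hasDerivAt (x := log q.1) (f := fun Z : ℂ => (Z, q.2))
        (l := Yl 1 p j) (h4 j hj).differentiableAt.hasFDerivAt hline
    have hex : HasDerivAt (fun Z : ℂ => exp (Z / (1:ℕ))) q.1 (log q.1) := by
      have h := ((hasDerivAt_id (log q.1)).div_const ((1:ℕ):ℂ)).cexp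
      have h' : exp (log q.1 / (1:ℕ)) * (1 / ((1:ℕ):ℂ)) = q.1 := by
        rw [hq, Nat.cast_one, div_one, mul_one]
      exact HasDerivAt.congr_deriv h h'
    have hline2 : HasDerivAt (fun Z : ℂ => (exp (Z / (1:ℕ)), q.2)) (q.1, (0:ℂ)) (log q.1) :=
      hex.prodMk (hasDerivAt_const (log q.1) q.2)
    have hA1' : HasFDerivAt (Ac 1 p j) (fderiv ℂ (Ac 1 p j) q)
        (exp (log q.1 / (1:ℕ)), q.2) := by
      rw [hq]
      exact hA1.differentiableAt.hasFDerivAt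
    have c2 : HasDerivAt (fun Z : ℂ => Ac 1 p j (exp (Z / (1:ℕ)), q.2))
        (fderiv ℂ (Ac 1 p j) q (q.1, 0)) (log q.1) :=
      HasFDerivAt.comp_hasDerivAt (x := log q.1)
        (f := fun Z : ℂ => (exp (Z / (1:ℕ)), q.2)) (l := Ac 1 p j) hA1' hline2
    have c3 := c2.clog (by
      simp only [hq]
      exact hA2)
    have c4 := (hasDerivAt_id (log q.1)).add c3
    have c5 : fderiv ℂ (Ac 1 p j) q (q.1, 0) = q.1 * fderiv ℂ (Ac 1 p j) q (1, 0) := by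
      have : ((q.1, 0) : ℂ × ℂ) = q.1 • ((1, 0) : ℂ × ℂ) := by
        ext <;> simp
      rw [this, map_smul, smul_eq_mul]
    have c6 : HasDerivAt (fun Z : ℂ => Yl 1 p j (Z, q.2))
        (1 + fderiv ℂ (Ac 1 p j) q (q.1, 0) / Ac 1 p j (exp (log q.1 / (1:ℕ)), q.2))
        (log q.1) := c4
    rw [c1.unique c6, c5, hq]
  have h8 := congrArg (fun L : ℂ × ℂ →L[ℂ] ℂ => L (1, 0)) h1
  simp only [sum_apply, zero_apply, smul_apply, smul_eq_mul] at h8
  have h9 : ∀ j ∈ Finset.range (m + 1), a j (e + exp (Yl 1 p j (log q.1, q.2))) *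
      exp (Yl 1 p j (log q.1, q.2)) * fderiv ℂ (Yl 1 p j) (log q.1, q.2) (1, 0) =
      (exp (b * log q.1) * q.1 ^ k0) * (exp ((b + k0) * log (Ac 1 p j q)) *
        H j (q.1 * Ac 1 p j q) *
        (1 + q.1 * fderiv ℂ (Ac 1 p j) q (1, 0) / Ac 1 p j q)) := by
    intro j hj
    have hj' : j ≤ m := by
      rw [Finset.mem_range] at hj
      omega
    obtain ⟨hA1, hA2⟩ := h5 j hj
    have hA0 : Ac 1 p j q ≠ 0 := slitPlane_ne_zero hA2
    have g1 : exp (Yl 1 p j (log q.1, q.2) / (1:ℕ)) = q.1 * Ac 1 p j q := by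
      rw [hYq, Nat.cast_one, div_one, exp_add, exp_log h7, exp_log hA0]
    have g2 : ψ j (Yl 1 p j (log q.1, q.2)) =
        F j (q.1 * Ac 1 p j q) * exp (b * Yl 1 p j (log q.1, q.2)) := by
      rw [← g1, ← hF j hj' _ (h3 j hj), mul_assoc, ← exp_add, neg_add_cancel, exp_zero,
        mul_one]
    have g3 : exp (b * Yl 1 p j (log q.1, q.2)) =
        exp (b * log q.1) * exp (b * log (Ac 1 p j q)) := by
      rw [hYq, mul_add, exp_add]
    have g4 : exp ((b + k0) * log (Ac 1 p j q)) =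
        exp (b * log (Ac 1 p j q)) * Ac 1 p j q ^ k0 := by
      rw [add_mul, exp_add, exp_int_mul, exp_log hA0]
    rw [← h2 j hj, hD j hj, g2, h6 j hj, mul_zpow, g3, g4]
    ring
  rw [Finset.sum_congr rfl h9, ← Finset.mul_sum] at h8
  rcases mul_eq_zero.1 h8 with h10 | h10
  · exfalso
    rcases mul_eq_zero.1 h10 with h11 | h11
    · exact exp_ne_zero _ h11
    · exact zpow_ne_zero _ h7 h11
  · exact h10

/-- the analyticity of the sum -/
private theorem PlD_an {m : ℕ} {p : ℂ → ℂ} {δ : ℝ} {b : ℂ} {k0 : ℤ} {H : ℕ → ℂ → ℂ}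
    (hδ : 0 < δ) (hp : AnalyticOnNhd ℂ p (ball 0 δ)) (hH : ∀ j ≤ m, AnalyticAt ℂ (H j) 0) :
    AnalyticAt ℂ (fun q : ℂ × ℂ => ∑ j ∈ Finset.range (m + 1),
      exp ((b + k0) * log (Ac 1 p j q)) * H j (q.1 * Ac 1 p j q) *
        (1 + q.1 * fderiv ℂ (Ac 1 p j) q (1, 0) / Ac 1 p j q)) (0, 0) := by
  refine Finset.analyticAt_fun_sum _ fun j hj => ?_
  have hj' : j ≤ m := by
    rw [Finset.mem_range] at hj
    omega
  have h0 : (0:ℂ) ∈ ball (0:ℂ) δ := mem_ball_self hδ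
  obtain ⟨h1, h2, -⟩ := Ac_an (n := 1) hp h0 j
  have h3 := logAc_an (n := 1) hp h0 j
  have h4 : AnalyticAt ℂ (fun q : ℂ × ℂ => q.1 * Ac 1 p j q) (0, 0) := analyticAt_fst.mul h1
  have h5 : AnalyticAt ℂ (fun q : ℂ × ℂ => H j (q.1 * Ac 1 p j q)) (0, 0) := by
    refine AnalyticAt.fun_comp_of_eq (hH j hj') h4 ?_
    simp
  have h6 : AnalyticAt ℂ (fun q : ℂ × ℂ => fderiv ℂ (Ac 1 p j) q (1, 0)) (0, 0) :=
    (ContinuousLinearMap.apply ℂ ℂ ((1:ℂ), (0:ℂ))).analyticAt _ |>.comp h1.fderiv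
  refine ((analyticAt_const.mul h3).cexp.mul h5).mul (analyticAt_const.add
    ((analyticAt_fst.mul h6).div h1 ?_))
  rw [h2]
  exact one_ne_zero

private theorem PlD_Ac0 (p : ℂ → ℂ) (j : ℕ) (E : ℂ) :
    Ac 1 p j (0, E) = Ac 1 (fun _ => p 0) j (0, E) := by
  have h : stA 1 p 0 = stA 1 (fun _ => p 0) 0 := by
    funext s
    simp only [stA, qA, zero_mul]
  unfold Ac
  simp only [h]

/-- at an unramified place with `(1 + c) ν = 1` the number `1 + c` is an integer -/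
theorem cone_int {m k : ℕ} {p : ℂ → ℂ} {δ : ℝ} {e : ℂ} {κ₁ : ℂ → ℂ} {a : ℕ → ℂ → ℂ}
    (hδ : 0 < δ) (hp : AnalyticOnNhd ℂ p (ball 0 δ)) {Z₁ : ℂ}
    (hZ₁ : Z₁ ∈ HP 1 δ) (hS : Stt m k κ₁ a (e + exp Z₁))
    (hκ : ∀ᶠ Z in 𝓝 Z₁, κ₁ (e + exp Z) = p (exp (Z / (1:ℕ))) / exp Z) {ν : ℤ}
    (hν : (1 + p 0) * ν = 1) : ∃ N : ℤ, 1 + p 0 = N := by
  by_contra hcon
  push Not at hcon
  obtain ⟨ψ, hψan, -, hQ, hmult, hgr⟩ := exists_psi (n := 1) one_pos hδ hp hZ₁ hS hκ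
  set b : ℂ := 1 + p 0 with hb
  -- the meromorphic functions
  have hmer : ∀ j, ∃ F : ℂ → ℂ, j ≤ m → MeromorphicAt F 0 ∧
      ∀ Z ∈ HP 1 δ, ψ j Z * exp (-(b * Z)) = F (exp (Z / (1:ℕ))) := by
    intro j
    by_cases hj : j ≤ m
    · have han : AnalyticOnNhd ℂ (fun Z => ψ j Z * exp (-(b * Z))) (HP 1 δ) := by
        intro Z hZ
        exact (hψan j hj Z hZ).mul ((analyticAt_const.mul analyticAt_id).neg.cexp)
      have hper : ∀ Z ∈ HP 1 δ, (fun Z => ψ j Z * exp (-(b * Z)))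
          (Z + 2 * Real.pi * I * (1:ℕ)) = (fun Z => ψ j Z * exp (-(b * Z))) Z := by
        intro Z hZ
        simp only
        rw [hmult j hj Z hZ]
        have h1 : exp (-(b * (Z + 2 * Real.pi * I * (1:ℕ)))) =
            exp (-(b * Z)) * exp (-(2 * Real.pi * I * (1:ℕ) * p 0)) *
              exp (-(2 * Real.pi * I)) := by
          rw [← exp_add, ← exp_add]
          congr 1
          rw [hb]
          push_cast
          ring
        have h2 : exp (-(2 * Real.pi * I)) = 1 := by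
          rw [exp_neg, exp_two_pi_mul_I, inv_one]
        rw [h1, h2, mul_one, exp_neg (2 * Real.pi * I * (1:ℕ) * p 0)]
        have h3 := exp_ne_zero (2 * Real.pi * I * (1:ℕ) * p 0)
        field_simp
      have hgr' : ∃ δ' > 0, ∃ Z₂ : ℂ, ∃ C K : ℝ, δ' ≤ δ ∧
          ∀ Z ∈ HP 1 δ', ‖(fun Z => ψ j Z * exp (-(b * Z))) Z‖ ≤
            C * Real.exp (K * ‖Z - Z₂‖) := by
        have hδ2 : δ / 2 < δ := by linarith
        have hZ2 : ((Real.log (δ / 4) : ℝ) : ℂ) ∈ HP 1 (δ / 2) := by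
          rw [mem_HP, Nat.cast_one, div_one, mem_ball_zero_iff, norm_exp, ofReal_re,
            Real.exp_log (by linarith)]
          linarith
        obtain ⟨C, K, hC, hK, hCK⟩ := hgr (δ / 2) hδ2 _ hZ2
        refine ⟨δ / 2, by linarith, ((Real.log (δ / 4) : ℝ) : ℂ),
          C * Real.exp (‖b‖ * ‖((Real.log (δ / 4) : ℝ) : ℂ)‖), K + ‖b‖, hδ2.le, ?_⟩
        intro Z hZ
        set Z₂ : ℂ := ((Real.log (δ / 4) : ℝ) : ℂ)
        simp only
        rw [norm_mul]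
        have h1 := hCK j hj Z hZ
        have h2 : ‖exp (-(b * Z))‖ ≤ Real.exp (‖b‖ * ‖Z₂‖ + ‖b‖ * ‖Z - Z₂‖) := by
          rw [norm_exp]
          refine Real.exp_le_exp.2 ?_
          have h3 : (-(b * Z)).re ≤ ‖b * Z‖ := by
            rw [← norm_neg]
            exact re_le_norm _
          rw [norm_mul] at h3
          have h4 : ‖Z‖ ≤ ‖Z₂‖ + ‖Z - Z₂‖ := by
            have := norm_add_le Z₂ (Z - Z₂)
            rwa [add_sub_cancel] at this
          have h5 := mul_le_mul_of_nonneg_left h4 (norm_nonneg b)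
          linarith
        calc ‖ψ j Z‖ * ‖exp (-(b * Z))‖ ≤ (C * Real.exp (K * ‖Z - Z₂‖)) *
              Real.exp (‖b‖ * ‖Z₂‖ + ‖b‖ * ‖Z - Z₂‖) :=
              mul_le_mul h1 h2 (norm_nonneg _) (by positivity)
          _ = C * Real.exp (‖b‖ * ‖Z₂‖) * Real.exp ((K + ‖b‖) * ‖Z - Z₂‖) := by
              rw [mul_assoc, mul_assoc, ← Real.exp_add, ← Real.exp_add]
              congr 2
              ring
      obtain ⟨F, hF1, -, hF3⟩ := exists_mer_of_per (n := 1) one_pos hδ han hper hgr'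
      exact ⟨F, fun _ => ⟨hF1, hF3⟩⟩
    · exact ⟨0, fun h => absurd h hj⟩
  choose F hF using hmer
  -- not all of them vanish
  have hne : ∃ j ≤ m, ¬ ∀ᶠ z in 𝓝[≠] (0:ℂ), F j z = 0 := by
    by_contra h
    push Not at h
    have h1 : ∀ᶠ z in 𝓝[≠] (0:ℂ), ∀ j ∈ Finset.range (m + 1), F j z = 0 := by
      rw [Filter.eventually_all_finset]
      intro j hj
      exact h j (by
        rw [Finset.mem_range] at hj
        omega)
    have h2 : ∀ᶠ z in 𝓝[≠] (0:ℂ), z ∈ ball (0:ℂ) δ :=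
      nhdsWithin_le_nhds (ball_mem_nhds _ hδ)
    obtain ⟨z, ⟨h3, h4⟩, h5⟩ := ((h1.and h2).and self_mem_nhdsWithin).exists
    have hz0 : z ≠ 0 := h5
    have hexp : exp (log z / (1:ℕ)) = z := by
      rw [Nat.cast_one, div_one, exp_log hz0]
    have hZ : log z ∈ HP 1 δ := by
      rw [mem_HP, hexp]
      exact h4
    obtain ⟨κ, a', hS', -, ha'⟩ := hQ (log z) hZ
    apply hS'.ne
    have h6 : ∀ j ≤ m, a' j (e + exp (log z)) = 0 := by
      intro j hj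
      have h7 := (ha' j hj).self_of_nhds
      have h8 := (hF j hj).2 (log z) hZ
      rw [hexp, h3 j (Finset.mem_range.2 (by omega)), h7, mul_assoc] at h8
      rcases mul_eq_zero.1 h8 with h9 | h9
      · exact h9
      · exfalso
        rcases mul_eq_zero.1 h9 with h10 | h10
        · exact exp_ne_zero _ h10
        · exact exp_ne_zero _ h10
    unfold Mo lam
    refine Finset.sum_eq_zero fun l hl => ?_
    rw [Finset.sum_eq_zero, mul_zero]
    intro i hi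
    rw [Finset.mem_range] at hi hl
    exact h6 i (by omega)
  obtain ⟨k0, H, hH, j1, hj1, hj1'⟩ := PlD_mer (fun j hj => (hF j hj).1) hne
  -- the sum vanishes near the origin
  have hSan := PlD_an (b := b) (k0 := k0) hδ hp (fun j hj => (hH j hj).1)
  set S : ℂ × ℂ → ℂ := fun q : ℂ × ℂ => ∑ j ∈ Finset.range (m + 1),
      exp ((b + k0) * log (Ac 1 p j q)) * H j (q.1 * Ac 1 p j q) *
        (1 + q.1 * fderiv ℂ (Ac 1 p j) q (1, 0) / Ac 1 p j q) with hSd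
  obtain ⟨r, hr, hSr⟩ := Metric.eventually_nhds_iff_ball.1 hSan.eventually_analyticAt
  have hev : ∀ᶠ z in 𝓝[≠] (0:ℂ), ∀ j ∈ Finset.range (m + 1),
      ∀ᶠ z' in 𝓝 z, F j z' = z' ^ k0 * H j z' := by
    rw [Filter.eventually_all_finset]
    intro j hj
    have h1 := (hH j (by
      rw [Finset.mem_range] at hj
      omega)).2
    have h2 := eventually_eventually_nhdsWithin.2 h1
    filter_upwards [h2, self_mem_nhdsWithin] with z hz hz0
    have hz0' : z ≠ 0 := hz0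
    rwa [IsOpen.nhdsWithin_eq isOpen_compl_singleton hz0'] at hz
  obtain ⟨ε, hε, hev'⟩ := Metric.eventually_nhds_iff_ball.1 (eventually_nhdsWithin_iff.1 hev)
  obtain ⟨t, ht0, ht⟩ : ∃ t : ℝ, 0 < t ∧ t < min (min r δ) ε :=
    exists_between (lt_min (lt_min hr hδ) hε)
  have htr : t < r := lt_of_lt_of_le ht ((min_le_left _ _).trans (min_le_left _ _))
  have htδ : t < δ := lt_of_lt_of_le ht ((min_le_left _ _).trans (min_le_right _ _))
  have htε : t < ε := lt_of_lt_of_le ht (min_le_right _ _)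
  have htn : ‖(t : ℂ)‖ = t := by
    rw [norm_real, Real.norm_of_nonneg ht0.le]
  have ht00 : (t : ℂ) ≠ 0 := ofReal_ne_zero.2 ht0.ne'
  have htsl : (t : ℂ) ∈ slitPlane := ofReal_mem_slitPlane.2 ht0
  have htb : (t : ℂ) ∈ ball (0:ℂ) δ := by
    rw [mem_ball_zero_iff, htn]
    exact htδ
  have hHP : log (t : ℂ) ∈ HP 1 δ := by
    rw [mem_HP, Nat.cast_one, div_one, exp_log ht00]
    exact htb
  have hS1 := PlD_rel (b := b) (k0 := k0) (F := F) (H := H) hp htsl htb (hQ _ hHP)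
    (fun j hj => (hF j hj).2) (fun j hj => hev' t (by
      rw [mem_ball_zero_iff, htn]
      exact htε) ht00 j (Finset.mem_range.2 (by omega)))
  have hEq : EqOn S 0 (ball ((0, 0) : ℂ × ℂ) r) := by
    refine AnalyticOnNhd.eqOn_zero_of_preconnected_of_eventuallyEq_zero (z₀ := ((t:ℂ), (0:ℂ)))
      (fun q hq => hSr q hq) (convex_ball _ _).isPreconnected ?_ ?_
    · rw [mem_ball, Prod.dist_eq, dist_self, dist_zero_right, htn]
      exact max_lt htr hr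
    · exact hS1
  -- restrict to `z = 0`
  have hS0 : ∀ᶠ E in 𝓝 (0:ℂ), ∑ j ∈ Finset.range (m + 1),
      H j 0 * exp ((b + k0) * log (Ac 1 (fun _ => p 0) j (0, E))) = 0 := by
    filter_upwards [ball_mem_nhds (0:ℂ) hr] with E hE
    have h1 : S (0, E) = 0 := by
      refine hEq ?_
      rw [mem_ball, Prod.dist_eq, dist_self]
      exact max_lt hr hE
    rw [hSd] at h1
    simp only at h1
    refine Eq.trans (Finset.sum_congr rfl fun j _ => ?_) h1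
    rw [← PlD_Ac0]
    simp only [zero_mul, zero_div, add_zero, mul_one]
    ring
  have hν0 : ν ≠ 0 := by
    rintro rfl
    rw [Int.cast_zero, mul_zero] at hν
    exact zero_ne_one hν
  have hbk : ∀ N : ℤ, b + k0 ≠ N := by
    intro N h
    apply hcon (N - k0)
    push_cast
    rw [← h]
    ring
  have hstep : ∀ᶠ E in 𝓝[≠] (0:ℂ), ∀ j ∈ Finset.range (m + 1),
      Ac 1 (fun _ => p 0) j (0, E) =
        ∏ i ∈ Finset.range j, ((ν : ℂ) / E + i + ν) / ((ν : ℂ) / E + i) := by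
    rw [Filter.eventually_all_finset]
    intro j _
    exact (hom_step (c := p 0) hν j).mono fun E hE => hE.2
  have hall := hstep.and (nhdsWithin_le_nhds hS0)
  have htend : Tendsto (fun u : ℂ => (ν : ℂ) / u) (Bornology.cobounded ℂ) (𝓝[≠] (0:ℂ)) := by
    refine tendsto_nhdsWithin_iff.2 ⟨?_, ?_⟩
    · have h1 : Tendsto (fun u : ℂ => (ν : ℂ) * u⁻¹) (Bornology.cobounded ℂ)
          (𝓝 ((ν : ℂ) * 0)) := tendsto_const_nhds.mul tendsto_inv₀_cobounded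
      rw [mul_zero] at h1
      simpa only [div_eq_mul_inv] using h1
    · filter_upwards [Bornology.eventually_ne_cobounded (0:ℂ)] with u hu
      exact div_ne_zero (Int.cast_ne_zero.2 hν0) hu
  have hfin := hom_rel (m := m) hν0 hbk (β := fun j => H j 0) (by
    filter_upwards [htend.eventually hall, Bornology.eventually_ne_cobounded (0:ℂ)] with u hu hu0
    obtain ⟨h1, h2⟩ := hu
    refine Eq.trans (Finset.sum_congr rfl fun j hj => ?_) h2
    have h3 : (ν : ℂ) / ((ν : ℂ) / u) = u := by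
      have : (ν : ℂ) ≠ 0 := Int.cast_ne_zero.2 hν0
      field_simp
    rw [h1 j hj, h3])
  exact hj1' (hfin j1 hj1)

end Pool.Agent.MP_ae5b4e_an_NB1B
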