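import Pool.Agent.Lib.MP_ae5b4e_an_NB1B.PlD
import Pool.Agent.Lib.MP_ae5b4e_an_LAT.NDPlaceThm

/-!
# MP_ae5b4e_an, NB_1 section 3: the distinguished relation is meromorphic at every place
-/

noncomputable section

namespace Pool.Agent.MP_ae5b4e_an_NB1B

open Complex Set Filter Topology Metric
open Pool.Agent.MP_ae5b4e_an_NBT
open Pool.Agent.MP_ae5b4e_an_ND (Good PlaceOK nd_place propag)

/-- the local inverse of `w ↦ e + w ^ n` -/
private theorem Plc_inv {n : ℕ} (hn : 0 < n) (e : ℂ) {w₀ : ℂ} (hw : w₀ ≠ 0) :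
    ∃ ρ : ℂ → ℂ, AnalyticAt ℂ ρ (e + w₀ ^ n) ∧ ρ (e + w₀ ^ n) = w₀ ∧
      (∀ᶠ w in 𝓝 w₀, ρ (e + w ^ n) = w) ∧ ∀ᶠ x in 𝓝 (e + w₀ ^ n), e + ρ x ^ n = x := by
  have hu : AnalyticAt ℂ (fun w : ℂ => e + w ^ n) w₀ :=
    analyticAt_const.add (analyticAt_id.pow n)
  have hd : deriv (fun w : ℂ => e + w ^ n) w₀ ≠ 0 := by
    have h1 : HasDerivAt (fun w : ℂ => e + w ^ n) (n * w₀ ^ (n - 1)) w₀ :=
      (hasDerivAt_pow n w₀).const_add e
    rw [h1.deriv]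
    exact mul_ne_zero (by exact_mod_cast hn.ne') (pow_ne_zero _ hw)
  refine ⟨hu.hasStrictDerivAt.localInverse _ _ _ hd, hu.analyticAt_localInverse hd, ?_, ?_, ?_⟩
  · exact HasStrictFDerivAt.localInverse_apply_image ..
  · exact hu.hasStrictDerivAt.eventually_left_inverse hd
  · exact hu.hasStrictDerivAt.eventually_right_inverse hd

private theorem Plc_exp {n : ℕ} (hn : 0 < n) (Z : ℂ) : exp (Z / n) ^ n = exp Z := by
  have hn' : (n : ℂ) ≠ 0 := by exact_mod_cast hn.ne'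
  rw [← exp_nat_mul, mul_div_cancel₀ _ hn']

/-- functions near `w₀` from functions near `n log w₀` -/
private theorem Plc_pull {n : ℕ} (hn : 0 < n) {w₀ : ℂ} (hw : w₀ ≠ 0) {P : ℂ → Prop}
    (h : ∀ᶠ Z in 𝓝 (n * log w₀), P Z) :
    ∀ᶠ w in 𝓝 w₀, ∃ Z, P Z ∧ exp (Z / n) = w ∧ exp Z = w ^ n := by
  have hn' : (n : ℂ) ≠ 0 := by exact_mod_cast hn.ne'
  have hL : ContinuousAt (fun w : ℂ => n * log w₀ + n * log (w / w₀)) w₀ := by
    have h1 : ContinuousAt (fun w : ℂ => log (w / w₀)) w₀ := by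
      refine ContinuousAt.clog (by fun_prop) ?_
      rw [div_self hw]
      exact one_mem_slitPlane
    exact continuousAt_const.add (continuousAt_const.mul h1)
  have hL' := hL.tendsto
  simp only [div_self hw, log_one, mul_zero, add_zero] at hL'
  filter_upwards [hL'.eventually h, continuousAt_id.eventually_ne hw] with w h1 h2
  have h2' : w ≠ 0 := h2
  have h3 : exp ((n * log w₀ + n * log (w / w₀)) / n) = w := by
    rw [← mul_add, mul_div_cancel_left₀ _ hn', exp_add, exp_log hw,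
      exp_log (div_ne_zero h2' hw), mul_div_cancel₀ _ hw]
  refine ⟨_, h1, h3, ?_⟩
  rw [← Plc_exp hn, h3]

private theorem Plc_push {n : ℕ} {Z₀ : ℂ} {P : ℂ → Prop}
    (h : ∀ᶠ w in 𝓝 (exp (Z₀ / n)), P w) : ∀ᶠ Z in 𝓝 Z₀, P (exp (Z / n)) := by
  have hc : ContinuousAt (fun Z : ℂ => exp (Z / n)) Z₀ := by fun_prop
  exact hc.eventually h

private theorem Plc_punct {n : ℕ} (hn : 0 < n) (δ : ℝ) :
    IsPreconnected {w : ℂ | w ∈ ball (0:ℂ) δ ∧ w ≠ 0} := by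
  have hn' : (n : ℂ) ≠ 0 := by exact_mod_cast hn.ne'
  have h1 : {w : ℂ | w ∈ ball (0:ℂ) δ ∧ w ≠ 0} = (fun Z : ℂ => exp (Z / n)) '' HP n δ := by
    ext w
    constructor
    · rintro ⟨h1, h2⟩
      have h3 : exp (n * log w / n) = w := by
        rw [mul_div_cancel_left₀ _ hn', exp_log h2]
      refine ⟨n * log w, ?_, h3⟩
      rw [mem_HP, h3]
      exact h1
    · rintro ⟨Z, hZ, rfl⟩
      exact ⟨mem_HP.1 hZ, exp_ne_zero _⟩
  rw [h1]
  exact (convex_HP hn δ).isPreconnected.image _ (by fun_prop)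

/-- good points propagate in the punctured disc -/
private theorem Plc_good {n : ℕ} (hn : 0 < n) {e : ℂ} {g : ℂ → ℂ} {δ : ℝ}
    (hg : ∀ w ∈ ball (0:ℂ) δ, w ≠ 0 → AnalyticAt ℂ g w) {w₁ : ℂ} (hw₁ : w₁ ∈ ball (0:ℂ) δ)
    (hw₁0 : w₁ ≠ 0)
    (h : ∃ κ₁ : ℂ → ℂ, Good κ₁ (e + w₁ ^ n) ∧ ∀ᶠ w in 𝓝 w₁, g w = κ₁ (e + w ^ n)) :
    ∀ w₀ ∈ ball (0:ℂ) δ, w₀ ≠ 0 →
      ∃ κ₁ : ℂ → ℂ, Good κ₁ (e + w₀ ^ n) ∧ ∀ᶠ w in 𝓝 w₀, g w = κ₁ (e + w ^ n) := by
  obtain ⟨R, hR⟩ : ∃ R : ℂ → Prop, R = fun w₀ =>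
    ∃ κ₁ : ℂ → ℂ, Good κ₁ (e + w₀ ^ n) ∧ ∀ᶠ w in 𝓝 w₀, g w = κ₁ (e + w ^ n) := ⟨_, rfl⟩
  have hc : ∀ w₀ : ℂ, Tendsto (fun w : ℂ => e + w ^ n) (𝓝 w₀) (𝓝 (e + w₀ ^ n)) := by
    intro w₀
    have : Continuous fun w : ℂ => e + w ^ n := by fun_prop
    exact this.tendsto w₀
  have hopen : IsOpen {w : ℂ | R w} := by
    rw [isOpen_iff_mem_nhds]
    intro w₀ hw₀
    have hw₀' : R w₀ := hw₀
    rw [hR] at hw₀'
    obtain ⟨κ, h1, h2⟩ := hw₀'
    filter_upwards [(hc w₀).eventually h1.eventually, h2.eventually_nhds] with w h3 h4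
    show R w
    rw [hR]
    exact ⟨κ, h3, h4⟩
  have hmain : {w : ℂ | w ∈ ball (0:ℂ) δ ∧ w ≠ 0} ⊆ {w : ℂ | R w} := by
    refine (Plc_punct hn δ).subset_of_closure_inter_subset hopen ⟨w₁, ⟨hw₁, hw₁0⟩, ?_⟩ ?_
    · show R w₁
      rw [hR]
      exact h
    · rintro w₀ ⟨hcl, hw₀, hw₀0⟩
      obtain ⟨ρ, hρ, hρ0, hρl, hρr⟩ := Plc_inv hn e hw₀0
      -- the local branch
      have hκa : AnalyticAt ℂ (fun x => g (ρ x)) (e + w₀ ^ n) := by
        refine AnalyticAt.fun_comp_of_eq (hg w₀ hw₀ hw₀0) hρ hρ0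
      obtain ⟨r, hr, hball⟩ := Metric.eventually_nhds_iff_ball.1 hκa.eventually_analyticAt
      have hκn : ∀ᶠ w in 𝓝 w₀, g w = (fun x => g (ρ x)) (e + w ^ n) := by
        filter_upwards [hρl] with w hw
        show g w = g (ρ (e + w ^ n))
        rw [hw]
      have hN : ∀ᶠ w in 𝓝 w₀, e + w ^ n ∈ ball (e + w₀ ^ n) r ∧ w ≠ 0 ∧
          ∀ᶠ w' in 𝓝 w, g w' = (fun x => g (ρ x)) (e + w' ^ n) := by
        filter_upwards [(hc w₀).eventually (ball_mem_nhds _ hr),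
          continuousAt_id.eventually_ne hw₀0, hκn.eventually_nhds] with w h1 h2 h3
        exact ⟨h1, h2, h3⟩
      obtain ⟨w, hwR, hw1, hw2, hw3⟩ : ∃ w, R w ∧ e + w ^ n ∈ ball (e + w₀ ^ n) r ∧ w ≠ 0 ∧
          ∀ᶠ w' in 𝓝 w, g w' = (fun x => g (ρ x)) (e + w' ^ n) := by
        obtain ⟨w, h1, h2⟩ := mem_closure_iff_nhds.1 hcl _ hN
        exact ⟨w, h2, h1⟩
      rw [hR] at hwR
      obtain ⟨κ', hκ', hκ'g⟩ := hwR
      -- the two branches agree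
      obtain ⟨ρ', hρ', hρ'0, -, hρ'r⟩ := Plc_inv hn e hw2
      have heq : κ' =ᶠ[𝓝 (e + w ^ n)] fun x => g (ρ x) := by
        have ht : Tendsto ρ' (𝓝 (e + w ^ n)) (𝓝 w) := by
          have := hρ'.continuousAt.tendsto
          rwa [hρ'0] at this
        filter_upwards [hρ'r, ht.eventually hκ'g, ht.eventually hw3] with x h1 h2 h3
        rw [h1] at h2 h3
        rw [← h2, h3]
      have hgood : Good (fun x => g (ρ x)) (e + w ^ n) := hκ'.congr heq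
      have := propag (fun x => g (ρ x)) (e + w₀ ^ n) r (fun x hx => hball x hx) _ hw1 hgood _
        (mem_ball_self hr)
      show R w₀
      rw [hR]
      exact ⟨_, this, hκn⟩
  intro w₀ hw₀ hw₀0
  have := hmain ⟨hw₀, hw₀0⟩
  have h2 : R w₀ := this
  rwa [hR] at h2

/-- invariant functions are functions of `w ^ n` -/
private theorem Plc_descend {n : ℕ} (hn : 0 < n) {p : ℂ → ℂ} {δ : ℝ} (hδ : 0 < δ)
    (hp : AnalyticOnNhd ℂ p (ball 0 δ))
    (hinv : ∀ om : ℂ, om ^ n = 1 → ∀ w ∈ ball (0:ℂ) δ, p (om * w) = p w) :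
    ∃ p₁ : ℂ → ℂ, AnalyticOnNhd ℂ p₁ (ball 0 (δ ^ n)) ∧ ∀ w ∈ ball (0:ℂ) δ, p₁ (w ^ n) = p w := by
  have hroot : ∀ z : ℂ, ∃ w : ℂ, w ^ n = z := fun z => IsAlgClosed.exists_pow_nat_eq z hn
  choose rt hrt using hroot
  have hval : ∀ w ∈ ball (0:ℂ) δ, p (rt (w ^ n)) = p w := by
    intro w hw
    by_cases hw0 : w = 0
    · have h1 := hrt (w ^ n)
      rw [hw0, zero_pow hn.ne'] at h1 ⊢
      rw [pow_eq_zero_iff hn.ne'] at h1
      rw [h1]
    · have h1 := hrt (w ^ n)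
      have h2 : (rt (w ^ n) / w) ^ n = 1 := by
        rw [div_pow, h1, div_self (pow_ne_zero n hw0)]
      have h3 := hinv _ h2 w hw
      rwa [div_mul_cancel₀ _ hw0] at h3
  refine ⟨fun z => p (rt z), ?_, hval⟩
  have hne : ∀ z ∈ ball (0:ℂ) (δ ^ n), z ≠ 0 → AnalyticAt ℂ (fun z => p (rt z)) z := by
    intro z hz hz0
    have hw0 : rt z ≠ 0 := by
      intro h0
      have := hrt z
      rw [h0, zero_pow hn.ne'] at this
      exact hz0 this.symm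
    have hwb : rt z ∈ ball (0:ℂ) δ := by
      rw [mem_ball_zero_iff] at hz ⊢
      rw [← hrt z, norm_pow] at hz
      exact lt_of_pow_lt_pow_left₀ n hδ.le hz
    obtain ⟨ρ, hρ, hρ0, -, hρr⟩ := Plc_inv hn 0 hw0
    simp only [zero_add] at hρ hρ0 hρr
    rw [hrt z] at hρ hρ0 hρr
    have h1 : AnalyticAt ℂ (fun x => p (ρ x)) z :=
      AnalyticAt.fun_comp_of_eq (hp _ hwb) hρ hρ0
    refine h1.congr ?_
    have ht : Tendsto ρ (𝓝 z) (𝓝 (rt z)) := by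
      have := hρ.continuousAt.tendsto
      rwa [hρ0] at this
    filter_upwards [hρr, ht.eventually (isOpen_ball.mem_nhds hwb)] with x h2 h3
    have h4 := hval (ρ x) h3
    rw [h2] at h4
    exact h4.symm
  intro z hz
  by_cases hz0 : z = 0
  · subst hz0
    have hr0 : rt 0 = 0 := by
      have := hrt 0
      rwa [pow_eq_zero_iff hn.ne'] at this
    refine analyticAt_of_differentiable_on_punctured_nhds_of_continuousAt ?_ ?_
    · have h1 : ∀ᶠ x in 𝓝[≠] (0:ℂ), x ∈ ball (0:ℂ) (δ ^ n) :=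
        mem_nhdsWithin_of_mem_nhds (isOpen_ball.mem_nhds hz)
      filter_upwards [h1, self_mem_nhdsWithin] with x h2 h3
      exact (hne x h2 h3).differentiableAt
    · have h1 : ContinuousAt rt 0 := by
        rw [Metric.continuousAt_iff]
        intro ε hε
        refine ⟨ε ^ n, pow_pos hε n, ?_⟩
        intro x hx
        rw [hr0, dist_zero_right]
        rw [dist_zero_right, ← hrt x, norm_pow] at hx
        exact lt_of_pow_lt_pow_left₀ n hε.le hx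
      refine ContinuousAt.comp (g := p) (f := rt) ?_ h1
      rw [hr0]
      exact (hp 0 (mem_ball_self hδ)).continuousAt
  · exact hne z hz hz0

/-- **the distinguished relation at a place** -/
theorem place_all {m k n : ℕ} (hn : 0 < n) {e : ℂ} {g : ℂ → ℂ} (hg : MeromorphicAt g 0) :
    ∃ δ > 0, ∀ w₁ ∈ ball (0:ℂ) δ, w₁ ≠ 0 → ∀ (κ₁ : ℂ → ℂ) (a : ℕ → ℂ → ℂ),
      Stt m k κ₁ a (e + w₁ ^ n) → (∀ᶠ w in 𝓝 w₁, g w = κ₁ (e + w ^ n)) →
      ∃ b : ℕ → ℂ → ℂ, (∀ j ≤ m, MeromorphicAt (b j) 0) ∧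
        (∀ j ≤ m, ∀ᶠ w in 𝓝 w₁, b j w = a j (e + w ^ n)) ∧
        ∀ w₂ ∈ ball (0:ℂ) δ, w₂ ≠ 0 → ∃ (κ₂ : ℂ → ℂ) (a₂ : ℕ → ℂ → ℂ),
          Stt m k κ₂ a₂ (e + w₂ ^ n) ∧ (∀ᶠ w in 𝓝 w₂, g w = κ₂ (e + w ^ n)) ∧
          ∀ j ≤ m, ∀ᶠ w in 𝓝 w₂, b j w = a₂ j (e + w ^ n) := by
  have hn' : (n : ℂ) ≠ 0 := by exact_mod_cast hn.ne'
  obtain ⟨K, hK⟩ := hg
  obtain ⟨δ, hδ, hball⟩ := Metric.eventually_nhds_iff_ball.1 hK.eventually_analyticAt
  simp only [sub_zero, smul_eq_mul] at hball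
  have hga : ∀ w ∈ ball (0:ℂ) δ, w ≠ 0 → AnalyticAt ℂ g w := by
    intro w hw hw0
    have h1 : AnalyticAt ℂ (fun z : ℂ => (z ^ K * g z) / z ^ K) w :=
      (hball w hw).div (analyticAt_id.pow K) (pow_ne_zero K hw0)
    refine h1.congr ?_
    filter_upwards [continuousAt_id.eventually_ne hw0] with z hz
    have hz' : z ≠ 0 := hz
    have := pow_ne_zero K hz'
    field_simp
  refine ⟨δ, hδ, ?_⟩
  intro w₁ hw₁ hw₁0 κ₁ a hS hκ₁
  -- all points are good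
  have hall := Plc_good hn hga hw₁ hw₁0 ⟨κ₁, hS.good, hκ₁⟩
  have hp : PlaceOK e n g δ := ⟨hn, hδ, fun w h1 h2 =>
    hall w (by simpa using h2) h1⟩
  obtain ⟨c, hc, hor⟩ := nd_place hp (K := K) (h := fun z => z ^ K * g z)
    (fun w hw => (hball w hw).differentiableAt.differentiableWithinAt) (fun w hw0 _ => by
      have := pow_ne_zero K hw0
      field_simp)
  -- the function `p`
  obtain ⟨p, hpdef⟩ : ∃ p : ℂ → ℂ, p = Function.update (fun w => w ^ n * g w) 0 c := ⟨_, rfl⟩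
  have hp0 : p 0 = c := by rw [hpdef, Function.update_self]
  have hpne : ∀ w, w ≠ 0 → p w = w ^ n * g w := fun w hw => by
    rw [hpdef, Function.update_of_ne hw]
  have hpa' : ∀ w ∈ ball (0:ℂ) δ, w ≠ 0 → AnalyticAt ℂ p w := by
    intro w hw hw0
    have h1 : AnalyticAt ℂ (fun w => w ^ n * g w) w := (analyticAt_id.pow n).mul (hga w hw hw0)
    refine h1.congr ?_
    filter_upwards [continuousAt_id.eventually_ne hw0] with z hz
    exact (hpne z hz).symm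
  have hpa : AnalyticOnNhd ℂ p (ball 0 δ) := by
    intro w hw
    by_cases hw0 : w = 0
    · subst hw0
      refine analyticAt_of_differentiable_on_punctured_nhds_of_continuousAt ?_ ?_
      · have h1 : ∀ᶠ x in 𝓝[≠] (0:ℂ), x ∈ ball (0:ℂ) δ :=
          mem_nhdsWithin_of_mem_nhds (isOpen_ball.mem_nhds hw)
        filter_upwards [h1, self_mem_nhdsWithin] with x h2 h3
        exact (hpa' x h2 h3).differentiableAt
      · rw [hpdef, continuousAt_update_same]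
        exact hc
    · exact hpa' w hw hw0
  -- the point `Z₁`
  have hexp : ∀ w : ℂ, w ≠ 0 → exp (n * log w / n) = w := by
    intro w hw
    rw [mul_div_cancel_left₀ _ hn', exp_log hw]
  have hexp' : ∀ w : ℂ, w ≠ 0 → exp (n * log w) = w ^ n := by
    intro w hw
    rw [← Plc_exp hn, hexp w hw]
  have hHP : ∀ w ∈ ball (0:ℂ) δ, w ≠ 0 → n * log w ∈ HP n δ := by
    intro w hw hw0
    rw [mem_HP, hexp w hw0]
    exact hw
  have hgp : ∀ Z : ℂ, g (exp (Z / n)) = p (exp (Z / n)) / exp Z := by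
    intro Z
    rw [hpne _ (exp_ne_zero _), Plc_exp hn, mul_div_cancel_left₀ _ (exp_ne_zero _)]
  have hκZ : ∀ᶠ Z in 𝓝 (n * log w₁), κ₁ (e + exp Z) = p (exp (Z / n)) / exp Z := by
    have h1 : ∀ᶠ w in 𝓝 (exp (n * log w₁ / n)), g w = κ₁ (e + w ^ n) := by
      rw [hexp w₁ hw₁0]
      exact hκ₁
    filter_upwards [Plc_push h1] with Z hZ
    rw [← hgp, hZ, Plc_exp hn]
  have hSZ : Stt m k κ₁ a (e + exp (n * log w₁)) := by
    rw [hexp' w₁ hw₁0]
    exact hS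
  obtain ⟨ψ, hψa, hψ1, hψQ, hψper, hψgr⟩ := exists_psi hn hδ hpa (hHP w₁ hw₁ hw₁0) hSZ hκZ
  -- the multiplier is one
  have hmult : exp (2 * Real.pi * I * n * p 0) = 1 := by
    rw [hp0]
    rcases hor with hc1 | ⟨⟨ν, hν⟩, hinv⟩
    · rw [hc1, Complex.exp_eq_one_iff]
      refine ⟨-n, ?_⟩
      push_cast
      ring
    · -- invariance of `p`
      have hpinv : ∀ om : ℂ, om ^ n = 1 → ∀ w ∈ ball (0:ℂ) δ, p (om * w) = p w := by
        intro om hom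
        have hom0 : om ≠ 0 := by
          rintro rfl
          rw [zero_pow hn.ne'] at hom
          exact zero_ne_one hom
        have hnorm : ‖om‖ = 1 := by
          have h1 : ‖om‖ ^ n = 1 := by rw [← norm_pow, hom, norm_one]
          exact (pow_eq_one_iff_of_nonneg (norm_nonneg _) hn.ne').1 h1
        have hmap : ∀ w ∈ ball (0:ℂ) δ, om * w ∈ ball (0:ℂ) δ := by
          intro w hw
          rw [mem_ball_zero_iff] at hw ⊢
          rwa [norm_mul, hnorm, one_mul]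
        have h1 : AnalyticOnNhd ℂ (fun w => p (om * w)) (ball 0 δ) := by
          intro w hw
          exact AnalyticAt.fun_comp (g := p) (f := fun w => om * w) (hpa _ (hmap w hw))
            (analyticAt_const.mul analyticAt_id)
        have h2 : (fun w => p (om * w)) =ᶠ[𝓝 0] p := by
          have h3 : ∀ᶠ w in 𝓝 (0:ℂ), w ≠ 0 → g (om * w) = g w := by
            have := hinv om hom
            rwa [eventually_nhdsWithin_iff] at this
          filter_upwards [h3] with w h4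
          by_cases hw0 : w = 0
          · rw [hw0, mul_zero]
          · show p (om * w) = p w
            rw [hpne _ (mul_ne_zero hom0 hw0), hpne _ hw0, h4 hw0, mul_pow, hom, one_mul]
        have h5 := h1.eqOn_of_preconnected_of_eventuallyEq hpa
          (convex_ball (0:ℂ) δ).isPreconnected (mem_ball_self hδ) h2
        exact fun w hw => h5 hw
      obtain ⟨p₁, hp₁a, hp₁⟩ := Plc_descend hn hδ hpa hpinv
      have hp₁0 : p₁ 0 = c := by
        have := hp₁ 0 (mem_ball_self hδ)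
        rwa [zero_pow hn.ne', hp0] at this
      have hZ1 : n * log w₁ ∈ HP 1 (δ ^ n) := by
        show ‖exp (n * log w₁ / (1:ℕ))‖ < δ ^ n
        rw [Nat.cast_one, div_one, hexp' w₁ hw₁0, norm_pow]
        exact pow_lt_pow_left₀ (by simpa using hw₁) (norm_nonneg _) hn.ne'
      have hκZ' : ∀ᶠ Z in 𝓝 (n * log w₁),
          κ₁ (e + exp Z) = p₁ (exp (Z / (1:ℕ))) / exp Z := by
        filter_upwards [hκZ, (isOpen_HP n δ).mem_nhds (hHP w₁ hw₁ hw₁0)] with Z h1 h2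
        rw [h1, Nat.cast_one, div_one, ← hp₁ _ (mem_HP.1 h2), Plc_exp hn]
      obtain ⟨N, hN⟩ := cone_int (m := m) (k := k) (pow_pos hδ n) hp₁a hZ1 hSZ hκZ'
        (ν := ν) (by rw [hp₁0]; exact hν)
      rw [hp₁0] at hN
      have hcN : c = N - 1 := by linear_combination hN
      rw [hcN, Complex.exp_eq_one_iff]
      refine ⟨n * (N - 1), ?_⟩
      push_cast
      ring
  have hper : ∀ j ≤ m, ∀ Z ∈ HP n δ, ψ j (Z + 2 * Real.pi * I * n) = ψ j Z := by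
    intro j hj Z hZ
    rw [hψper j hj Z hZ, hmult, one_mul]
  -- growth
  have hδ4 : ((δ / 4 : ℝ) : ℂ) ≠ 0 := by
    have : δ / 4 ≠ 0 := by positivity
    exact_mod_cast this
  have hZ2 : n * log ((δ / 4 : ℝ) : ℂ) ∈ HP n (δ / 2) := by
    rw [mem_HP, hexp _ hδ4, mem_ball_zero_iff, Complex.norm_real, Real.norm_of_nonneg (by positivity)]
    linarith
  obtain ⟨C, K', -, -, hgr⟩ := hψgr (δ / 2) (by linarith) _ hZ2
  have hB : ∀ j : ℕ, ∃ f : ℂ → ℂ, j ≤ m → MeromorphicAt f 0 ∧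
      ∀ Z ∈ HP n δ, ψ j Z = f (exp (Z / n)) := by
    intro j
    by_cases hj : j ≤ m
    · obtain ⟨f, hf1, -, hf3⟩ := exists_mer_of_per hn hδ (hψa j hj) (hper j hj)
        ⟨δ / 2, by positivity, _, C, K', by linarith, fun Z hZ => hgr j hj Z hZ⟩
      exact ⟨f, fun _ => ⟨hf1, hf3⟩⟩
    · exact ⟨0, fun h => absurd h hj⟩
  choose B hB using hB
  have hval : ∀ w₂ ∈ ball (0:ℂ) δ, w₂ ≠ 0 → ∀ (a₂ : ℂ → ℂ) (j : ℕ), j ≤ m →
      (∀ᶠ Z in 𝓝 (n * log w₂), ψ j Z = a₂ (e + exp Z) * exp Z) →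
      ∀ᶠ w in 𝓝 w₂, B j w / w ^ n = a₂ (e + w ^ n) := by
    intro w₂ hw₂ hw₂0 a₂ j hj h
    have h1 : ∀ᶠ Z in 𝓝 (n * log w₂), ψ j Z = a₂ (e + exp Z) * exp Z ∧ Z ∈ HP n δ := by
      filter_upwards [h, (isOpen_HP n δ).mem_nhds (hHP w₂ hw₂ hw₂0)] with Z h1 h2
      exact ⟨h1, h2⟩
    filter_upwards [Plc_pull hn hw₂0 h1] with w hw
    obtain ⟨Z, ⟨h2, h3⟩, h4, h5⟩ := hw
    have h6 := (hB j hj).2 Z h3
    rw [h4] at h6
    rw [← h6, h2, ← h5, mul_div_cancel_right₀ _ (exp_ne_zero _)]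
  refine ⟨fun j w => B j w / w ^ n, ?_, ?_, ?_⟩
  · intro j hj
    exact (hB j hj).1.div ((analyticAt_id.pow n).meromorphicAt)
  · intro j hj
    exact hval w₁ hw₁ hw₁0 (a j) j hj (hψ1 j hj)
  · intro w₂ hw₂ hw₂0
    obtain ⟨κ₂, a₂, hS₂, hκ₂, ha₂⟩ := hψQ _ (hHP w₂ hw₂ hw₂0)
    refine ⟨κ₂, a₂, ?_, ?_, fun j hj => hval w₂ hw₂ hw₂0 (a₂ j) j hj (ha₂ j hj)⟩
    · rw [hexp' w₂ hw₂0] at hS₂
      exact hS₂
    · filter_upwards [Plc_pull hn hw₂0 hκ₂] with w hw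
      obtain ⟨Z, h2, h4, h5⟩ := hw
      rw [← hgp, h4, h5] at h2
      exact h2.symm

end Pool.Agent.MP_ae5b4e_an_NB1B
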