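import Pool.Agent.Lib.MP_ae5b4e_an_NB1B.SlL

/-!
# MP_ae5b4e_an, NB_1 section 3: slices, continuation upwards
-/

noncomputable section

namespace Pool.Agent.MP_ae5b4e_an_NB1B

open Complex Set Filter Topology Metric
open Pool.Agent.MP_ae5b4e_an_NBT

/-- open rectangles -/
private def SlR (p q u v : ℝ) : Set ℂ := {t | p < t.re ∧ t.re < q ∧ u < t.im ∧ t.im < v}

private theorem slR_open (p q u v : ℝ) : IsOpen (SlR p q u v) :=
  (isOpen_lt continuous_const continuous_re).inter ((isOpen_lt continuous_re continuous_const).inter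
    ((isOpen_lt continuous_const continuous_im).inter (isOpen_lt continuous_im continuous_const)))

private theorem slR_convex (p q u v : ℝ) : Convex ℝ (SlR p q u v) :=
  (convex_halfSpace_re_gt p).inter ((convex_halfSpace_re_lt q).inter
    ((convex_halfSpace_im_gt u).inter (convex_halfSpace_im_lt v)))

private theorem slSt_open (u v : ℝ) : IsOpen (St u v) :=
  (isOpen_lt continuous_const continuous_im).inter (isOpen_lt continuous_im continuous_const)

private theorem slSt_convex (u v : ℝ) : Convex ℝ (St u v) :=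
  (convex_halfSpace_im_gt u).inter (convex_halfSpace_im_lt v)

/-- the identity theorem -/
private theorem sl_uniq {V : Set ℂ} (hV : IsPreconnected V) {u v : ℂ → ℂ}
    (hu : ∀ t ∈ V, MeromorphicNFAt u t) (hv : ∀ t ∈ V, MeromorphicNFAt v t) {s : ℂ} (hs : s ∈ V)
    (h : ∀ᶠ z in 𝓝[≠] s, u z = v z) : ∀ t ∈ V, u t = v t := by
  intro t ht
  have hw : MeromorphicOn (fun z => u z - v z) V := fun z hz =>
    (hu z hz).meromorphicAt.sub (hv z hz).meromorphicAt
  have h1 : meromorphicOrderAt (fun z => u z - v z) s = ⊤ := by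
    rw [meromorphicOrderAt_eq_top_iff]
    filter_upwards [h] with z hz
    rw [hz, sub_self]
  have h2 : meromorphicOrderAt (fun z => u z - v z) t = ⊤ := by
    by_contra hne
    exact hw.meromorphicOrderAt_ne_top_of_isPreconnected hV ht hs hne h1
  rw [meromorphicOrderAt_eq_top_iff] at h2
  have h3 : u =ᶠ[𝓝[≠] t] v := by
    filter_upwards [h2] with z hz
    exact sub_eq_zero.1 hz
  exact (((hu t ht).eventuallyEq_nhdsNE_iff_eventuallyEq_nhds (hv t ht)).1 h3).eq_of_nhds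

section state

variable {m k : ℕ} {f g : ℂ → ℂ} {φ φ' : ℕ → ℂ → ℂ} {t : ℂ}

/-- the functions are in normal form, and the state holds near the point, except at the point -/
private def SlG (m k : ℕ) (f g : ℂ → ℂ) (φ : ℕ → ℂ → ℂ) (t : ℂ) : Prop :=
  (∀ j ≤ m, MeromorphicNFAt (φ j) t) ∧ ∀ᶠ s in 𝓝[≠] t, SS m k f g φ s

private theorem slG_congr (h : SlG m k f g φ t) (hφ : ∀ j ≤ m, ∀ᶠ z in 𝓝 t, φ j z = φ' j z) :
    SlG m k f g φ' t := by
  refine ⟨fun j hj => (meromorphicNFAt_congr (hφ j hj)).1 (h.1 j hj), ?_⟩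
  have h1 : ∀ᶠ s in 𝓝 t, ∀ j ∈ Set.Iic m, φ j =ᶠ[𝓝 s] φ' j := by
    rw [Filter.eventually_all_finite (Set.finite_Iic m)]
    intro j hj
    exact Filter.EventuallyEq.eventuallyEq_nhds (hφ j hj)
  filter_upwards [h.2, h1.filter_mono nhdsWithin_le_nhds] with s hs1 hs2
  exact hs1.congr fun j hj => hs2 j hj

private theorem slG_of_ss (h : SS m k f g φ t) : SlG m k f g φ t :=
  ⟨fun j hj => (h.an j hj).meromorphicNFAt, h.eventually.filter_mono nhdsWithin_le_nhds⟩

/-- the local extension property of a set -/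
private def SlP (m k : ℕ) (f g : ℂ → ℂ) (B : Set ℂ) : Prop :=
  ∃ c : ℂ, ∀ s₁ ∈ B, s₁ ≠ c → ∀ φ : ℕ → ℂ → ℂ, SS m k f g φ s₁ →
    ∃ φ' : ℕ → ℂ → ℂ, (∀ t ∈ B, SlG m k f g φ' t) ∧ ∀ j ≤ m, ∀ᶠ z in 𝓝 s₁, φ' j z = φ j z

private theorem slP_mono {B C : Set ℂ} (h : SlP m k f g B) (hC : C ⊆ B) : SlP m k f g C := by
  obtain ⟨c, hc⟩ := h
  refine ⟨c, fun s hs hsc φ hφ => ?_⟩
  obtain ⟨φ', h1, h2⟩ := hc s (hC hs) hsc φ hφ
  exact ⟨φ', fun t ht => h1 t (hC ht), h2⟩

private theorem slP_ball {t₁ : ℂ} (hf : MeromorphicAt f t₁) (hg : MeromorphicAt g t₁)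
    (hfn : ∀ c : ℂ, ¬ ∀ᶠ s in 𝓝[≠] t₁, f s = c) : ∃ r > 0, SlP m k f g (ball t₁ r) := by
  obtain ⟨r, hr, h⟩ := slice_loc (m := m) (k := k) hf hg hfn
  refine ⟨r, hr, t₁, fun s₁ hs₁ hne φ hφ => ?_⟩
  obtain ⟨φ', h1, h2, h3⟩ := h s₁ hs₁ hne φ hφ
  -- the normal form at the centre
  have hcg : ∀ j ≤ m, ∀ s : ℂ, s ≠ t₁ →
      ∀ᶠ z in 𝓝 s, toMeromorphicNFAt (φ' j) t₁ z = φ' j z := by
    intro j hj s hs
    filter_upwards [isOpen_ne.mem_nhds hs] with z hz
    exact ((h1 j hj).eqOn_compl_singleton_toMeromorphicNFAt hz).symm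
  have hss : ∀ s ∈ ball t₁ r, s ≠ t₁ →
      SS m k f g (fun j => toMeromorphicNFAt (φ' j) t₁) s := by
    intro s hs hst
    refine (h3 s hs hst).congr fun j hj => ?_
    filter_upwards [hcg j hj s hst] with z hz
    exact hz.symm
  refine ⟨fun j => toMeromorphicNFAt (φ' j) t₁, fun t ht => ?_, fun j hj => ?_⟩
  · rcases eq_or_ne t t₁ with rfl | htt
    · refine ⟨fun j _ => meromorphicNFAt_toMeromorphicNFAt, ?_⟩
      filter_upwards [self_mem_nhdsWithin,
        mem_nhdsWithin_of_mem_nhds (isOpen_ball.mem_nhds ht)] with s hs1 hs2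
      exact hss s hs2 hs1
    · exact slG_of_ss (hss t ht htt)
  · filter_upwards [hcg j hj s₁ hne, h2 j hj] with z hz1 hz2
    rw [hz1, hz2]

end state

/-- the extension along a vertical segment -/
private theorem sl_vert {m k : ℕ} {f g : ℂ → ℂ} {φ : ℕ → ℂ → ℂ} {a y : ℝ} (ha : 0 < a)
    (hbase : ∀ t ∈ St (-a) a, SS m k f g φ t)
    (hloc : ∀ t ∈ St (-a) y, ∃ r > 0, SlP m k f g (ball t r)) (x₀ η₀ : ℝ) (hη₀ : η₀ < y) :
    ∃ r > 0, ∃ φ' : ℕ → ℂ → ℂ,
      (∀ t ∈ SlR (x₀ - r) (x₀ + r) (-a) η₀, SlG m k f g φ' t) ∧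
      ∀ j ≤ m, ∀ t ∈ SlR (x₀ - r) (x₀ + r) (-a) η₀, t.im < a → φ' j t = φ j t := by
  -- the compact segment
  have hK : IsCompact ((fun s : ℝ => (⟨x₀, s⟩ : ℂ)) '' Icc 0 η₀) := by
    refine isCompact_Icc.image ?_
    have h1 : (fun s : ℝ => (⟨x₀, s⟩ : ℂ)) = fun s : ℝ => (x₀ : ℂ) + s * I := by
      funext s
      apply Complex.ext <;> simp
    rw [h1]
    fun_prop
  set K : Set ℂ := (fun s : ℝ => (⟨x₀, s⟩ : ℂ)) '' Icc 0 η₀ with hKdef
  have hKS : ∀ t ∈ K, t ∈ St (-a) y := by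
    rintro t ⟨s, hs, rfl⟩
    exact ⟨by change -a < s; linarith [hs.1], by change s < y; linarith [hs.2]⟩
  choose! ρ hρ hρP using hloc
  obtain ⟨δ, hδ, hδK⟩ := lebesgue_number_lemma_of_metric (c := fun i : K => ball (i : ℂ) (ρ i)) hK
    (fun i => isOpen_ball) (fun t ht => mem_iUnion.2 ⟨⟨t, ht⟩, mem_ball_self (hρ t (hKS t ht))⟩)
  have hP : ∀ t ∈ K, SlP m k f g (ball t δ) := by
    intro t ht
    obtain ⟨i, hi⟩ := hδK t ht
    exact slP_mono (hρP i (hKS i i.2)) hi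
  -- squares
  have hPR : ∀ η : ℝ, 0 ≤ η → η ≤ η₀ →
      SlP m k f g (SlR (x₀ - δ / 2) (x₀ + δ / 2) (η - δ / 2) (η + δ / 2)) := by
    intro η h0 h1
    refine slP_mono (hP (⟨x₀, η⟩ : ℂ) ⟨η, ⟨h0, h1⟩, rfl⟩) ?_
    rintro t ⟨h2, h3, h4, h5⟩
    rw [mem_ball, dist_eq_norm]
    refine (norm_le_abs_re_add_abs_im _).trans_lt ?_
    have h6 : |(t - (⟨x₀, η⟩ : ℂ)).re| < δ / 2 := by
      rw [sub_re, abs_lt]
      constructor
      · change -(δ / 2) < t.re - x₀
        linarith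
      · change t.re - x₀ < δ / 2
        linarith
    have h7 : |(t - (⟨x₀, η⟩ : ℂ)).im| < δ / 2 := by
      rw [sub_im, abs_lt]
      constructor
      · change -(δ / 2) < t.im - η
        linarith
      · change t.im - η < δ / 2
        linarith
    linarith
  -- induction
  have key : ∀ n : ℕ, ∀ η : ℝ, η ≤ η₀ → η ≤ a + n * (δ / 2) → ∃ r > 0, ∃ φ' : ℕ → ℂ → ℂ,
      (∀ t ∈ SlR (x₀ - r) (x₀ + r) (-a) η, SlG m k f g φ' t) ∧
      ∀ j ≤ m, ∀ t ∈ SlR (x₀ - r) (x₀ + r) (-a) η, t.im < a → φ' j t = φ j t := by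
    intro n
    induction n with
    | zero =>
      intro η _ hη
      refine ⟨1, one_pos, φ, ?_, fun j _ t _ _ => rfl⟩
      rintro t ⟨_, _, h3, h4⟩
      refine slG_of_ss (hbase t ⟨h3, ?_⟩)
      simp only [Nat.cast_zero, zero_mul, add_zero] at hη
      linarith
    | succ n ih =>
      intro η hη₁ hη₂
      by_cases hle : η ≤ a + n * (δ / 2)
      · exact ih η hη₁ hle
      rw [not_le] at hle
      obtain ⟨η', hη'⟩ : ∃ η' : ℝ, η' = a + n * (δ / 2) := ⟨_, rfl⟩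
      have hn0 : (0 : ℝ) ≤ n * (δ / 2) := by positivity
      have hη'a : a ≤ η' := by linarith
      have hη'η : η' < η := by linarith
      have hη'ε : η ≤ η' + δ / 2 := by
        push_cast at hη₂
        linarith
      obtain ⟨r, hr, φ', hG, hE⟩ := ih η' (by linarith) (by linarith)
      obtain ⟨c, hc⟩ := hPR η' (by linarith) (by linarith)
      set r' : ℝ := min r (δ / 2) with hr'
      have hr'0 : 0 < r' := lt_min hr (by linarith)
      have hr'r : r' ≤ r := min_le_left _ _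
      have hr'δ : r' ≤ δ / 2 := min_le_right _ _
      set lo : ℝ := max (η' - δ / 2) (-a) with hlo
      have hlo1 : η' - δ / 2 ≤ lo := le_max_left _ _
      have hlo2 : -a ≤ lo := le_max_right _ _
      have hlo3 : lo < η' := max_lt (by linarith) (by linarith)
      set W : Set ℂ := SlR (x₀ - r') (x₀ + r') lo η' with hW
      have hWo : IsOpen W := slR_open _ _ _ _
      have hWC : W ⊆ SlR (x₀ - δ / 2) (x₀ + δ / 2) (η' - δ / 2) (η' + δ / 2) := by
        rintro t ⟨h1, h2, h3, h4⟩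
        exact ⟨by linarith, by linarith, by linarith, by linarith⟩
      have hWR : W ⊆ SlR (x₀ - r) (x₀ + r) (-a) η' := by
        rintro t ⟨h1, h2, h3, h4⟩
        exact ⟨by linarith, by linarith, by linarith, by linarith⟩
      -- a point with the state
      obtain ⟨s₁, hs₁W, hs₁c, hs₁⟩ : ∃ s₁ ∈ W, s₁ ≠ c ∧ SS m k f g φ' s₁ := by
        have hw : (⟨x₀, (lo + η') / 2⟩ : ℂ) ∈ W := by
          refine ⟨?_, ?_, ?_, ?_⟩
          · change x₀ - r' < x₀
            linarith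
          · change x₀ < x₀ + r'
            linarith
          · change lo < (lo + η') / 2
            linarith
          · change (lo + η') / 2 < η'
            linarith
        have h1 := (hG _ (hWR hw)).2
        have h2 : ∀ᶠ s in 𝓝[≠] (⟨x₀, (lo + η') / 2⟩ : ℂ), s ∈ W :=
          mem_nhdsWithin_of_mem_nhds (hWo.mem_nhds hw)
        have h3 : ∀ᶠ s in 𝓝[≠] (⟨x₀, (lo + η') / 2⟩ : ℂ), s ≠ c := by
          rcases eq_or_ne (⟨x₀, (lo + η') / 2⟩ : ℂ) c with h4 | h4
          · rw [← h4]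
            exact self_mem_nhdsWithin
          · exact mem_nhdsWithin_of_mem_nhds (isOpen_ne.mem_nhds h4)
        obtain ⟨s, h4, h5, h6⟩ := (h1.and (h2.and h3)).exists
        exact ⟨s, h5, h6, h4⟩
      obtain ⟨φ₂, hG₂, hE₂⟩ := hc s₁ (hWC hs₁W) hs₁c φ' hs₁
      have hWeq : ∀ j ≤ m, ∀ t ∈ W, φ₂ j t = φ' j t := by
        intro j hj
        exact sl_uniq (slR_convex _ _ _ _).isPreconnected (fun t ht => (hG₂ t (hWC ht)).1 j hj)
          (fun t ht => (hG t (hWR ht)).1 j hj) hs₁W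
          ((hE₂ j hj).filter_mono nhdsWithin_le_nhds)
      refine ⟨r', hr'0, fun j t => if t.im < η' then φ' j t else φ₂ j t, ?_, ?_⟩
      · rintro t ⟨h1, h2, h3, h4⟩
        by_cases ht : t.im < η'
        · have ht' : t ∈ SlR (x₀ - r) (x₀ + r) (-a) η' :=
            ⟨by linarith, by linarith, h3, ht⟩
          refine slG_congr (hG t ht') fun j _ => ?_
          filter_upwards [(isOpen_lt continuous_im continuous_const).mem_nhds ht] with z hz
          exact (if_pos hz).symm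
        · rw [not_lt] at ht
          have ht' : t ∈ SlR (x₀ - δ / 2) (x₀ + δ / 2) (η' - δ / 2) (η' + δ / 2) :=
            ⟨by linarith, by linarith, by linarith, by linarith⟩
          refine slG_congr (hG₂ t ht') fun j hj => ?_
          have hN : t ∈ SlR (x₀ - r') (x₀ + r') lo (η' + δ / 2) :=
            ⟨h1, h2, by linarith, by linarith⟩
          filter_upwards [(slR_open _ _ _ _).mem_nhds hN] with z hz
          by_cases hzi : z.im < η'
          · rw [if_pos hzi]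
            exact hWeq j hj z ⟨hz.1, hz.2.1, hz.2.2.1, hzi⟩
          · rw [if_neg hzi]
      · rintro j hj t ⟨h1, h2, h3, h4⟩ hta
        have ht : t.im < η' := by linarith
        change (if t.im < η' then φ' j t else φ₂ j t) = φ j t
        rw [if_pos ht]
        exact hE j hj t ⟨by linarith, by linarith, h3, ht⟩ hta
  obtain ⟨n, hn⟩ := exists_nat_ge ((η₀ - a) / (δ / 2))
  refine key n η₀ le_rfl ?_
  rw [div_le_iff₀ (by linarith)] at hn
  linarith

/-- **the distinguished relation on a slice** -/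
theorem slice_ext {m k : ℕ} {f g : ℂ → ℂ} {φ : ℕ → ℂ → ℂ} {a y : ℝ} (ha : 0 < a) (hay : a ≤ y)
    (hf : ∀ t ∈ St (-a) y, MeromorphicAt f t) (hg : ∀ t ∈ St (-a) y, MeromorphicAt g t)
    (hfp : ∀ t ∈ St (-a) y, f (t + 1) = f t) (hgp : ∀ t ∈ St (-a) y, g (t + 1) = g t)
    (hφp : ∀ j ≤ m, ∀ t ∈ St (-a) a, φ j (t + 1) = φ j t)
    (hbase : ∀ t ∈ St (-a) a, SS m k f g φ t) :
    ∃ φ' : ℕ → ℂ → ℂ, (∀ j ≤ m, ∀ t ∈ St (-a) y, MeromorphicAt (φ' j) t) ∧
      (∀ j ≤ m, ∀ t ∈ St (-a) a, φ' j t = φ j t) ∧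
      ∀ t ∈ St (-a) y, ∀ᶠ s in 𝓝[≠] t, SS m k f g φ' s := by
  -- `f` is not constant
  have h0 : (0 : ℂ) ∈ St (-a) a := ⟨by simpa using ha, by simpa using ha⟩
  have h0y : (0 : ℂ) ∈ St (-a) y := ⟨by simpa using ha, by
    change (0 : ℂ).im < y
    rw [zero_im]
    linarith⟩
  have hfn : ∀ t ∈ St (-a) y, ∀ c : ℂ, ¬ ∀ᶠ s in 𝓝[≠] t, f s = c := by
    intro t ht c hc
    have hw : MeromorphicOn (fun z => f z - c) (St (-a) y) := fun z hz =>
      (hf z hz).sub (MeromorphicAt.const c z)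
    have h1 : meromorphicOrderAt (fun z => f z - c) t = ⊤ := by
      rw [meromorphicOrderAt_eq_top_iff]
      filter_upwards [hc] with z hz
      rw [hz, sub_self]
    have h2 : meromorphicOrderAt (fun z => f z - c) 0 = ⊤ := by
      by_contra hne
      exact hw.meromorphicOrderAt_ne_top_of_isPreconnected (slSt_convex _ _).isPreconnected h0y ht
        hne h1
    rw [meromorphicOrderAt_eq_top_iff] at h2
    obtain ⟨κ, b, hfa, hfd, _⟩ := hbase 0 h0
    apply hfd
    have h3 : f =ᶠ[𝓝[≠] (0 : ℂ)] fun _ => c := by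
      filter_upwards [h2] with z hz
      exact sub_eq_zero.1 hz
    have h4 : f =ᶠ[𝓝 (0 : ℂ)] fun _ => c :=
      (hfa.continuousAt.eventuallyEq_nhds_iff_eventuallyEq_nhdsNE continuousAt_const).1 h3
    rw [h4.deriv_eq]
    simp
  have hloc : ∀ t ∈ St (-a) y, ∃ r > 0, SlP m k f g (ball t r) := fun t ht =>
    slP_ball (hf t ht) (hg t ht) (hfn t ht)
  rcases eq_or_lt_of_le hay with rfl | hay'
  · exact ⟨φ, fun j hj t ht => ((hbase t ht).an j hj).meromorphicAt, fun _ _ _ _ => rfl,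
      fun t ht => (hbase t ht).eventually.filter_mono nhdsWithin_le_nhds⟩
  have hV := sl_vert (k := k) ha hbase hloc
  choose! r hr ψ hψ1 hψ2 using hV
  -- the height
  set η : ℂ → ℝ := fun t => max a ((t.im + y) / 2) with hη
  have hηy : ∀ t ∈ St (-a) y, η t < y := fun t ht => max_lt hay' (by linarith [ht.2])
  have hηt : ∀ t ∈ St (-a) y, t.im < η t := fun t ht =>
    lt_of_lt_of_le (by linarith [ht.2]) (le_max_right _ _)
  have hmem : ∀ t ∈ St (-a) y,
      t ∈ SlR (t.re - r t.re (η t)) (t.re + r t.re (η t)) (-a) (η t) := by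
    intro t ht
    have h1 := hr t.re (η t) (hηy t ht)
    exact ⟨by linarith, by linarith, ht.1, hηt t ht⟩
  have hglue : ∀ j ≤ m, ∀ t ∈ St (-a) y,
      ∀ᶠ s in 𝓝 t, ψ t.re (η t) j s = ψ s.re (η s) j s := by
    intro j hj t ht
    filter_upwards [(slR_open _ _ _ _).mem_nhds (hmem t ht)] with s hs
    have hsS : s ∈ St (-a) y := ⟨hs.2.2.1, hs.2.2.2.trans (hηy t ht)⟩
    have hs' := hmem s hsS
    have hconv := (slR_convex (t.re - r t.re (η t)) (t.re + r t.re (η t)) (-a) (η t)).inter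
      (slR_convex (s.re - r s.re (η s)) (s.re + r s.re (η s)) (-a) (η s))
    have hb : (⟨s.re, min s.im 0⟩ : ℂ) ∈
        SlR (t.re - r t.re (η t)) (t.re + r t.re (η t)) (-a) (η t) ∩
        SlR (s.re - r s.re (η s)) (s.re + r s.re (η s)) (-a) (η s) := by
      have h1 : -a < min s.im 0 := lt_min hsS.1 (by linarith)
      have h2 : min s.im 0 ≤ s.im := min_le_left _ _
      exact ⟨⟨hs.1, hs.2.1, h1, lt_of_le_of_lt h2 hs.2.2.2⟩,
        ⟨hs'.1, hs'.2.1, h1, lt_of_le_of_lt h2 hs'.2.2.2⟩⟩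
    refine sl_uniq hconv.isPreconnected
      (fun z hz => (hψ1 t.re (η t) (hηy t ht) z hz.1).1 j hj)
      (fun z hz => (hψ1 s.re (η s) (hηy s hsS) z hz.2).1 j hj) hb ?_ s ⟨hs, hs'⟩
    have hba : (⟨s.re, min s.im 0⟩ : ℂ).im < a := lt_of_le_of_lt (min_le_right _ _) ha
    filter_upwards [mem_nhdsWithin_of_mem_nhds
        (((slR_open _ _ _ _).inter (slR_open _ _ _ _)).mem_nhds hb),
      mem_nhdsWithin_of_mem_nhds ((isOpen_lt continuous_im continuous_const).mem_nhds hba)]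
      with z hz hza
    rw [hψ2 t.re (η t) (hηy t ht) j hj z hz.1 hza, hψ2 s.re (η s) (hηy s hsS) j hj z hz.2 hza]
  have hfin : ∀ t ∈ St (-a) y, SlG m k f g (fun j t => ψ t.re (η t) j t) t := by
    intro t ht
    exact slG_congr (hψ1 t.re (η t) (hηy t ht) t (hmem t ht)) fun j hj => hglue j hj t ht
  refine ⟨fun j t => ψ t.re (η t) j t, fun j hj t ht => ((hfin t ht).1 j hj).meromorphicAt, ?_,
    fun t ht => (hfin t ht).2⟩
  intro j hj t ht
  have htS : t ∈ St (-a) y := ⟨ht.1, ht.2.trans hay'⟩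
  exact hψ2 t.re (η t) (hηy t htS) j hj t (hmem t htS) ht.2

end Pool.Agent.MP_ae5b4e_an_NB1B
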