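import Pool.Agent.Lib.MP_ae5b4e_an_NB1B.Plc
import Pool.Agent.Lib.MP_ae5b4e_an_NB1B.MobS
import Pool.Agent.Lib.MP_ae5b4e_an_MERO.Countable

/-!
# MP_ae5b4e_an, NB_1 section 3: slices, the local step
-/

noncomputable section

namespace Pool.Agent.MP_ae5b4e_an_NB1B

open Complex Set Filter Topology Metric
open Pool.Agent.MP_ae5b4e_an_NBT

variable {m k : ℕ} {f g : ℂ → ℂ} {φ φ' : ℕ → ℂ → ℂ} {s : ℂ}

theorem SS.congr (h : SS m k f g φ s) (hφ : ∀ j ≤ m, φ j =ᶠ[𝓝 s] φ' j) : SS m k f g φ' s := by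
  obtain ⟨κ, a, h1, h2, h3, h4, h5⟩ := h
  refine ⟨κ, a, h1, h2, h3, fun j hj => ?_, h5⟩
  filter_upwards [h4 j hj, hφ j hj] with t e1 e2
  rw [← e2, e1]

private theorem ss_congr {f' g' : ℂ → ℂ} (h : SS m k f g φ s) (hf : f =ᶠ[𝓝 s] f')
    (hg : g =ᶠ[𝓝 s] g') : SS m k f' g' φ s := by
  obtain ⟨κ, a, h1, h2, h3, h4, h5⟩ := h
  refine ⟨κ, a, h1.congr hf, ?_, ?_, fun j hj => ?_, ?_⟩
  · rw [← hf.deriv_eq]
    exact h2
  · filter_upwards [h3, hf, hg] with t e1 e2 e3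
    rw [← e3, ← e2, e1]
  · filter_upwards [h4 j hj, hf] with t e1 e2
    rw [← e2, e1]
  · rw [← hf.eq_of_nhds]
    exact h5

theorem SS.eventually (h : SS m k f g φ s) : ∀ᶠ t in 𝓝 s, SS m k f g φ t := by
  obtain ⟨κ, a, h1, h2, h3, h4, h5⟩ := h
  have e4 : ∀ᶠ t in 𝓝 s, ∀ j ≤ m, ∀ᶠ u in 𝓝 t, φ j u = a j (f u) := by
    have e := (Filter.eventually_all_finite (Set.finite_Iic m) (l := 𝓝 s)
      (p := fun j t => ∀ᶠ u in 𝓝 t, φ j u = a j (f u))).mpr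
      (fun j hj => (h4 j hj).eventually_nhds)
    filter_upwards [e] with t ht j hj
    exact ht j hj
  filter_upwards [h1.eventually_analyticAt, h1.deriv.continuousAt.eventually_ne h2,
    h3.eventually_nhds, e4, h1.continuousAt.eventually h5.eventually] with t a1 a2 a3 a4 a5
  exact ⟨κ, a, a1, a2, a3, a4, a5⟩

theorem SS.an (h : SS m k f g φ s) : ∀ j ≤ m, AnalyticAt ℂ (φ j) s := by
  intro j hj
  obtain ⟨κ, a, h1, h2, h3, h4, h5⟩ := h
  have e1 : AnalyticAt ℂ (fun t => a j (f t)) s := (h5.rl.1 j hj).fun_comp h1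
  exact e1.congr ((h4 j hj).mono fun t ht => ht.symm)

/-- the local inverse -/
private theorem loc_inv {f : ℂ → ℂ} {t : ℂ} (hf : AnalyticAt ℂ f t) (hf' : deriv f t ≠ 0) :
    ∃ σ : ℂ → ℂ, AnalyticAt ℂ σ (f t) ∧ σ (f t) = t ∧ (∀ᶠ s in 𝓝 t, σ (f s) = s) ∧
      ∀ᶠ x in 𝓝 (f t), f (σ x) = x := by
  refine ⟨hf.hasStrictDerivAt.localInverse _ _ _ hf', hf.analyticAt_localInverse hf', ?_, ?_, ?_⟩
  · exact (HasStrictDerivAt.eventually_left_inverse hf.hasStrictDerivAt hf').self_of_nhds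
  · exact HasStrictDerivAt.eventually_left_inverse hf.hasStrictDerivAt hf'
  · exact HasStrictDerivAt.eventually_right_inverse hf.hasStrictDerivAt hf'

private theorem punct_pre (t : ℂ) (r : ℝ) : IsPreconnected (ball t r \ {t}) :=
  Pool.Agent.MP_ae5b4e_an_MERO.isPreconnected_diff isOpen_ball (convex_ball t r)
    (countable_singleton t)

/-- the state extends to points where `f`, `g` are analytic and `f` is immersed -/
theorem SS.of_punctured {t : ℂ} (hf : AnalyticAt ℂ f t) (hf' : deriv f t ≠ 0)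
    (hg : AnalyticAt ℂ g t) (h : ∀ᶠ s in 𝓝[≠] t, SS m k f g φ s) :
    ∃ φ' : ℕ → ℂ → ℂ, (∀ j ≤ m, ∀ᶠ s in 𝓝[≠] t, φ' j s = φ j s) ∧ SS m k f g φ' t := by
  obtain ⟨σ, s1, s2, s3, s4⟩ := loc_inv hf hf'
  have hgσ : AnalyticAt ℂ g (σ (f t)) := by rw [s2]; exact hg
  have hκ : AnalyticAt ℂ (fun x => g (σ x)) (f t) := hgσ.fun_comp s1
  obtain ⟨r, hr, hB⟩ := Metric.eventually_nhds_iff_ball.mp
    (hκ.eventually_analyticAt.and (s1.eventually_analyticAt.and s4))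
  have hfr : ∀ᶠ s in 𝓝 t, f s ∈ ball (f t) r :=
    hf.continuousAt.eventually (ball_mem_nhds _ hr)
  obtain ⟨ε, hε, hU⟩ := Metric.eventually_nhds_iff_ball.mp
    (hfr.and (s3.and ((eventually_nhdsWithin_iff.mp h).and (hf.eventually_analyticAt.and
      (s3.eventually_nhds)))))
  -- a point of the punctured ball
  obtain ⟨s0, hs0⟩ : ∃ s0, s0 ∈ ball t ε ∧ s0 ≠ t := by
    have e1 : ∀ᶠ s in 𝓝[≠] t, s ∈ ball t ε := nhdsWithin_le_nhds (ball_mem_nhds t hε)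
    have e2 : ∀ᶠ s in 𝓝[≠] t, s ≠ t := self_mem_nhdsWithin
    exact (e1.and e2).exists
  obtain ⟨κ', a', h1, h2, h3, h4, h5⟩ := (hU s0 hs0.1).2.2.1 hs0.2
  have hf0 : f s0 ∈ ball (f t) r := (hU s0 hs0.1).1
  have hσ0 : σ (f s0) = s0 := (hU s0 hs0.1).2.1
  have hκκ : κ' =ᶠ[𝓝 (f s0)] fun x => g (σ x) := by
    have c1 : Tendsto σ (𝓝 (f s0)) (𝓝 s0) := by
      have := (hB (f s0) hf0).2.1.continuousAt.tendsto
      rwa [hσ0] at this
    have c2 : ∀ᶠ x in 𝓝 (f s0), x ∈ ball (f t) r := isOpen_ball.mem_nhds hf0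
    filter_upwards [c1.eventually h3, c2] with x x1 x2
    rw [x1, (hB x x2).2.2]
  have h6 : Stt m k (fun x => g (σ x)) a' (f s0) := h5.congr hκκ fun j _ => EventuallyEq.rfl
  obtain ⟨a'', b1, b2, b3⟩ := h6.ext hf0 (fun x hx => (hB x hx).1)
  refine ⟨fun j z => a'' j (f z), fun j hj => ?_, ?_⟩
  · -- the identity theorem on the punctured ball
    have hop : IsOpen (ball t ε \ {t}) := isOpen_ball.sdiff isClosed_singleton
    have p1 : AnalyticOnNhd ℂ (fun z => a'' j (f z)) (ball t ε \ {t}) := by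
      intro z hz
      exact (b1 j hj (f z) (hU z hz.1).1).fun_comp (hU z hz.1).2.2.2.1
    have p2 : AnalyticOnNhd ℂ (φ j) (ball t ε \ {t}) := by
      intro z hz
      exact ((hU z hz.1).2.2.1 hz.2).an j hj
    have p3 : (fun z => a'' j (f z)) =ᶠ[𝓝 s0] φ j := by
      filter_upwards [h4 j hj, h1.continuousAt.eventually (b2 j hj)] with z z1 z2
      rw [z1]
      exact z2
    have p4 := p1.eqOn_of_preconnected_of_eventuallyEq p2 (punct_pre t ε) (z₀ := s0)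
      ⟨hs0.1, hs0.2⟩ p3
    filter_upwards [self_mem_nhdsWithin, nhdsWithin_le_nhds (ball_mem_nhds t hε)] with z z1 z2
    exact p4 ⟨z2, z1⟩
  · refine ⟨fun x => g (σ x), a'', hf, hf', ?_, fun j _ => Filter.Eventually.of_forall fun z => rfl,
      b3 (f t) (mem_ball_self hr)⟩
    filter_upwards [s3] with z hz
    rw [hz]

/-- an analytic root of a function without zeros -/
private theorem an_root {v : ℂ → ℂ} {t : ℂ} (hv : AnalyticAt ℂ v t) (h0 : v t ≠ 0) {m : ℕ}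
    (hm : m ≠ 0) :
    ∃ w : ℂ → ℂ, AnalyticAt ℂ w t ∧ w t ≠ 0 ∧ ∀ᶠ s in 𝓝 t, w s ^ m = v s := by
  obtain ⟨c, hc⟩ := IsAlgClosed.exists_pow_nat_eq (v t) (Nat.pos_of_ne_zero hm)
  have hc0 : c ≠ 0 := by
    rintro rfl
    rw [zero_pow hm] at hc
    exact h0 hc.symm
  have hm' : (m : ℂ) ≠ 0 := Nat.cast_ne_zero.mpr hm
  refine ⟨fun s => c * cexp (Complex.log (v s / v t) / m), ?_, ?_, ?_⟩
  · have h1 : AnalyticAt ℂ (fun s => v s / v t) t := hv.div analyticAt_const h0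
    have h2 : AnalyticAt ℂ (fun s => Complex.log (v s / v t)) t := by
      refine h1.clog ?_
      rw [div_self h0]
      exact one_mem_slitPlane
    exact analyticAt_const.mul ((h2.div analyticAt_const hm').cexp)
  · exact mul_ne_zero hc0 (Complex.exp_ne_zero _)
  · filter_upwards [hv.continuousAt.eventually_ne h0] with s hs
    rw [mul_pow, ← Complex.exp_nat_mul, mul_div_cancel₀ _ hm',
      Complex.exp_log (div_ne_zero hs h0), hc, mul_div_cancel₀ _ h0]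

/-- the local step in a uniformising coordinate -/
private theorem loc_w {t₁ e : ℂ} {n : ℕ} (hn : 0 < n) {w : ℂ → ℂ} (hw : AnalyticAt ℂ w t₁)
    (hw0 : w t₁ = 0) (hw' : deriv w t₁ ≠ 0) (hf : ∀ᶠ s in 𝓝[≠] t₁, f s = e + w s ^ n)
    (hg : MeromorphicAt g t₁) :
    ∃ r > 0, ∀ s₁ ∈ ball t₁ r, s₁ ≠ t₁ → ∀ φ : ℕ → ℂ → ℂ, SS m k f g φ s₁ →
      ∃ φ' : ℕ → ℂ → ℂ, (∀ j ≤ m, MeromorphicAt (φ' j) t₁) ∧
        (∀ j ≤ m, φ' j =ᶠ[𝓝 s₁] φ j) ∧
        ∀ s₂ ∈ ball t₁ r, s₂ ≠ t₁ → SS m k f g φ' s₂ := by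
  obtain ⟨τ, s1, s2, s3, s4⟩ := loc_inv hw hw'
  rw [hw0] at s1 s2 s4
  have hgτ : MeromorphicAt g (τ 0) := by rw [s2]; exact hg
  have hG : MeromorphicAt (g ∘ τ) 0 := hgτ.comp_analyticAt s1
  obtain ⟨δ, hδ, hP⟩ := place_all (m := m) (k := k) hn (e := e) hG
  have hwc : Tendsto w (𝓝 t₁) (𝓝 0) := by
    have := hw.continuousAt.tendsto
    rwa [hw0] at this
  obtain ⟨r, hr, hU⟩ := Metric.eventually_nhds_iff_ball.mp
    ((eventually_nhdsWithin_iff.mp hf).and ((hwc.eventually (ball_mem_nhds 0 hδ)).and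
      (s3.eventually_nhds.and (hw.eventually_analyticAt.and
        ((hw.deriv.continuousAt.eventually_ne hw').and
          ((hwc.eventually s1.eventually_analyticAt).and
            (hwc.eventually s4.eventually_nhds)))))))
  have hne : ∀ s ∈ ball t₁ r, s ≠ t₁ → w s ≠ 0 := by
    intro s hs hst h0
    have e1 : τ (w s) = s := (hU s hs).2.2.1.self_of_nhds
    rw [h0, s2] at e1
    exact hst e1.symm
  have hfw : ∀ s ∈ ball t₁ r, s ≠ t₁ → ∀ᶠ u in 𝓝 s, f u = e + w u ^ n := by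
    intro s hs hst
    have e1 : ∀ᶠ u in 𝓝 s, u ∈ ball t₁ r ∧ u ≠ t₁ :=
      Filter.Eventually.and (isOpen_ball.mem_nhds hs) (isOpen_ne.mem_nhds hst)
    filter_upwards [e1] with u hu
    exact (hU u hu.1).1 hu.2
  refine ⟨r, hr, fun s₁ hs₁ hne₁ φ hSS => ?_⟩
  obtain ⟨κ₁, a, h1, h2, h3, h4, h5⟩ := hSS
  obtain ⟨u1, u2, u3, u4, u5, u6, u7⟩ := hU s₁ hs₁
  have hτ₁ : τ (w s₁) = s₁ := u3.self_of_nhds
  have hτc : Tendsto τ (𝓝 (w s₁)) (𝓝 s₁) := by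
    have := u6.continuousAt.tendsto
    rwa [hτ₁] at this
  have h5' : Stt m k κ₁ a (e + w s₁ ^ n) := by
    rw [← u1 hne₁]
    exact h5
  have hGk : ∀ᶠ z in 𝓝 (w s₁), (g ∘ τ) z = κ₁ (e + z ^ n) := by
    filter_upwards [hτc.eventually h3, hτc.eventually (hfw s₁ hs₁ hne₁), u7] with z z1 z2 z3
    change g (τ z) = _
    rw [z1, z2, z3]
  obtain ⟨b, b1, b2, b3⟩ := hP (w s₁) u2 (hne s₁ hs₁ hne₁) κ₁ a h5' hGk
  have hwc₁ : Tendsto w (𝓝 s₁) (𝓝 (w s₁)) := u4.continuousAt.tendsto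
  refine ⟨fun j t => b j (w t), fun j hj => ?_, fun j hj => ?_, fun s₂ hs₂ hne₂ => ?_⟩
  · have e1 : MeromorphicAt (b j) (w t₁) := by rw [hw0]; exact b1 j hj
    exact e1.comp_analyticAt hw
  · filter_upwards [h4 j hj, hwc₁.eventually (b2 j hj), hfw s₁ hs₁ hne₁] with t x1 x2 x3
    rw [x1, x3]
    exact x2
  · obtain ⟨v1, v2, v3, v4, v5, v6, v7⟩ := hU s₂ hs₂
    obtain ⟨κ₂, a₂, c1, c2, c3⟩ := b3 (w s₂) v2 (hne s₂ hs₂ hne₂)
    have hf₂ := hfw s₂ hs₂ hne₂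
    have hwc₂ : Tendsto w (𝓝 s₂) (𝓝 (w s₂)) := v4.continuousAt.tendsto
    have han : AnalyticAt ℂ (fun u => e + w u ^ n) s₂ := analyticAt_const.add (v4.pow n)
    refine ⟨κ₂, a₂, han.congr (hf₂.mono fun u hu => hu.symm), ?_, ?_, fun j hj => ?_, ?_⟩
    · have e1 : f =ᶠ[𝓝 s₂] fun u => e + w u ^ n := hf₂
      rw [e1.deriv_eq]
      have e2 : HasDerivAt (fun u => e + w u ^ n) (n * w s₂ ^ (n - 1) * deriv w s₂) s₂ :=
        (v4.differentiableAt.hasDerivAt.pow n).const_add e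
      rw [e2.deriv]
      exact mul_ne_zero (mul_ne_zero (Nat.cast_ne_zero.mpr hn.ne')
        (pow_ne_zero _ (hne s₂ hs₂ hne₂))) v5
    · filter_upwards [hwc₂.eventually c2, v3, hf₂] with u x1 x2 x3
      rw [x3, ← x1]
      change g u = g (τ (w u))
      rw [x2]
    · filter_upwards [hwc₂.eventually (c3 j hj), hf₂] with u x1 x2
      rw [x2]
      exact x1
    · rw [v1 hne₂]
      exact c1

/-- the local step for a bounded function -/
private theorem loc_an {t₁ : ℂ} (hf : MeromorphicAt f t₁) (ho : 0 ≤ meromorphicOrderAt f t₁)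
    (hg : MeromorphicAt g t₁) (hfn : ∀ c : ℂ, ¬ ∀ᶠ s in 𝓝[≠] t₁, f s = c) :
    ∃ r > 0, ∀ s₁ ∈ ball t₁ r, s₁ ≠ t₁ → ∀ φ : ℕ → ℂ → ℂ, SS m k f g φ s₁ →
      ∃ φ' : ℕ → ℂ → ℂ, (∀ j ≤ m, MeromorphicAt (φ' j) t₁) ∧
        (∀ j ≤ m, φ' j =ᶠ[𝓝 s₁] φ j) ∧
        ∀ s₂ ∈ ball t₁ r, s₂ ≠ t₁ → SS m k f g φ' s₂ := by
  obtain ⟨F, hF⟩ : ∃ F, F = toMeromorphicNFAt f t₁ := ⟨_, rfl⟩
  have hFa : AnalyticAt ℂ F t₁ := by
    rw [hF]
    exact hf.meromorphicOrderAt_nonneg_iff_analyticAt_toMeromorphicNFAt.mp ho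
  have hfF : f =ᶠ[𝓝[≠] t₁] F := by
    rw [hF]
    exact hf.eq_nhdsNE_toMeromorphicNFAt
  have hD : AnalyticAt ℂ (fun s => F s - F t₁) t₁ := hFa.sub analyticAt_const
  have hnz : ¬ ∀ᶠ s in 𝓝 t₁, F s - F t₁ = 0 := by
    intro h
    apply hfn (F t₁)
    filter_upwards [hfF, h.filter_mono nhdsWithin_le_nhds] with s x1 x2
    rw [x1]
    exact sub_eq_zero.mp x2
  obtain ⟨n, u, hu, hu0, hun⟩ := hD.exists_eventuallyEq_pow_smul_nonzero_iff.mpr hnz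
  have hn : n ≠ 0 := by
    rintro rfl
    have h0 := hun.self_of_nhds
    rw [sub_self, pow_zero, one_smul] at h0
    exact hu0 h0.symm
  obtain ⟨v, hv, hv0, hvn⟩ := an_root hu hu0 hn
  have hw : AnalyticAt ℂ (fun s => (s - t₁) * v s) t₁ :=
    (analyticAt_id.sub analyticAt_const).mul hv
  have hw' : HasDerivAt (fun s => (s - t₁) * v s) (v t₁) t₁ := by
    have h0 : HasDerivAt (fun s : ℂ => s - t₁) 1 t₁ := (hasDerivAt_id t₁).sub_const t₁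
    have h1 := h0.mul hv.differentiableAt.hasDerivAt
    refine h1.congr_deriv ?_
    simp
  refine loc_w (e := F t₁) (n := n) (Nat.pos_of_ne_zero hn) hw (by simp) ?_ ?_ hg
  · rw [hw'.deriv]
    exact hv0
  · filter_upwards [hfF, hun.filter_mono nhdsWithin_le_nhds,
      hvn.filter_mono nhdsWithin_le_nhds] with s x1 x2 x3
    rw [mul_pow, x3, x1, ← smul_eq_mul, ← x2]
    ring

/-- **the local step** -/
theorem slice_loc {t₁ : ℂ} (hf : MeromorphicAt f t₁) (hg : MeromorphicAt g t₁)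
    (hfn : ∀ c : ℂ, ¬ ∀ᶠ s in 𝓝[≠] t₁, f s = c) :
    ∃ r > 0, ∀ s₁ ∈ ball t₁ r, s₁ ≠ t₁ → ∀ φ : ℕ → ℂ → ℂ, SS m k f g φ s₁ →
      ∃ φ' : ℕ → ℂ → ℂ, (∀ j ≤ m, MeromorphicAt (φ' j) t₁) ∧
        (∀ j ≤ m, φ' j =ᶠ[𝓝 s₁] φ j) ∧
        ∀ s₂ ∈ ball t₁ r, s₂ ≠ t₁ → SS m k f g φ' s₂ := by
  rcases le_or_gt 0 (meromorphicOrderAt f t₁) with ho | ho
  · exact loc_an hf ho hg hfn
  · -- the pole
    have hfi : MeromorphicAt (fun t => (f t)⁻¹) t₁ := hf.inv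
    have hgi : MeromorphicAt (fun t => -(f t) ^ 2 * g t - 2 * f t) t₁ :=
      (((hf.pow 2).neg).mul hg).sub ((MeromorphicAt.const 2 t₁).mul hf)
    have hoi : 0 ≤ meromorphicOrderAt (fun t => (f t)⁻¹) t₁ := by
      have h1 : meromorphicOrderAt (fun t => (f t)⁻¹) t₁ = -meromorphicOrderAt f t₁ :=
        meromorphicOrderAt_inv
      rw [h1]
      obtain ⟨n, hn⟩ := WithTop.ne_top_iff_exists.mp (ne_top_of_lt ho)
      rw [← hn] at ho ⊢
      have h2 : n < 0 := by exact_mod_cast ho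
      have h3 : (0 : ℤ) ≤ -n := by omega
      exact_mod_cast h3
    have hfni : ∀ c : ℂ, ¬ ∀ᶠ s in 𝓝[≠] t₁, (f s)⁻¹ = c := by
      intro c hc
      apply hfn c⁻¹
      filter_upwards [hc] with s hs
      rw [← hs, inv_inv]
    have hnz : ∀ᶠ s in 𝓝[≠] t₁, f s ≠ 0 :=
      (meromorphicOrderAt_ne_top_iff_eventually_ne_zero hf).mp (ne_top_of_lt ho)
    obtain ⟨r, hr, hloc⟩ := loc_an (m := m) (k := k) hfi hoi hgi hfni
    obtain ⟨r', hr', hU⟩ := Metric.eventually_nhds_iff_ball.mp (eventually_nhdsWithin_iff.mp hnz)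
    refine ⟨min r r', lt_min hr hr', fun s₁ hs₁ hne₁ φ hSS => ?_⟩
    have hb : ∀ s ∈ ball t₁ (min r r'), s ∈ ball t₁ r := fun s hs =>
      ball_subset_ball (min_le_left r r') hs
    have hn0 : ∀ s ∈ ball t₁ (min r r'), s ≠ t₁ → f s ≠ 0 := fun s hs hst =>
      hU s (ball_subset_ball (min_le_right r r') hs) hst
    have hn0' : ∀ s ∈ ball t₁ (min r r'), s ≠ t₁ → ∀ᶠ u in 𝓝 s, f u ≠ 0 := by
      intro s hs hst
      have e1 : ∀ᶠ u in 𝓝 s, u ∈ ball t₁ (min r r') ∧ u ≠ t₁ :=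
        Filter.Eventually.and (isOpen_ball.mem_nhds hs) (isOpen_ne.mem_nhds hst)
      filter_upwards [e1] with u hu
      exact hn0 u hu.1 hu.2
    obtain ⟨φ', p1, p2, p3⟩ := hloc s₁ (hb s₁ hs₁) hne₁ _ (hSS.inv (hn0 s₁ hs₁ hne₁))
    refine ⟨fun j t => -((f t)⁻¹) ^ 2 * φ' j t, fun j hj => ?_, fun j hj => ?_,
      fun s₂ hs₂ hne₂ => ?_⟩
    · exact ((hfi.pow 2).neg).mul (p1 j hj)
    · filter_upwards [p2 j hj, hn0' s₁ hs₁ hne₁] with t x1 x2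
      rw [x1]
      field_simp
    · have q1 := (p3 s₂ (hb s₂ hs₂) hne₂).inv (inv_ne_zero (hn0 s₂ hs₂ hne₂))
      refine ss_congr q1 ?_ ?_
      · exact Filter.Eventually.of_forall fun t => inv_inv (f t)
      · filter_upwards [hn0' s₂ hs₂ hne₂] with t x2
        field_simp
        ring

end Pool.Agent.MP_ae5b4e_an_NB1B
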