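import Pool.Agent.Lib.MP_ae5b4e_an_NB1B.ElB
import Pool.Agent.Lib.MP_ae5b4e_an_NB1B.JoB
import Pool.Agent.Lib.MP_ae5b4e_an_NBT.Climb

/-!
# MP_ae5b4e_an, NB_1 section 3: the climbing step
-/

noncomputable section

namespace Pool.Agent.MP_ae5b4e_an_NB1B

open Complex Set Filter Topology Metric
open Pool.Agent.MP_ae5b4e_an_NBT

variable {k β : ℂ → ℂ} {F : ℂ × ℂ → ℂ} {c a R : ℝ} {m K : ℕ} {Φ : ℕ → ℂ × ℂ → ℂ}

private lemma sk_mer {f : ℂ × ℂ → ℂ} (z : ℂ) {p : ℂ × ℂ} (h : MerAt f (p.1 + z * p.2, p.2)) :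
    MerAt (fun q : ℂ × ℂ => f (q.1 + z * q.2, q.2)) p :=
  MerAt.shift (h := fun x => z * x) (differentiable_id.const_mul z) h

private lemma sk_eqM {f g : ℂ × ℂ → ℂ} (z : ℂ) {p : ℂ × ℂ}
    (h : EqM f g (p.1 + z * p.2, p.2)) :
    EqM (fun q : ℂ × ℂ => f (q.1 + z * q.2, q.2)) (fun q : ℂ × ℂ => g (q.1 + z * q.2, q.2)) p :=
  EqM.shift (h := fun x => z * x) (differentiable_id.const_mul z) h

private lemma sk_sum_mer (s : Finset ℕ) (f : ℕ → ℂ × ℂ → ℂ) {p : ℂ × ℂ}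
    (h : ∀ j ∈ s, MerAt (f j) p) : MerAt (fun q => ∑ j ∈ s, f j q) p := by
  classical
  induction s using Finset.induction_on with
  | empty =>
    have h1 : (fun q : ℂ × ℂ => ∑ j ∈ (∅ : Finset ℕ), f j q) = fun _ => 0 := by
      funext q
      exact Finset.sum_empty
    rw [h1]
    exact merAt_of_analyticAt analyticAt_const
  | insert i s hi ih =>
    have h1 : (fun q : ℂ × ℂ => ∑ j ∈ insert i s, f j q) =
        fun q => f i q + ∑ j ∈ s, f j q := by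
      funext q
      exact Finset.sum_insert hi
    rw [h1]
    exact (h i (Finset.mem_insert_self i s)).add
      (ih fun j hj => h j (Finset.mem_insert_of_mem hj))

private lemma sk_sum_eqM (s : Finset ℕ) (f g : ℕ → ℂ × ℂ → ℂ) {p : ℂ × ℂ}
    (h : ∀ j ∈ s, EqM (f j) (g j) p) :
    EqM (fun q => ∑ j ∈ s, f j q) (fun q => ∑ j ∈ s, g j q) p := by
  classical
  induction s using Finset.induction_on with
  | empty =>
    refine EqM.of_eventuallyEq (Eventually.of_forall fun q => ?_)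
    show ∑ j ∈ (∅ : Finset ℕ), f j q = ∑ j ∈ (∅ : Finset ℕ), g j q
    rw [Finset.sum_empty, Finset.sum_empty]
  | insert i s hi ih =>
    have h1 : ∀ F : ℕ → ℂ × ℂ → ℂ, (fun q : ℂ × ℂ => ∑ j ∈ insert i s, F j q) =
        fun q => F i q + ∑ j ∈ s, F j q := by
      intro F
      funext q
      exact Finset.sum_insert hi
    rw [h1 f, h1 g]
    exact EqM.map₂ (fun x y => x + y) (h i (Finset.mem_insert_self i s))
      (ih fun j hj => h j (Finset.mem_insert_of_mem hj))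

private lemma sk_merF (h : BP k F c m K Φ β a R) : Mer F (St (-c) c ×ˢ ball 0 (c / 4)) := by
  intro p hp
  have hc := h.pos
  exact merAt_of_analyticAt (h.an p ⟨hp.1, ball_subset_ball (by linarith) hp.2⟩)

private lemma sk_R (h : BP k F c m K Φ β a R) : R ≤ a / 8 ∧ m * R ≤ a / 4 := by
  have h1 := h.R_le
  have h2 := h.R_pos
  have h3 : (0:ℝ) ≤ m := Nat.cast_nonneg m
  constructor
  · nlinarith
  · nlinarith

private lemma sk_conv (u v δ : ℝ) (ρ : ℂ) : IsPreconnected (St u v ×ˢ ball ρ δ) :=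
  ((convex_St u v).prod (convex_ball ρ δ)).isPreconnected

/-- the shift by one -/
private lemma sk_one_mer {f : ℂ × ℂ → ℂ} {p : ℂ × ℂ} (h : MerAt f (p.1 + 1, p.2)) :
    MerAt (fun q : ℂ × ℂ => f (q.1 + 1, q.2)) p :=
  MerAt.shift (h := fun _ => (1:ℂ)) (differentiable_const (1:ℂ)) h

private lemma sk_one_eqM {f g : ℂ × ℂ → ℂ} {p : ℂ × ℂ} (h : EqM f g (p.1 + 1, p.2)) :
    EqM (fun q : ℂ × ℂ => f (q.1 + 1, q.2)) (fun q : ℂ × ℂ => g (q.1 + 1, q.2)) p :=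
  EqM.shift (h := fun _ => (1:ℂ)) (differentiable_const (1:ℂ)) h

private lemma sk_St_one {u v : ℝ} {t : ℂ} (h : t ∈ St u v) : t + 1 ∈ St u v := by
  refine ⟨?_, ?_⟩
  · show u < (t + 1).im
    rw [add_im, one_im, add_zero]
    exact h.1
  · show (t + 1).im < v
    rw [add_im, one_im, add_zero]
    exact h.2

/-- periodicity of a continuation -/
private lemma sk_per {G g : ℂ × ℂ → ℂ} {u v w δ : ℝ} {ρ₁ : ℂ} (hu : 0 < u)
    (hw : 0 < w) (hwv : w ≤ v) (hδ : 0 < δ) (hG : Mer G (St (-u) v ×ˢ ball ρ₁ δ))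
    (hGg : ∀ p ∈ St (-u) w ×ˢ ball ρ₁ δ, EqM G g p)
    (hg : ∀ᶠ q in 𝓝 ((0, ρ₁) : ℂ × ℂ), g (q.1 + 1, q.2) = g q) :
    ∀ p ∈ St (-u) v ×ˢ ball ρ₁ δ, EqM (fun q => G (q.1 + 1, q.2)) G p := by
  have h0 : (0:ℂ) ∈ St (-u) w := by
    refine ⟨?_, ?_⟩
    · show -u < (0:ℂ).im
      rw [zero_im]
      linarith
    · show (0:ℂ).im < w
      rw [zero_im]
      exact hw
  have h0v : (0:ℂ) ∈ St (-u) v := ⟨h0.1, h0.2.trans_le hwv⟩
  have hρ : ρ₁ ∈ ball ρ₁ δ := mem_ball_self hδ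
  refine Mer.eqM (sk_conv (-u) v δ ρ₁) ?_ hG (p := (0, ρ₁)) ⟨h0v, hρ⟩ ?_
  · intro p hp
    exact sk_one_mer (hG _ ⟨sk_St_one hp.1, hp.2⟩)
  · have h1 : EqM (fun q : ℂ × ℂ => G (q.1 + 1, q.2)) (fun q : ℂ × ℂ => g (q.1 + 1, q.2))
        (0, ρ₁) := sk_one_eqM (hGg _ ⟨sk_St_one h0, hρ⟩)
    exact h1.trans ((EqM.of_eventuallyEq hg).trans (hGg _ ⟨h0, hρ⟩).symm)

/-- the coefficients extend as far as `K` does -/
theorem phi_ext (h : BP k F c m K Φ β a R) {ρ₁ : ℂ} (hρ : ρ₁ ∈ ball (0:ℂ) R) (him : ρ₁.im ≠ 0)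
    {y : ℝ} (hy : c / 2 ≤ y) (hK : ExtM (KF F) (c / 2) (c / 4) y ρ₁) :
    ∃ δ > 0, ball ρ₁ δ ⊆ ball 0 R ∧ ∃ Ψ : ℕ → ℂ × ℂ → ℂ,
      (∀ j ≤ m, Mer (Ψ j) (St (-a) y ×ˢ ball ρ₁ δ)) ∧
      ∀ j ≤ m, ∀ p ∈ St (-a) a ×ˢ ball ρ₁ δ, EqM (Ψ j) (Φ j) p := by
  have hc := h.pos
  have ha := h.a_pos
  have hac := h.a_le
  obtain ⟨hR1, -⟩ := sk_R h
  have hF := sk_merF h
  have hFe : ExtM F c (c / 4) y ρ₁ :=
    extM_of_KF hc le_rfl hF him hK (by linarith [abs_pos.mpr him])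
  obtain ⟨δ₀, hδ₀, hb₀, Kh, hKh, hKe⟩ := hK
  obtain ⟨δ₁, hδ₁, hb₁, Fh, hFh, hFe⟩ := hFe
  obtain ⟨δ₂, hδ₂, hb₂⟩ := Metric.isOpen_iff.1 isOpen_ball ρ₁ hρ
  obtain ⟨δ, hδd⟩ : ∃ δ, δ = min δ₀ (min δ₁ δ₂) := ⟨_, rfl⟩
  have hδ : 0 < δ := by
    rw [hδd]
    exact lt_min hδ₀ (lt_min hδ₁ hδ₂)
  have e0 : δ ≤ δ₀ := by
    rw [hδd]
    exact min_le_left _ _
  have e1 : δ ≤ δ₁ := by
    rw [hδd]
    exact (min_le_right _ _).trans (min_le_left _ _)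
  have e2 : δ ≤ δ₂ := by
    rw [hδd]
    exact (min_le_right _ _).trans (min_le_right _ _)
  have hbR : ball ρ₁ δ ⊆ ball 0 R := (ball_subset_ball e2).trans hb₂
  have hρ4 : ρ₁ ∈ ball (0:ℂ) (c / 4) := ball_subset_ball (by linarith) hρ
  have hρim : |ρ₁.im| < c / 4 :=
    (abs_im_le_norm ρ₁).trans_lt (mem_ball_zero_iff.1 hρ4)
  refine ⟨δ, hδ, hbR, ?_⟩
  have hJ : JD m K Fh Kh Φ a y δ ρ₁ := by
    have hFm : Mer Fh (St (-a) y ×ˢ ball ρ₁ δ) := by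
      refine hFh.mono (prod_mono ?_ (ball_subset_ball e1))
      rintro t ⟨h1, h2⟩
      exact ⟨by linarith, h2⟩
    have hKm : Mer Kh (St (-a) y ×ˢ ball ρ₁ δ) := by
      refine hKh.mono (prod_mono ?_ (ball_subset_ball e0))
      rintro t ⟨h1, h2⟩
      exact ⟨by linarith, h2⟩
    have hFg : ∀ p ∈ St (-a) a ×ˢ ball ρ₁ δ, EqM Fh F p := by
      rintro p ⟨⟨h1, h2⟩, h3⟩
      refine hFe p ⟨⟨by linarith, lt_min (by linarith) (by linarith)⟩, ball_subset_ball e1 h3⟩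
    have hKg : ∀ p ∈ St (-a) a ×ˢ ball ρ₁ δ, EqM Kh (KF F) p := by
      rintro p ⟨⟨h1, h2⟩, h3⟩
      refine hKe p ⟨⟨by linarith, lt_min (by linarith) (by linarith)⟩, ball_subset_ball e0 h3⟩
    have hnear : ∀ᶠ q in 𝓝 ((0, ρ₁) : ℂ × ℂ),
        q ∈ St (-(c / 2)) (c / 2) ×ˢ ball (0:ℂ) (c / 4) := by
      have hopen : IsOpen (St (-(c / 2)) (c / 2) ×ˢ ball (0:ℂ) (c / 4)) :=
        (isOpen_St _ _).prod isOpen_ball
      refine hopen.mem_nhds ⟨⟨?_, ?_⟩, hρ4⟩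
      · show -(c / 2) < (0:ℂ).im
        rw [zero_im]
        linarith
      · show (0:ℂ).im < c / 2
        rw [zero_im]
        linarith
    have hFp : ∀ᶠ q in 𝓝 ((0, ρ₁) : ℂ × ℂ), F (q.1 + 1, q.2) = F q := by
      filter_upwards [hnear] with q hq
      exact h.per q ⟨⟨by have := hq.1.1; linarith, by have := hq.1.2; linarith⟩,
        ball_subset_ball (by linarith) hq.2⟩
    have hKp : ∀ᶠ q in 𝓝 ((0, ρ₁) : ℂ × ℂ), KF F (q.1 + 1, q.2) = KF F q := by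
      filter_upwards [hnear] with q hq
      have h1 := hq.1.1
      have h2 := hq.1.2
      have h3 := abs_lt.1 ((abs_im_le_norm q.2).trans_lt (mem_ball_zero_iff.1 hq.2))
      have hqc : q.2 ∈ ball (0:ℂ) c := ball_subset_ball (by linarith) hq.2
      have a0 : F (q.1 + 1, q.2) = F q := h.per q ⟨⟨by linarith, by linarith⟩, hqc⟩
      have a1 : F (q.1 + q.2 + 1, q.2) = F (q.1 + q.2, q.2) :=
        h.per (q.1 + q.2, q.2) ⟨⟨by show -c < (q.1 + q.2).im; rw [add_im]; linarith,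
          by show (q.1 + q.2).im < c; rw [add_im]; linarith⟩, hqc⟩
      have a2 : F (q.1 - q.2 + 1, q.2) = F (q.1 - q.2, q.2) :=
        h.per (q.1 - q.2, q.2) ⟨⟨by show -c < (q.1 - q.2).im; rw [sub_im]; linarith,
          by show (q.1 - q.2).im < c; rw [sub_im]; linarith⟩, hqc⟩
      unfold KF
      show (F (q.1 + 1 + q.2, q.2) - F (q.1 + 1, q.2))⁻¹ +
        (F (q.1 + 1 - q.2, q.2) - F (q.1 + 1, q.2))⁻¹ = _
      rw [add_right_comm q.1 1 q.2, add_sub_right_comm q.1 1 q.2, a0, a1, a2]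
    refine ⟨ha, by linarith, hδ, hFm, hKm, ?_, ?_, ?_, ?_⟩
    · exact sk_per ha ha (by linarith) hδ hFm hFg hFp
    · exact sk_per ha ha (by linarith) hδ hKm hKg hKp
    · intro j hj p hp
      have hopen : IsOpen (St (-a) a ×ˢ ball (0:ℂ) R) := (isOpen_St _ _).prod isOpen_ball
      refine EqM.of_eventuallyEq ?_
      filter_upwards [hopen.mem_nhds ⟨hp.1, hbR hp.2⟩] with q hq
      exact h.Φ_per j hj q hq
    · intro p hp
      obtain ⟨C, κ, b, hC, hFC, hd, hKC, hΦ, hst⟩ := h.sj p ⟨hp.1, hbR hp.2⟩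
      exact ⟨C, κ, b, hC, (hFg p hp).trans hFC, hd, (hKg p hp).trans hKC, hΦ, hst⟩
  exact joint_ext hJ

/-- **the climbing step** -/
theorem step_K (h : BP k F c m K Φ β a R) {ρ₁ : ℂ} (hρ : ρ₁ ∈ ball (0:ℂ) R) (him : ρ₁.im < 0)
    {y : ℝ} (hy : c / 2 ≤ y) (hK : ExtM (KF F) (c / 2) (c / 4) y ρ₁) :
    ExtM (KF F) (c / 2) (c / 4) (y - ρ₁.im / 4) ρ₁ := by
  have hc := h.pos
  have ha := h.a_pos
  have hac := h.a_le
  have hm2 := h.m_ge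
  obtain ⟨hR1, hR2⟩ := sk_R h
  have hF := sk_merF h
  obtain ⟨η, hη⟩ : ∃ η, η = -ρ₁.im := ⟨_, rfl⟩
  have hη0 : 0 < η := by rw [hη]; linarith
  have habs : |ρ₁.im| = η := by rw [abs_of_neg him, hη]
  have hFe : ExtM F c (c / 4) (y + η / 2) ρ₁ :=
    extM_of_KF hc le_rfl hF him.ne hK (by rw [habs]; linarith)
  obtain ⟨δ₂, hδ₂, hb₂, Ψ, hΨm, hΨe⟩ := phi_ext h hρ him.ne hy hK
  obtain ⟨δ₀, hδ₀, hb₀, Kh, hKh, hKe⟩ := hK
  obtain ⟨δ₁, hδ₁, hb₁, Fh, hFh, hFe⟩ := hFe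
  obtain ⟨δ, hδd⟩ : ∃ δ, δ = min (min δ₀ δ₁) (min δ₂ (η / 16)) := ⟨_, rfl⟩
  have hδ : 0 < δ := by
    rw [hδd]
    exact lt_min (lt_min hδ₀ hδ₁) (lt_min hδ₂ (by positivity))
  have e0 : δ ≤ δ₀ := by
    rw [hδd]
    exact (min_le_left _ _).trans (min_le_left _ _)
  have e1 : δ ≤ δ₁ := by
    rw [hδd]
    exact (min_le_left _ _).trans (min_le_right _ _)
  have e2 : δ ≤ δ₂ := by
    rw [hδd]
    exact (min_le_right _ _).trans (min_le_left _ _)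
  have e3 : δ ≤ η / 16 := by
    rw [hδd]
    exact (min_le_right _ _).trans (min_le_right _ _)
  have hbR : ball ρ₁ δ ⊆ ball 0 R := (ball_subset_ball e2).trans hb₂
  have hb4 : ball ρ₁ δ ⊆ ball 0 (c / 4) := (ball_subset_ball e0).trans hb₀
  have hyy : y - ρ₁.im / 4 = y + η / 4 := by rw [hη]; ring
  rw [hyy]
  -- the imaginary parts of the parameters
  have hIm : ∀ ρ ∈ ball ρ₁ δ, -(η + η / 16) < ρ.im ∧ ρ.im < -(η - η / 16) ∧ -R < ρ.im := by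
    intro ρ hρ'
    have h1 : |(ρ - ρ₁).im| < η / 16 :=
      (abs_im_le_norm _).trans_lt ((mem_ball_iff_norm.1 hρ').trans_le e3)
    rw [sub_im] at h1
    have h2 := abs_lt.1 h1
    have h3 := abs_lt.1 ((abs_im_le_norm ρ).trans_lt (mem_ball_zero_iff.1 (hbR hρ')))
    refine ⟨by linarith [h2.1], by linarith [h2.2], h3.1⟩
  have hshift : ∀ (i : ℕ) (p : ℂ × ℂ), (p.1 + (i:ℂ) * p.2).im = p.1.im + i * p.2.im := by
    intro i p
    simp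
  -- lower bound of the shifted points
  have hlow : ∀ (i : ℕ), i ≤ m → ∀ p : ℂ × ℂ, p.2 ∈ ball ρ₁ δ → -(a / 4) < p.1.im →
      -(a / 2) < (p.1 + (i:ℂ) * p.2).im := by
    intro i hi p hp hp1
    rw [hshift]
    obtain ⟨-, -, h3⟩ := hIm _ hp
    have h4 : (i:ℝ) ≤ m := by exact_mod_cast hi
    have h5 : (0:ℝ) ≤ i := Nat.cast_nonneg i
    have h6 := h.R_pos
    have h7 : -((i:ℝ) * R) ≤ i * p.2.im := by nlinarith
    have h8 : (i:ℝ) * R ≤ m * R := mul_le_mul_of_nonneg_right h4 h6.le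
    linarith
  have hup : ∀ (i : ℕ) (p : ℂ × ℂ), p.2 ∈ ball ρ₁ δ → (p.1 + (i:ℂ) * p.2).im ≤ p.1.im := by
    intro i p hp
    rw [hshift]
    obtain ⟨-, h2, -⟩ := hIm _ hp
    have h5 : (0:ℝ) ≤ i := Nat.cast_nonneg i
    nlinarith
  have hup1 : ∀ (i : ℕ), 1 ≤ i → ∀ p : ℂ × ℂ, p.2 ∈ ball ρ₁ δ →
      (p.1 + (i:ℂ) * p.2).im ≤ p.1.im - (η - η / 16) := by
    intro i hi p hp
    rw [hshift]
    obtain ⟨-, h2, -⟩ := hIm _ hp
    have h5 : (1:ℝ) ≤ i := by exact_mod_cast hi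
    nlinarith
  obtain ⟨X, hX⟩ : ∃ X : ℕ → ℂ × ℂ → ℂ, X = fun (i : ℕ) (q : ℂ × ℂ) =>
    Fh (q.1 + (i:ℂ) * q.2, q.2) := ⟨_, rfl⟩
  obtain ⟨P, hP⟩ : ∃ P : ℕ → ℂ × ℂ → ℂ, P = fun (i : ℕ) (q : ℂ × ℂ) =>
    ∑ j ∈ Finset.range (i + 2), Ψ j (q.1 + (i:ℂ) * q.2, q.2) := ⟨_, rfl⟩
  have hXm : ∀ p ∈ St (-(a / 4)) (y + η / 4) ×ˢ ball ρ₁ δ, ∀ i < m, MerAt (X i) p := by
    rintro p ⟨⟨h1, h2⟩, h3⟩ i hi
    rw [hX]
    refine sk_mer (i:ℂ) (hFh _ ⟨⟨?_, ?_⟩, ball_subset_ball e1 h3⟩)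
    · have := hlow i hi.le p h3 h1
      show -c < (p.1 + (i:ℂ) * p.2).im
      linarith
    · have := hup i p h3
      show (p.1 + (i:ℂ) * p.2).im < y + η / 2
      linarith
  have hPm : ∀ p ∈ St (-(a / 4)) (y + η / 4) ×ˢ ball ρ₁ δ, ∀ i ∈ Finset.Ico 1 (m - 1),
      MerAt (P i) p := by
    rintro p ⟨⟨h1, h2⟩, h3⟩ i hi
    have hi' := Finset.mem_Ico.1 hi
    rw [hP]
    refine sk_sum_mer _ (fun j q => Ψ j (q.1 + (i:ℂ) * q.2, q.2)) fun j hj => ?_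
    have hj' := Finset.mem_range.1 hj
    refine sk_mer (i:ℂ) (hΨm j (by omega) _ ⟨⟨?_, ?_⟩, ball_subset_ball e2 h3⟩)
    · have := hlow i (by omega) p h3 h1
      show -a < (p.1 + (i:ℂ) * p.2).im
      linarith
    · have := hup1 i hi'.1 p h3
      show (p.1 + (i:ℂ) * p.2).im < y
      linarith
  have hEm : ∀ p ∈ St (-(a / 4)) (y + η / 4) ×ˢ ball ρ₁ δ, MerAt (KE m β X P) p := fun p hp =>
    mer_KE hm2 (h.β_an _ (hbR hp.2)) (hXm p hp) (hPm p hp)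
  -- on the base
  have hbase : ∀ p ∈ St (-(a / 4)) (a / 4) ×ˢ ball ρ₁ δ, EqM (KE m β X P) (KF F) p := by
    rintro p ⟨⟨h1, h2⟩, h3⟩
    have hpD : p ∈ St (-(a / 4)) (y + η / 4) ×ˢ ball ρ₁ δ := ⟨⟨h1, by linarith⟩, h3⟩
    have hX' : ∀ i < m, EqM (X i) (XB F i) p := by
      intro i hi
      rw [hX]
      refine sk_eqM (i:ℂ) (hFe _ ⟨⟨?_, ?_⟩, ball_subset_ball e1 h3⟩)
      · have := hlow i hi.le p h3 h1
        show -c < (p.1 + (i:ℂ) * p.2).im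
        linarith
      · have := hup i p h3
        show (p.1 + (i:ℂ) * p.2).im < min c (y + η / 2)
        exact lt_min (by linarith) (by linarith)
    have hP' : ∀ i ∈ Finset.Ico 1 (m - 1), EqM (P i) (PB Φ i) p := by
      intro i hi
      have hi' := Finset.mem_Ico.1 hi
      rw [hP]
      refine sk_sum_eqM _ (fun j q => Ψ j (q.1 + (i:ℂ) * q.2, q.2))
        (fun j q => Φ j (q.1 + (i:ℂ) * q.2, q.2)) fun j hj => ?_
      have hj' := Finset.mem_range.1 hj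
      refine sk_eqM (i:ℂ) (hΨe j (by omega) _ ⟨⟨?_, ?_⟩, ball_subset_ball e2 h3⟩)
      · have := hlow i (by omega) p h3 h1
        show -a < (p.1 + (i:ℂ) * p.2).im
        linarith
      · have := hup i p h3
        show (p.1 + (i:ℂ) * p.2).im < a
        linarith
    exact (eqM_KE hm2 (h.β_an _ (hbR h3)) (hXm p hpD) (hPm p hpD) hX' hP').trans
      (ke_base h p ⟨⟨h1, h2⟩, hbR h3⟩).2
  have hKFm : Mer (KF F) (St (-(c / 2)) (c / 2) ×ˢ ball 0 (c / 4)) :=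
    mer_KF (by linarith) hF
  have hS1 : ∀ p ∈ St (-(a / 4)) (c / 2) ×ˢ ball ρ₁ δ, EqM (KE m β X P) (KF F) p := by
    have h0 : (0:ℂ) ∈ St (-(a / 4)) (a / 4) := by
      refine ⟨?_, ?_⟩
      · show -(a / 4) < (0:ℂ).im
        rw [zero_im]
        linarith
      · show (0:ℂ).im < a / 4
        rw [zero_im]
        linarith
    refine Mer.eqM (sk_conv _ _ _ _) ?_ ?_ (p := (0, ρ₁))
      ⟨⟨h0.1, h0.2.trans (by linarith)⟩, mem_ball_self hδ⟩ (hbase _ ⟨h0, mem_ball_self hδ⟩)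
    · rintro p ⟨⟨h1, h2⟩, h3⟩
      exact hEm p ⟨⟨h1, by linarith⟩, h3⟩
    · rintro p ⟨⟨h1, h2⟩, h3⟩
      exact hKFm p ⟨⟨by linarith, h2⟩, hb4 h3⟩
  -- the two pieces
  classical
  obtain ⟨G, hG⟩ : ∃ G : ℂ × ℂ → ℂ, G = fun q => if q.1.im < a / 8 then KF F q
    else KE m β X P q := ⟨_, rfl⟩
  have hGl : ∀ p : ℂ × ℂ, p.1.im < a / 8 → EqM G (KF F) p := by
    intro p hp
    have hcont : ContinuousAt (fun q : ℂ × ℂ => q.1.im) p :=
      (continuous_im.comp continuous_fst).continuousAt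
    refine EqM.of_eventuallyEq ?_
    filter_upwards [hcont.eventually (Iio_mem_nhds hp)] with q hq
    rw [hG]
    exact if_pos hq
  have hGu : ∀ p ∈ St (-(c / 2)) (y + η / 4) ×ˢ ball ρ₁ δ, a / 8 ≤ p.1.im →
      EqM G (KE m β X P) p := by
    rintro p ⟨⟨h1, h2⟩, h3⟩ hp
    by_cases hp2 : p.1.im < c / 2
    · obtain ⟨B, hB, hBe⟩ := (hS1 p ⟨⟨by linarith, hp2⟩, h3⟩)
      refine ⟨B, hB, ?_⟩
      filter_upwards [hBe] with q hq hq0
      rw [hG]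
      show (if q.1.im < a / 8 then KF F q else KE m β X P q) = KE m β X P q
      split_ifs with h4
      · exact (hq hq0).symm
      · rfl
    · have hcont : ContinuousAt (fun q : ℂ × ℂ => q.1.im) p :=
        (continuous_im.comp continuous_fst).continuousAt
      have h5 : a / 8 < p.1.im := by
        have := not_lt.1 hp2
        linarith
      refine EqM.of_eventuallyEq ?_
      filter_upwards [hcont.eventually (Ioi_mem_nhds h5)] with q hq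
      rw [hG]
      exact if_neg (not_lt.2 (le_of_lt hq))
  refine ⟨δ, hδ, hb4, G, ?_, ?_⟩
  · rintro p ⟨⟨h1, h2⟩, h3⟩
    by_cases hp : p.1.im < a / 8
    · exact (hKFm p ⟨⟨h1, by linarith⟩, hb4 h3⟩).congr (hGl p hp).symm
    · have hp' := not_lt.1 hp
      exact (hEm p ⟨⟨by linarith, h2⟩, h3⟩).congr (hGu p ⟨⟨h1, h2⟩, h3⟩ hp').symm
  · rintro p ⟨⟨h1, h2⟩, h3⟩
    have h2' := lt_min_iff.1 h2
    by_cases hp : p.1.im < a / 8
    · exact hGl p hp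
    · have hp' := not_lt.1 hp
      exact (hGu p ⟨⟨h1, h2'.2⟩, h3⟩ hp').trans (hS1 p ⟨⟨by linarith, h2'.1⟩, h3⟩)

end Pool.Agent.MP_ae5b4e_an_NB1B
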